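import Pool.Agent.T2H36.IX.F6
import Mathlib.NumberTheory.PrimeCounting

set_option autoImplicit false
set_option linter.unusedSectionVars false
set_option linter.style.haveILetI false

/-!
Project IX, part F7: the theorems on the adelic Mumford-Tate statement at 100 percent of the primes.
-/

open MvPolynomial Matrix Filter Topology NumberField IsDedekindDomain
open Pool.Agent.Y142.ZO Pool.Agent.Y142.ZI
open Pool.Agent.Y95.MT
open Pool.Agent.W544.PG (HS BD bl)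

namespace Pool.Agent.T2H36.IX

open Pool.Agent.R932 Pool.Agent.R932.OP

theorem densityZero_finite {A : Set ℕ} (hA : A.Finite) : Y142.ZI.DensityZero A := by
  unfold Y142.ZI.DensityZero
  have h1 : Tendsto (fun n : ℕ => (A.ncard : ℝ) / (Nat.primeCounting n : ℝ)) atTop (𝓝 0) := by
    refine Tendsto.div_atTop tendsto_const_nhds ?_
    exact tendsto_natCast_atTop_atTop.comp Nat.tendsto_primeCounting
  refine squeeze_zero (fun n => by positivity) (fun n => ?_) h1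
  refine div_le_div_of_nonneg_right ?_ (Nat.cast_nonneg _)
  have h2 : Nat.card {ℓ : ℕ // ℓ ≤ n ∧ ℓ ∈ A} ≤ A.ncard := by
    have h3 : Nat.card {ℓ : ℕ // ℓ ≤ n ∧ ℓ ∈ A} = ({ℓ : ℕ | ℓ ≤ n ∧ ℓ ∈ A}).ncard := rfl
    rw [h3]
    exact Set.ncard_le_ncard (fun x hx => hx.2) hA
  exact_mod_cast h2

section final

variable {K : Type} [Field K] [NumberField K] {n : ℕ} {S : Set (HeightOneSpectrum (𝓞 K))}
  {P : HeightOneSpectrum (𝓞 K) → Polynomial ℚ} {Γ : Type} [Group Γ] [TopologicalSpace Γ]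
  [IsTopologicalGroup Γ] [CompactSpace Γ] {s : GK K →* Γ} {T : HS n} {κ : Type} [Fintype κ]
  [DecidableEq κ]

/-- the integral form and its properties -/
theorem int_form (hs : Continuous s)
    (β : ∀ (ℓ : ℕ) [Fact ℓ.Prime], Γ →* Matrix (Fin n) (Fin n) ℤ_[ℓ])
    (hβ : ∀ (ℓ : ℕ) [Fact ℓ.Prime], RepT s T S P ℓ (β ℓ)) :
    ∃ (D : ℕ) (Z : Matrix (Fin n) (Fin n) ℤ), D ≠ 0 ∧ Z.map (Int.cast : ℤ → ℚ) = (D : ℚ) • T.Q ∧
      (∀ (ℓ : ℕ) [Fact ℓ.Prime], IntegralSys K n ℓ s (β ℓ) (Z.map (Int.cast : ℤ → ℤ_[ℓ])) S P) ∧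
      (∃ b : ℕ, ∀ (ℓ : ℕ) [Fact ℓ.Prime], b < ℓ → IsUnit (Z.map (Int.cast : ℤ → ℤ_[ℓ])).det) ∧
      ∀ (ℓ : ℕ) [Fact ℓ.Prime], genM ℓ (Z.map (Int.cast : ℤ → ℤ_[ℓ])) =
        (D : ℚ_[ℓ]) • T.Q.map (algebraMap ℚ ℚ_[ℓ]) := by
  obtain ⟨D, Z, hD, hZ⟩ := exists_int T.Q
  have hZs : Zᵀ = Z := by
    have h1 : (Z.map (Int.cast : ℤ → ℚ))ᵀ = Z.map (Int.cast : ℤ → ℚ) := by
      rw [hZ, transpose_smul, T.symm]
    ext a b
    have h2 := congrFun (congrFun h1 a) b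
    rw [Matrix.transpose_apply, Matrix.map_apply, Matrix.map_apply] at h2
    rw [Matrix.transpose_apply]
    exact_mod_cast h2
  have hgen : ∀ (ℓ : ℕ) [Fact ℓ.Prime], genM ℓ (Z.map (Int.cast : ℤ → ℤ_[ℓ])) =
        (D : ℚ_[ℓ]) • T.Q.map (algebraMap ℚ ℚ_[ℓ]) := by
    intro ℓ _
    unfold genM
    ext a b
    have h2 := congrFun (congrFun hZ a) b
    rw [Matrix.map_apply, Matrix.smul_apply, smul_eq_mul] at h2
    rw [Matrix.map_apply, Matrix.map_apply, Matrix.smul_apply, Matrix.map_apply, smul_eq_mul,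
      map_intCast]
    have h3 := congrArg (algebraMap ℚ ℚ_[ℓ]) h2
    rw [map_mul, map_intCast, map_natCast] at h3
    exact h3
  have hZdet : Z.det ≠ 0 := by
    have h1 : (Z.map (Int.cast : ℤ → ℚ)).det ≠ 0 := by
      rw [hZ, Matrix.det_smul]
      exact mul_ne_zero (pow_ne_zero _ (by exact_mod_cast hD)) (Pool.Agent.W74.PG.det_ne T)
    have h2 : (Z.map (Int.cast : ℤ → ℚ)).det = ((Z.det : ℤ) : ℚ) := by
      have := (Int.castRingHom ℚ).map_det Z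
      rw [RingHom.mapMatrix_apply] at this
      exact this.symm
    rw [h2] at h1
    exact_mod_cast h1
  have hdet : ∀ (ℓ : ℕ) [Fact ℓ.Prime],
      (Z.map (Int.cast : ℤ → ℤ_[ℓ])).det = ((Z.det : ℤ) : ℤ_[ℓ]) := by
    intro ℓ _
    have := (Int.castRingHom ℤ_[ℓ]).map_det Z
    rw [RingHom.mapMatrix_apply] at this
    exact this.symm
  refine ⟨D, Z, hD, hZ, ?_, ⟨Z.det.natAbs, ?_⟩, hgen⟩
  · intro ℓ _
    refine ⟨(hβ ℓ).cont.comp hs, ?_, ?_, ?_, ?_⟩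
    · rw [← Matrix.transpose_map, hZs]
    · rw [hdet]
      exact_mod_cast hZdet
    · intro g
      have hinj : Function.Injective (algebraMap ℤ_[ℓ] ℚ_[ℓ]) := Subtype.val_injective
      apply Matrix.map_injective hinj
      show genM ℓ ((β ℓ g)ᵀ * Z.map (Int.cast : ℤ → ℤ_[ℓ]) * β ℓ g) =
        genM ℓ (Z.map (Int.cast : ℤ → ℤ_[ℓ]))
      have h2 : genM ℓ ((β ℓ g)ᵀ * Z.map (Int.cast : ℤ → ℤ_[ℓ]) * β ℓ g) =
          (qm (β ℓ g))ᵀ * genM ℓ (Z.map (Int.cast : ℤ → ℤ_[ℓ])) * qm (β ℓ g) := by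
        unfold genM
        rw [Matrix.map_mul, Matrix.map_mul, Matrix.transpose_map]
        rfl
      rw [h2, hgen, mul_smul_comm, smul_mul_assoc, (hβ ℓ).form]
    · intro v hv hvℓ σ hσ
      rw [← (hβ ℓ).frob v hv hvℓ σ hσ, ← Matrix.charpoly_map]
      rfl
  · intro ℓ hp hℓ
    rw [hdet]
    rw [PadicInt.isUnit_iff, PadicInt.norm_def, PadicInt.coe_intCast]
    refine le_antisymm (Padic.norm_int_le_one _) ?_
    by_contra hcon
    rw [not_le, Padic.norm_intCast_lt_one_iff] at hcon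
    have h1 : ℓ ∣ Z.det.natAbs := Int.natCast_dvd.1 hcon
    exact absurd (Nat.le_of_dvd (Int.natAbs_pos.2 hZdet) h1) (by omega)

end final

end Pool.Agent.T2H36.IX
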