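import Pool.Agent.T2H36.IX.Defs3

set_option autoImplicit false

/-!
Package IR: no proper subspace is stable under the isometries of order `ℓ`.
-/

open Matrix Polynomial

namespace Pool.Agent.T2H36.IX

namespace IRaux

variable {F : Type*} [Field F] {n : ℕ} (B : Matrix (Fin n) (Fin n) F)

/-- the bilinear form -/
def bb (x y : Fin n → F) : F := x ⬝ᵥ B *ᵥ y

lemma bb_add_left (x x' y : Fin n → F) : bb B (x + x') y = bb B x y + bb B x' y := by
  simp [bb, add_dotProduct]

lemma bb_add_right (x y y' : Fin n → F) : bb B x (y + y') = bb B x y + bb B x y' := by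
  simp [bb, mulVec_add, dotProduct_add]

lemma bb_smul_left (c : F) (x y : Fin n → F) : bb B (c • x) y = c * bb B x y := by
  simp [bb, smul_dotProduct]

lemma bb_smul_right (c : F) (x y : Fin n → F) : bb B x (c • y) = c * bb B x y := by
  simp [bb, mulVec_smul, dotProduct_smul]

lemma bb_sub_left (x x' y : Fin n → F) : bb B (x - x') y = bb B x y - bb B x' y := by
  simp [bb, sub_dotProduct]

lemma bb_sub_right (x y y' : Fin n → F) : bb B x (y - y') = bb B x y - bb B x y' := by
  simp [bb, mulVec_sub, dotProduct_sub]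

variable {B}

lemma bb_comm (hB : Bᵀ = B) (x y : Fin n → F) : bb B x y = bb B y x := by
  simp only [bb]
  rw [Matrix.dotProduct_mulVec, dotProduct_comm, ← Matrix.mulVec_transpose, hB]

lemma bb_nondeg (hB : Bᵀ = B) (hdet : B.det ≠ 0) (x : Fin n → F) (hx : ∀ y, bb B x y = 0) :
    x = 0 := by
  have h1 : B *ᵥ x = 0 := by
    funext i
    have := hx (Pi.single i 1)
    rw [bb_comm hB] at this
    simpa [bb] using this
  have h2 : IsUnit B.det := isUnit_iff_ne_zero.2 hdet
  have := congrArg (fun y => B⁻¹ *ᵥ y) h1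
  simpa [Matrix.mulVec_mulVec, Matrix.nonsing_inv_mul B h2] using this

lemma ext_bb {M N : Matrix (Fin n) (Fin n) F}
    (h : ∀ x y : Fin n → F, x ⬝ᵥ M *ᵥ y = x ⬝ᵥ N *ᵥ y) : M = N := by
  ext i j
  have := h (Pi.single i 1) (Pi.single j 1)
  simpa using this

variable (B)

/-- the nilpotent part of the Eichler transformation -/
def NN (u v : Fin n → F) : Matrix (Fin n) (Fin n) F :=
  vecMulVec u (B *ᵥ v) - vecMulVec v (B *ᵥ u) -
    (bb B v v / 2) • vecMulVec u (B *ᵥ u)

lemma NN_apply (u v x : Fin n → F) :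
    NN B u v *ᵥ x = bb B x v • u - bb B x u • v - (bb B v v / 2 * bb B x u) • u := by
  have h : ∀ a w : Fin n → F, vecMulVec a (B *ᵥ w) *ᵥ x = bb B x w • a := by
    intro a w
    rw [Matrix.vecMulVec_mulVec]
    simp only [bb]
    rw [dotProduct_comm]
    simp
  rw [NN, Matrix.sub_mulVec, Matrix.sub_mulVec, Matrix.smul_mulVec, h, h, h, smul_smul]

variable {B}

lemma NN_iso (h2 : (2 : F) ≠ 0) (hB : Bᵀ = B) (u v : Fin n → F) (huu : bb B u u = 0)
    (huv : bb B u v = 0) : (1 + NN B u v)ᵀ * B * (1 + NN B u v) = B := by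
  apply ext_bb
  intro x y
  have h1 : x ⬝ᵥ ((1 + NN B u v)ᵀ * B * (1 + NN B u v)) *ᵥ y =
      bb B ((1 + NN B u v) *ᵥ x) ((1 + NN B u v) *ᵥ y) := by
    simp only [bb]
    rw [← Matrix.mulVec_mulVec, ← Matrix.mulVec_mulVec, Matrix.dotProduct_mulVec,
      Matrix.vecMul_transpose]
  rw [h1]
  change _ = bb B x y
  have hvu : bb B v u = 0 := by rw [bb_comm hB]; exact huv
  simp only [Matrix.add_mulVec, Matrix.one_mulVec, NN_apply, bb_add_left, bb_add_right,
    bb_sub_left, bb_sub_right, bb_smul_left, bb_smul_right, huu, huv, hvu]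
  rw [bb_comm hB u y, bb_comm hB v y]
  field_simp
  ring

lemma NN_cube (hB : Bᵀ = B) (u v : Fin n → F) (huu : bb B u u = 0)
    (huv : bb B u v = 0) : NN B u v ^ 3 = 0 := by
  apply ext_bb
  intro x y
  have hvu : bb B v u = 0 := by rw [bb_comm hB]; exact huv
  have h1 : (NN B u v ^ 3) *ᵥ y = 0 := by
    rw [pow_succ, pow_two, ← Matrix.mulVec_mulVec, ← Matrix.mulVec_mulVec, NN_apply B u v y]
    have hu : NN B u v *ᵥ u = 0 := by
      rw [NN_apply, huu, huv]; simp
    have hv : NN B u v *ᵥ v = bb B v v • u := by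
      rw [NN_apply, hvu]; simp
    simp only [Matrix.mulVec_sub, Matrix.mulVec_smul, hu, hv, smul_zero, sub_zero, zero_sub,
      Matrix.mulVec_neg, neg_zero]
  rw [h1]
  simp

end IRaux

open IRaux

section main
variable {ℓ : ℕ} [hℓ : Fact ℓ.Prime] (hℓ2 : ℓ ≠ 2) {n : ℕ}
  {B : Matrix (Fin n) (Fin n) (ZMod ℓ)} (hB : Bᵀ = B) (hdet : B.det ≠ 0)
include hℓ2 hB

omit hB in
lemma two_ne : (2 : ZMod ℓ) ≠ 0 := by
  intro h
  have h1 : ((2 : ℕ) : ZMod ℓ) = 0 := by exact_mod_cast h
  rw [ZMod.natCast_eq_zero_iff] at h1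
  exact hℓ2 ((Nat.prime_dvd_prime_iff_eq hℓ.out Nat.prime_two).1 h1)

lemma NN_pow (u v : Fin n → ZMod ℓ) (huu : bb B u u = 0) (huv : bb B u v = 0) :
    (1 + NN B u v) ^ ℓ = 1 := by
  by_cases hn : n = 0
  · subst hn
    exact Subsingleton.elim _ _
  have : Nonempty (Fin n) := ⟨⟨0, Nat.pos_of_ne_zero hn⟩⟩
  rw [add_pow_char_of_commute ℓ (Commute.one_left _), one_pow]
  have h3 : 3 ≤ ℓ := by
    have := hℓ.out.two_le
    omega
  have h4 : NN B u v ^ ℓ = NN B u v ^ 3 * NN B u v ^ (ℓ - 3) := by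
    rw [← pow_add]; congr 1; omega
  rw [h4, NN_cube hB u v huu huv, zero_mul, add_zero]

lemma ir_key {W : Submodule (ZMod ℓ) (Fin n → ZMod ℓ)}
    (hW : ∀ g : Matrix (Fin n) (Fin n) (ZMod ℓ), gᵀ * B * g = B → g ^ ℓ = 1 →
      ∀ w ∈ W, g *ᵥ w ∈ W)
    (u v : Fin n → ZMod ℓ) (huu : bb B u u = 0) (huv : bb B u v = 0) (hvv : bb B v v ≠ 0)
    (w : Fin n → ZMod ℓ) (hw : w ∈ W) (hwu : bb B w u ≠ 0) : u ∈ W := by
  have h2 := two_ne hℓ2
  have huv' : bb B u (-v) = 0 := by
    have : (-v) = (-1 : ZMod ℓ) • v := by simp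
    rw [this, bb_smul_right, huv, mul_zero]
  have e1 := hW _ (NN_iso h2 hB u v huu huv) (NN_pow hℓ2 hB u v huu huv) w hw
  have e2 := hW _ (NN_iso h2 hB u (-v) huu huv') (NN_pow hℓ2 hB u (-v) huu huv') w hw
  have h3 : (1 + NN B u v) *ᵥ w + (1 + NN B u (-v)) *ᵥ w - w - w =
      (-(bb B v v * bb B w u)) • u := by
    have hn : ∀ x, bb B x (-v) = - bb B x v := by
      intro x
      have : (-v) = (-1 : ZMod ℓ) • v := by simp
      rw [this, bb_smul_right]; ring
    have hn2 : bb B (-v) (-v) = bb B v v := by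
      have : (-v) = (-1 : ZMod ℓ) • v := by simp
      rw [this, bb_smul_right, bb_smul_left]; ring
    simp only [Matrix.add_mulVec, Matrix.one_mulVec, NN_apply, hn2]
    simp only [hn]
    have h5 : bb B v v / 2 * bb B w u + bb B v v / 2 * bb B w u = bb B v v * bb B w u := by
      field_simp
      ring
    rw [← h5]
    module
  have h4 : (-(bb B v v * bb B w u)) • u ∈ W := by
    rw [← h3]
    exact W.sub_mem (W.sub_mem (W.add_mem e1 e2) hw) hw
  have h5 : -(bb B v v * bb B w u) ≠ 0 := neg_ne_zero.2 (mul_ne_zero hvv hwu)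
  exact (W.smul_mem_iff h5).1 h4

/-- the property used for `W` and its orthogonal complement -/
lemma ir_top (u : Fin n → ZMod ℓ) (hu0 : u ≠ 0) (huu : bb B u u = 0)
    {W : Submodule (ZMod ℓ) (Fin n → ZMod ℓ)} (hdet : B.det ≠ 0)
    (hW : ∀ u, bb B u u = 0 → ∀ w ∈ W, bb B w u ≠ 0 → u ∈ W) (huW : u ∈ W) : W = ⊤ := by
  have h2 := two_ne hℓ2
  obtain ⟨u', hu'u', huu'⟩ : ∃ u', bb B u' u' = 0 ∧ bb B u u' = 1 := by
    obtain ⟨y, hy⟩ : ∃ y, bb B u y ≠ 0 := by
      by_contra hcon
      push Not at hcon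
      exact hu0 (bb_nondeg hB hdet u hcon)
    set y1 := (bb B u y)⁻¹ • y with hy1
    have h3 : bb B u y1 = 1 := by rw [hy1, bb_smul_right, inv_mul_cancel₀ hy]
    have h3' : bb B y1 u = 1 := by rw [bb_comm hB, h3]
    refine ⟨y1 - (bb B y1 y1 / 2) • u, ?_, ?_⟩
    · simp only [bb_sub_left, bb_sub_right, bb_smul_left, bb_smul_right, huu, h3, h3']
      field_simp
      ring
    · simp only [bb_sub_right, bb_smul_right, huu, h3]
      ring
  have hu'u : bb B u' u = 1 := by rw [bb_comm hB, huu']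
  have hu'W : u' ∈ W := hW u' hu'u' u huW (by rw [huu']; exact one_ne_zero)
  rw [eq_top_iff]
  intro x _
  set z := x - bb B x u' • u - bb B x u • u' with hz
  have hzu : bb B z u = 0 := by
    rw [hz]
    simp only [bb_sub_left, bb_smul_left, huu, hu'u]
    ring
  have hzu' : bb B z u' = 0 := by
    rw [hz]
    simp only [bb_sub_left, bb_smul_left, huu', hu'u']
    ring
  have huz : bb B u z = 0 := by rw [bb_comm hB]; exact hzu
  have hu'z : bb B u' z = 0 := by rw [bb_comm hB]; exact hzu'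
  have h4 : u + z - (bb B z z / 2) • u' ∈ W := by
    apply hW _ _ u' hu'W
    · simp only [bb_sub_right, bb_add_right, bb_smul_right, hu'u, hu'z, hu'u']
      simp
    · simp only [bb_sub_left, bb_sub_right, bb_add_left, bb_add_right, bb_smul_left,
        bb_smul_right, huu, huz, huu', hzu, hzu', hu'u, hu'z, hu'u']
      field_simp
      ring
  have h5 : z ∈ W := by
    have h6 : z = (u + z - (bb B z z / 2) • u') - u + (bb B z z / 2) • u' := by abel
    rw [h6]
    exact W.add_mem (W.sub_mem h4 huW) (W.smul_mem _ hu'W)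
  have h7 : x = z + bb B x u' • u + bb B x u • u' := by rw [hz]; abel
  rw [h7]
  exact W.add_mem (W.add_mem h5 (W.smul_mem _ huW)) (W.smul_mem _ hu'W)

/-- an anisotropic vector orthogonal to an isotropic one -/
lemma ir_aniso (hn : 3 ≤ n) (hdet : B.det ≠ 0) (u : Fin n → ZMod ℓ) (hu0 : u ≠ 0)
    (huu : bb B u u = 0) : ∃ v, bb B u v = 0 ∧ bb B v v ≠ 0 := by
  have h2 := two_ne hℓ2
  by_contra hcon
  push Not at hcon
  obtain ⟨y, hy⟩ : ∃ y, bb B u y ≠ 0 := by
    by_contra hc
    push Not at hc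
    exact hu0 (bb_nondeg hB hdet u hc)
  -- a vector outside the span of `u` and `y`
  obtain ⟨x, hx⟩ : ∃ x, x ∉ Submodule.span (ZMod ℓ) ({u, y} : Set (Fin n → ZMod ℓ)) := by
    by_contra hc
    push Not at hc
    have h3 : Submodule.span (ZMod ℓ) ({u, y} : Set (Fin n → ZMod ℓ)) = ⊤ := by
      rw [eq_top_iff]; intro x _; exact hc x
    have h4 := finrank_span_le_card (R := ZMod ℓ) ({u, y} : Set (Fin n → ZMod ℓ))
    rw [h3, finrank_top, Module.finrank_fin_fun] at h4
    have h5 : (Set.toFinset ({u, y} : Set (Fin n → ZMod ℓ))).card ≤ 2 := by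
      rw [Set.toFinset_insert, Set.toFinset_singleton]
      exact Finset.card_le_two
    omega
  have hpol : ∀ v v', bb B u v = 0 → bb B u v' = 0 → bb B v v' = 0 := by
    intro v v' hv hv'
    have h3 := hcon (v + v') (by rw [bb_add_right, hv, hv', add_zero])
    rw [bb_add_left, bb_add_right, bb_add_right, hcon v hv, hcon v' hv', bb_comm hB v' v] at h3
    have h4 : 2 * bb B v v' = 0 := by rw [← h3]; ring
    exact (mul_eq_zero.1 h4).resolve_left h2
  -- project to the hyperplane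
  set pr : (Fin n → ZMod ℓ) → (Fin n → ZMod ℓ) := fun x => x - (bb B u x / bb B u y) • y with hpr
  have hpr0 : ∀ x, bb B u (pr x) = 0 := by
    intro x
    simp only [hpr, bb_sub_right, bb_smul_right]
    field_simp
    ring
  -- `z` orthogonal to `u` and `y`
  obtain ⟨c, hc⟩ : ∃ c : ZMod ℓ, bb B y (pr x - c • u) = 0 := by
    refine ⟨bb B y (pr x) / bb B y u, ?_⟩
    have : bb B y u ≠ 0 := by rw [bb_comm hB]; exact hy
    simp only [bb_sub_right, bb_smul_right]
    field_simp
    ring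
  have hz0 : pr x - c • u ≠ 0 := by
    intro h0
    apply hx
    have h3 : x = c • u + (bb B u x / bb B u y) • y := by
      have h4 : pr x = c • u := sub_eq_zero.1 h0
      rw [← h4]
      simp only [hpr]
      abel
    rw [h3]
    exact Submodule.add_mem _ (Submodule.smul_mem _ _ (Submodule.subset_span (by simp)))
      (Submodule.smul_mem _ _ (Submodule.subset_span (by simp)))
  apply hz0
  apply bb_nondeg hB hdet
  intro t
  have h3 : t = pr t + (bb B u t / bb B u y) • y := by simp only [hpr]; abel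
  rw [h3, bb_add_right, bb_smul_right, bb_comm hB (pr x - c • u) y, hc, mul_zero, add_zero]
  apply hpol
  · rw [bb_sub_right, bb_smul_right, huu, hpr0]; ring
  · exact hpr0 t

omit hB hℓ2 in
/-- Chevalley-Warning -/
lemma ir_iso (hn : 3 ≤ n) : ∃ u : Fin n → ZMod ℓ, u ≠ 0 ∧ bb B u u = 0 := by
  classical
  set f : MvPolynomial (Fin n) (ZMod ℓ) :=
    ∑ i, ∑ j, MvPolynomial.C (B i j) * (MvPolynomial.X i * MvPolynomial.X j) with hf
  have hev : ∀ x, MvPolynomial.eval x f = bb B x x := by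
    intro x
    rw [hf]
    simp only [map_sum, map_mul, MvPolynomial.eval_C, MvPolynomial.eval_X, bb, dotProduct, mulVec,
      Finset.mul_sum]
    refine Finset.sum_congr rfl fun i _ => Finset.sum_congr rfl fun j _ => ?_
    ring
  have hdeg : f.totalDegree ≤ 2 := by
    rw [hf]
    apply MvPolynomial.totalDegree_finsetSum_le
    intro i _
    apply MvPolynomial.totalDegree_finsetSum_le
    intro j _
    refine (MvPolynomial.totalDegree_mul _ _).trans ?_
    rw [MvPolynomial.totalDegree_C, zero_add]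
    refine (MvPolynomial.totalDegree_mul _ _).trans ?_
    rw [MvPolynomial.totalDegree_X, MvPolynomial.totalDegree_X]
  have hcw := char_dvd_card_solutions (K := ZMod ℓ) (σ := Fin n) ℓ (f := f) (by
    rw [Fintype.card_fin]; omega)
  by_contra hcon
  push Not at hcon
  have hone : Fintype.card {x // MvPolynomial.eval x f = 0} = 1 := by
    rw [Fintype.card_eq_one_iff]
    refine ⟨⟨0, by rw [hev]; simp [bb]⟩, ?_⟩
    rintro ⟨x, hx⟩
    apply Subtype.ext
    by_contra h0
    exact hcon x h0 (by rw [← hev, hx])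
  rw [hone] at hcw
  exact hℓ.out.one_lt.ne' (Nat.dvd_one.1 hcw)

end main

theorem ir : IRStmt := by
  intro ℓ hℓ hℓ2 n hn B hB hdet W hW
  obtain ⟨u, hu0, huu⟩ := ir_iso (B := B) hn
  have hstar : ∀ u, bb B u u = 0 → ∀ w ∈ W, bb B w u ≠ 0 → u ∈ W := by
    intro u huu w hw hwu
    have hu0 : u ≠ 0 := by
      rintro rfl
      apply hwu
      simp [bb]
    obtain ⟨v, huv, hvv⟩ := ir_aniso hℓ2 hB hn hdet u hu0 huu
    exact ir_key hℓ2 hB hW u v huu huv hvv w hw hwu
  by_cases huW : u ∈ W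
  · right
    exact ir_top hℓ2 hB u hu0 huu hdet hstar huW
  · left
    let W' : Submodule (ZMod ℓ) (Fin n → ZMod ℓ) :=
      { carrier := {x | ∀ w ∈ W, bb B w x = 0}
        add_mem' := fun {a b} ha hb w hw => by rw [bb_add_right, ha w hw, hb w hw, add_zero]
        zero_mem' := fun w _ => by simp [bb]
        smul_mem' := fun c a ha w hw => by rw [bb_smul_right, ha w hw, mul_zero] }
    have hW' : ∀ x, x ∈ W' ↔ ∀ w ∈ W, bb B w x = 0 := fun x => Iff.rfl
    have huW' : u ∈ W' := by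
      intro w hw
      by_contra h
      exact huW (hstar u huu w hw h)
    have hstar' : ∀ u, bb B u u = 0 → ∀ w ∈ W', bb B w u ≠ 0 → u ∈ W' := by
      intro u huu w hw hwu w1 hw1
      by_contra h
      have h1 := hstar u huu w1 hw1 h
      apply hwu
      rw [bb_comm hB]
      exact hw u h1
    have htop := ir_top hℓ2 hB u hu0 huu hdet hstar' huW'
    rw [eq_bot_iff]
    intro w hw
    rw [Submodule.mem_bot]
    apply bb_nondeg hB hdet
    intro y
    have hy : y ∈ W' := by rw [htop]; trivial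
    exact hy w hw

end Pool.Agent.T2H36.IX
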