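import Pool.Agent.T2H36.IX.Defs2

set_option autoImplicit false

/-!
Project IX (helper36), fourth round: several orthogonal summands. Self-contained packages.
-/

open Matrix Polynomial

namespace Pool.Agent.T2H36.IX

/-- package TU: a torus element of `Om` which does not commute with a unipotent isometry -/
def TUStmt : Prop := ∀ (ℓ : ℕ) [Fact ℓ.Prime], 5 ≤ ℓ → ∀ n : ℕ, 5 ≤ n →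
  ∀ B : Matrix (Fin n) (Fin n) (ZMod ℓ), Bᵀ = B → B.det ≠ 0 →
  ∃ t u w : Matrix (Fin n) (Fin n) (ZMod ℓ), t ∈ Om ℓ B ∧ t ^ (ℓ - 1) = 1 ∧
    uᵀ * B * u = B ∧ u ^ ℓ = 1 ∧ w ≠ 1 ∧ w ^ ℓ = 1 ∧ t * u = w * u * t

/-- package EV: an eigenvector, and an eigenvector modulo this one, for two roots (with
multiplicity) of the characteristic polynomial -/
def EVStmt : Prop := ∀ (k : Type) [Field k] [IsAlgClosed k] (n : ℕ) (A : Matrix (Fin n) (Fin n) k)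
  (ν : Fin n → k), A.charpoly = ∏ i, (X - C (ν i)) → ∀ i₀ j₀ : Fin n, i₀ ≠ j₀ →
  ∃ (v w : Fin n → k) (c : k), v ≠ 0 ∧ (∀ a : k, w ≠ a • v) ∧ A *ᵥ v = ν i₀ • v ∧
    A *ᵥ w = ν j₀ • w + c • v

/-- package SEP: reduction of the roots of two polynomials modulo all large primes -/
def SepStmt : Prop := ∀ (n₁ n₂ : ℕ) (P₁ P₂ : ℚ[X]) (lam₁ : Fin n₁ → ℂ) (lam₂ : Fin n₂ → ℂ),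
  P₁.map (algebraMap ℚ ℂ) = ∏ i, (X - C (lam₁ i)) →
  P₂.map (algebraMap ℚ ℂ) = ∏ i, (X - C (lam₂ i)) →
  ∀ i₀ j₀ : Fin n₁, (∀ c d, lam₁ i₀ * lam₁ j₀ * lam₂ d ≠ lam₂ c) →
  ∃ b : ℕ, ∀ (ℓ : ℕ) [Fact ℓ.Prime], b < ℓ → ∀ (A₁ : Matrix (Fin n₁) (Fin n₁) ℤ_[ℓ])
    (A₂ : Matrix (Fin n₂) (Fin n₂) ℤ_[ℓ]),
    (A₁.map (algebraMap ℤ_[ℓ] ℚ_[ℓ])).charpoly = P₁.map (algebraMap ℚ ℚ_[ℓ]) →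
    (A₂.map (algebraMap ℤ_[ℓ] ℚ_[ℓ])).charpoly = P₂.map (algebraMap ℚ ℚ_[ℓ]) →
    ∃ (ν₁ : Fin n₁ → AlgebraicClosure (ZMod ℓ)) (ν₂ : Fin n₂ → AlgebraicClosure (ZMod ℓ)),
      (red ℓ A₁).charpoly.map (algebraMap (ZMod ℓ) (AlgebraicClosure (ZMod ℓ))) =
        ∏ i, (X - C (ν₁ i)) ∧
      (red ℓ A₂).charpoly.map (algebraMap (ZMod ℓ) (AlgebraicClosure (ZMod ℓ))) =
        ∏ i, (X - C (ν₂ i)) ∧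
      ∀ c d, ν₁ i₀ * ν₁ j₀ * ν₂ d ≠ ν₂ c

/-- package AD2: independence of the images at different primes, several representations -/
def AD2Stmt : Prop := ∀ (Γ : Type) [Group Γ] [TopologicalSpace Γ] [IsTopologicalGroup Γ]
  [CompactSpace Γ] (ι : Type) [Fintype ι] [DecidableEq ι] (n : ι → ℕ) (L : Set ℕ),
  (∀ i, ∀ ℓ ∈ L, n i < ℓ) →
  ∀ (β : ∀ (i : ι) (ℓ : ℕ) [Fact ℓ.Prime], Γ →* Matrix (Fin (n i)) (Fin (n i)) ℤ_[ℓ]),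
  (∀ (i : ι) (ℓ : ℕ) [Fact ℓ.Prime], Continuous (β i ℓ)) →
  ∀ (M : ∀ (i : ι) (ℓ : ℕ) [Fact ℓ.Prime], Set (Matrix (Fin (n i)) (Fin (n i)) ℤ_[ℓ])),
  (∀ (i : ι) (ℓ : ℕ) [Fact ℓ.Prime], ℓ ∈ L → ∀ h ∈ M i ℓ, ∃ g : Γ, β i ℓ g = h) →
  (∀ (i : ι) (ℓ : ℕ) [Fact ℓ.Prime], ℓ ∈ L → ∀ K : Subgroup Γ, K.Normal → IsClosed (K : Set Γ) →
    (∃ g ∈ K, red ℓ (β i ℓ g) ≠ 1 ∧ red ℓ (β i ℓ g) ^ ℓ = 1) →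
    ∀ h ∈ M i ℓ, ∃ g ∈ K, β i ℓ g = h) →
  (∀ (i : ι) (ℓ : ℕ) [Fact ℓ.Prime], ℓ ∈ L →
    ∃ (R : Subgroup (Matrix (Fin (n i)) (Fin (n i)) (ZMod ℓ))ˣ) (k : ℕ), Nat.card R = ℓ ^ k ∧
      (∀ g ∈ R, ∃ h ∈ M i ℓ, red ℓ h = (g : Matrix (Fin (n i)) (Fin (n i)) (ZMod ℓ))) ∧
      ∃ x ∈ R, ∃ y ∈ R, x * y ≠ y * x) →
  (∀ (i j : ι) (ℓ : ℕ) [Fact ℓ.Prime], i ≠ j → ℓ ∈ L →
    ∃ g : Γ, β j ℓ g = 1 ∧ red ℓ (β i ℓ g) ≠ 1 ∧ red ℓ (β i ℓ g) ^ ℓ = 1) →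
  ∀ h : ∀ (i : ι) (ℓ : ℕ) [Fact ℓ.Prime], Matrix (Fin (n i)) (Fin (n i)) ℤ_[ℓ],
    (∀ (i : ι) (ℓ : ℕ) [Fact ℓ.Prime], ℓ ∈ L → h i ℓ ∈ M i ℓ) →
    ∃ σ : Γ, ∀ (i : ι) (ℓ : ℕ) [Fact ℓ.Prime], ℓ ∈ L → β i ℓ σ = h i ℓ

/-- the Lie algebra of the form `B` is an irreducible module for the image of `f` -/
def SoIrr {ℓ : ℕ} [Fact ℓ.Prime] {n : ℕ} {Γ : Type} [Group Γ]
    (f : Γ →* Matrix (Fin n) (Fin n) (ZMod ℓ)) (B : Matrix (Fin n) (Fin n) (ZMod ℓ)) : Prop :=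
  ∀ V : Submodule (ZMod ℓ) (Matrix (Fin n) (Fin n) (ZMod ℓ)),
    (∀ X ∈ V, Xᵀ * B + B * X = 0) → (∀ g, ∀ X ∈ V, f g * X * f g⁻¹ ∈ V) → (∃ X ∈ V, X ≠ 0) →
    ∀ X : Matrix (Fin n) (Fin n) (ZMod ℓ), Xᵀ * B + B * X = 0 → X ∈ V

/-- package PAIR: two representations modulo `ℓ` with big images are independent if the eigenvalues
of one element are -/
def PairStmt : Prop := ∀ n₁ n₂ : ℕ, 5 ≤ n₁ → 5 ≤ n₂ → ∃ C₀ : ℕ, ∀ (ℓ : ℕ) [Fact ℓ.Prime], C₀ < ℓ →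
  ∀ (Γ : Type) [Group Γ] (f₁ : Γ →* Matrix (Fin n₁) (Fin n₁) (ZMod ℓ))
    (f₂ : Γ →* Matrix (Fin n₂) (Fin n₂) (ZMod ℓ)) (B₁ : Matrix (Fin n₁) (Fin n₁) (ZMod ℓ))
    (B₂ : Matrix (Fin n₂) (Fin n₂) (ZMod ℓ)), B₁ᵀ = B₁ → B₂ᵀ = B₂ → B₁.det ≠ 0 → B₂.det ≠ 0 →
  (∀ g, (f₁ g)ᵀ * B₁ * f₁ g = B₁) → (∀ g, (f₂ g)ᵀ * B₂ * f₂ g = B₂) → SoIrr f₁ B₁ → SoIrr f₂ B₂ →
  (∃ g, f₁ g ≠ 1 ∧ f₁ g ^ ℓ = 1) → (∃ g, f₂ g ≠ 1 ∧ f₂ g ^ ℓ = 1) →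
  ∀ (g₀ : Γ) (ν₁ : Fin n₁ → AlgebraicClosure (ZMod ℓ)) (ν₂ : Fin n₂ → AlgebraicClosure (ZMod ℓ)),
    (f₁ g₀).charpoly.map (algebraMap (ZMod ℓ) (AlgebraicClosure (ZMod ℓ))) = ∏ i, (X - C (ν₁ i)) →
    (f₂ g₀).charpoly.map (algebraMap (ZMod ℓ) (AlgebraicClosure (ZMod ℓ))) = ∏ i, (X - C (ν₂ i)) →
  ∀ i₀ j₀ : Fin n₁, i₀ ≠ j₀ → (∀ c d, ν₁ i₀ * ν₁ j₀ * ν₂ d ≠ ν₂ c) →
  ∀ u : Matrix (Fin n₁) (Fin n₁) (ZMod ℓ), uᵀ * B₁ * u = B₁ → u ^ ℓ = 1 →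
    ∃ g, f₂ g = 1 ∧ f₁ g = u

end Pool.Agent.T2H36.IX
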