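import Pool.Agent.T2H36.IX.E1

set_option autoImplicit false
set_option linter.unusedSectionVars false
set_option linter.style.haveILetI false

/-!
Project IX, part E2: even rank: big images at 100 percent of the primes.
-/

open Matrix Polynomial Filter Topology NumberField IsDedekindDomain
open Pool.Agent.Y142.ZO Pool.Agent.Y142.ZI
open Pool.Agent.Y142.ZS (Generic NiceP restrict0 nice_of_p)
open Pool.Agent.Y142.ZD

namespace Pool.Agent.T2H36.IX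

open Pool.Agent.R932 Pool.Agent.R932.OP

/-- the relations between the roots of `P` are trivial -/
def FreeP (P : ℚ[X]) : Prop :=
  P.Monic ∧ P.Separable ∧
    (∀ (j : ℕ) (x y : ℂ), 0 < j → aeval x P = 0 → aeval y P = 0 → x ^ j = y ^ j → x = y) ∧
    ∀ x y z w : ℂ, aeval x P = 0 → aeval y P = 0 → aeval z P = 0 → aeval w P = 0 →
      x * y = z * w → (x = z ∧ y = w) ∨ (x = w ∧ y = z) ∨ x * y = 1

theorem FreePoly.toFreeP {P : ℚ[X]} (h : FreePoly P) : FreeP P := ⟨h.1, h.2.1, h.2.2.2.1, h.2.2.2.2⟩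

section place

variable {n : ℕ}

/-- the complex roots of a separable polynomial -/
theorem exists_roots {P : ℚ[X]} (hmon : P.Monic) (hsep : P.Separable) (hdeg : P.natDegree = n) :
    ∃ lam : Fin n → ℂ, P.map (algebraMap ℚ ℂ) = ∏ i, (X - C (lam i)) ∧ Function.Injective lam ∧
      ∀ i, aeval (lam i) P = 0 := by
  classical
  obtain ⟨lam, hlam, hinj⟩ : ∃ lam : Fin n → ℂ, P.map (algebraMap ℚ ℂ) = ∏ i, (X - C (lam i)) ∧
      Function.Injective lam := by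
    have hsplit : (P.map (algebraMap ℚ ℂ)).Splits := IsAlgClosed.splits _
    have hcard : (P.map (algebraMap ℚ ℂ)).roots.card = n := by
      rw [← hsplit.natDegree_eq_card_roots, natDegree_map, hdeg]
    have hnd : (P.map (algebraMap ℚ ℂ)).roots.Nodup := nodup_roots (hsep.map)
    set s : Finset ℂ := (P.map (algebraMap ℚ ℂ)).roots.toFinset with hs
    have hsc : s.card = n := by
      rw [hs, Multiset.toFinset_card_of_nodup hnd, hcard]
    let e : Fin n ≃ s := (s.equivFinOfCardEq hsc).symm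
    refine ⟨fun i => (e i : ℂ), ?_, fun i j hij => e.injective (Subtype.ext hij)⟩
    have h2 := hsplit.eq_prod_roots_of_monic (hmon.map _)
    rw [h2]
    have h3 : (P.map (algebraMap ℚ ℂ)).roots = s.val := by
      rw [hs, Multiset.toFinset_val, Multiset.dedup_eq_self.2 hnd]
    rw [h3]
    have h4 : ∏ i, (X - C ((e i : ℂ))) = ∏ x : s, (X - C (x : ℂ)) :=
      Equiv.prod_comp e (fun x : s => (X - C (x : ℂ)))
    rw [h4, Finset.prod_coe_sort s (fun x => (X - C x))]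
    rfl
  refine ⟨lam, hlam, hinj, fun i => ?_⟩
  rw [aeval_def, ← eval_map, hlam, eval_prod]
  exact Finset.prod_eq_zero (Finset.mem_univ i) (by simp)

/-- the conditions modulo large primes, at a free place -/
theorem freeP_red {P : ℚ[X]} (hP : FreeP P) (n d : ℕ) :
    ∃ b : ℕ, ∀ (ℓ : ℕ) [Fact ℓ.Prime], b < ℓ → ∀ A : Matrix (Fin n) (Fin n) ℤ_[ℓ],
      (A.map (algebraMap ℤ_[ℓ] ℚ_[ℓ])).charpoly = P.map (algebraMap ℚ ℚ_[ℓ]) →
      ∃ mu : Fin n → AlgebraicClosure (ZMod ℓ),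
        (red ℓ A).charpoly.map (algebraMap (ZMod ℓ) (AlgebraicClosure (ZMod ℓ))) =
          ∏ i, (X - C (mu i)) ∧ Free mu ∧
        ∀ m, 1 ≤ m → m ≤ d → ∀ i j, i ≠ j → mu i ^ m ≠ mu j ^ m := by
  classical
  obtain ⟨hmon, hsep, hpow, hfour⟩ := hP
  by_cases hdeg : P.natDegree = n
  swap
  · refine ⟨0, fun ℓ _ _ A hA => absurd ?_ hdeg⟩
    have h2 := congrArg natDegree hA
    rw [Matrix.charpoly_natDegree_eq_dim, Fintype.card_fin, natDegree_map] at h2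
    exact h2.symm
  obtain ⟨lam, hlam, hinj, hlr⟩ := exists_roots hmon hsep hdeg
  -- the finite list of conditions
  let E1 : Finset (MvPolynomial (Fin n) ℤ) :=
    ((Finset.univ : Finset (Fin n × Fin n)).filter (fun q => q.1 ≠ q.2) ×ˢ
      (Finset.Icc 1 (max d 2))).image
      (fun q => MvPolynomial.X q.1.1 ^ q.2 - MvPolynomial.X q.1.2 ^ q.2)
  let E2 : Finset (MvPolynomial (Fin n) ℤ) :=
    ((Finset.univ : Finset ((Fin n × Fin n) × (Fin n × Fin n))).filter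
      (fun q => lam q.1.1 * lam q.1.2 ≠ lam q.2.1 * lam q.2.2)).image
      (fun q => MvPolynomial.X q.1.1 * MvPolynomial.X q.1.2 -
        MvPolynomial.X q.2.1 * MvPolynomial.X q.2.2)
  obtain ⟨b, hb⟩ := r_stmt n P lam hlam (E1 ∪ E2) (by
    intro e he
    rcases Finset.mem_union.1 he with he | he
    · obtain ⟨⟨⟨i, j⟩, m⟩, hq, rfl⟩ := Finset.mem_image.1 he
      rw [Finset.mem_product, Finset.mem_filter, Finset.mem_Icc] at hq
      rw [map_sub, map_pow, map_pow, MvPolynomial.aeval_X, MvPolynomial.aeval_X, sub_ne_zero]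
      intro h2
      exact hq.1.2 (hinj (hpow m _ _ (by omega) (hlr i) (hlr j) h2))
    · obtain ⟨q, hq, rfl⟩ := Finset.mem_image.1 he
      rw [Finset.mem_filter] at hq
      rw [map_sub, map_mul, map_mul, MvPolynomial.aeval_X, MvPolynomial.aeval_X,
        MvPolynomial.aeval_X, MvPolynomial.aeval_X, sub_ne_zero]
      exact hq.2)
  refine ⟨b, fun ℓ _ hℓ A hA => ?_⟩
  obtain ⟨mu, hmu, hE, hR⟩ := hb ℓ hℓ A hA
  have hp : ∀ m, 1 ≤ m → m ≤ max d 2 → ∀ i j, i ≠ j → mu i ^ m ≠ mu j ^ m := by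
    intro m hm hmd i j hij h2
    apply hE (MvPolynomial.X i ^ m - MvPolynomial.X j ^ m)
    · refine Finset.mem_union_left _ (Finset.mem_image.2 ⟨((i, j), m), ?_, rfl⟩)
      rw [Finset.mem_product, Finset.mem_filter, Finset.mem_Icc]
      exact ⟨⟨Finset.mem_univ _, hij⟩, hm, hmd⟩
    · rw [map_sub, map_pow, map_pow, MvPolynomial.aeval_X, MvPolynomial.aeval_X, h2, sub_self]
  have hq : ∀ i j a b, mu i * mu j = mu a * mu b → lam i * lam j = lam a * lam b := by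
    intro i j a b h2
    by_contra h3
    apply hE (MvPolynomial.X i * MvPolynomial.X j - MvPolynomial.X a * MvPolynomial.X b)
    · refine Finset.mem_union_right _ (Finset.mem_image.2 ⟨((i, j), (a, b)), ?_, rfl⟩)
      rw [Finset.mem_filter]
      exact ⟨Finset.mem_univ _, h3⟩
    · rw [map_sub, map_mul, map_mul, MvPolynomial.aeval_X, MvPolynomial.aeval_X,
        MvPolynomial.aeval_X, MvPolynomial.aeval_X, h2, sub_self]
  have hmuinj : Function.Injective mu := by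
    intro i j hij
    by_contra hne
    exact hp 1 le_rfl (by omega) i j hne (by rw [hij])
  refine ⟨mu, hmu, ⟨hmuinj, ?_, ?_⟩, ?_⟩
  · intro i j hi hj
    by_contra hne
    exact hp 2 (by norm_num) (le_max_right _ _) i j hne (by rw [sq, sq, hi, hj])
  · intro i j a b _ _ h2
    rcases hfour _ _ _ _ (hlr i) (hlr j) (hlr a) (hlr b) (hq i j a b h2) with ⟨h3, h4⟩ | ⟨h3, h4⟩ | h3
    · exact Or.inl ⟨hinj h3, hinj h4⟩
    · exact Or.inr (Or.inl ⟨hinj h3, hinj h4⟩)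
    · right; right
      have h4 := hR (MvPolynomial.X i * MvPolynomial.X j - 1) (by
        rw [map_sub, map_mul, MvPolynomial.aeval_X, MvPolynomial.aeval_X, map_one, h3, sub_self])
      rw [map_sub, map_mul, MvPolynomial.aeval_X, MvPolynomial.aeval_X, map_one, sub_eq_zero] at h4
      exact h4
  · intro m hm hmd i j hij
    exact hp m hm (le_trans hmd (le_max_left _ _)) i j hij

/-- a root fixed by Frobenius gives a rational eigenvalue -/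
theorem root_mod {P : ℚ[X]} (hmon : P.Monic) (hsep : P.Separable) (n : ℕ) :
    ∃ b : ℕ, ∀ (ℓ : ℕ) [Fact ℓ.Prime], b < ℓ → ∀ σ : GK ℚ, FrobAt ℓ σ → σ ∈ Fx P →
      ∀ A : Matrix (Fin n) (Fin n) ℤ_[ℓ],
      (A.map (algebraMap ℤ_[ℓ] ℚ_[ℓ])).charpoly = P.map (algebraMap ℚ ℚ_[ℓ]) →
      ∃ a : ZMod ℓ, (red ℓ A).charpoly.eval a = 0 := by
  obtain ⟨b, hb⟩ := Y100.ZD.t P hmon hsep
  refine ⟨b, fun ℓ hp hℓ σ hσ hx A hA => ?_⟩
  obtain ⟨a, ha⟩ := (hb ℓ hℓ hp σ hσ).2 hx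
  have h1 : A.charpoly.map (algebraMap ℤ_[ℓ] ℚ_[ℓ]) = P.map (algebraMap ℚ ℚ_[ℓ]) := by
    rw [← hA, Matrix.charpoly_map]
  have h2 : aeval a A.charpoly = 0 := by
    rw [aeval_def, ← eval_map, h1]
    exact ha
  have h3 : IsIntegral ℤ_[ℓ] a := ⟨A.charpoly, Matrix.charpoly_monic A, h2⟩
  obtain ⟨z, rfl⟩ := (IsIntegrallyClosed.isIntegral_iff (R := ℤ_[ℓ]) (K := ℚ_[ℓ])).1 h3
  refine ⟨PadicInt.toZMod z, ?_⟩
  have h4 : A.charpoly.eval z = 0 := by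
    rw [aeval_algebraMap_apply, coe_aeval_eq_eval] at h2
    exact (map_eq_zero_iff _ (IsFractionRing.injective ℤ_[ℓ] ℚ_[ℓ])).1 h2
  have h5 : (red ℓ A).charpoly = A.charpoly.map (PadicInt.toZMod : ℤ_[ℓ] →+* ZMod ℓ) :=
    Matrix.charpoly_map _ _
  rw [h5, eval_map, eval₂_at_apply, h4, map_zero]

end place

section

variable {K : Type} [Field K] [NumberField K] {N : ℕ} {S : Set (HeightOneSpectrum (𝓞 K))}
  {P : HeightOneSpectrum (𝓞 K) → ℚ[X]}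

/-- a generic place is free -/
theorem freeP_of_gen {v : HeightOneSpectrum (𝓞 K)} (hv : GenO S P v) (h0 : (P v).eval 0 ≠ 0) :
    FreeP (P v) := by
  obtain ⟨⟨-, hmon, hsep, hpow⟩, hsq, hgen⟩ := hv
  obtain ⟨jc⟩ := nonempty_LC
  have hP0 : P v ≠ 0 := hmon.ne_zero
  have lift : ∀ w : ℂ, aeval w (P v) = 0 → ∃ r : QQ, aeval r (P v) = 0 ∧ jc r = w := by
    intro w hw
    have h1 : eval₂ (Rat.castHom ℂ) w (P v) = 0 := by
      rw [aeval_def] at hw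
      rw [← hw]
      congr 1
    obtain ⟨r, hr, hrw⟩ := root_lift jc hP0 h1
    refine ⟨r, ?_, hrw⟩
    rw [aeval_def, ← hr]
    congr 1
  refine ⟨hmon, hsep, ?_, ?_⟩
  · intro n x y hn hx hy hxy
    obtain ⟨r, hr, rfl⟩ := lift x hx
    obtain ⟨s, hs, rfl⟩ := lift y hy
    rw [← map_pow, ← map_pow] at hxy
    rw [hpow n r s hn hr hs (jc.injective hxy)]
  · intro x y z w hx hy hz hw hxy
    obtain ⟨r, hr, rfl⟩ := lift x hx
    obtain ⟨s, hs, rfl⟩ := lift y hy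
    obtain ⟨t, ht, rfl⟩ := lift z hz
    obtain ⟨u, hu, rfl⟩ := lift w hw
    rw [← map_mul, ← map_mul] at hxy
    have h2 := jc.injective hxy
    by_cases hru : r = u
    · right; left
      subst hru
      have hr0 : r ≠ 0 := by
        rintro rfl
        apply h0
        have h3 : aeval (algebraMap ℚ QQ 0) (P v) = algebraMap ℚ QQ ((P v).eval 0) := by
          rw [aeval_algebraMap_apply, coe_aeval_eq_eval]
        rw [map_zero, hr] at h3
        exact (map_eq_zero _).1 h3.symm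
      have h3 : s = t := by
        apply mul_left_cancel₀ hr0
        rw [h2, mul_comm]
      rw [h3]
      exact ⟨rfl, rfl⟩
    · rcases hgen r u t s hr hu ht hs hru h2 with ⟨h3, h4⟩ | ⟨h3, h4⟩
      · left
        rw [h3, h4]
        exact ⟨rfl, rfl⟩
      · right; right
        have h5 : r * s = 1 := by rw [mul_comm]; exact h4
        rw [← map_mul, h5, map_one]

/-- `0` is not a root -/
theorem eval_zero_ne' {v : HeightOneSpectrum (𝓞 K)} (hvS : v ∉ S)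
    (ρ : ∀ (ℓ : ℕ) [Fact ℓ.Prime], GK K →* Matrix (Fin N) (Fin N) ℚ_[ℓ])
    (B : ∀ (ℓ : ℕ) [Fact ℓ.Prime], Matrix (Fin N) (Fin N) ℚ_[ℓ])
    (hsys : ∀ (ℓ : ℕ) [Fact ℓ.Prime], Orthogonal K N ℓ (ρ ℓ) (B ℓ) S P) : (P v).eval 0 ≠ 0 := by
  obtain ⟨ℓ, hℓ, hp⟩ := Nat.exists_infinite_primes (Ideal.absNorm v.asIdeal + 1)
  haveI : Fact ℓ.Prime := ⟨hp⟩
  obtain ⟨σ, hσ⟩ := Pool.Agent.W401.Frob.exists_frob v
  have h1 := (hsys ℓ).2.2.2.2 v hvS (not_mem_of_lt v hp (by omega)) σ hσ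
  intro h0
  have h2 := congrArg (eval (algebraMap ℚ ℚ_[ℓ] 0)) h1
  rw [eval_map, eval₂_at_apply, h0, map_zero, Matrix.eval_charpoly] at h2
  have h3 : (ρ ℓ σ⁻¹).det = 0 := by
    rw [map_zero, zero_sub, Matrix.det_neg] at h2
    exact (mul_eq_zero.1 h2).resolve_left (pow_ne_zero _ (neg_ne_zero.2 one_ne_zero))
  have h4 : ρ ℓ σ⁻¹ * ρ ℓ σ = 1 := by rw [← map_mul, inv_mul_cancel, map_one]
  have h5 := congrArg Matrix.det h4
  rw [det_mul, h3, zero_mul, det_one] at h5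
  exact zero_ne_one h5

end

section main

variable {K : Type} [Field K] [NumberField K] {N : ℕ} {S : Set (HeightOneSpectrum (𝓞 K))}
  {P : HeightOneSpectrum (𝓞 K) → ℚ[X]} {Γ : Type} [Group Γ] [TopologicalSpace Γ]
  [IsTopologicalGroup Γ] [CompactSpace Γ] {s : GK K →* Γ}

/-- **big images at 100 percent of the primes, even rank, from one open prime** -/
theorem big_even (heven : Even N) (hN : 8 ≤ N) (hS : S.Finite)
    (β : ∀ (ℓ : ℕ) [Fact ℓ.Prime], Γ →* Matrix (Fin N) (Fin N) ℤ_[ℓ])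
    (hβ : ∀ (ℓ : ℕ) [Fact ℓ.Prime], Continuous (β ℓ))
    (B : ∀ (ℓ : ℕ) [Fact ℓ.Prime], Matrix (Fin N) (Fin N) ℤ_[ℓ])
    (hsys : ∀ (ℓ : ℕ) [Fact ℓ.Prime], IntegralSys K N ℓ s (β ℓ) (B ℓ) S P)
    (hun : ∃ b : ℕ, ∀ (ℓ : ℕ) [Fact ℓ.Prime], b < ℓ → IsUnit (B ℓ).det)
    (ℓ₀ : ℕ) [hℓ₀ : Fact ℓ₀.Prime] (hdvd : ¬ ℓ₀ ∣ (N - 2) * (N - 4))
    (hfull : FullLie ℓ₀ (genRep ℓ₀ ((β ℓ₀).comp s)) (genM ℓ₀ (B ℓ₀)))
    (hev : Even (Padic.valuation (genM ℓ₀ (B ℓ₀)).det)) :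
    ∃ b : ℕ, Y142.ZI.DensityZero {ℓ | ∃ _ : Fact ℓ.Prime, b < ℓ ∧ ¬ NormBig ℓ (β ℓ) (B ℓ)} := by
  classical
  obtain ⟨n, hn⟩ : ∃ n, N = 2 * n := by
    obtain ⟨k, hk⟩ := heven
    exact ⟨k, by omega⟩
  have hn4 : 4 ≤ n := by omega
  have hL : ¬ ℓ₀ ∣ 4 * ((n - 1) * (n - 2)) := by
    have h1 : (N - 2) * (N - 4) = 4 * ((n - 1) * (n - 2)) := by
      have h2 : N - 2 = 2 * (n - 1) := by omega
      have h3 : N - 4 = 2 * (n - 2) := by omega
      rw [h2, h3]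
      ring
    rwa [h1] at hdvd
  have hTAN : Y142.ZO.S_TAN := Y708.ZO.t
  have hFROB : Y142.ZO.S_FROB := Y405.ZO.t
  have hINT : Y142.ZI.S_INT := Y484.ZI.t1
  have hCHEB : Y142.ZI.S_CHEB := Y726.ZI.t1
  have hPOS : Y142.ZI.S_POS := Y726.ZI.t2 hCHEB
  have hDENS2 : Y142.ZI.S_DENS2 := Y681.ZI.t hCHEB
  have hMULTI : Y142.ZI.S_MULTI := Y537.ZI.t
  have hBADD : S_BADD := Y614.ZD.t
  have hKRQ : S_KRQ := Y331.ZD.t
  have hABS : S_ABS := Y758.ZD.t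
  have hSUB : S_SUB := Y100.ZD.t
  set ρ : ∀ (ℓ : ℕ) [Fact ℓ.Prime], GK K →* Matrix (Fin N) (Fin N) ℚ_[ℓ] :=
    fun ℓ _ => genRep ℓ ((β ℓ).comp s) with hρ
  set C : ∀ (ℓ : ℕ) [Fact ℓ.Prime], Matrix (Fin N) (Fin N) ℚ_[ℓ] := fun ℓ _ => genM ℓ (B ℓ) with hC
  have hsysO : ∀ (ℓ : ℕ) [Fact ℓ.Prime], Orthogonal K N ℓ (ρ ℓ) (C ℓ) S P :=
    fun ℓ _ => orthogonal_of (hsys ℓ)
  have hstart : StartData N S P := startE hn4 hn hMULTI hFROB chare hKRQ fda fdb typd3 (tame nr) hS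
    ρ C hsysO ℓ₀ hL hfull hev
  have hinf := Y142.ZD.inf_open hTAN hABS roote hBADD hPOS hSUB ρ C hsysO hstart
  have hevb : ∃ b : ℕ, ∀ ℓ : ℕ, b < ℓ → ∀ _ : Fact ℓ.Prime, Even (Padic.valuation (C ℓ).det) := by
    obtain ⟨s', v, w, -, -, hw, -⟩ := hstart
    exact even_det disce heven ρ C hsysO hw
  have key := keyE hn4 hn hMULTI hFROB chare hKRQ fda fdb (typd2 nr) typd3 nr (tame nr) gend cld
    hINT hS ρ C hsysO hinf hevb
  obtain ⟨C₁, hC₁, hmain⟩ := norm_main N (by omega)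
  obtain ⟨J, hJ⟩ := exists_ord N (by omega)
  set d₀ : ℕ := max (2 ^ N) J with hd₀
  obtain ⟨b₀, hb₀⟩ := hun
  -- stable subspaces modulo `ℓ`
  have hB1 : ∀ d : ℕ, 0 < d → d < N → Y142.ZI.DensityZero {ℓ | ∃ _ : Fact ℓ.Prime,
      ∃ (U : Subgroup Γ) (W : Submodule (ZMod ℓ) (Fin N → ZMod ℓ)), U.index ≠ 0 ∧ U.index ≤ d₀ ∧
        (∀ σ ∈ U, ∀ w ∈ W, redM ℓ (β ℓ σ) *ᵥ w ∈ W) ∧ Module.finrank (ZMod ℓ) W = d} := by
    intro d hd0 hdN
    refine hDENS2 _ N.factorial (fun ℓ hℓ => hℓ.1.out) fun M hM => ?_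
    obtain ⟨v, hgen, hdeg, hc, -⟩ := key M hM
    obtain ⟨b', hb'⟩ := place_mod (N := N) (s := s) hgen.1 d₀
    refine ⟨Lf (P v), Cl (P v) d, Lf_finite _, Lf_normal _, ?_, fun g hg h => cl_conj hg h,
      fun g hg u hu => cl_mul hg (fun x hx => hu x (mem_Lf hgen.1.2.1.ne_zero hx)),
      fun g => hc d g hd0 hdN, b', ?_⟩
    · have := Lf_finrank hgen.1.2.2.1
      rwa [hdeg] at this
    · rintro ℓ ⟨hp, U, W, hU0, hUd, hW, hWd⟩ hℓ σ hσ hσC
      obtain ⟨τ, h1, -, h3⟩ := hb' ℓ hℓ hp (β ℓ) (B ℓ) (hsys ℓ)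
      obtain ⟨R, hRm, hRd, hR⟩ := factor_of_stableM _ W (h1 U W hU0 hUd hW)
      obtain ⟨T, hT, hTn, hTs⟩ := h3 σ hσ R hRm hR
      exact hσC T hT hTs (by rw [hTn, hRd, hWd])
  have hB3 : ∀ D : ℕ, D ≤ N → Y142.ZI.DensityZero {ℓ | ∃ _ : Fact ℓ.Prime, ∃ d, 0 < d ∧ d < D ∧
      ∃ (U : Subgroup Γ) (W : Submodule (ZMod ℓ) (Fin N → ZMod ℓ)), U.index ≠ 0 ∧ U.index ≤ d₀ ∧
        (∀ σ ∈ U, ∀ w ∈ W, redM ℓ (β ℓ σ) *ᵥ w ∈ W) ∧ Module.finrank (ZMod ℓ) W = d} := by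
    intro D
    induction D with
    | zero =>
      intro _
      refine (densityZero_finite (Set.finite_empty)).mono ?_
      rintro ℓ ⟨_, d, _, hd, _⟩
      exact absurd hd (Nat.not_lt_zero _)
    | succ D ih =>
      intro hD
      rcases Nat.eq_zero_or_pos D with h0 | h0
      · refine (ih (by omega)).mono ?_
        rintro ℓ ⟨_, d, hd0, hd, _⟩
        omega
      · refine ((ih (by omega)).union (hB1 D h0 (by omega))).mono ?_
        rintro ℓ ⟨hp, d, hd0, hd, hsub⟩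
        rcases (Nat.lt_succ_iff_lt_or_eq.1 hd) with h | h
        · exact Or.inl ⟨hp, d, hd0, h, hsub⟩
        · exact Or.inr ⟨hp, h ▸ hsub⟩
  -- the primes at which the reduction is irreducible
  have hB2 : Y142.ZI.DensityZero {ℓ | ∃ _ : Fact ℓ.Prime, max b₀ C₁ < ℓ ∧ IrrMod ℓ d₀ (β ℓ) ∧
      ¬ NormBig ℓ (β ℓ) (B ℓ)} := by
    refine hDENS2 _ N.factorial (fun ℓ hℓ => hℓ.1.out) fun M hM => ?_
    obtain ⟨v, hgen, hdeg, -, hc⟩ := key M hM
    have hfree := freeP_of_gen hgen (eval_zero_ne' hgen.1.1 ρ C hsysO)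
    obtain ⟨b', hb'⟩ := freeP_red hfree N d₀
    obtain ⟨b'', hb''⟩ := root_mod hgen.1.2.1 hgen.1.2.2.1 N
    refine ⟨Lf (P v), Fx (P v), Lf_finite _, Lf_normal _, ?_, fun g hg h => fx_conj hg h,
      fun g hg u hu => fx_mul hg (fun x hx => hu x (mem_Lf hgen.1.2.1.ne_zero hx)), hc,
      max (max b' b'') (Ideal.absNorm v.asIdeal), ?_⟩
    · have := Lf_finrank hgen.1.2.2.1
      rwa [hdeg] at this
    · rintro ℓ ⟨hp, hℓ0, hirr, hno⟩ hℓ σ hσ hσC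
      simp only [max_lt_iff] at hℓ hℓ0
      apply hno
      obtain ⟨-, hBs, -, hiso, hfrob⟩ := hsys ℓ
      obtain ⟨τ, hτ⟩ := Pool.Agent.W401.Frob.exists_frob v
      have hch := hfrob v hgen.1.1 (not_mem_of_lt v hp.out hℓ.2) τ hτ
      rw [← Matrix.charpoly_map] at hch
      obtain ⟨mu, h1, h2, h3⟩ := hb' ℓ hℓ.1.1 (β ℓ (s τ⁻¹)) hch
      obtain ⟨a, ha⟩ := hb'' ℓ hℓ.1.2 σ hσ hσC (β ℓ (s τ⁻¹)) hch
      obtain ⟨i₀, hi₀⟩ : ∃ i₀, mu i₀ = algebraMap (ZMod ℓ) (AlgebraicClosure (ZMod ℓ)) a := by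
        have h4 : ((red ℓ (β ℓ (s τ⁻¹))).charpoly.map
            (algebraMap (ZMod ℓ) (AlgebraicClosure (ZMod ℓ)))).eval
            (algebraMap (ZMod ℓ) (AlgebraicClosure (ZMod ℓ)) a) = 0 := by
          rw [eval_map, eval₂_at_apply, ha, map_zero]
        rw [h1, eval_prod, Finset.prod_eq_zero_iff] at h4
        obtain ⟨i, -, hi⟩ := h4
        rw [eval_sub, eval_X, eval_C, sub_eq_zero] at hi
        exact ⟨i, hi.symm⟩
      have hsim : Sim (rh (β ℓ)) (AlgebraicClosure (ZMod ℓ)) d₀ (s τ⁻¹) mu i₀ a := by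
        refine ⟨hirr, ?_, h2.inj, hi₀, fun m hm hmd i hi => h3 m hm hmd i i₀ hi⟩
        rw [← h1]
        exact Matrix.charpoly_map _ _
      exact ⟨hmain ℓ hℓ0.2 Γ (β ℓ) (hβ ℓ) (B ℓ) hBs (det_red_ne (hb₀ ℓ hℓ0.1)) hiso d₀ _ mu i₀ a
        (le_max_left _ _) hsim h2, hJ ℓ Γ (β ℓ) d₀ _ mu i₀ a (le_max_right _ _) hsim⟩
  refine ⟨max b₀ C₁, ((hB3 N le_rfl).union hB2).mono ?_⟩
  rintro ℓ ⟨hp, hℓ, hno⟩
  by_cases hs' : IrrMod ℓ d₀ (β ℓ)
  · exact Or.inr ⟨hp, hℓ, hs', hno⟩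
  · left
    unfold IrrMod at hs'
    push Not at hs'
    obtain ⟨U, W, hU0, hUd, hW, hW0, hW1⟩ := hs'
    have hle : Module.finrank (ZMod ℓ) W ≤ N := by
      have := Submodule.finrank_le W
      rwa [Module.finrank_fin_fun] at this
    refine ⟨hp, Module.finrank (ZMod ℓ) W, ?_, ?_, U, W, hU0, hUd, hW, rfl⟩
    · exact Nat.pos_of_ne_zero fun h => hW0 (Submodule.finrank_eq_zero.1 h)
    · exact lt_of_le_of_ne hle fun h => hW1 (Submodule.eq_top_of_finrank_eq (by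
        rw [h, Module.finrank_fin_fun]))

end main

end Pool.Agent.T2H36.IX
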