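import Pool.Agent.T2H36.IX.Defs2

set_option autoImplicit false

/-!
Package AD of project IX (helper36), by helper63: independence of the images at different primes.
-/

open Matrix Polynomial Filter Topology

namespace Pool.Agent.T2H36.IX.AD

/-! ### The abstract independence argument -/

section abstract

variable {Γ : Type} [Group Γ] [TopologicalSpace Γ] [CompactSpace Γ]
  {I : Type} {X : I → Type} [∀ i, Monoid (X i)] [∀ i, TopologicalSpace (X i)] [∀ i, T1Space (X i)]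

/-- the common kernel of the homomorphisms with index in `F` -/
def KF (β : ∀ i, Γ →* X i) (F : Finset I) : Subgroup Γ := ⨅ i ∈ F, (β i).ker

omit [TopologicalSpace Γ] [CompactSpace Γ] [∀ i, TopologicalSpace (X i)]
  [∀ i, T1Space (X i)] in
theorem mem_KF {β : ∀ i, Γ →* X i} {F : Finset I} {g : Γ} :
    g ∈ KF β F ↔ ∀ i ∈ F, β i g = 1 := by
  simp [KF, Subgroup.mem_iInf, MonoidHom.mem_ker]

omit [TopologicalSpace Γ] [CompactSpace Γ] [∀ i, TopologicalSpace (X i)]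
  [∀ i, T1Space (X i)] in
theorem KF_normal (β : ∀ i, Γ →* X i) (F : Finset I) : (KF β F).Normal := by
  refine ⟨fun n hn g => ?_⟩
  rw [mem_KF] at hn ⊢
  intro i hi
  rw [map_mul, map_mul, hn i hi, mul_one, ← map_mul, mul_inv_cancel, map_one]

omit [CompactSpace Γ] in
theorem KF_closed {β : ∀ i, Γ →* X i} (hβ : ∀ i, Continuous (β i)) (F : Finset I) :
    IsClosed (KF β F : Set Γ) := by
  have h : (KF β F : Set Γ) = ⋂ i ∈ F, (β i) ⁻¹' {1} := by
    ext g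
    simp [mem_KF]
  rw [h]
  exact isClosed_biInter fun i _ => isClosed_singleton.preimage (hβ i)

theorem indep [DecidableEq I] (β : ∀ i, Γ →* X i) (hβ : ∀ i, Continuous (β i))
    (M : ∀ i, Set (X i))
    (hA : ∀ i, ∀ h ∈ M i, ∃ g, β i g = h)
    (hstep : ∀ i, ∀ K₁ K₂ : Subgroup Γ, K₁.Normal → K₂.Normal → IsClosed (K₁ : Set Γ) →
      IsClosed (K₂ : Set Γ) → (∀ h ∈ M i, ∃ g ∈ K₁, β i g = h) →
      (∀ h ∈ M i, ∃ g ∈ K₂, β i g = h) → ∀ h ∈ M i, ∃ g ∈ K₁ ⊓ K₂, β i g = h)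
    (hpair : ∀ i j, i ≠ j → ∀ h ∈ M i, ∃ g, β j g = 1 ∧ β i g = h) :
    ∀ h : ∀ i, X i, (∀ i, h i ∈ M i) → ∃ σ, ∀ i, β i σ = h i := by
  -- finite sets
  have h1 : ∀ (F : Finset I) (i : I), i ∉ F → ∀ h ∈ M i, ∃ g ∈ KF β F, β i g = h := by
    intro F
    induction F using Finset.induction_on with
    | empty =>
      intro i _ h hh
      obtain ⟨g, hg⟩ := hA i h hh
      exact ⟨g, mem_KF.2 (by simp), hg⟩
    | insert j F hj ih =>
      intro i hi h hh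
      rw [Finset.mem_insert, not_or] at hi
      obtain ⟨g, hg, hgh⟩ := hstep i (KF β {j}) (KF β F) (KF_normal β _) (KF_normal β _)
        (KF_closed hβ _) (KF_closed hβ _)
        (fun h hh => by
          obtain ⟨g, h1, h2⟩ := hpair i j hi.1 h hh
          exact ⟨g, mem_KF.2 (by simpa using h1), h2⟩) (ih i hi.2) h hh
      refine ⟨g, mem_KF.2 ?_, hgh⟩
      rw [Subgroup.mem_inf, mem_KF, mem_KF] at hg
      intro k hk
      rcases Finset.mem_insert.1 hk with rfl | hk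
      · exact hg.1 k (by simp)
      · exact hg.2 k hk
  intro h hh
  have h2 : ∀ (F G : Finset I), Disjoint F G → ∃ σ ∈ KF β G, ∀ i ∈ F, β i σ = h i := by
    intro F
    induction F using Finset.induction_on with
    | empty => intro G _; exact ⟨1, one_mem _, by simp⟩
    | insert j F hj ih =>
      intro G hG
      rw [Finset.disjoint_insert_left] at hG
      obtain ⟨σ, hσ, hσ'⟩ := ih (insert j G) (by
        rw [Finset.disjoint_insert_right]; exact ⟨hj, hG.2⟩)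
      obtain ⟨τ, hτ, hτ'⟩ := h1 (F ∪ G) j (by
        rw [Finset.mem_union, not_or]; exact ⟨hj, hG.1⟩) (h j) (hh j)
      rw [mem_KF] at hσ hτ
      refine ⟨σ * τ, mem_KF.2 fun i hi => ?_, fun i hi => ?_⟩
      · rw [map_mul, hσ i (Finset.mem_insert_of_mem hi), hτ i (Finset.mem_union_right _ hi), one_mul]
      · rcases Finset.mem_insert.1 hi with rfl | hi
        · rw [map_mul, hσ i (Finset.mem_insert_self _ _), one_mul, hτ']
        · rw [map_mul, hτ i (Finset.mem_union_left _ hi), mul_one, hσ' i hi]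
  have h3 := CompactSpace.iInter_nonempty (t := fun i => (β i) ⁻¹' {h i})
    (fun i => isClosed_singleton.preimage (hβ i)) (fun s => by
      obtain ⟨σ, _, hσ⟩ := h2 s ∅ (Finset.disjoint_empty_right _)
      refine ⟨σ, ?_⟩
      simp only [Set.mem_iInter, Set.mem_preimage, Set.mem_singleton_iff]
      exact hσ)
  obtain ⟨σ, hσ⟩ := h3
  refine ⟨σ, fun i => ?_⟩
  have := Set.mem_iInter.1 hσ i
  simpa using this

end abstract

/-! ### Powers -/

theorem exists_order {M : Type} [Monoid M] {ℓ : ℕ} {u : M} (hu : u ≠ 1) {k : ℕ}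
    (hk : u ^ ℓ ^ k = 1) : ∃ i, u ^ ℓ ^ i ≠ 1 ∧ (u ^ ℓ ^ i) ^ ℓ = 1 := by
  classical
  have h : ∃ m, u ^ ℓ ^ m = 1 := ⟨k, hk⟩
  have h0 : Nat.find h ≠ 0 := by
    intro h1
    have h2 := Nat.find_spec h
    rw [h1, pow_zero, pow_one] at h2
    exact hu h2
  obtain ⟨m, hm⟩ := Nat.exists_eq_succ_of_ne_zero h0
  refine ⟨m, Nat.find_min h (by omega), ?_⟩
  rw [← pow_mul, ← pow_succ]
  have h2 := Nat.find_spec h
  rwa [hm] at h2

theorem coprime_pow {M : Type} [Monoid M] {a b : ℕ} (hab : Nat.Coprime a b) {s : M}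
    (ha : s ^ a = 1) (hb : s ^ b = 1) : s = 1 := by
  have h1 := orderOf_dvd_of_pow_eq_one ha
  have h2 := orderOf_dvd_of_pow_eq_one hb
  have h3 := Nat.dvd_gcd h1 h2
  rw [hab.gcd_eq_one, Nat.dvd_one] at h3
  exact orderOf_eq_one_iff.1 h3

section padic

variable {n : ℕ} {p : ℕ} [hp : Fact p.Prime]

theorem dvd_of_red {x : ℤ_[p]} (h : (PadicInt.toZMod x : ZMod p) = 0) : ∃ y, x = (p : ℤ_[p]) * y := by
  have h1 : x ∈ RingHom.ker (PadicInt.toZMod : ℤ_[p] →+* ZMod p) := h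
  rw [PadicInt.ker_toZMod, PadicInt.maximalIdeal_eq_span_p, Ideal.mem_span_singleton] at h1
  obtain ⟨y, hy⟩ := h1
  exact ⟨y, hy⟩

theorem exists_smul_of_red {a : Matrix (Fin n) (Fin n) ℤ_[p]} (h : red p a = 1) :
    ∃ b : Matrix (Fin n) (Fin n) ℤ_[p], a = 1 + (p : ℤ_[p]) • b := by
  have h1 : ∀ i j, ∃ y, a i j - (1 : Matrix (Fin n) (Fin n) ℤ_[p]) i j = (p : ℤ_[p]) * y := by
    intro i j
    apply dvd_of_red
    rw [map_sub]
    have h2 := congrFun (congrFun h i) j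
    have h3 : (PadicInt.toZMod (a i j) : ZMod p) = (1 : Matrix (Fin n) (Fin n) (ZMod p)) i j := h2
    rw [h3, Matrix.one_apply, Matrix.one_apply]
    split <;> simp
  choose b hb using h1
  refine ⟨Matrix.of b, ?_⟩
  ext i j
  have := hb i j
  rw [Matrix.add_apply, Matrix.smul_apply, Matrix.of_apply, smul_eq_mul, ← this]
  ring

theorem pow_p_step {m : ℕ} (b : Matrix (Fin n) (Fin n) ℤ_[p]) :
    ∃ b' : Matrix (Fin n) (Fin n) ℤ_[p],
      (1 + ((p : ℤ_[p]) ^ (m + 1)) • b) ^ p = 1 + ((p : ℤ_[p]) ^ (m + 2)) • b' := by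
  set c : Matrix (Fin n) (Fin n) ℤ_[p] := ((p : ℤ_[p]) ^ (m + 1)) • b with hc
  -- each power of `1 + c` is `1` plus `c` times something
  have h1 : ∀ i : ℕ, ∃ e, (1 + c) ^ i = 1 + c * e := by
    intro i
    induction i with
    | zero => exact ⟨0, by simp⟩
    | succ i ih =>
      obtain ⟨e, he⟩ := ih
      refine ⟨1 + e * (1 + c), ?_⟩
      rw [pow_succ, he]
      noncomm_ring
  choose e he using h1
  have h2 : ∑ i ∈ Finset.range p, (1 + c) ^ i = (p : ℤ_[p]) • (1 : Matrix (Fin n) (Fin n) ℤ_[p]) +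
      c * ∑ i ∈ Finset.range p, e i := by
    simp_rw [he]
    rw [Finset.sum_add_distrib, Finset.mul_sum]
    congr 1
    rw [Finset.sum_const, Finset.card_range, Nat.cast_smul_eq_nsmul]
  have h3 : (1 + c) ^ p - 1 = c * ∑ i ∈ Finset.range p, (1 + c) ^ i := by
    have := mul_geom_sum (1 + c) p
    rw [add_sub_cancel_left] at this
    exact this.symm
  rw [h2] at h3
  refine ⟨b * (1 + ((p : ℤ_[p]) ^ m) • (b * ∑ i ∈ Finset.range p, e i)), ?_⟩
  have h4 : (1 + c) ^ p = 1 + c * ((p : ℤ_[p]) • (1 : Matrix (Fin n) (Fin n) ℤ_[p]) +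
      c * ∑ i ∈ Finset.range p, e i) := by
    rw [← h3]; abel
  rw [h4, hc]
  congr 1
  simp only [mul_add, smul_add, Matrix.smul_mul, Matrix.mul_smul, mul_one, smul_smul]
  congr 2
  · ring
  · rw [← pow_add, ← pow_add]
    congr 1
    omega

theorem pow_pow {a : Matrix (Fin n) (Fin n) ℤ_[p]} (h : red p a = 1) (j : ℕ) :
    ∃ b : Matrix (Fin n) (Fin n) ℤ_[p], a ^ p ^ j = 1 + ((p : ℤ_[p]) ^ (j + 1)) • b := by
  induction j with
  | zero =>
    obtain ⟨b, hb⟩ := exists_smul_of_red h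
    exact ⟨b, by rw [pow_zero, pow_one, hb, zero_add, pow_one]⟩
  | succ j ih =>
    obtain ⟨b, hb⟩ := ih
    obtain ⟨b', hb'⟩ := pow_p_step (m := j) b
    exact ⟨b', by rw [pow_succ, pow_mul, hb, hb']⟩

theorem tendsto_pow {a : Matrix (Fin n) (Fin n) ℤ_[p]} (h : red p a = 1) :
    Tendsto (fun j : ℕ => a ^ p ^ j) atTop (𝓝 1) := by
  choose b hb using pow_pow h
  refine tendsto_pi_nhds.2 fun i => tendsto_pi_nhds.2 fun k => ?_
  have h1 : ∀ j, (a ^ p ^ j) i k = (1 : Matrix (Fin n) (Fin n) ℤ_[p]) i k +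
      (p : ℤ_[p]) ^ (j + 1) * b j i k := by
    intro j
    rw [hb j, Matrix.add_apply, Matrix.smul_apply, smul_eq_mul]
  have h2 : Tendsto (fun j : ℕ => (p : ℤ_[p]) ^ (j + 1) * b j i k) atTop (𝓝 0) := by
    rw [tendsto_zero_iff_norm_tendsto_zero]
    have h3 : ∀ j : ℕ, ‖(p : ℤ_[p]) ^ (j + 1) * b j i k‖ ≤ ((p : ℝ)⁻¹) ^ (j + 1) := by
      intro j
      rw [norm_mul, norm_pow, PadicInt.norm_p]
      exact mul_le_of_le_one_right (by positivity) (PadicInt.norm_le_one _)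
    have h4 : Tendsto (fun j : ℕ => ((p : ℝ)⁻¹) ^ (j + 1)) atTop (𝓝 0) := by
      have h5 : Tendsto (fun j : ℕ => ((p : ℝ)⁻¹) ^ j) atTop (𝓝 0) := by
        apply tendsto_pow_atTop_nhds_zero_of_lt_one (by positivity)
        exact inv_lt_one_of_one_lt₀ (by exact_mod_cast hp.out.one_lt)
      exact h5.comp (tendsto_add_atTop_nat 1)
    exact squeeze_zero (fun _ => norm_nonneg _) h3 h4
  have h6 := (tendsto_const_nhds (x := (1 : Matrix (Fin n) (Fin n) ℤ_[p]) i k)).add h2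
  rw [add_zero] at h6
  exact h6.congr fun j => (h1 j).symm

/-- the reduction is locally constant -/
theorem isOpen_toZMod (c : ZMod p) :
    IsOpen {x : ℤ_[p] | (PadicInt.toZMod x : ZMod p) = c} := by
  rw [Metric.isOpen_iff]
  intro x hx
  refine ⟨1, one_pos, fun y hy => ?_⟩
  rw [Metric.mem_ball, dist_eq_norm] at hy
  have h1 : y - x ∈ RingHom.ker (PadicInt.toZMod : ℤ_[p] →+* ZMod p) := by
    rw [PadicInt.ker_toZMod, IsLocalRing.mem_maximalIdeal, PadicInt.mem_nonunits]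
    exact hy
  rw [RingHom.mem_ker, map_sub, sub_eq_zero] at h1
  exact h1.trans hx

theorem eventually_red (a : Matrix (Fin n) (Fin n) ℤ_[p]) : ∀ᶠ b in 𝓝 a, red p b = red p a := by
  have h : ∀ i j, ∀ᶠ b : Matrix (Fin n) (Fin n) ℤ_[p] in 𝓝 a,
      (PadicInt.toZMod (b i j) : ZMod p) = PadicInt.toZMod (a i j) := by
    intro i j
    have hc : Continuous fun b : Matrix (Fin n) (Fin n) ℤ_[p] => b i j := by fun_prop
    exact (hc.tendsto a).eventually ((isOpen_toZMod (PadicInt.toZMod (a i j))).mem_nhds rfl)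
  have h2 := (Filter.eventually_all.2 fun i => Filter.eventually_all.2 fun j => h i j)
  filter_upwards [h2] with b hb
  ext i j
  exact hb i j

end padic

/-! ### Pairs of primes -/

section pair

variable {Γ : Type} [Group Γ] [TopologicalSpace Γ] [CompactSpace Γ] {n : ℕ}
  {ℓ p : ℕ} [hℓ : Fact ℓ.Prime] [hp : Fact p.Prime]

/-- the reduction of a representation, in the units -/
noncomputable def ro (ℓ : ℕ) [Fact ℓ.Prime] (β : Γ →* Matrix (Fin n) (Fin n) ℤ_[ℓ]) :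
    Γ →* (Matrix (Fin n) (Fin n) (ZMod ℓ))ˣ :=
  MonoidHom.toHomUnits
    (((PadicInt.toZMod (p := ℓ)).mapMatrix : Matrix (Fin n) (Fin n) ℤ_[ℓ] →+*
      Matrix (Fin n) (Fin n) (ZMod ℓ)).toMonoidHom.comp β)

omit [TopologicalSpace Γ] [CompactSpace Γ] in
theorem ro_val (β : Γ →* Matrix (Fin n) (Fin n) ℤ_[ℓ]) (g : Γ) :
    ((ro ℓ β g : (Matrix (Fin n) (Fin n) (ZMod ℓ))ˣ) : Matrix (Fin n) (Fin n) (ZMod ℓ)) =
      red ℓ (β g) := rfl

/-- an element of `ℓ`-power order which comes from the kernel modulo `p` gives an element of order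
`ℓ` in the kernel of the `p`-adic representation -/
theorem exists_ker (hne : ℓ ≠ p) {β : Γ →* Matrix (Fin n) (Fin n) ℤ_[ℓ]} (hβ : Continuous β)
    {β' : Γ →* Matrix (Fin n) (Fin n) ℤ_[p]} (hβ' : Continuous β') {x : Γ}
    (h1 : ro p β' x = 1) {k : ℕ} (hk : ro ℓ β x ^ ℓ ^ k = 1) (hx : ro ℓ β x ≠ 1) :
    ∃ g ∈ β'.ker, red ℓ (β g) ≠ 1 ∧ red ℓ (β g) ^ ℓ = 1 := by
  let U : Ultrafilter ℕ := Filter.hyperfilter ℕ
  have hU : (U : Filter ℕ) ≤ atTop := Nat.hyperfilter_le_atTop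
  let y : ℕ → Γ := fun j => x ^ p ^ j
  obtain ⟨z, -, hz⟩ := isCompact_univ.ultrafilter_le_nhds (U.map y) (by simp)
  have hz' : Tendsto y U (𝓝 z) := hz
  have hred : red p (β' x) = 1 := by
    rw [← ro_val, h1]; rfl
  have hlim : Tendsto (fun j => β' (y j)) U (𝓝 1) := by
    have := (tendsto_pow hred).mono_left hU
    refine this.congr fun j => ?_
    simp only [y, map_pow]
  have hz1 : β' z = 1 := tendsto_nhds_unique ((hβ'.tendsto z).comp hz') hlim
  have hev : ∀ᶠ j in (U : Filter ℕ), red ℓ (β (y j)) = red ℓ (β z) :=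
    ((hβ.tendsto z).comp hz').eventually (eventually_red (β z))
  obtain ⟨j, hj⟩ := hev.exists
  have hj' : ro ℓ β x ^ p ^ j = ro ℓ β z := by
    apply Units.ext
    rw [← map_pow, ro_val, ro_val]
    exact hj
  have hu : ro ℓ β z ≠ 1 := by
    intro h
    rw [← hj'] at h
    refine hx (coprime_pow (a := p ^ j) (b := ℓ ^ k) ?_ h hk)
    exact Nat.Coprime.pow _ _ ((Nat.coprime_primes hp.out hℓ.out).2 (Ne.symm hne))
  have huk : ro ℓ β z ^ ℓ ^ k = 1 := by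
    rw [← hj', ← pow_mul, mul_comm, pow_mul, hk, one_pow]
  obtain ⟨i, hi1, hi2⟩ := exists_order hu huk
  refine ⟨z ^ ℓ ^ i, ?_, ?_, ?_⟩
  · rw [MonoidHom.mem_ker, map_pow, hz1, one_pow]
  · intro h
    apply hi1
    apply Units.ext
    rw [← map_pow, ro_val, h]
    rfl
  · have h2 := congrArg Units.val hi2
    rw [Units.val_pow_eq_pow_val, ← map_pow, ro_val] at h2
    exact h2

omit [TopologicalSpace Γ] [CompactSpace Γ] in
/-- if no such element exists then the `ℓ`-subgroups of the image are commutative -/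
theorem comm_of_not (hAB : ABStmt) (hne : ℓ ≠ p) (hn : n < ℓ)
    {β : Γ →* Matrix (Fin n) (Fin n) ℤ_[ℓ]} {β' : Γ →* Matrix (Fin n) (Fin n) ℤ_[p]}
    (R : Subgroup (Matrix (Fin n) (Fin n) (ZMod ℓ))ˣ) {k : ℕ} (hR : Nat.card R = ℓ ^ k)
    (hlift : ∀ r ∈ R, ∃ g, ro ℓ β g = r)
    (hno : ∀ x : Γ, ro p β' x = 1 → ro ℓ β x ^ ℓ ^ k = 1 → ro ℓ β x = 1) :
    ∀ x ∈ R, ∀ y ∈ R, x * y = y * x := by
  classical
  let φ : Γ →* (Matrix (Fin n) (Fin n) (ZMod ℓ))ˣ × (Matrix (Fin n) (Fin n) (ZMod p))ˣ :=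
    (ro ℓ β).prod (ro p β')
  let H : Subgroup ((Matrix (Fin n) (Fin n) (ZMod ℓ))ˣ × (Matrix (Fin n) (Fin n) (ZMod p))ˣ) :=
    φ.range ⊓ R.comap (MonoidHom.fst _ _)
  have hfin1 : Finite (Matrix (Fin n) (Fin n) (ZMod ℓ)) := inferInstance
  have hfin2 : Finite (Matrix (Fin n) (Fin n) (ZMod p)) := inferInstance
  have hfinH : Finite H := inferInstance
  have hRpow : ∀ r ∈ R, r ^ ℓ ^ k = 1 := by
    intro r hr
    have h1 : (⟨r, hr⟩ : R) ^ Nat.card R = 1 := pow_card_eq_one'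
    rw [hR] at h1
    exact congrArg Subtype.val h1
  -- first projection
  let p1 : H →* R :=
    { toFun := fun x => ⟨x.1.1, x.2.2⟩
      map_one' := rfl
      map_mul' := fun _ _ => rfl }
  have hp1 : Function.Surjective p1 := by
    rintro ⟨r, hr⟩
    obtain ⟨g, hg⟩ := hlift r hr
    refine ⟨⟨φ g, ⟨⟨g, rfl⟩, ?_⟩⟩, ?_⟩
    · change ro ℓ β g ∈ R
      rw [hg]; exact hr
    · exact Subtype.ext hg
  -- second projection
  let p2 : H →* (Matrix (Fin n) (Fin n) (ZMod p))ˣ := (MonoidHom.snd _ _).comp H.subtype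
  have hp2 : Function.Injective p2 := by
    rw [injective_iff_map_eq_one]
    rintro ⟨⟨a, b⟩, ⟨⟨g, hg⟩, ha⟩⟩ h
    have hg1 : ro ℓ β g = a := congrArg Prod.fst hg
    have hg2 : ro p β' g = b := congrArg Prod.snd hg
    have hb : b = 1 := h
    have ha' : a ∈ R := ha
    have h1 : ro ℓ β g = 1 := hno g (by rw [hg2, hb]) (by rw [hg1]; exact hRpow a ha')
    have ha1 : a = 1 := by rw [← hg1, h1]
    apply Subtype.ext
    change (a, b) = (1, 1)
    rw [ha1, hb]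
  -- the Sylow subgroup
  obtain ⟨Q⟩ : Nonempty (Sylow ℓ H) := inferInstance
  have hcomm : ∀ x ∈ Q, ∀ y ∈ Q, x * y = y * x := by
    intro x hx y hy
    obtain ⟨m, hm⟩ := IsPGroup.iff_card.1 Q.isPGroup'
    have h1 := hAB ℓ p hne n hn Q m hm
      ((Units.coeHom (Matrix (Fin n) (Fin n) (ZMod p))).comp (p2.comp (Q : Subgroup H).subtype))
      ⟨x, hx⟩ ⟨y, hy⟩
    have h2 : ((p2 x * p2 y : (Matrix (Fin n) (Fin n) (ZMod p))ˣ) :
        Matrix (Fin n) (Fin n) (ZMod p)) = ((p2 y * p2 x : (Matrix (Fin n) (Fin n) (ZMod p))ˣ) :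
        Matrix (Fin n) (Fin n) (ZMod p)) := h1
    have h3 := Units.ext h2
    rw [← map_mul, ← map_mul] at h3
    exact hp2 h3
  have htop : ∀ r : R, ∃ q ∈ Q, p1 q = r := by
    intro r
    have hRp : IsPGroup ℓ R := IsPGroup.of_card hR
    let Q' : Sylow ℓ R := Q.mapSurjective hp1
    have h1 : (Q' : Subgroup R) = ⊤ := by
      have := Q'.is_maximal' (Q := ⊤) (hRp.to_subgroup ⊤) le_top
      exact this.symm
    have h2 : r ∈ (Q' : Subgroup R) := by rw [h1]; trivial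
    rw [Sylow.coe_mapSurjective] at h2
    obtain ⟨q, hq, hqr⟩ := h2
    exact ⟨q, hq, hqr⟩
  intro x hx y hy
  obtain ⟨q, hq, hqx⟩ := htop ⟨x, hx⟩
  obtain ⟨q', hq', hqy⟩ := htop ⟨y, hy⟩
  have h1 := congrArg p1 (hcomm q hq q' hq')
  rw [map_mul, map_mul, hqx, hqy] at h1
  exact congrArg Subtype.val h1

end pair

end Pool.Agent.T2H36.IX.AD

namespace Pool.Agent.T2H36.IX

open AD

theorem ad_stmt : ABStmt → ADStmt := by
  classical
  intro hAB Γ _ _ _ _ n L hL β hβ M hA hB hC h hh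
  let I : Type := {q : Nat.Primes // (q : ℕ) ∈ L}
  have hI : ∀ i : I, Fact ((i.1 : ℕ)).Prime := fun i => ⟨i.1.2⟩
  have key := indep (Γ := Γ) (I := I) (X := fun i => Matrix (Fin n) (Fin n) ℤ_[(i.1 : ℕ)])
    (fun i => β (i.1 : ℕ)) (fun i => hβ (i.1 : ℕ)) (fun i => M (i.1 : ℕ))
    (fun i => hA (i.1 : ℕ) i.2) ?_ ?_ (fun i => h (i.1 : ℕ)) (fun i => hh (i.1 : ℕ) i.2)
  · obtain ⟨σ, hσ⟩ := key
    refine ⟨σ, fun ℓ hℓ hℓL => ?_⟩
    exact hσ ⟨⟨ℓ, hℓ.out⟩, hℓL⟩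
  · -- intersection of two subgroups
    intro i K₁ K₂ hN1 hN2 hc1 hc2 h1 h2
    obtain ⟨R, k, hRk, hlift, x, hx, y, hy, hxy⟩ := hC (i.1 : ℕ) i.2
    obtain ⟨mx, hmx, hmx'⟩ := hlift x hx
    obtain ⟨my, hmy, hmy'⟩ := hlift y hy
    obtain ⟨g1, hg1, hg1'⟩ := h1 mx hmx
    obtain ⟨g2, hg2, hg2'⟩ := h2 my hmy
    have hr1 : ro (i.1 : ℕ) (β (i.1 : ℕ)) g1 = x := by
      apply Units.ext; rw [ro_val, hg1', hmx']
    have hr2 : ro (i.1 : ℕ) (β (i.1 : ℕ)) g2 = y := by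
      apply Units.ext; rw [ro_val, hg2', hmy']
    let c : Γ := g1 * g2 * g1⁻¹ * g2⁻¹
    have hc1' : c ∈ K₁ := by
      have h3 : g2 * g1⁻¹ * g2⁻¹ ∈ K₁ := hN1.conj_mem _ (K₁.inv_mem hg1) g2
      have h4 := K₁.mul_mem hg1 h3
      have h5 : c = g1 * (g2 * g1⁻¹ * g2⁻¹) := by simp only [c]; group
      rw [h5]; exact h4
    have hc2' : c ∈ K₂ := by
      have h3 : g1 * g2 * g1⁻¹ ∈ K₂ := hN2.conj_mem _ hg2 g1
      exact K₂.mul_mem h3 (K₂.inv_mem hg2)
    have hcr : ro (i.1 : ℕ) (β (i.1 : ℕ)) c = x * y * x⁻¹ * y⁻¹ := by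
      simp only [c, map_mul, map_inv, hr1, hr2]
    have hcne : ro (i.1 : ℕ) (β (i.1 : ℕ)) c ≠ 1 := by
      rw [hcr]
      intro h3
      apply hxy
      have h4 : x * y * x⁻¹ * y⁻¹ * y * x = 1 * y * x := by rw [h3]
      simpa using h4
    have hcpow : ro (i.1 : ℕ) (β (i.1 : ℕ)) c ^ (i.1 : ℕ) ^ k = 1 := by
      have h3 : ro (i.1 : ℕ) (β (i.1 : ℕ)) c ∈ R := by
        rw [hcr]
        exact R.mul_mem (R.mul_mem (R.mul_mem hx hy) (R.inv_mem hx)) (R.inv_mem hy)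
      have h4 : (⟨_, h3⟩ : R) ^ Nat.card R = 1 := pow_card_eq_one'
      rw [hRk] at h4
      exact congrArg Subtype.val h4
    obtain ⟨j, hj1, hj2⟩ := exists_order hcne hcpow
    refine hB (i.1 : ℕ) i.2 (K₁ ⊓ K₂) inferInstance ?_ ⟨c ^ (i.1 : ℕ) ^ j,
      (K₁ ⊓ K₂).pow_mem ⟨hc1', hc2'⟩ _, ?_, ?_⟩
    · exact hc1.inter hc2
    · intro h3
      apply hj1
      apply Units.ext
      rw [← map_pow, ro_val, h3]
      rfl
    · have h3 := congrArg Units.val hj2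
      rw [Units.val_pow_eq_pow_val, ← map_pow, ro_val] at h3
      exact h3
  · -- pairs
    intro i j hij m hm
    have hne : (i.1 : ℕ) ≠ (j.1 : ℕ) := by
      intro h3
      exact hij (Subtype.ext (Subtype.ext h3))
    obtain ⟨R, k, hRk, hlift, x, hx, y, hy, hxy⟩ := hC (i.1 : ℕ) i.2
    have hex : ∃ g ∈ (β (j.1 : ℕ)).ker, red (i.1 : ℕ) (β (i.1 : ℕ) g) ≠ 1 ∧
        red (i.1 : ℕ) (β (i.1 : ℕ) g) ^ (i.1 : ℕ) = 1 := by
      by_contra hno
      refine hxy (comm_of_not hAB hne (hL _ i.2) (β := β (i.1 : ℕ)) (β' := β (j.1 : ℕ)) R hRk ?_ ?_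
        x hx y hy)
      · intro r hr
        obtain ⟨mr, hmr, hmr'⟩ := hlift r hr
        obtain ⟨g, hg⟩ := hA (i.1 : ℕ) i.2 mr hmr
        refine ⟨g, ?_⟩
        apply Units.ext
        rw [ro_val, hg, hmr']
      · intro g hg1 hg2
        by_contra hg3
        exact hno (exists_ker hne (hβ _) (hβ _) hg1 hg2 hg3)
    have hcl : IsClosed (((β (j.1 : ℕ)).ker : Subgroup Γ) : Set Γ) := by
      have h3 : (((β (j.1 : ℕ)).ker : Subgroup Γ) : Set Γ) = (β (j.1 : ℕ)) ⁻¹' {1} := by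
        ext g; simp [MonoidHom.mem_ker]
      rw [h3]
      exact isClosed_singleton.preimage (hβ _)
    obtain ⟨g, hg, hgm⟩ := hB (i.1 : ℕ) i.2 (β (j.1 : ℕ)).ker inferInstance hcl hex m hm
    exact ⟨g, hg, hgm⟩

end Pool.Agent.T2H36.IX
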