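import Pool.Agent.T2H36.IX.Defs4
import Pool.Agent.T2H36.IX.AD

set_option autoImplicit false

/-!
Package AD2 of project IX (helper36), by helper18 (modification of AD.lean of helper63):
independence of the images at different primes, several representations.
-/

open Matrix Polynomial Filter Topology

namespace Pool.Agent.T2H36.IX.AD

section pair

variable {Γ : Type} [Group Γ] [TopologicalSpace Γ] [CompactSpace Γ] {n n' : ℕ}
  {ℓ p : ℕ} [hℓ : Fact ℓ.Prime] [hp : Fact p.Prime]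

/-- an element of `ℓ`-power order which comes from the kernel modulo `p` gives an element of order
`ℓ` in the kernel of the `p`-adic representation -/
theorem exists_ker2 (hne : ℓ ≠ p) {β : Γ →* Matrix (Fin n) (Fin n) ℤ_[ℓ]} (hβ : Continuous β)
    {β' : Γ →* Matrix (Fin n') (Fin n') ℤ_[p]} (hβ' : Continuous β') {x : Γ}
    (h1 : ro p β' x = 1) {k : ℕ} (hk : ro ℓ β x ^ ℓ ^ k = 1) (hx : ro ℓ β x ≠ 1) :
    ∃ g ∈ β'.ker, red ℓ (β g) ≠ 1 ∧ red ℓ (β g) ^ ℓ = 1 := by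
  let U : Ultrafilter ℕ := Filter.hyperfilter ℕ
  have hU : (U : Filter ℕ) ≤ atTop := Nat.hyperfilter_le_atTop
  let y : ℕ → Γ := fun j => x ^ p ^ j
  obtain ⟨z, -, hz⟩ := isCompact_univ.ultrafilter_le_nhds (U.map y) (by simp)
  have hz' : Tendsto y U (𝓝 z) := hz
  have hred : red p (β' x) = 1 := by
    rw [← ro_val, h1]; rfl
  have hlim : Tendsto (fun j => β' (y j)) U (𝓝 1) := by
    have := (tendsto_pow hred).mono_left hU
    refine this.congr fun j => ?_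
    simp only [y, map_pow]
  have hz1 : β' z = 1 := tendsto_nhds_unique ((hβ'.tendsto z).comp hz') hlim
  have hev : ∀ᶠ j in (U : Filter ℕ), red ℓ (β (y j)) = red ℓ (β z) :=
    ((hβ.tendsto z).comp hz').eventually (eventually_red (β z))
  obtain ⟨j, hj⟩ := hev.exists
  have hj' : ro ℓ β x ^ p ^ j = ro ℓ β z := by
    apply Units.ext
    rw [← map_pow, ro_val, ro_val]
    exact hj
  have hu : ro ℓ β z ≠ 1 := by
    intro h
    rw [← hj'] at h
    refine hx (coprime_pow (a := p ^ j) (b := ℓ ^ k) ?_ h hk)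
    exact Nat.Coprime.pow _ _ ((Nat.coprime_primes hp.out hℓ.out).2 (Ne.symm hne))
  have huk : ro ℓ β z ^ ℓ ^ k = 1 := by
    rw [← hj', ← pow_mul, mul_comm, pow_mul, hk, one_pow]
  obtain ⟨i, hi1, hi2⟩ := exists_order hu huk
  refine ⟨z ^ ℓ ^ i, ?_, ?_, ?_⟩
  · rw [MonoidHom.mem_ker, map_pow, hz1, one_pow]
  · intro h
    apply hi1
    apply Units.ext
    rw [← map_pow, ro_val, h]
    rfl
  · have h2 := congrArg Units.val hi2
    rw [Units.val_pow_eq_pow_val, ← map_pow, ro_val] at h2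
    exact h2

omit [TopologicalSpace Γ] [CompactSpace Γ] in
/-- if no such element exists then the `ℓ`-subgroups of the image are commutative -/
theorem comm_of_not2 (hAB : ABStmt) (hne : ℓ ≠ p) (hn : n' < ℓ)
    {β : Γ →* Matrix (Fin n) (Fin n) ℤ_[ℓ]} {β' : Γ →* Matrix (Fin n') (Fin n') ℤ_[p]}
    (R : Subgroup (Matrix (Fin n) (Fin n) (ZMod ℓ))ˣ) {k : ℕ} (hR : Nat.card R = ℓ ^ k)
    (hlift : ∀ r ∈ R, ∃ g, ro ℓ β g = r)
    (hno : ∀ x : Γ, ro p β' x = 1 → ro ℓ β x ^ ℓ ^ k = 1 → ro ℓ β x = 1) :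
    ∀ x ∈ R, ∀ y ∈ R, x * y = y * x := by
  classical
  let φ : Γ →* (Matrix (Fin n) (Fin n) (ZMod ℓ))ˣ × (Matrix (Fin n') (Fin n') (ZMod p))ˣ :=
    (ro ℓ β).prod (ro p β')
  let H : Subgroup ((Matrix (Fin n) (Fin n) (ZMod ℓ))ˣ × (Matrix (Fin n') (Fin n') (ZMod p))ˣ) :=
    φ.range ⊓ R.comap (MonoidHom.fst _ _)
  have hfin1 : Finite (Matrix (Fin n) (Fin n) (ZMod ℓ)) := inferInstance
  have hfin2 : Finite (Matrix (Fin n') (Fin n') (ZMod p)) := inferInstance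
  have hfinH : Finite H := inferInstance
  have hRpow : ∀ r ∈ R, r ^ ℓ ^ k = 1 := by
    intro r hr
    have h1 : (⟨r, hr⟩ : R) ^ Nat.card R = 1 := pow_card_eq_one'
    rw [hR] at h1
    exact congrArg Subtype.val h1
  -- first projection
  let p1 : H →* R :=
    { toFun := fun x => ⟨x.1.1, x.2.2⟩
      map_one' := rfl
      map_mul' := fun _ _ => rfl }
  have hp1 : Function.Surjective p1 := by
    rintro ⟨r, hr⟩
    obtain ⟨g, hg⟩ := hlift r hr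
    refine ⟨⟨φ g, ⟨⟨g, rfl⟩, ?_⟩⟩, ?_⟩
    · change ro ℓ β g ∈ R
      rw [hg]; exact hr
    · exact Subtype.ext hg
  -- second projection
  let p2 : H →* (Matrix (Fin n') (Fin n') (ZMod p))ˣ := (MonoidHom.snd _ _).comp H.subtype
  have hp2 : Function.Injective p2 := by
    rw [injective_iff_map_eq_one]
    rintro ⟨⟨a, b⟩, ⟨⟨g, hg⟩, ha⟩⟩ h
    have hg1 : ro ℓ β g = a := congrArg Prod.fst hg
    have hg2 : ro p β' g = b := congrArg Prod.snd hg
    have hb : b = 1 := h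
    have ha' : a ∈ R := ha
    have h1 : ro ℓ β g = 1 := hno g (by rw [hg2, hb]) (by rw [hg1]; exact hRpow a ha')
    have ha1 : a = 1 := by rw [← hg1, h1]
    apply Subtype.ext
    change (a, b) = (1, 1)
    rw [ha1, hb]
  -- the Sylow subgroup
  obtain ⟨Q⟩ : Nonempty (Sylow ℓ H) := inferInstance
  have hcomm : ∀ x ∈ Q, ∀ y ∈ Q, x * y = y * x := by
    intro x hx y hy
    obtain ⟨m, hm⟩ := IsPGroup.iff_card.1 Q.isPGroup'
    have h1 := hAB ℓ p hne n' hn Q m hm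
      ((Units.coeHom (Matrix (Fin n') (Fin n') (ZMod p))).comp (p2.comp (Q : Subgroup H).subtype))
      ⟨x, hx⟩ ⟨y, hy⟩
    have h2 : ((p2 x * p2 y : (Matrix (Fin n') (Fin n') (ZMod p))ˣ) :
        Matrix (Fin n') (Fin n') (ZMod p)) = ((p2 y * p2 x : (Matrix (Fin n') (Fin n') (ZMod p))ˣ) :
        Matrix (Fin n') (Fin n') (ZMod p)) := h1
    have h3 := Units.ext h2
    rw [← map_mul, ← map_mul] at h3
    exact hp2 h3
  have htop : ∀ r : R, ∃ q ∈ Q, p1 q = r := by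
    intro r
    have hRp : IsPGroup ℓ R := IsPGroup.of_card hR
    let Q' : Sylow ℓ R := Q.mapSurjective hp1
    have h1 : (Q' : Subgroup R) = ⊤ := by
      have := Q'.is_maximal' (Q := ⊤) (hRp.to_subgroup ⊤) le_top
      exact this.symm
    have h2 : r ∈ (Q' : Subgroup R) := by rw [h1]; trivial
    rw [Sylow.coe_mapSurjective] at h2
    obtain ⟨q, hq, hqr⟩ := h2
    exact ⟨q, hq, hqr⟩
  intro x hx y hy
  obtain ⟨q, hq, hqx⟩ := htop ⟨x, hx⟩
  obtain ⟨q', hq', hqy⟩ := htop ⟨y, hy⟩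
  have h1 := congrArg p1 (hcomm q hq q' hq')
  rw [map_mul, map_mul, hqx, hqy] at h1
  exact congrArg Subtype.val h1

end pair

end Pool.Agent.T2H36.IX.AD

namespace Pool.Agent.T2H36.IX

open AD

theorem ad2_stmt : ABStmt → AD2Stmt := by
  classical
  intro hAB Γ _ _ _ _ ι _ _ n L hL β hβ M hA hB hC hD h hh
  let I : Type := ι × {q : Nat.Primes // (q : ℕ) ∈ L}
  have hI : ∀ i : I, Fact ((i.2.1 : ℕ)).Prime := fun i => ⟨i.2.1.2⟩
  have key := indep (Γ := Γ) (I := I)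
    (X := fun i => Matrix (Fin (n i.1)) (Fin (n i.1)) ℤ_[(i.2.1 : ℕ)])
    (fun i => β i.1 (i.2.1 : ℕ)) (fun i => hβ i.1 (i.2.1 : ℕ)) (fun i => M i.1 (i.2.1 : ℕ))
    (fun i => hA i.1 (i.2.1 : ℕ) i.2.2) ?_ ?_ (fun i => h i.1 (i.2.1 : ℕ))
    (fun i => hh i.1 (i.2.1 : ℕ) i.2.2)
  · obtain ⟨σ, hσ⟩ := key
    refine ⟨σ, fun i ℓ hℓ hℓL => ?_⟩
    exact hσ ⟨i, ⟨⟨ℓ, hℓ.out⟩, hℓL⟩⟩
  · -- intersection of two subgroups
    intro i K₁ K₂ hN1 hN2 hc1 hc2 h1 h2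
    obtain ⟨R, k, hRk, hlift, x, hx, y, hy, hxy⟩ := hC i.1 (i.2.1 : ℕ) i.2.2
    obtain ⟨mx, hmx, hmx'⟩ := hlift x hx
    obtain ⟨my, hmy, hmy'⟩ := hlift y hy
    obtain ⟨g1, hg1, hg1'⟩ := h1 mx hmx
    obtain ⟨g2, hg2, hg2'⟩ := h2 my hmy
    have hr1 : ro (i.2.1 : ℕ) (β i.1 (i.2.1 : ℕ)) g1 = x := by
      apply Units.ext; rw [ro_val, hg1', hmx']
    have hr2 : ro (i.2.1 : ℕ) (β i.1 (i.2.1 : ℕ)) g2 = y := by
      apply Units.ext; rw [ro_val, hg2', hmy']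
    let c : Γ := g1 * g2 * g1⁻¹ * g2⁻¹
    have hc1' : c ∈ K₁ := by
      have h3 : g2 * g1⁻¹ * g2⁻¹ ∈ K₁ := hN1.conj_mem _ (K₁.inv_mem hg1) g2
      have h4 := K₁.mul_mem hg1 h3
      have h5 : c = g1 * (g2 * g1⁻¹ * g2⁻¹) := by simp only [c]; group
      rw [h5]; exact h4
    have hc2' : c ∈ K₂ := by
      have h3 : g1 * g2 * g1⁻¹ ∈ K₂ := hN2.conj_mem _ hg2 g1
      exact K₂.mul_mem h3 (K₂.inv_mem hg2)
    have hcr : ro (i.2.1 : ℕ) (β i.1 (i.2.1 : ℕ)) c = x * y * x⁻¹ * y⁻¹ := by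
      simp only [c, map_mul, map_inv, hr1, hr2]
    have hcne : ro (i.2.1 : ℕ) (β i.1 (i.2.1 : ℕ)) c ≠ 1 := by
      rw [hcr]
      intro h3
      apply hxy
      have h4 : x * y * x⁻¹ * y⁻¹ * y * x = 1 * y * x := by rw [h3]
      simpa using h4
    have hcpow : ro (i.2.1 : ℕ) (β i.1 (i.2.1 : ℕ)) c ^ (i.2.1 : ℕ) ^ k = 1 := by
      have h3 : ro (i.2.1 : ℕ) (β i.1 (i.2.1 : ℕ)) c ∈ R := by
        rw [hcr]
        exact R.mul_mem (R.mul_mem (R.mul_mem hx hy) (R.inv_mem hx)) (R.inv_mem hy)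
      have h4 : (⟨_, h3⟩ : R) ^ Nat.card R = 1 := pow_card_eq_one'
      rw [hRk] at h4
      exact congrArg Subtype.val h4
    obtain ⟨j, hj1, hj2⟩ := exists_order hcne hcpow
    refine hB i.1 (i.2.1 : ℕ) i.2.2 (K₁ ⊓ K₂) inferInstance ?_ ⟨c ^ (i.2.1 : ℕ) ^ j,
      (K₁ ⊓ K₂).pow_mem ⟨hc1', hc2'⟩ _, ?_, ?_⟩
    · exact hc1.inter hc2
    · intro h3
      apply hj1
      apply Units.ext
      rw [← map_pow, ro_val, h3]
      rfl
    · have h3 := congrArg Units.val hj2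
      rw [Units.val_pow_eq_pow_val, ← map_pow, ro_val] at h3
      exact h3
  · -- pairs
    intro i j hij m hm
    have hcl : IsClosed (((β j.1 (j.2.1 : ℕ)).ker : Subgroup Γ) : Set Γ) := by
      have h3 : (((β j.1 (j.2.1 : ℕ)).ker : Subgroup Γ) : Set Γ) = (β j.1 (j.2.1 : ℕ)) ⁻¹' {1} := by
        ext g; simp [MonoidHom.mem_ker]
      rw [h3]
      exact isClosed_singleton.preimage (hβ _ _)
    have hex : ∃ g ∈ (β j.1 (j.2.1 : ℕ)).ker, red (i.2.1 : ℕ) (β i.1 (i.2.1 : ℕ) g) ≠ 1 ∧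
        red (i.2.1 : ℕ) (β i.1 (i.2.1 : ℕ) g) ^ (i.2.1 : ℕ) = 1 := by
      by_cases hne : (i.2.1 : ℕ) = (j.2.1 : ℕ)
      · -- the same prime
        obtain ⟨i1, i2⟩ := i
        obtain ⟨j1, j2⟩ := j
        have h4 : i2 = j2 := Subtype.ext (Subtype.ext hne)
        subst h4
        have hfi : Fact ((i2.1 : ℕ)).Prime := ⟨i2.1.2⟩
        have hij' : i1 ≠ j1 := fun h5 => hij (by rw [h5])
        obtain ⟨g, hg1, hg2, hg3⟩ := hD i1 j1 (i2.1 : ℕ) hij' i2.2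
        exact ⟨g, hg1, hg2, hg3⟩
      · obtain ⟨R, k, hRk, hlift, x, hx, y, hy, hxy⟩ := hC i.1 (i.2.1 : ℕ) i.2.2
        by_contra hno
        refine hxy (comm_of_not2 hAB hne (hL j.1 _ i.2.2) (β := β i.1 (i.2.1 : ℕ))
          (β' := β j.1 (j.2.1 : ℕ)) R hRk ?_ ?_ x hx y hy)
        · intro r hr
          obtain ⟨mr, hmr, hmr'⟩ := hlift r hr
          obtain ⟨g, hg⟩ := hA i.1 (i.2.1 : ℕ) i.2.2 mr hmr
          refine ⟨g, ?_⟩
          apply Units.ext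
          rw [ro_val, hg, hmr']
        · intro g hg1 hg2
          by_contra hg3
          exact hno (exists_ker2 hne (hβ _ _) (hβ _ _) hg1 hg2 hg3)
    obtain ⟨g, hg, hgm⟩ := hB i.1 (i.2.1 : ℕ) i.2.2 (β j.1 (j.2.1 : ℕ)).ker inferInstance hcl hex m hm
    exact ⟨g, hg, hgm⟩

end Pool.Agent.T2H36.IX
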