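import Pool.Agent.T2H36.IX.Defs4

set_option autoImplicit false

/-!
Package EV of project IX (helper36), by helper18: an eigenvector, and an eigenvector modulo this
one, for two roots (with multiplicity) of the characteristic polynomial.
-/

open Matrix Polynomial

namespace Pool.Agent.T2H36.IX

theorem EvPf.eig {k : Type} [Field k] {n : ℕ} (A : Matrix (Fin n) (Fin n) k)
    (ν : Fin n → k) (h : A.charpoly = ∏ i, (X - C (ν i))) (i : Fin n) :
    ∃ v : Fin n → k, v ≠ 0 ∧ A *ᵥ v = ν i • v := by
  have h1 : Module.End.HasEigenvalue (Matrix.toLin' A) (ν i) := by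
    rw [Module.End.hasEigenvalue_iff_isRoot_charpoly, Matrix.charpoly_toLin', h, IsRoot,
      eval_prod]
    exact Finset.prod_eq_zero (Finset.mem_univ i) (by simp)
  obtain ⟨v, hv⟩ := h1.exists_hasEigenvector
  refine ⟨v, hv.2, ?_⟩
  have := hv.apply_eq_smul
  rwa [Matrix.toLin'_apply] at this

theorem ev_stmt : EVStmt := by
  classical
  intro k _ _ n A ν h i₀ j₀ hij
  obtain ⟨v, hv0, hv⟩ := EvPf.eig A ν h i₀
  by_cases hxy : ν j₀ = ν i₀
  · -- the generalised eigenspace
    let f : Module.End k (Fin n → k) := Matrix.toLin' A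
    have hcard : 2 ≤ Module.finrank k (f.maxGenEigenspace (ν i₀)) := by
      rw [LinearMap.finrank_maxGenEigenspace_eq, Matrix.charpoly_toLin', h]
      rw [Polynomial.le_rootMultiplicity_iff]
      · have h2 : ∏ i, (X - C (ν i)) = (X - C (ν i₀)) * ((X - C (ν j₀)) *
            ∏ i ∈ (Finset.univ.erase i₀).erase j₀, (X - C (ν i))) := by
          rw [Finset.mul_prod_erase _ (fun i => (X - C (ν i))) (Finset.mem_erase.2
            ⟨hij.symm, Finset.mem_univ j₀⟩), Finset.mul_prod_erase _ (fun i => (X - C (ν i)))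
            (Finset.mem_univ i₀)]
        rw [h2, hxy, pow_two, ← mul_assoc]
        exact Dvd.intro _ rfl
      · exact (monic_prod_of_monic _ _ fun i _ => monic_X_sub_C _).ne_zero
    have hex : ∃ w₀ ∈ f.maxGenEigenspace (ν i₀), w₀ ∉ Submodule.span k {v} := by
      by_contra hcon
      push Not at hcon
      have h3 : f.maxGenEigenspace (ν i₀) ≤ Submodule.span k {v} := fun w hw => hcon w hw
      have h4 := Submodule.finrank_mono h3
      have h5 : Module.finrank k (Submodule.span k {v}) ≤ 1 := (finrank_span_singleton hv0).le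
      omega
    obtain ⟨w₀, hw₀, hw₁⟩ := hex
    obtain ⟨N, hN⟩ := (Module.End.mem_maxGenEigenspace f (ν i₀) w₀).1 hw₀
    have hP : ∃ m : ℕ, ((f - ν i₀ • (1 : Module.End k (Fin n → k))) ^ m) w₀ ∈ Submodule.span k {v} :=
      ⟨N, by rw [hN]; exact Submodule.zero_mem _⟩
    have hm := Nat.find_spec hP
    have hmin := fun m => @Nat.find_min _ _ hP m
    set m := Nat.find hP with hmdef
    have hm0 : m ≠ 0 := by
      intro h0
      rw [h0] at hm
      exact hw₁ (by simpa using hm)
    obtain ⟨m', hm'⟩ := Nat.exists_eq_succ_of_ne_zero hm0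
    refine ⟨v, ((f - ν i₀ • (1 : Module.End k (Fin n → k))) ^ m') w₀, ?_⟩
    rw [hm', pow_succ', Module.End.mul_apply] at hm
    obtain ⟨c, hc⟩ := Submodule.mem_span_singleton.1 hm
    refine ⟨c, hv0, ?_, hv, ?_⟩
    · intro a ha
      apply hmin m' (by omega)
      rw [ha]
      exact Submodule.smul_mem _ _ (Submodule.mem_span_singleton_self v)
    · rw [hxy, hc]
      simp [f, Matrix.toLin'_apply]
  · obtain ⟨w, hw0, hw⟩ := EvPf.eig A ν h j₀
    refine ⟨v, w, 0, hv0, ?_, hv, by rw [zero_smul, add_zero]; exact hw⟩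
    intro a ha
    apply hw0
    rw [ha, Matrix.mulVec_smul, hv, smul_comm, ← sub_eq_zero, ← sub_smul] at hw
    rcases smul_eq_zero.1 hw with h1 | h1
    · exact absurd (sub_eq_zero.1 h1).symm hxy
    · rw [ha, h1]

end Pool.Agent.T2H36.IX
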