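import Pool.Agent.T2H36.IX.PAIR1

set_option autoImplicit false

/-!
Package PAIR: two representations modulo `ℓ` with big images are independent if the eigenvalues
of one element are.
-/

open Matrix Polynomial

namespace Pool.Agent.T2H36.IX

namespace PR

section unip

variable {ℓ : ℕ} [hp : Fact ℓ.Prime]

/-- unipotent elements are exponentials -/
theorem exp_of_pow {n : ℕ} (hn : n < ℓ) (hn0 : 0 < n) {x : Matrix (Fin n) (Fin n) (ZMod ℓ)}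
    {a : ℕ} (hx : x ^ ℓ ^ a = 1) :
    ∃ N : Matrix (Fin n) (Fin n) (ZMod ℓ), N ^ n = 0 ∧ tex N = x := by
  have : Nonempty (Fin n) := ⟨⟨0, hn0⟩⟩
  have h1 : (x - 1) ^ ℓ ^ a = 0 := by
    rw [sub_pow_char_pow_of_commute ℓ _ (Commute.one_right _), one_pow, hx, sub_self]
  have h2 : (x - 1) ^ n = 0 := by
    have h3 : IsNilpotent (x - 1) := ⟨ℓ ^ a, h1⟩
    have h4 := Matrix.isNilpotent_charpoly_sub_pow_of_isNilpotent h3
    have h5 := Matrix.aeval_self_charpoly (x - 1)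
    have h6 := h4.eq_zero
    rw [sub_eq_zero] at h6
    rw [h6, map_pow, aeval_X, Fintype.card_fin] at h5
    exact h5
  exact tex_surj hn hn0 h2

theorem cop_pow {M : Type} [Monoid M] {a b : ℕ} (hab : Nat.Coprime a b) {s : M}
    (ha : s ^ a = 1) (hb : s ^ b = 1) : s = 1 := by
  have h1 := orderOf_dvd_of_pow_eq_one ha
  have h2 := orderOf_dvd_of_pow_eq_one hb
  have h3 := Nat.dvd_gcd h1 h2
  rw [hab.gcd_eq_one, Nat.dvd_one] at h3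
  exact orderOf_eq_one_iff.1 h3

theorem exists_S {Γ : Type} [Group Γ] {n m : ℕ} (hn : n < ℓ) (hn0 : 0 < n) (hm : m < ℓ)
    (hm0 : 0 < m) (f : Γ →* Matrix (Fin n) (Fin n) (ZMod ℓ))
    (f' : Γ →* Matrix (Fin m) (Fin m) (ZMod ℓ)) (h : ∃ g, f g ≠ 1 ∧ f g ^ ℓ = 1) :
    ∃ (g : Γ) (N : Matrix (Fin n) (Fin n) (ZMod ℓ)) (N' : Matrix (Fin m) (Fin m) (ZMod ℓ)),
      N ^ n = 0 ∧ N' ^ m = 0 ∧ f g = tex N ∧ f' g = tex N' ∧ N ≠ 0 := by
  obtain ⟨g, hg1, hgl⟩ := h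
  have he : orderOf (f'.toHomUnits g) ≠ 0 := (orderOf_pos _).ne'
  obtain ⟨a, m', hm', hea⟩ := Nat.exists_eq_pow_mul_and_not_dvd he ℓ hp.out.one_lt.ne'
  have h1 : f' g ^ orderOf (f'.toHomUnits g) = 1 := by
    have h2 := congrArg Units.val (pow_orderOf_eq_one (f'.toHomUnits g))
    rw [Units.val_pow_eq_pow_val, Units.val_one] at h2
    exact h2
  have h2 : f' (g ^ m') ^ ℓ ^ a = 1 := by
    rw [map_pow, ← pow_mul, mul_comm, ← hea, h1]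
  have h3 : f (g ^ m') ^ ℓ ^ 1 = 1 := by
    rw [map_pow, ← pow_mul, pow_one, mul_comm, pow_mul, hgl, one_pow]
  obtain ⟨N, hN, hNx⟩ := exp_of_pow hn hn0 h3
  obtain ⟨N', hN', hNx'⟩ := exp_of_pow hm hm0 h2
  refine ⟨g ^ m', N, N', hN, hN', hNx.symm, hNx'.symm, ?_⟩
  rintro rfl
  rw [tex_zero' hn0] at hNx
  apply hg1
  apply cop_pow (a := ℓ) (b := m') ((Nat.Prime.coprime_iff_not_dvd hp.out).2 hm') hgl
  rw [← map_pow]
  exact hNx.symm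

end unip

section lie

variable {F : Type} [Field F] {n : ℕ}

/-- the Lie algebra of a form -/
def soM (B : Matrix (Fin n) (Fin n) F) : Submodule F (Matrix (Fin n) (Fin n) F) where
  carrier := {X | Xᵀ * B + B * X = 0}
  add_mem' := by
    intro X Y hX hY
    simp only [Set.mem_ofPred_eq] at *
    rw [transpose_add, add_mul, mul_add]
    calc Xᵀ * B + Yᵀ * B + (B * X + B * Y) = (Xᵀ * B + B * X) + (Yᵀ * B + B * Y) := by abel
      _ = 0 := by rw [hX, hY, add_zero]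
  zero_mem' := by simp
  smul_mem' := by
    intro c X hX
    simp only [Set.mem_ofPred_eq] at *
    rw [transpose_smul, smul_mul_assoc, mul_smul_comm, ← smul_add, hX, smul_zero]

theorem mem_soM {B X : Matrix (Fin n) (Fin n) F} : X ∈ soM B ↔ Xᵀ * B + B * X = 0 := Iff.rfl

end lie

section lin

variable {F : Type} [Field F] {n₁ n₂ : ℕ} {Γ : Type} [Group Γ]

/-- conjugation of pairs -/
def cj (f₁ : Γ →* Matrix (Fin n₁) (Fin n₁) F) (f₂ : Γ →* Matrix (Fin n₂) (Fin n₂) F) (g : Γ) :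
    (Matrix (Fin n₁) (Fin n₁) F × Matrix (Fin n₂) (Fin n₂) F) →ₗ[F]
    (Matrix (Fin n₁) (Fin n₁) F × Matrix (Fin n₂) (Fin n₂) F) where
  toFun p := (f₁ g * p.1 * f₁ g⁻¹, f₂ g * p.2 * f₂ g⁻¹)
  map_add' p q := by
    rw [Prod.fst_add, Prod.snd_add, mul_add, add_mul, mul_add, add_mul]
    rfl
  map_smul' c p := by
    rw [Prod.smul_fst, Prod.smul_snd, mul_smul_comm, smul_mul_assoc, mul_smul_comm,
      smul_mul_assoc]
    rfl

/-- Goursat's lemma: a stable space of pairs with full projections is everything if the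
eigenvalues are independent -/
theorem goursat (hEV : EVStmt) {k : Type} [Field k] [Algebra F k] [IsAlgClosed k]
    {f₁ : Γ →* Matrix (Fin n₁) (Fin n₁) F} {f₂ : Γ →* Matrix (Fin n₂) (Fin n₂) F}
    {B₁ : Matrix (Fin n₁) (Fin n₁) F} {B₂ : Matrix (Fin n₂) (Fin n₂) F} (hB₁ : B₁ᵀ = B₁)
    (hd₁ : B₁.det ≠ 0) (hi₁ : ∀ g, (f₁ g)ᵀ * B₁ * f₁ g = B₁)
    (hs₁ : ∀ V : Submodule F (Matrix (Fin n₁) (Fin n₁) F),
      (∀ X ∈ V, Xᵀ * B₁ + B₁ * X = 0) → (∀ g, ∀ X ∈ V, f₁ g * X * f₁ g⁻¹ ∈ V) →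
      (∃ X ∈ V, X ≠ 0) → ∀ X : Matrix (Fin n₁) (Fin n₁) F, Xᵀ * B₁ + B₁ * X = 0 → X ∈ V)
    (hs₂ : ∀ V : Submodule F (Matrix (Fin n₂) (Fin n₂) F),
      (∀ X ∈ V, Xᵀ * B₂ + B₂ * X = 0) → (∀ g, ∀ X ∈ V, f₂ g * X * f₂ g⁻¹ ∈ V) →
      (∃ X ∈ V, X ≠ 0) → ∀ X : Matrix (Fin n₂) (Fin n₂) F, Xᵀ * B₂ + B₂ * X = 0 → X ∈ V)
    {g₀ : Γ} {ν₁ : Fin n₁ → k} {ν₂ : Fin n₂ → k}
    (hch₁ : (f₁ g₀).charpoly.map (algebraMap F k) = ∏ i, (X - C (ν₁ i)))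
    (hch₂ : (f₂ g₀).charpoly.map (algebraMap F k) = ∏ i, (X - C (ν₂ i)))
    {i₀ j₀ : Fin n₁} (hij : i₀ ≠ j₀) (hne : ∀ c d, ν₁ i₀ * ν₁ j₀ * ν₂ d ≠ ν₂ c)
    {L : Submodule F (Matrix (Fin n₁) (Fin n₁) F × Matrix (Fin n₂) (Fin n₂) F)}
    (hL : ∀ p ∈ L, p.1ᵀ * B₁ + B₁ * p.1 = 0 ∧ p.2ᵀ * B₂ + B₂ * p.2 = 0)
    (hst : ∀ g, ∀ p ∈ L, cj f₁ f₂ g p ∈ L) (hne₁ : ∃ p ∈ L, p.1 ≠ 0) (hne₂ : ∃ p ∈ L, p.2 ≠ 0)
    {X : Matrix (Fin n₁) (Fin n₁) F} {Y : Matrix (Fin n₂) (Fin n₂) F}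
    (hX : Xᵀ * B₁ + B₁ * X = 0) (hY : Yᵀ * B₂ + B₂ * Y = 0) : (X, Y) ∈ L := by
  have hfst : ∀ X : Matrix (Fin n₁) (Fin n₁) F, Xᵀ * B₁ + B₁ * X = 0 → ∃ Y, (X, Y) ∈ L := by
    intro X hX
    have h1 := hs₁ (L.map (LinearMap.fst F _ _)) (by
      rintro _ ⟨p, hp, rfl⟩
      exact (hL p hp).1) (by
      rintro g _ ⟨p, hp, rfl⟩
      exact ⟨_, hst g p hp, rfl⟩) (by
      obtain ⟨p, hp, hp1⟩ := hne₁
      exact ⟨p.1, ⟨p, hp, rfl⟩, hp1⟩) X hX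
    obtain ⟨p, hp, rfl⟩ := h1
    exact ⟨p.2, hp⟩
  have hsnd : ∀ Y : Matrix (Fin n₂) (Fin n₂) F, Yᵀ * B₂ + B₂ * Y = 0 → ∃ X, (X, Y) ∈ L := by
    intro Y hY
    have h1 := hs₂ (L.map (LinearMap.snd F _ _)) (by
      rintro _ ⟨p, hp, rfl⟩
      exact (hL p hp).2) (by
      rintro g _ ⟨p, hp, rfl⟩
      exact ⟨_, hst g p hp, rfl⟩) (by
      obtain ⟨p, hp, hp1⟩ := hne₂
      exact ⟨p.2, ⟨p, hp, rfl⟩, hp1⟩) Y hY
    obtain ⟨p, hp, rfl⟩ := h1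
    exact ⟨p.1, hp⟩
  have hinl : ∀ X : Matrix (Fin n₁) (Fin n₁) F, Xᵀ * B₁ + B₁ * X = 0 →
      (X, (0 : Matrix (Fin n₂) (Fin n₂) F)) ∈ L := by
    intro X hX
    have h1 := hs₁ (L.comap (LinearMap.inl F _ _)) (by
      intro X hX
      exact (hL (X, 0) hX).1) (by
      intro g X hX
      have h2 := hst g (X, 0) hX
      have h3 : cj f₁ f₂ g (X, 0) = (f₁ g * X * f₁ g⁻¹, 0) := by
        show (f₁ g * X * f₁ g⁻¹, f₂ g * 0 * f₂ g⁻¹) = _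
        rw [mul_zero, zero_mul]
      rw [h3] at h2
      exact h2) (by
      obtain ⟨X', hX', hX0⟩ := core (k := k) hEV (A := f₁ g₀) (Ai := f₁ g₀⁻¹) (A₂ := f₂ g₀)
        (A₂i := f₂ g₀⁻¹) (by rw [← map_mul, mul_inv_cancel, map_one])
        (by rw [← map_mul, mul_inv_cancel, map_one]) hB₁ hd₁ (hi₁ g₀) hch₁ hch₂ hij hne
      refine ⟨_, ?_, hX0⟩
      obtain ⟨Y', hY'⟩ := hfst X' hX'
      set q := (kr (f₂ g₀) (f₂ g₀⁻¹)).charpoly with hq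
      have h2 : ∑ i ∈ Finset.range (q.natDegree + 1), q.coeff i • cj f₁ f₂ (g₀ ^ i) (X', Y') ∈ L :=
        Submodule.sum_mem _ fun i _ => Submodule.smul_mem _ _ (hst _ _ hY')
      have h3 : ∑ i ∈ Finset.range (q.natDegree + 1), q.coeff i • cj f₁ f₂ (g₀ ^ i) (X', Y') =
          (∑ i ∈ Finset.range (q.natDegree + 1), q.coeff i • (f₁ g₀ ^ i * X' * f₁ g₀⁻¹ ^ i), 0) := by
        apply Prod.ext
        · rw [Prod.fst_sum]
          refine Finset.sum_congr rfl fun i _ => ?_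
          show q.coeff i • (f₁ (g₀ ^ i) * X' * f₁ (g₀ ^ i)⁻¹) = _
          rw [map_pow, ← inv_pow, map_pow]
        · rw [Prod.snd_sum]
          refine Eq.trans ?_ (kr_ch (f₂ g₀) (f₂ g₀⁻¹) Y')
          refine Finset.sum_congr rfl fun i _ => ?_
          show q.coeff i • (f₂ (g₀ ^ i) * Y' * f₂ (g₀ ^ i)⁻¹) = _
          rw [map_pow, ← inv_pow, map_pow]
      rw [h3] at h2
      exact h2) X hX
    exact h1
  obtain ⟨X', hX'⟩ := hsnd Y hY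
  have h1 := hinl (X - X') ((soM B₁).sub_mem (x := X) (y := X') hX (hL _ hX').1)
  have h2 := L.add_mem h1 hX'
  rwa [Prod.mk_add_mk, sub_add_cancel, zero_add] at h2

end lin

section count

variable {ℓ : ℕ} [hp : Fact ℓ.Prime] {n₁ n₂ : ℕ} {Γ : Type} [Group Γ]

/-- the image of a pair of representations has at most as many elements as the product of the
image of the kernel of the second one and the second isometry group -/
theorem card_pair (f₁ : Γ →* Matrix (Fin n₁) (Fin n₁) (ZMod ℓ))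
    (f₂ : Γ →* Matrix (Fin n₂) (Fin n₂) (ZMod ℓ)) {B₂ : Matrix (Fin n₂) (Fin n₂) (ZMod ℓ)}
    (hi₂ : ∀ g, (f₂ g)ᵀ * B₂ * f₂ g = B₂) :
    (Set.range fun g => bd (f₁ g, f₂ g)).ncard ≤
      Nat.card ((f₂.toHomUnits).ker.map f₁.toHomUnits) * Nat.card (isoG B₂) := by
  classical
  set φ : Γ →* (Matrix (Fin n₁) (Fin n₁) (ZMod ℓ))ˣ × (Matrix (Fin n₂) (Fin n₂) (ZMod ℓ))ˣ :=
    f₁.toHomUnits.prod f₂.toHomUnits with hφ
  have h1 : (Set.range fun g => bd (f₁ g, f₂ g)).ncard ≤ Nat.card φ.range := by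
    have h2 : (Set.range fun g => bd (f₁ g, f₂ g)) =
        (fun x : (Matrix (Fin n₁) (Fin n₁) (ZMod ℓ))ˣ × (Matrix (Fin n₂) (Fin n₂) (ZMod ℓ))ˣ =>
          bd ((x.1 : Matrix (Fin n₁) (Fin n₁) (ZMod ℓ)),
            (x.2 : Matrix (Fin n₂) (Fin n₂) (ZMod ℓ)))) '' (φ.range : Set _) := by
      ext y
      constructor
      · rintro ⟨g, rfl⟩
        exact ⟨φ g, ⟨g, rfl⟩, rfl⟩
      · rintro ⟨_, ⟨g, rfl⟩, rfl⟩
        exact ⟨g, rfl⟩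
    rw [h2]
    exact Set.ncard_image_le (Set.toFinite _)
  refine h1.trans ?_
  set ψ : φ.range →* (Matrix (Fin n₂) (Fin n₂) (ZMod ℓ))ˣ :=
    (MonoidHom.snd _ _).comp φ.range.subtype with hψ
  have h2 : Nat.card φ.range = Nat.card ψ.range * Nat.card ψ.ker := by
    rw [Subgroup.card_eq_card_quotient_mul_card_subgroup ψ.ker,
      Nat.card_congr (QuotientGroup.quotientKerEquivRange ψ).toEquiv]
  have h3 : Nat.card ψ.range ≤ Nat.card (isoG B₂) := by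
    apply Subgroup.card_le_of_le
    rintro _ ⟨⟨_, ⟨g, rfl⟩⟩, rfl⟩
    exact hi₂ g
  have h4 : Nat.card ψ.ker ≤ Nat.card ((f₂.toHomUnits).ker.map f₁.toHomUnits) := by
    have h5 : ∀ x : ψ.ker, x.1.1.1 ∈ (f₂.toHomUnits).ker.map f₁.toHomUnits := by
      rintro ⟨⟨_, ⟨g, rfl⟩⟩, hx⟩
      exact ⟨g, hx, rfl⟩
    apply Nat.card_le_card_of_injective (fun x : ψ.ker =>
      (⟨x.1.1.1, h5 x⟩ : (f₂.toHomUnits).ker.map f₁.toHomUnits))
    rintro ⟨⟨x, hx⟩, hx2⟩ ⟨⟨y, hy⟩, hy2⟩ hxy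
    have h6 : x.1 = y.1 := congrArg Subtype.val hxy
    have h7 : x.2 = 1 := hx2
    have h8 : y.2 = 1 := hy2
    apply Subtype.ext
    apply Subtype.ext
    exact Prod.ext h6 (h7.trans h8.symm)
  rw [h2, mul_comm]
  exact Nat.mul_le_mul h4 h3

theorem card_iso (h2ℓ : (2 : ZMod ℓ) ≠ 0) {n : ℕ} {B : Matrix (Fin n) (Fin n) (ZMod ℓ)}
    (hB : Bᵀ = B) (hdet : B.det ≠ 0) :
    Nat.card (isoG B) ≤ 2 ^ n * ℓ ^ (n * (n - 1) / 2) := by
  have h1 := o_stmt (ZMod ℓ) h2ℓ n B hB hdet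
  rw [ZMod.card] at h1
  refine le_trans (le_of_eq ?_) h1
  have h2 : {g : Matrix (Fin n) (Fin n) (ZMod ℓ) | gᵀ * B * g = B} =
      (fun u : (Matrix (Fin n) (Fin n) (ZMod ℓ))ˣ =>
      (u : Matrix (Fin n) (Fin n) (ZMod ℓ))) '' (isoG B : Set _) := by
    ext x
    constructor
    · intro hx
      have hx' : xᵀ * B * x = B := hx
      have h3 : IsUnit x := by
        rw [Matrix.isUnit_iff_isUnit_det, isUnit_iff_ne_zero]
        intro h4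
        have h5 := congrArg Matrix.det hx'
        rw [det_mul, h4, mul_zero] at h5
        exact hdet h5.symm
      obtain ⟨u, rfl⟩ := h3
      exact ⟨u, hx', rfl⟩
    · rintro ⟨u, hu, rfl⟩
      exact hu
  rw [h2, Set.ncard_image_of_injective _ Units.val_injective]
  rfl

end count

end PR

open PR in
theorem pair_stmt : EVStmt → PairStmt := by
  intro hEV n₁ n₂ hn₁ hn₂
  obtain ⟨c, hc⟩ := e_stmt c_stmt (n₁ + n₂) (n₁ * (n₁ - 1) / 2 + n₂ * (n₂ - 1) / 2)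
  refine ⟨2 * (n₁ + n₂) + 2 ^ n₁ * (2 ^ n₂ * c), ?_⟩
  intro ℓ hℓ hCℓ Γ _ f₁ f₂ B₁ B₂ hB₁ hB₂ hd₁ hd₂ hi₁ hi₂ hs₁ hs₂ hu₁ hu₂ g₀ ν₁ ν₂ hch₁ hch₂
    i₀ j₀ hij hne u hu hul
  classical
  have hn₁ℓ : n₁ < ℓ := by omega
  have hn₂ℓ : n₂ < ℓ := by omega
  have h2ℓ : (2 : ZMod ℓ) ≠ 0 := by
    intro h2
    have h3 : ((2 : ℕ) : ZMod ℓ) = 0 := by exact_mod_cast h2
    rw [ZMod.natCast_eq_zero_iff] at h3
    exact absurd (Nat.le_of_dvd (by norm_num) h3) (by omega)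
  set S : Set (Matrix (Fin n₁) (Fin n₁) (ZMod ℓ) × Matrix (Fin n₂) (Fin n₂) (ZMod ℓ)) :=
    {p | p.1 ^ n₁ = 0 ∧ p.2 ^ n₂ = 0 ∧ ∃ g, f₁ g = tex p.1 ∧ f₂ g = tex p.2} with hSdef
  set L := Submodule.span (ZMod ℓ) S with hLdef
  have hinv₁ : ∀ g, f₁ g⁻¹ * f₁ g = 1 := fun g => by rw [← map_mul, inv_mul_cancel, map_one]
  have hinv₂ : ∀ g, f₂ g⁻¹ * f₂ g = 1 := fun g => by rw [← map_mul, inv_mul_cancel, map_one]
  have hLie : ∀ p ∈ L, p.1ᵀ * B₁ + B₁ * p.1 = 0 ∧ p.2ᵀ * B₂ + B₂ * p.2 = 0 := by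
    have h1 : L ≤ (soM B₁).prod (soM B₂) := by
      rw [hLdef, Submodule.span_le]
      rintro p ⟨hp1, hp2, g, hg1, hg2⟩
      exact ⟨log_lie hn₁ℓ (by omega) hd₁ hp1 (by rw [← hg1]; exact hi₁ g),
        log_lie hn₂ℓ (by omega) hd₂ hp2 (by rw [← hg2]; exact hi₂ g)⟩
    intro p hp
    exact h1 hp
  have hst : ∀ g, ∀ p ∈ L, cj f₁ f₂ g p ∈ L := by
    intro g
    have h1 : L ≤ L.comap (cj f₁ f₂ g) := by
      conv_lhs => rw [hLdef]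
      rw [Submodule.span_le]
      rintro p ⟨hp1, hp2, x, hx1, hx2⟩
      apply Submodule.subset_span
      refine ⟨conj_pow_zero (hinv₁ g) hp1, conj_pow_zero (hinv₂ g) hp2, g * x * g⁻¹, ?_, ?_⟩
      · show f₁ (g * x * g⁻¹) = tex (f₁ g * p.1 * f₁ g⁻¹)
        rw [tex_conj (hinv₁ g), ← hx1, map_mul, map_mul]
      · show f₂ (g * x * g⁻¹) = tex (f₂ g * p.2 * f₂ g⁻¹)
        rw [tex_conj (hinv₂ g), ← hx2, map_mul, map_mul]
    intro p hp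
    exact h1 hp
  have hne₁ : ∃ p ∈ L, p.1 ≠ 0 := by
    obtain ⟨g, N, N', hN, hN', h1, h2, h3⟩ := exists_S hn₁ℓ (by omega) hn₂ℓ (by omega) f₁ f₂ hu₁
    exact ⟨(N, N'), Submodule.subset_span ⟨hN, hN', g, h1, h2⟩, h3⟩
  have hne₂ : ∃ p ∈ L, p.2 ≠ 0 := by
    obtain ⟨g, N, N', hN, hN', h1, h2, h3⟩ := exists_S hn₂ℓ (by omega) hn₁ℓ (by omega) f₂ f₁ hu₂
    exact ⟨(N', N), Submodule.subset_span ⟨hN', hN, g, h2, h1⟩, h3⟩
  have hall : ∀ (X : Matrix (Fin n₁) (Fin n₁) (ZMod ℓ)) (Y : Matrix (Fin n₂) (Fin n₂) (ZMod ℓ)),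
      Xᵀ * B₁ + B₁ * X = 0 → Yᵀ * B₂ + B₂ * Y = 0 → (X, Y) ∈ L := fun X Y hX hY =>
    goursat hEV hB₁ hd₁ hi₁ hs₁ hs₂ hch₁ hch₂ hij hne hLie hst hne₁ hne₂ hX hY
  have hdim : n₁ * (n₁ - 1) / 2 + n₂ * (n₂ - 1) / 2 ≤ Module.finrank (ZMod ℓ) L := by
    have h1 : n₁ * (n₁ - 1) / 2 ≤ Module.finrank (ZMod ℓ) (soM B₁) :=
      finrank_so hB₁ hd₁ fun X hX => hX
    have h2 : n₂ * (n₂ - 1) / 2 ≤ Module.finrank (ZMod ℓ) (soM B₂) :=
      finrank_so hB₂ hd₂ fun X hX => hX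
    have h3 : Module.finrank (ZMod ℓ) (soM B₁ × soM B₂) ≤ Module.finrank (ZMod ℓ) L := by
      let Φ : (soM B₁ × soM B₂) →ₗ[ZMod ℓ] L :=
        { toFun := fun x => ⟨(x.1.1, x.2.1), hall _ _ x.1.2 x.2.2⟩
          map_add' := fun x y => rfl
          map_smul' := fun c x => rfl }
      apply LinearMap.finrank_le_finrank_of_injective (f := Φ)
      intro x y hxy
      have h4 : (x.1.1, x.2.1) = (y.1.1, y.2.1) := congrArg Subtype.val hxy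
      rw [Prod.mk.injEq] at h4
      exact Prod.ext (Subtype.ext h4.1) (Subtype.ext h4.2)
    rw [Module.finrank_prod] at h3
    omega
  -- counting
  set H : Subgroup (Matrix (Fin n₁) (Fin n₁) (ZMod ℓ))ˣ :=
    (f₂.toHomUnits).ker.map f₁.toHomUnits with hH
  have hHO : H ≤ isoG B₁ := by
    rintro x ⟨g, -, rfl⟩
    exact hi₁ g
  have hcard : ℓ ^ (n₁ * (n₁ - 1) / 2 + n₂ * (n₂ - 1) / 2) ≤
      c * (Nat.card H * Nat.card (isoG B₂)) := by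
    obtain ⟨f, hfS, -, hfli⟩ := Submodule.exists_fun_fin_finrank_span_eq (ZMod ℓ) S
    have h1 := hc ℓ (by omega) (fun i => bd (f (Fin.castLE hdim i)))
      (fun i => bd_nilp (hfS _).1 (hfS _).2.1)
      ((hfli.comp _ (Fin.castLE_injective hdim)).map' bd (LinearMap.ker_eq_bot.2 bd_inj))
      (Set.range fun g => bd (f₁ g, f₂ g)) ⟨1, by
        show bd (f₁ 1, f₂ 1) = 1
        rw [map_one, map_one]; exact bd_one⟩ (by
        rintro _ ⟨x, rfl⟩ _ ⟨y, rfl⟩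
        refine ⟨x * y, ?_⟩
        show bd (f₁ (x * y), f₂ (x * y)) = bd (f₁ x, f₂ x) * bd (f₁ y, f₂ y)
        rw [← bd_mul, map_mul, map_mul]
        rfl) (by
        intro i
        obtain ⟨hN1, hN2, g, hg1, hg2⟩ := hfS (Fin.castLE hdim i)
        refine ⟨g, ?_⟩
        show bd (f₁ g, f₂ g) = tex (bd (f (Fin.castLE hdim i)))
        rw [tex_bd hN1 hN2, hg1, hg2])
    exact h1.trans (Nat.mul_le_mul_left _ (card_pair f₁ f₂ hi₂))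
  have hlt : H.relIndex (isoG B₁) < ℓ := by
    have h1 : H.relIndex (isoG B₁) * Nat.card H = Nat.card (isoG B₁) := by
      have h2 := Subgroup.index_mul_card (H.subgroupOf (isoG B₁))
      rw [Nat.card_congr (Subgroup.subgroupOfEquivOfLe hHO).toEquiv] at h2
      exact h2
    have hHpos : 0 < Nat.card H := Nat.card_pos
    have hcO₂ := card_iso h2ℓ hB₂ hd₂
    have hcO₁ := card_iso h2ℓ hB₁ hd₁
    have h5 : ℓ ^ (n₁ * (n₁ - 1) / 2) ≤ c * (2 ^ n₂ * Nat.card H) := by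
      have h6 : ℓ ^ (n₁ * (n₁ - 1) / 2) * ℓ ^ (n₂ * (n₂ - 1) / 2) ≤
          (c * (2 ^ n₂ * Nat.card H)) * ℓ ^ (n₂ * (n₂ - 1) / 2) := by
        rw [← pow_add]
        refine hcard.trans ?_
        calc c * (Nat.card H * Nat.card (isoG B₂)) ≤
            c * (Nat.card H * (2 ^ n₂ * ℓ ^ (n₂ * (n₂ - 1) / 2))) :=
              Nat.mul_le_mul_left _ (Nat.mul_le_mul_left _ hcO₂)
          _ = _ := by ring
      exact Nat.le_of_mul_le_mul_right h6 (pow_pos hℓ.out.pos _)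
    by_contra hge
    rw [not_lt] at hge
    have h2 : ℓ * Nat.card H ≤ (2 ^ n₁ * (2 ^ n₂ * c)) * Nat.card H := by
      calc ℓ * Nat.card H ≤ H.relIndex (isoG B₁) * Nat.card H := Nat.mul_le_mul_right _ hge
        _ ≤ 2 ^ n₁ * ℓ ^ (n₁ * (n₁ - 1) / 2) := by rw [h1]; exact hcO₁
        _ ≤ 2 ^ n₁ * (c * (2 ^ n₂ * Nat.card H)) := Nat.mul_le_mul_left _ h5
        _ = _ := by ring
    have h3 := Nat.le_of_mul_le_mul_right h2 hHpos
    omega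
  have hfin : H.relIndex (isoG B₁) ≠ 0 := Subgroup.index_ne_zero_of_finite
  have h3 : IsUnit u := by
    rw [Matrix.isUnit_iff_isUnit_det, isUnit_iff_ne_zero]
    intro h4
    have h5 := congrArg Matrix.det hu
    rw [det_mul, h4, mul_zero] at h5
    exact hd₁ h5.symm
  obtain ⟨x, rfl⟩ := h3
  obtain ⟨g, hg, hg'⟩ := mem_of_index hfin hlt (x := x) hu (Units.ext (by
    rw [Units.val_pow_eq_pow_val, hul, Units.val_one]))
  refine ⟨g, ?_, ?_⟩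
  · exact congrArg Units.val hg
  · exact congrArg Units.val hg'

end Pool.Agent.T2H36.IX
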