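import Pool.Agent.T2H36.IX.Defs

set_option autoImplicit false

/-!
Package R of project IX (helper36), by helper63: reduction of the eigenvalues modulo large primes.
-/

open Matrix Polynomial

namespace Pool.Agent.T2H36.IX.RR

/-- the ring of algebraic integers -/
abbrev O : Type := integralClosure ℤ ℂ

/-- every prime admits a homomorphism from the algebraic integers to the algebraic closure -/
theorem exists_hom (ℓ : ℕ) [Fact ℓ.Prime] : Nonempty (O →+* AlgebraicClosure (ZMod ℓ)) := by
  classical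
  have hp : Prime (ℓ : ℤ) := Nat.prime_iff_prime_int.1 (Fact.out)
  have hmax : (Ideal.span {(ℓ : ℤ)}).IsMaximal :=
    PrincipalIdealRing.isMaximal_of_irreducible hp.irreducible
  have hker : RingHom.ker (algebraMap ℤ O) ≤ Ideal.span {(ℓ : ℤ)} := by
    intro x hx
    rw [RingHom.mem_ker] at hx
    have h1 : (x : ℤ) = 0 := by
      have h2 : (algebraMap O ℂ) (algebraMap ℤ O x) = 0 := by rw [hx]; simp
      rw [← IsScalarTower.algebraMap_apply] at h2
      simpa using h2
    rw [h1]; exact Ideal.zero_mem _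
  obtain ⟨Q, hQ, hcomap⟩ := Ideal.exists_ideal_over_maximal_of_isIntegral (S := O)
    (Ideal.span {(ℓ : ℤ)}) hker
  let := Ideal.Quotient.field Q
  have hl : ((ℓ : ℕ) : O ⧸ Q) = 0 := by
    have h1 : (ℓ : ℤ) ∈ Q.comap (algebraMap ℤ O) := by
      rw [hcomap]; exact Ideal.subset_span rfl
    rw [Ideal.mem_comap] at h1
    have h2 := Ideal.Quotient.eq_zero_iff_mem.2 h1
    simpa using h2
  have : CharP (O ⧸ Q) ℓ := (CharP.charP_iff_prime_eq_zero Fact.out).2 hl
  let : Algebra (ZMod ℓ) (O ⧸ Q) := ZMod.algebra _ ℓ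
  have : Algebra.IsAlgebraic (ZMod ℓ) (O ⧸ Q) := by
    refine ⟨fun x => ?_⟩
    obtain ⟨y, rfl⟩ := Ideal.Quotient.mk_surjective x
    have hy : IsIntegral ℤ y := by
      have := y.2
      exact (isIntegral_algebraMap_iff (B := ℂ) Subtype.coe_injective).1 this
    have h1 : IsIntegral ℤ ((Ideal.Quotient.mk Q) y) := hy.map (Ideal.Quotient.mkₐ ℤ Q)
    have h2 : IsIntegral (ZMod ℓ) ((Ideal.Quotient.mk Q) y) := by
      have : IsScalarTower ℤ (ZMod ℓ) (O ⧸ Q) := by
        refine IsScalarTower.of_algebraMap_eq fun z => ?_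
        simp
      exact h1.tower_top
    exact h2.isAlgebraic
  exact ⟨((IsAlgClosed.lift (R := ZMod ℓ) (S := O ⧸ Q) (M := AlgebraicClosure (ZMod ℓ))) :
    (O ⧸ Q) →+* AlgebraicClosure (ZMod ℓ)).comp (Ideal.Quotient.mk Q)⟩

theorem aeval_eq {ι : Type} {K : Type} [CommRing K] [Algebra ℤ K] (x : ι → K)
    (e : MvPolynomial ι ℤ) :
    MvPolynomial.aeval x e = MvPolynomial.eval₂ (Int.castRingHom K) x e := by
  rw [MvPolynomial.aeval_def]
  congr 1
  exact RingHom.ext_int _ _

theorem hom_ev {ι : Type} {K K' : Type} [CommRing K] [CommRing K'] (f : K →+* K') (x : ι → K)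
    (e : MvPolynomial ι ℤ) :
    f (MvPolynomial.eval₂ (Int.castRingHom K) x e) =
      MvPolynomial.eval₂ (Int.castRingHom K') (fun i => f (x i)) e := by
  rw [MvPolynomial.eval₂_comp_left]
  congr 1
  exact RingHom.ext_int _ _

/-- simultaneous reduction of finitely many complex numbers, given as `x i = u i / D` with `u i`
algebraic integers, at a prime not dividing `D` -/
theorem exists_red {ι : Type} [Finite ι] (x : ι → ℂ) (D : ℤ) (hD : D ≠ 0)
    (hx : ∀ i, IsIntegral ℤ (D • x i)) (ℓ : ℕ) [Fact ℓ.Prime] (hl : D.natAbs < ℓ) :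
    ∃ y : ι → AlgebraicClosure (ZMod ℓ), ∀ e : MvPolynomial ι ℤ,
      MvPolynomial.aeval x e = 0 → MvPolynomial.aeval y e = 0 := by
  classical
  obtain ⟨φ⟩ := exists_hom ℓ
  let u : ι → O := fun i => ⟨D • x i, hx i⟩
  have hDl : (D : AlgebraicClosure (ZMod ℓ)) ≠ 0 := by
    intro h
    have : CharP (AlgebraicClosure (ZMod ℓ)) ℓ := inferInstance
    have h1 := (CharP.intCast_eq_zero_iff (AlgebraicClosure (ZMod ℓ)) ℓ D).1 h
    have h2 := Int.natAbs_dvd_natAbs.2 h1
    simp only [Int.natAbs_natCast] at h2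
    exact absurd (Nat.le_of_dvd (Int.natAbs_pos.2 hD) h2) (by omega)
  let L := Localization.Away (D : O)
  have hDO : (D : O) ≠ 0 := by
    intro h
    have : ((D : O) : ℂ) = 0 := by rw [h]; rfl
    apply hD
    have h2 : (D : ℂ) = 0 := by simpa using this
    exact_mod_cast h2
  let f : L →+* ℂ := IsLocalization.Away.lift (S := L) (D : O) (g := (algebraMap O ℂ)) (by
    rw [isUnit_iff_ne_zero]
    intro h
    apply hD
    have h2 : (D : ℂ) = 0 := by simpa using h
    exact_mod_cast h2)
  let ψ : L →+* AlgebraicClosure (ZMod ℓ) := IsLocalization.Away.lift (S := L) (D : O) (g := φ) (by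
    rw [isUnit_iff_ne_zero]
    simpa using hDl)
  have hf : Function.Injective f := by
    rw [injective_iff_map_eq_zero]
    intro a ha
    obtain ⟨n, b, hb⟩ := IsLocalization.Away.surj (D : O) a
    have h1 : f (algebraMap O L b) = 0 := by
      rw [← hb, map_mul, ha, zero_mul]
    have h2 : f (algebraMap O L b) = (b : ℂ) := by
      simp [f, IsLocalization.Away.lift_eq]
    rw [h2] at h1
    have h3 : b = 0 := Subtype.ext h1
    rw [h3, map_zero] at hb
    have hu : IsUnit (algebraMap O L (D : O)) := IsLocalization.Away.algebraMap_isUnit (D : O)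
    exact (hu.pow n).mul_left_eq_zero.1 hb
  -- the elements of the localization
  have hv : ∀ i, ∃ v : L, f v = x i := by
    intro i
    have hu : IsUnit (algebraMap O L (D : O)) := IsLocalization.Away.algebraMap_isUnit (D : O)
    obtain ⟨w, hw⟩ := hu.exists_right_inv
    refine ⟨algebraMap O L (u i) * w, ?_⟩
    have h1 : f (algebraMap O L (D : O)) * f w = 1 := by rw [← map_mul, hw, map_one]
    have h2 : f (algebraMap O L (D : O)) = (D : ℂ) := by
      simp [f]
    have h3 : f (algebraMap O L (u i)) = D • x i := by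
      simp [f, IsLocalization.Away.lift_eq, u]
    rw [map_mul, h3, zsmul_eq_mul, mul_right_comm, ← h2, h1, one_mul]
  choose v hv using hv
  refine ⟨fun i => ψ (v i), fun e he => ?_⟩
  rw [aeval_eq] at he ⊢
  have h1 : f (MvPolynomial.eval₂ (Int.castRingHom L) v e) = 0 := by
    rw [hom_ev]
    have h4 : (fun i => f (v i)) = x := funext hv
    rw [h4, he]
  have h5 : MvPolynomial.eval₂ (Int.castRingHom L) v e = 0 := hf (by rw [h1, map_zero])
  rw [← hom_ev, h5, map_zero]

/-- the universal monic polynomial with given roots -/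
noncomputable def U (n : ℕ) : (MvPolynomial (Fin n) ℤ)[X] :=
  ∏ i : Fin n, (X - C (MvPolynomial.X i))

theorem U_map {n : ℕ} {K : Type} [CommRing K] [Algebra ℤ K] (lam : Fin n → K) (k : ℕ) :
    MvPolynomial.aeval lam ((U n).coeff k) = (∏ i, (X - C (lam i)) : K[X]).coeff k := by
  have h : (U n).map (MvPolynomial.aeval (R := ℤ) lam : MvPolynomial (Fin n) ℤ →+* K) =
      ∏ i, (X - C (lam i)) := by
    rw [U, Polynomial.map_prod]
    refine Finset.prod_congr rfl fun i _ => ?_
    simp
  rw [← h, Polynomial.coeff_map]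
  rfl

end Pool.Agent.T2H36.IX.RR

namespace Pool.Agent.T2H36.IX

open RR

theorem r_stmt : RStmt := by
  classical
  intro n P lam hP E hE
  have hPm : P.Monic := by
    have h1 : (P.map (algebraMap ℚ ℂ)).Monic := by
      rw [hP]; exact monic_prod_of_monic _ _ fun i _ => monic_X_sub_C _
    exact (monic_map_iff (f := algebraMap ℚ ℂ)).1 h1
  have hPdeg : P.natDegree = n := by
    have h1 : (P.map (algebraMap ℚ ℂ)).natDegree = n := by
      rw [hP, natDegree_prod_of_monic _ _ fun i _ => monic_X_sub_C _]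
      simp
    rwa [natDegree_map] at h1
  -- all numbers are algebraic
  have halg : ∀ i, IsAlgebraic ℤ (lam i) := by
    intro i
    have h1 : IsAlgebraic ℚ (lam i) := by
      refine ⟨P, hPm.ne_zero, ?_⟩
      have h2 : (P.map (algebraMap ℚ ℂ)).eval (lam i) = 0 := by
        rw [hP, eval_prod]
        exact Finset.prod_eq_zero (Finset.mem_univ i) (by simp)
      rwa [eval_map_algebraMap] at h2
    exact (IsFractionRing.isAlgebraic_iff ℤ ℚ ℂ).2 h1
  let π : MvPolynomial (Fin n) ℤ := ∏ e ∈ E, e
  have hπ : MvPolynomial.aeval lam π ≠ 0 := by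
    simp only [π, map_prod]
    exact Finset.prod_ne_zero_iff.2 hE
  have halgπ : IsAlgebraic ℤ (MvPolynomial.aeval lam π)⁻¹ := by
    have h1 : MvPolynomial.aeval lam π ∈ Subalgebra.algebraicClosure ℤ ℂ := by
      have h2 : (MvPolynomial.aeval (R := ℤ) lam).range ≤ Subalgebra.algebraicClosure ℤ ℂ := by
        rw [← Algebra.adjoin_range_eq_range_aeval, Algebra.adjoin_le_iff]
        rintro _ ⟨i, rfl⟩
        exact halg i
      exact h2 ⟨π, rfl⟩
    have h2 : IsAlgebraic ℤ (MvPolynomial.aeval lam π) := h1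
    exact IsAlgebraic.inv h2
  let x : Option (Fin n) → ℂ := fun o => o.elim (MvPolynomial.aeval lam π)⁻¹ lam
  have hxa : ∀ o, IsAlgebraic ℤ (x o) := by
    intro o
    cases o with
    | none => exact halgπ
    | some i => exact halg i
  have hxm := fun o => (hxa o).exists_integral_multiple
  choose d hd0 hd using hxm
  let D : ℤ := ∏ o, d o
  have hD0 : D ≠ 0 := Finset.prod_ne_zero_iff.2 fun o _ => hd0 o
  have hD : ∀ o, IsIntegral ℤ (D • x o) := by
    intro o
    have h1 : D = (∏ j ∈ Finset.univ.erase o, d j) * d o :=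
      (Finset.prod_erase_mul _ _ (Finset.mem_univ o)).symm
    rw [h1, mul_smul]
    exact (hd o).smul _
  refine ⟨D.natAbs + ∑ k ∈ Finset.range (n + 1), (P.coeff k).den, ?_⟩
  intro ℓ _ hl A hA
  obtain ⟨y, hy⟩ := exists_red x D hD0 hD ℓ (by omega)
  have hrel : ∀ e : MvPolynomial (Fin n) ℤ, MvPolynomial.aeval lam e = 0 →
      MvPolynomial.aeval (fun i => y (some i)) e = 0 := by
    intro e he
    have h1 := hy (MvPolynomial.rename some e) (by
      rw [MvPolynomial.aeval_rename]
      exact he)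
    rw [MvPolynomial.aeval_rename] at h1
    exact h1
  have hden : ∀ k, (((P.coeff k).den : ℕ) : AlgebraicClosure (ZMod ℓ)) ≠ 0 := by
    intro k h
    have hc : CharP (AlgebraicClosure (ZMod ℓ)) ℓ := inferInstance
    have h1 := (CharP.cast_eq_zero_iff (AlgebraicClosure (ZMod ℓ)) ℓ _).1 h
    have h2 := Nat.le_of_dvd (P.coeff k).den_pos h1
    have hl1 : 1 < ℓ := (Fact.out : ℓ.Prime).one_lt
    by_cases hk : k < n + 1
    · have h3 : (P.coeff k).den ≤ ∑ k ∈ Finset.range (n + 1), (P.coeff k).den :=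
        Finset.single_le_sum (f := fun k => (P.coeff k).den) (fun _ _ => Nat.zero_le _)
          (Finset.mem_range.2 hk)
      omega
    · have h3 : P.coeff k = 0 := coeff_eq_zero_of_natDegree_lt (by omega)
      rw [h3] at h2
      simp at h2
      omega
  refine ⟨fun i => y (some i), ?_, ?_, hrel⟩
  · ext k
    -- left hand side
    have hA1 : ((A.charpoly.coeff k : ℤ_[ℓ]) : ℚ_[ℓ]) = ((P.coeff k : ℚ) : ℚ_[ℓ]) := by
      have h1 := congrArg (fun q => q.coeff k) hA
      simp only [coeff_map] at h1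
      rw [Matrix.charpoly_map, coeff_map] at h1
      simpa using h1
    have hA2 : (((P.coeff k).den : ℕ) : ℤ_[ℓ]) * A.charpoly.coeff k = (((P.coeff k).num : ℤ) : ℤ_[ℓ]) := by
      apply Subtype.coe_injective
      push_cast
      rw [hA1]
      have h2 : ((P.coeff k : ℚ)) * (P.coeff k).den = (P.coeff k).num := Rat.mul_den_eq_num _
      have h3 := congrArg (fun q : ℚ => (q : ℚ_[ℓ])) h2
      push_cast at h3
      rw [mul_comm]
      exact h3
    have hA3 : (((P.coeff k).den : ℕ) : ZMod ℓ) * (PadicInt.toZMod (A.charpoly.coeff k)) =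
        (((P.coeff k).num : ℤ) : ZMod ℓ) := by
      have := congrArg (PadicInt.toZMod (p := ℓ)) hA2
      simpa using this
    have hA4 : (((P.coeff k).den : ℕ) : AlgebraicClosure (ZMod ℓ)) *
        algebraMap (ZMod ℓ) (AlgebraicClosure (ZMod ℓ)) ((red ℓ A).charpoly.coeff k) =
        (((P.coeff k).num : ℤ) : AlgebraicClosure (ZMod ℓ)) := by
      have h1 := congrArg (algebraMap (ZMod ℓ) (AlgebraicClosure (ZMod ℓ))) hA3
      rw [map_mul, map_natCast, map_intCast] at h1
      rw [← h1, red, Matrix.charpoly_map, coeff_map]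
    -- right hand side
    have hB1 : MvPolynomial.aeval lam
        ((((P.coeff k).den : ℕ) : MvPolynomial (Fin n) ℤ) * (U n).coeff k -
          (((P.coeff k).num : ℤ) : MvPolynomial (Fin n) ℤ)) = 0 := by
      rw [map_sub, map_mul, U_map, ← hP, coeff_map, map_natCast, map_intCast]
      have h2 : ((P.coeff k : ℚ)) * (P.coeff k).den = (P.coeff k).num := Rat.mul_den_eq_num _
      have h3 := congrArg (fun q : ℚ => (q : ℂ)) h2
      push_cast at h3
      rw [mul_comm, sub_eq_zero]
      exact h3
    have hB2 := hrel _ hB1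
    rw [map_sub, map_mul, U_map, map_natCast, map_intCast, sub_eq_zero] at hB2
    rw [coeff_map]
    exact mul_left_cancel₀ (hden k) (hA4.trans hB2.symm)
  · intro e he h0
    have h1 := hy (MvPolynomial.X none * MvPolynomial.rename some π - 1) (by
      rw [map_sub, map_mul, MvPolynomial.aeval_rename, MvPolynomial.aeval_X, map_one]
      have : (x ∘ some) = lam := rfl
      rw [this]
      exact sub_eq_zero.2 (inv_mul_cancel₀ hπ))
    rw [map_sub, map_mul, MvPolynomial.aeval_rename, MvPolynomial.aeval_X, map_one] at h1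
    have h2 : MvPolynomial.aeval (y ∘ some) π = 0 := by
      simp only [π, map_prod]
      exact Finset.prod_eq_zero he h0
    rw [h2, mul_zero, zero_sub, neg_eq_zero] at h1
    exact one_ne_zero h1

end Pool.Agent.T2H36.IX
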