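import Pool.Agent.T2H36.IX.Defs4
import Pool.Agent.T2H36.IX.R

set_option autoImplicit false

/-!
Package SEP of project IX (helper36), by helper18: reduction of the roots of two polynomials
modulo all large primes.
-/

open Matrix Polynomial

namespace Pool.Agent.T2H36.IX.SepPf

open RR

/-- reduction of finitely many algebraic numbers with all relations and finitely many
non-relations -/
theorem exists_mu {ι : Type} [Finite ι] (lam : ι → ℂ) (halg : ∀ i, IsAlgebraic ℤ (lam i))
    (E : Finset (MvPolynomial ι ℤ)) (hE : ∀ e ∈ E, MvPolynomial.aeval lam e ≠ 0) :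
    ∃ b : ℕ, ∀ (ℓ : ℕ) [Fact ℓ.Prime], b < ℓ → ∃ mu : ι → AlgebraicClosure (ZMod ℓ),
      (∀ e ∈ E, MvPolynomial.aeval mu e ≠ 0) ∧
      ∀ e : MvPolynomial ι ℤ, MvPolynomial.aeval lam e = 0 → MvPolynomial.aeval mu e = 0 := by
  classical
  have := Fintype.ofFinite ι
  let π : MvPolynomial ι ℤ := ∏ e ∈ E, e
  have hπ : MvPolynomial.aeval lam π ≠ 0 := by
    simp only [π, map_prod]
    exact Finset.prod_ne_zero_iff.2 hE
  have halgπ : IsAlgebraic ℤ (MvPolynomial.aeval lam π)⁻¹ := by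
    have h1 : MvPolynomial.aeval lam π ∈ Subalgebra.algebraicClosure ℤ ℂ := by
      have h2 : (MvPolynomial.aeval (R := ℤ) lam).range ≤ Subalgebra.algebraicClosure ℤ ℂ := by
        rw [← Algebra.adjoin_range_eq_range_aeval, Algebra.adjoin_le_iff]
        rintro _ ⟨i, rfl⟩
        exact halg i
      exact h2 ⟨π, rfl⟩
    have h2 : IsAlgebraic ℤ (MvPolynomial.aeval lam π) := h1
    exact IsAlgebraic.inv h2
  let x : Option ι → ℂ := fun o => o.elim (MvPolynomial.aeval lam π)⁻¹ lam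
  have hxa : ∀ o, IsAlgebraic ℤ (x o) := by
    intro o
    cases o with
    | none => exact halgπ
    | some i => exact halg i
  have hxm := fun o => (hxa o).exists_integral_multiple
  choose d hd0 hd using hxm
  let D : ℤ := ∏ o, d o
  have hD0 : D ≠ 0 := Finset.prod_ne_zero_iff.2 fun o _ => hd0 o
  have hD : ∀ o, IsIntegral ℤ (D • x o) := by
    intro o
    have h1 : D = (∏ j ∈ Finset.univ.erase o, d j) * d o :=
      (Finset.prod_erase_mul _ _ (Finset.mem_univ o)).symm
    rw [h1, mul_smul]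
    exact (hd o).smul _
  refine ⟨D.natAbs, ?_⟩
  intro ℓ _ hl
  obtain ⟨y, hy⟩ := exists_red x D hD0 hD ℓ hl
  refine ⟨fun i => y (some i), ?_, ?_⟩
  · intro e he h0
    have h1 := hy (MvPolynomial.X none * MvPolynomial.rename some π - 1) (by
      rw [map_sub, map_mul, MvPolynomial.aeval_rename, MvPolynomial.aeval_X, map_one]
      have : (x ∘ some) = lam := rfl
      rw [this]
      exact sub_eq_zero.2 (inv_mul_cancel₀ hπ))
    rw [map_sub, map_mul, MvPolynomial.aeval_rename, MvPolynomial.aeval_X, map_one] at h1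
    have h2 : MvPolynomial.aeval (y ∘ some) π = 0 := by
      simp only [π, map_prod]
      exact Finset.prod_eq_zero he h0
    rw [h2, mul_zero, zero_sub, neg_eq_zero] at h1
    exact one_ne_zero h1
  · intro e he
    have h1 := hy (MvPolynomial.rename some e) (by
      rw [MvPolynomial.aeval_rename]
      exact he)
    rw [MvPolynomial.aeval_rename] at h1
    exact h1

theorem alg_roots {n : ℕ} {P : ℚ[X]} {lam : Fin n → ℂ}
    (hP : P.map (algebraMap ℚ ℂ) = ∏ i, (X - C (lam i))) (i : Fin n) : IsAlgebraic ℤ (lam i) := by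
  have hPm : P.Monic := by
    have h1 : (P.map (algebraMap ℚ ℂ)).Monic := by
      rw [hP]; exact monic_prod_of_monic _ _ fun i _ => monic_X_sub_C _
    exact (monic_map_iff (f := algebraMap ℚ ℂ)).1 h1
  have h1 : IsAlgebraic ℚ (lam i) := by
    refine ⟨P, hPm.ne_zero, ?_⟩
    have h2 : (P.map (algebraMap ℚ ℂ)).eval (lam i) = 0 := by
      rw [hP, eval_prod]
      exact Finset.prod_eq_zero (Finset.mem_univ i) (by simp)
    rwa [eval_map_algebraMap] at h2
  exact (IsFractionRing.isAlgebraic_iff ℤ ℚ ℂ).2 h1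

/-- if all relations of the roots `lam` hold for `mu`, then the `mu` are the roots of the reduced
characteristic polynomial -/
theorem charpoly_of_rel {n : ℕ} {P : ℚ[X]} {lam : Fin n → ℂ}
    (hP : P.map (algebraMap ℚ ℂ) = ∏ i, (X - C (lam i))) (ℓ : ℕ) [Fact ℓ.Prime]
    (hl : ∑ k ∈ Finset.range (n + 1), (P.coeff k).den < ℓ) (A : Matrix (Fin n) (Fin n) ℤ_[ℓ])
    (hA : (A.map (algebraMap ℤ_[ℓ] ℚ_[ℓ])).charpoly = P.map (algebraMap ℚ ℚ_[ℓ]))
    (mu : Fin n → AlgebraicClosure (ZMod ℓ))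
    (hrel : ∀ e : MvPolynomial (Fin n) ℤ, MvPolynomial.aeval lam e = 0 →
      MvPolynomial.aeval mu e = 0) :
    (red ℓ A).charpoly.map (algebraMap (ZMod ℓ) (AlgebraicClosure (ZMod ℓ))) =
        ∏ i, (X - C (mu i)) := by
  have hPdeg : P.natDegree = n := by
    have h1 : (P.map (algebraMap ℚ ℂ)).natDegree = n := by
      rw [hP, natDegree_prod_of_monic _ _ fun i _ => monic_X_sub_C _]
      simp
    rwa [natDegree_map] at h1
  have hden : ∀ k, (((P.coeff k).den : ℕ) : AlgebraicClosure (ZMod ℓ)) ≠ 0 := by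
    intro k h
    have hc : CharP (AlgebraicClosure (ZMod ℓ)) ℓ := inferInstance
    have h1 := (CharP.cast_eq_zero_iff (AlgebraicClosure (ZMod ℓ)) ℓ _).1 h
    have h2 := Nat.le_of_dvd (P.coeff k).den_pos h1
    have hl1 : 1 < ℓ := (Fact.out : ℓ.Prime).one_lt
    by_cases hk : k < n + 1
    · have h3 : (P.coeff k).den ≤ ∑ k ∈ Finset.range (n + 1), (P.coeff k).den :=
        Finset.single_le_sum (f := fun k => (P.coeff k).den) (fun _ _ => Nat.zero_le _)
          (Finset.mem_range.2 hk)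
      omega
    · have h3 : P.coeff k = 0 := coeff_eq_zero_of_natDegree_lt (by omega)
      rw [h3] at h2
      simp at h2
      omega
  ext k
  -- left hand side
  have hA1 : ((A.charpoly.coeff k : ℤ_[ℓ]) : ℚ_[ℓ]) = ((P.coeff k : ℚ) : ℚ_[ℓ]) := by
    have h1 := congrArg (fun q => q.coeff k) hA
    simp only [coeff_map] at h1
    rw [Matrix.charpoly_map, coeff_map] at h1
    simpa using h1
  have hA2 : (((P.coeff k).den : ℕ) : ℤ_[ℓ]) * A.charpoly.coeff k = (((P.coeff k).num : ℤ) : ℤ_[ℓ]) := by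
    apply Subtype.coe_injective
    push_cast
    rw [hA1]
    have h2 : ((P.coeff k : ℚ)) * (P.coeff k).den = (P.coeff k).num := Rat.mul_den_eq_num _
    have h3 := congrArg (fun q : ℚ => (q : ℚ_[ℓ])) h2
    push_cast at h3
    rw [mul_comm]
    exact h3
  have hA3 : (((P.coeff k).den : ℕ) : ZMod ℓ) * (PadicInt.toZMod (A.charpoly.coeff k)) =
      (((P.coeff k).num : ℤ) : ZMod ℓ) := by
    have := congrArg (PadicInt.toZMod (p := ℓ)) hA2
    simpa using this
  have hA4 : (((P.coeff k).den : ℕ) : AlgebraicClosure (ZMod ℓ)) *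
      algebraMap (ZMod ℓ) (AlgebraicClosure (ZMod ℓ)) ((red ℓ A).charpoly.coeff k) =
      (((P.coeff k).num : ℤ) : AlgebraicClosure (ZMod ℓ)) := by
    have h1 := congrArg (algebraMap (ZMod ℓ) (AlgebraicClosure (ZMod ℓ))) hA3
    rw [map_mul, map_natCast, map_intCast] at h1
    rw [← h1, red, Matrix.charpoly_map, coeff_map]
  -- right hand side
  have hB1 : MvPolynomial.aeval lam
      ((((P.coeff k).den : ℕ) : MvPolynomial (Fin n) ℤ) * (U n).coeff k -
        (((P.coeff k).num : ℤ) : MvPolynomial (Fin n) ℤ)) = 0 := by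
    rw [map_sub, map_mul, U_map, ← hP, coeff_map, map_natCast, map_intCast]
    have h2 : ((P.coeff k : ℚ)) * (P.coeff k).den = (P.coeff k).num := Rat.mul_den_eq_num _
    have h3 := congrArg (fun q : ℚ => (q : ℂ)) h2
    push_cast at h3
    rw [mul_comm, sub_eq_zero]
    exact h3
  have hB2 := hrel _ hB1
  rw [map_sub, map_mul, U_map, map_natCast, map_intCast, sub_eq_zero] at hB2
  rw [coeff_map]
  exact mul_left_cancel₀ (hden k) (hA4.trans hB2.symm)

end Pool.Agent.T2H36.IX.SepPf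

namespace Pool.Agent.T2H36.IX

open SepPf

theorem sep_stmt : SepStmt := by
  classical
  intro n₁ n₂ P₁ P₂ lam₁ lam₂ hP₁ hP₂ i₀ j₀ hsep
  let lam : Fin n₁ ⊕ Fin n₂ → ℂ := Sum.elim lam₁ lam₂
  let e : Fin n₂ × Fin n₂ → MvPolynomial (Fin n₁ ⊕ Fin n₂) ℤ := fun p =>
    MvPolynomial.X (Sum.inl i₀) * MvPolynomial.X (Sum.inl j₀) * MvPolynomial.X (Sum.inr p.1) -
      MvPolynomial.X (Sum.inr p.2)
  obtain ⟨b, hb⟩ := exists_mu lam (by
      rintro (i | i)
      · exact alg_roots hP₁ i
      · exact alg_roots hP₂ i) (Finset.univ.image e) (by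
      intro q hq
      obtain ⟨p, -, rfl⟩ := Finset.mem_image.1 hq
      simp only [e, map_sub, map_mul, MvPolynomial.aeval_X, lam, Sum.elim_inl, Sum.elim_inr]
      exact sub_ne_zero.2 (hsep p.2 p.1))
  refine ⟨b + (∑ k ∈ Finset.range (n₁ + 1), (P₁.coeff k).den) +
    (∑ k ∈ Finset.range (n₂ + 1), (P₂.coeff k).den), ?_⟩
  intro ℓ _ hl A₁ A₂ hA₁ hA₂
  obtain ⟨mu, hmu1, hmu2⟩ := hb ℓ (by omega)
  refine ⟨fun i => mu (Sum.inl i), fun i => mu (Sum.inr i), ?_, ?_, ?_⟩
  · refine charpoly_of_rel hP₁ ℓ (by omega) A₁ hA₁ _ ?_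
    intro q hq
    have h1 := hmu2 (MvPolynomial.rename Sum.inl q) (by
      rw [MvPolynomial.aeval_rename]
      exact hq)
    rw [MvPolynomial.aeval_rename] at h1
    exact h1
  · refine charpoly_of_rel hP₂ ℓ (by omega) A₂ hA₂ _ ?_
    intro q hq
    have h1 := hmu2 (MvPolynomial.rename Sum.inr q) (by
      rw [MvPolynomial.aeval_rename]
      exact hq)
    rw [MvPolynomial.aeval_rename] at h1
    exact h1
  · intro c d h
    have h1 := hmu1 (e (d, c)) (Finset.mem_image_of_mem _ (Finset.mem_univ _))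
    apply h1
    simp only [e, map_sub, map_mul, MvPolynomial.aeval_X]
    exact sub_eq_zero.2 h

end Pool.Agent.T2H36.IX
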