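import Pool.Agent.T2H36.IX.Defs2

set_option autoImplicit false

/-!
Package G (helper51, for helper36's project IX): the subgroup generated by the isometries of order
dividing `ℓ` has index at most two in the special orthogonal group over `ℤ/ℓ`, size at least three.
-/

open Module

namespace Pool.Agent.T2H36.IX.GP

variable {ℓ : ℕ} [Fact ℓ.Prime] {V : Type} [AddCommGroup V] [Module (ZMod ℓ) V]

/-- isometry -/
def Isom (b : V →ₗ[ZMod ℓ] V →ₗ[ZMod ℓ] ZMod ℓ) (g : End (ZMod ℓ) V) : Prop :=
  ∀ x y, b (g x) (g y) = b x y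

/-- generated by isometries of order `ℓ` -/
def E (b : V →ₗ[ZMod ℓ] V →ₗ[ZMod ℓ] ZMod ℓ) : Submonoid (End (ZMod ℓ) V) :=
  Submonoid.closure {g | Isom b g ∧ g ^ ℓ = 1}

variable (b : V →ₗ[ZMod ℓ] V →ₗ[ZMod ℓ] ZMod ℓ)

theorem Isom.mul {g h : End (ZMod ℓ) V} (hg : Isom b g) (hh : Isom b h) : Isom b (g * h) := by
  intro x y
  rw [Module.End.mul_apply, Module.End.mul_apply, hg, hh]

theorem Isom.one : Isom b (1 : End (ZMod ℓ) V) := fun x y => rfl

theorem Isom.pow {g : End (ZMod ℓ) V} (hg : Isom b g) (k : ℕ) : Isom b (g ^ k) := by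
  induction k with
  | zero => simpa using Isom.one b
  | succ k ih => rw [pow_succ]; exact ih.mul b hg

theorem E_isom {e : End (ZMod ℓ) V} (he : e ∈ E b) : Isom b e := by
  induction he using Submonoid.closure_induction with
  | mem x hx => exact hx.1
  | one => exact Isom.one b
  | mul x y _ _ hx hy => exact hx.mul b hy

theorem E_inv {e : End (ZMod ℓ) V} (he : e ∈ E b) : ∃ e' ∈ E b, e * e' = 1 ∧ e' * e = 1 := by
  have hp : 0 < ℓ := (Fact.out : ℓ.Prime).pos
  induction he using Submonoid.closure_induction with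
  | mem x hx =>
    refine ⟨x ^ (ℓ - 1), Submonoid.pow_mem _ (Submonoid.subset_closure hx) _, ?_, ?_⟩
    · rw [← pow_succ', Nat.sub_add_cancel hp, hx.2]
    · rw [← pow_succ, Nat.sub_add_cancel hp, hx.2]
  | one => exact ⟨1, Submonoid.one_mem _, by simp, by simp⟩
  | mul x y _ _ hx hy =>
    obtain ⟨x', hx', h1, h2⟩ := hx
    obtain ⟨y', hy', h3, h4⟩ := hy
    refine ⟨y' * x', Submonoid.mul_mem _ hy' hx', ?_, ?_⟩
    · calc x * y * (y' * x') = x * (y * y') * x' := by simp only [mul_assoc]
        _ = 1 := by rw [h3, mul_one, h1]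
    · calc y' * x' * (x * y) = y' * (x' * x) * y := by simp only [mul_assoc]
        _ = 1 := by rw [h2, mul_one, h4]

/-- `E` is stable under conjugation by isometries -/
theorem E_conj {t t' : End (ZMod ℓ) V} (ht : Isom b t) (h1 : t * t' = 1) (h2 : t' * t = 1)
    {e : End (ZMod ℓ) V} (he : e ∈ E b) : t * e * t' ∈ E b := by
  have ht' : Isom b t' := by
    intro x y
    rw [← ht (t' x) (t' y)]
    rw [← Module.End.mul_apply, ← Module.End.mul_apply, h1]; rfl
  induction he using Submonoid.closure_induction with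
  | mem x hx =>
    apply Submonoid.subset_closure
    refine ⟨(ht.mul b hx.1).mul b ht', ?_⟩
    have key : ∀ k : ℕ, (t * x * t') ^ k = t * x ^ k * t' := by
      intro k
      induction k with
      | zero => simp [h1]
      | succ k ih =>
        rw [pow_succ, ih, pow_succ]
        calc t * x ^ k * t' * (t * x * t') = t * x ^ k * (t' * t) * x * t' := by
              simp only [mul_assoc]
          _ = t * (x ^ k * x) * t' := by rw [h2]; simp only [mul_assoc, one_mul, mul_one]
    rw [key, hx.2, mul_one, h1]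
  | one => rw [mul_one, h1]; exact Submonoid.one_mem _
  | mul x y _ _ hx hy =>
    have : t * (x * y) * t' = (t * x * t') * (t * y * t') := by
      calc t * (x * y) * t' = t * x * 1 * y * t' := by simp only [mul_assoc, one_mul, mul_one]
        _ = _ := by rw [← h2]; simp only [mul_assoc]
    rw [this]
    exact Submonoid.mul_mem _ hx hy

theorem E_det [FiniteDimensional (ZMod ℓ) V] {e : End (ZMod ℓ) V} (he : e ∈ E b) :
    LinearMap.det e = 1 := by
  induction he using Submonoid.closure_induction with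
  | mem x hx =>
    have := congrArg LinearMap.det hx.2
    rwa [map_pow, ZMod.pow_card, map_one] at this
  | one => simp
  | mul x y _ _ hx hy => rw [map_mul, hx, hy, one_mul]

/-- reflections -/
def rf (u : V) : End (ZMod ℓ) V := LinearMap.transvection (b.flip u) (-(2 / b u u) • u)

theorem rf_apply (u x : V) : rf b u x = x - (2 * b x u / b u u) • u := by
  simp only [rf, LinearMap.transvection.apply, LinearMap.flip_apply, smul_smul, sub_eq_add_neg,
    ← neg_smul]
  congr 2
  ring

variable (hs : ∀ x y, b x y = b y x)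
include hs

theorem rf_isom {u : V} (hu : b u u ≠ 0) : Isom b (rf b u) := by
  intro x y
  simp only [rf_apply, map_sub, map_smul, LinearMap.sub_apply, LinearMap.smul_apply, smul_eq_mul]
  rw [hs u y]
  field_simp
  ring

omit hs in
theorem rf_self {u : V} (hu : b u u ≠ 0) : rf b u u = -u := by
  rw [rf_apply, mul_div_assoc, div_self hu, mul_one, two_smul]; abel

omit hs in
theorem rf_sq {u : V} (hu : b u u ≠ 0) : rf b u * rf b u = 1 := by
  ext x
  rw [Module.End.mul_apply, rf_apply b u (rf b u x), rf_apply]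
  simp only [map_sub, map_smul, LinearMap.sub_apply, LinearMap.smul_apply, smul_eq_mul,
    Module.End.one_apply]
  rw [sub_sub, ← add_smul]
  have : 2 * b x u / b u u + 2 * (b x u - 2 * b x u / b u u * b u u) / b u u = 0 := by
    field_simp
    ring
  rw [this, zero_smul, sub_zero]

omit hs in
theorem rf_det [FiniteDimensional (ZMod ℓ) V] {u : V} (hu : b u u ≠ 0) :
    LinearMap.det (rf b u) = -1 := by
  rw [rf, LinearMap.transvection.det]
  simp only [map_smul, LinearMap.flip_apply, smul_eq_mul]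
  field_simp
  ring

omit hs in
theorem rf_orth {u x : V} (hx : b x u = 0) : rf b u x = x := by
  rw [rf_apply, hx]; simp

omit hs in
/-- conjugation of a reflection -/
theorem rf_conj {t t' : End (ZMod ℓ) V} (ht : Isom b t) (h1 : t * t' = 1) (u : V) :
    t * rf b u * t' = rf b (t u) := by
  ext x
  have hx : t (t' x) = x := by rw [← Module.End.mul_apply, h1]; rfl
  rw [Module.End.mul_apply, Module.End.mul_apply, rf_apply, rf_apply, map_sub, map_smul, hx,
    ← ht (t' x) u, hx, ht u u]

omit hs in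
theorem rf_smul {u : V} {r : ZMod ℓ} (hr : r ≠ 0) : rf b (r • u) = rf b u := by
  ext x
  rw [rf_apply, rf_apply]
  simp only [map_smul, LinearMap.smul_apply, smul_eq_mul, smul_smul]
  congr 2
  by_cases hu : b u u = 0
  · simp [hu]
  · field_simp

/-- Eichler transformations -/
def tv (w y : V) : End (ZMod ℓ) V :=
  1 + (b.flip w).smulRight y - (b.flip y + (b y y / 2) • b.flip w).smulRight w

omit hs in
theorem tv_apply (w y x : V) :
    tv b w y x = x + b x w • y - (b x y + b y y / 2 * b x w) • w := by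
  simp [tv, LinearMap.flip_apply]

variable (h2 : (2 : ZMod ℓ) ≠ 0)
include h2

theorem tv_mul {w y y' : V} (hw : b w w = 0) (hy : b y w = 0) (hy' : b y' w = 0) :
    tv b w y' * tv b w y = tv b w (y + y') := by
  ext x
  rw [Module.End.mul_apply, tv_apply b w y' (tv b w y x), tv_apply b w y x,
    tv_apply b w (y + y') x]
  simp only [map_add, map_sub, map_smul, LinearMap.add_apply, LinearMap.sub_apply,
    LinearMap.smul_apply, smul_eq_mul, hw, hy, hy', hs w y', hs y' y]
  match_scalars <;> field_simp <;> ring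

omit hs h2 in
theorem tv_zero (w : V) : tv b w 0 = 1 := by
  ext x
  rw [tv_apply]; simp

theorem tv_pow {w y : V} (hw : b w w = 0) (hy : b y w = 0) (k : ℕ) :
    tv b w y ^ k = tv b w ((k : ZMod ℓ) • y) := by
  induction k with
  | zero => simp [tv_zero]
  | succ k ih =>
    rw [pow_succ, ih, tv_mul b hs h2 hw hy (by simp [hy])]
    congr 1
    push_cast
    rw [add_smul, one_smul, add_comm]

theorem tv_isom {w y : V} (hw : b w w = 0) (hy : b y w = 0) : Isom b (tv b w y) := by
  intro x z
  simp only [tv_apply, map_add, map_sub, map_smul, LinearMap.add_apply, LinearMap.sub_apply,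
    LinearMap.smul_apply, smul_eq_mul, hw, hy, hs w y, hs w z, hs y z]
  field_simp
  ring

theorem tv_mem {w y : V} (hw : b w w = 0) (hy : b y w = 0) : tv b w y ∈ E b := by
  apply Submonoid.subset_closure
  refine ⟨tv_isom b hs h2 hw hy, ?_⟩
  rw [tv_pow b hs h2 hw hy, ZMod.natCast_self, zero_smul, tv_zero]

omit hs h2 in
/-- equivalence of vectors under `E` -/
def Sim (x y : V) : Prop := ∃ e ∈ E b, e x = y

omit hs h2 in
theorem Sim.refl (x : V) : Sim b x x := ⟨1, Submonoid.one_mem _, rfl⟩

omit hs h2 in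
theorem Sim.symm {x y : V} (h : Sim b x y) : Sim b y x := by
  obtain ⟨e, he, rfl⟩ := h
  obtain ⟨e', he', h1, h2⟩ := E_inv b he
  exact ⟨e', he', by rw [← Module.End.mul_apply, h2]; rfl⟩

omit hs h2 in
theorem Sim.trans {x y z : V} (h : Sim b x y) (h' : Sim b y z) : Sim b x z := by
  obtain ⟨e, he, rfl⟩ := h
  obtain ⟨e', he', rfl⟩ := h'
  exact ⟨e' * e, Submonoid.mul_mem _ he' he, rfl⟩

omit hs h2 in
theorem Sim.neg {x y : V} (h : Sim b x y) : Sim b (-x) (-y) := by
  obtain ⟨e, he, rfl⟩ := h
  exact ⟨e, he, by rw [map_neg]⟩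

theorem sim_of {w x x' : V} (hw : b w w = 0) (h1 : b x w = b x' w) (h0 : b x w ≠ 0)
    (hx : b x x = b x' x') : Sim b x x' := by
  have hy : b ((b x w)⁻¹ • (x' - x)) w = 0 := by
    simp [h1]
  refine ⟨tv b w ((b x w)⁻¹ • (x' - x)), tv_mem b hs h2 hw hy, ?_⟩
  rw [tv_apply]
  simp only [map_add, map_sub, map_smul, LinearMap.add_apply, LinearMap.sub_apply,
    LinearMap.smul_apply, smul_eq_mul, smul_smul]
  rw [mul_inv_cancel₀ h0, one_smul, hs x' x, ← hx]
  match_scalars <;> field_simp <;> ring

omit hs h2 in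
/-- the vectors `a_t` -/
def av (w w' : V) (c t : ZMod ℓ) : V := t • w' + (c / (2 * t)) • w

variable {w w' : V} (hw : b w w = 0) (hw' : b w' w' = 0) (hww' : b w w' = 1)
include hw hw' hww'

omit h2 in
theorem av_w (c t : ZMod ℓ) : b (av w w' c t) w = t := by
  simp [av, hw, hw', hww', hs w' w]

omit hs h2 hw in
theorem av_w' (c t : ZMod ℓ) : b (av w w' c t) w' = c / (2 * t) := by
  simp [av, hw', hww']

theorem av_av (c : ZMod ℓ) {t : ZMod ℓ} (ht : t ≠ 0) : b (av w w' c t) (av w w' c t) = c := by
  simp only [av, map_add, map_smul, LinearMap.add_apply, LinearMap.smul_apply, smul_eq_mul, hw,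
    hw', hww', hs w' w]
  field_simp
  ring

theorem sim_av {u : V} {c : ZMod ℓ} (hu : b u u = c) (ht : b u w ≠ 0) :
    Sim b u (av w w' c (b u w)) := by
  refine sim_of b hs h2 hw ?_ ht ?_
  · rw [av_w b hs hw hw' hww']
  · rw [av_av b hs h2 hw hw' hww' c ht, hu]

theorem sim_av' {u : V} {c : ZMod ℓ} (hc : c ≠ 0) (hu : b u u = c) (ht : b u w' ≠ 0) :
    Sim b u (av w w' c (c / (2 * b u w'))) := by
  have h0 : c / (2 * b u w') ≠ 0 := div_ne_zero hc (mul_ne_zero h2 ht)
  refine sim_of b hs h2 hw' ?_ ht ?_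
  · rw [av_w' b hw' hww']
    field_simp
  · rw [av_av b hs h2 hw hw' hww' c h0, hu]

theorem exists_sim_av {u : V} {c : ZMod ℓ} (hc : c ≠ 0) (hu : b u u = c) :
    ∃ t, t ≠ 0 ∧ Sim b u (av w w' c t) := by
  by_cases h : b u w = 0
  · by_cases h' : b u w' = 0
    · have hT : Sim b u (u - c • w) := by
        refine ⟨tv b w u, tv_mem b hs h2 hw h, ?_⟩
        rw [tv_apply, h, hu]
        simp
      have hu' : b (u - c • w) (u - c • w) = c := by
        simp [hu, h, hs w u, hw]
      have h3 : b (u - c • w) w' ≠ 0 := by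
        simp [h', hww', hc]
      exact ⟨_, div_ne_zero hc (mul_ne_zero h2 h3),
        hT.trans b (sim_av' b hs h2 hw hw' hww' hc hu' h3)⟩
    · exact ⟨_, div_ne_zero hc (mul_ne_zero h2 h'), sim_av' b hs h2 hw hw' hww' hc hu h'⟩
  · exact ⟨_, h, sim_av b hs h2 hw hw' hww' hu h⟩

variable {z : V} (hz : b z w = 0) (hz' : b z w' = 0)
include hz hz'

/-- the case where `c d` is a square -/
theorem sim_sq {c r : ZMod ℓ} (hc : c ≠ 0) (hr : c = b z z * r ^ 2) {t t' : ZMod ℓ} (ht : t ≠ 0)
    (ht' : t' ≠ 0) : Sim b (av w w' c t) (av w w' c t') := by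
  have hd : b z z ≠ 0 := by
    rintro h; rw [h] at hr; simp at hr; exact hc hr
  have hr0 : r ≠ 0 := by
    rintro rfl; simp at hr; exact hc hr
  have h1 : ∀ s s' : ZMod ℓ, Sim b (r • z + s • w) (r • z + s' • w) := by
    intro s s'
    set h := (s - s') / (r * b z z) with hh
    have hzw : b (h • z) w = 0 := by simp [hz]
    refine ⟨tv b w (h • z), tv_mem b hs h2 hw hzw, ?_⟩
    rw [tv_apply]
    simp only [map_add, map_smul, LinearMap.add_apply, LinearMap.smul_apply, smul_eq_mul, hz,
      hw, hs w z, mul_zero, add_zero, zero_smul]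
    rw [hh]
    match_scalars <;> field_simp <;> ring
  have h3 : ∀ s : ZMod ℓ, s ≠ 0 → Sim b (r • z + s • w) (av w w' c (c / (2 * s))) := by
    intro s hs0
    have e1 : b (r • z + s • w) w' = s := by simp [hz', hww']
    have e2 : b (r • z + s • w) (r • z + s • w) = c := by
      simp only [map_add, map_smul, LinearMap.add_apply, LinearMap.smul_apply, smul_eq_mul, hz,
        hw, hs w z, mul_zero, add_zero]
      rw [hr]; ring
    have := sim_av' b hs h2 hw hw' hww' hc e2 (by rw [e1]; exact hs0)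
    rwa [e1] at this
  have e1 : t = c / (2 * (c / (2 * t))) := by field_simp
  have e2 : t' = c / (2 * (c / (2 * t'))) := by field_simp
  have n1 : c / (2 * t) ≠ 0 := div_ne_zero hc (mul_ne_zero h2 ht)
  have n2 : c / (2 * t') ≠ 0 := div_ne_zero hc (mul_ne_zero h2 ht')
  rw [e1, e2]
  exact ((h3 _ n1).symm b).trans b ((h1 _ _).trans b (h3 _ n2))

theorem sim_nsq1 {c r : ZMod ℓ} (hd : b z z ≠ 0) {t t' : ZMod ℓ} (ht : t ≠ 0)
    (ht' : t' ≠ 0) (hr : c * b z z * r ^ 2 = - (4 * t * t')) (htt : t + t' ≠ 0) :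
    Sim b (av w w' c t) (av w w' c t') := by
  set w2 : V := w + r • z - (b z z * r ^ 2 / 2) • w' with hw2
  have f1 : b w2 w2 = 0 := by
    simp only [hw2, map_add, map_sub, map_smul, LinearMap.add_apply, LinearMap.sub_apply,
      LinearMap.smul_apply, smul_eq_mul, hw, hw', hww', hs w' w, hs w z, hs w' z, hz, hz']
    field_simp
    ring
  have f2 : ∀ s : ZMod ℓ, b (av w w' c s) w2 = s - c / (2 * s) * (b z z * r ^ 2 / 2) := by
    intro s
    simp only [av, hw2, map_add, map_sub, map_smul, LinearMap.add_apply, LinearMap.sub_apply,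
      LinearMap.smul_apply, smul_eq_mul, hw, hw', hww', hs w' w, hs w z, hs w' z, hz, hz']
    ring
  have g1 : t - c / (2 * t) * (b z z * r ^ 2 / 2) = t + t' := by
    have : c / (2 * t) * (b z z * r ^ 2 / 2) = (c * b z z * r ^ 2) / (4 * t) := by
      have h4 : (4 : ZMod ℓ) ≠ 0 := by
        have : (4 : ZMod ℓ) = 2 * 2 := by norm_num
        rw [this]; exact mul_ne_zero h2 h2
      field_simp
      ring
    rw [this, hr]
    have h4 : (4 : ZMod ℓ) ≠ 0 := by
      have : (4 : ZMod ℓ) = 2 * 2 := by norm_num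
      rw [this]; exact mul_ne_zero h2 h2
    field_simp
    ring
  have g2 : t' - c / (2 * t') * (b z z * r ^ 2 / 2) = t + t' := by
    have h4 : (4 : ZMod ℓ) ≠ 0 := by
      have : (4 : ZMod ℓ) = 2 * 2 := by norm_num
      rw [this]; exact mul_ne_zero h2 h2
    have : c / (2 * t') * (b z z * r ^ 2 / 2) = (c * b z z * r ^ 2) / (4 * t') := by
      field_simp
      ring
    rw [this, hr]
    field_simp
    ring
  refine sim_of b hs h2 f1 ?_ ?_ ?_
  · rw [f2, f2, g1, g2]
  · rw [f2, g1]; exact htt
  · rw [av_av b hs h2 hw hw' hww' c ht, av_av b hs h2 hw hw' hww' c ht']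

omit hs h2 hw hw' hww' hz hz' in
theorem nsq_mul {x y : ZMod ℓ} (hx : ¬ IsSquare x) (hy : ¬ IsSquare y) : IsSquare (x * y) := by
  have hx0 : x ≠ 0 := fun h => hx (h ▸ IsSquare.zero)
  have hy0 : y ≠ 0 := fun h => hy (h ▸ IsSquare.zero)
  rw [← quadraticChar_one_iff_isSquare (mul_ne_zero hx0 hy0), map_mul,
    quadraticChar_neg_one_iff_not_isSquare.2 hx, quadraticChar_neg_one_iff_not_isSquare.2 hy]
  norm_num

theorem sim_nsq2 {c : ZMod ℓ} (hc : c ≠ 0) (hd : b z z ≠ 0) (hcd : ¬ IsSquare (c * b z z))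
    {t t' : ZMod ℓ} (ht : t ≠ 0) (ht' : t' ≠ 0) (hsq : IsSquare (-(t * t') * (c * b z z))) :
    Sim b (av w w' c t) (av w w' c t') := by
  obtain ⟨s, hs'⟩ := hsq
  refine sim_nsq1 b hs h2 hw hw' hww' hz hz' hd ht ht' (r := 2 * s / (c * b z z)) ?_ ?_
  · have : c * b z z * (2 * s / (c * b z z)) ^ 2 = 4 * (s * s) / (c * b z z) := by
      field_simp
      ring
    rw [this, ← hs']
    field_simp
  · intro h
    apply hcd
    refine ⟨s / t, ?_⟩
    have ht'' : t' = -t := by linear_combination h
    rw [ht''] at hs'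
    field_simp
    linear_combination hs'

theorem sim_final {c : ZMod ℓ} (hc : c ≠ 0) (hd : b z z ≠ 0) {t t' : ZMod ℓ} (ht : t ≠ 0)
    (ht' : t' ≠ 0) :
    Sim b (av w w' c t) (av w w' c t') ∨ Sim b (av w w' c t) (-(av w w' c t')) := by
  by_cases hcd : IsSquare (c * b z z)
  · left
    obtain ⟨r, hr⟩ := hcd
    refine sim_sq b hs h2 hw hw' hww' hz hz' hc (r := r / b z z) ?_ ht ht'
    field_simp
    linear_combination hr
  · by_cases h : IsSquare (-(t * t') * (c * b z z))
    · left
      exact sim_nsq2 b hs h2 hw hw' hww' hz hz' hc hd hcd ht ht' h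
    · by_cases h1 : IsSquare (-1 : ZMod ℓ)
      · left
        have hcd0 : -(c * b z z) * t ≠ 0 :=
          mul_ne_zero (neg_ne_zero.2 (mul_ne_zero hc hd)) ht
        have k1 : IsSquare (-(t * (-(c * b z z) * t)) * (c * b z z)) :=
          ⟨t * (c * b z z), by ring⟩
        have k2 : IsSquare (-((-(c * b z z) * t) * t') * (c * b z z)) := by
          have k3 := nsq_mul h hcd
          have k4 : IsSquare (-1 * (-(t * t') * (c * b z z) * (c * b z z))) := h1.mul k3
          convert k4 using 1
          ring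
        exact (sim_nsq2 b hs h2 hw hw' hww' hz hz' hc hd hcd ht hcd0 k1).trans b
          (sim_nsq2 b hs h2 hw hw' hww' hz hz' hc hd hcd hcd0 ht' k2)
      · right
        have k3 := nsq_mul h1 h
        have k4 : IsSquare (-(t * (-t')) * (c * b z z)) := by
          convert k3 using 1
          ring
        have := sim_nsq2 b hs h2 hw hw' hww' hz hz' hc hd hcd ht (neg_ne_zero.2 ht') k4
        have e : av w w' c (-t') = -(av w w' c t') := by
          simp only [av, mul_neg, div_neg, neg_smul, neg_add]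
        rwa [e] at this

theorem sim_main {u v : V} (hd : b z z ≠ 0) (hu : b u u ≠ 0) (huv : b u u = b v v) :
    Sim b u v ∨ Sim b u (-v) := by
  obtain ⟨t, ht, h1⟩ := exists_sim_av b hs h2 hw hw' hww' hu rfl
  obtain ⟨t', ht', h3⟩ := exists_sim_av b hs h2 hw hw' hww' (u := v) hu huv.symm
  rcases sim_final b hs h2 hw hw' hww' hz hz' hu hd ht ht' with h | h
  · left
    exact h1.trans b (h.trans b (h3.symm b))
  · right
    exact h1.trans b (h.trans b ((h3.symm b).neg b))

/-- all reflections with the same norm up to squares are conjugate under `E` -/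
theorem rf_conj_main {u v : V} (hd : b z z ≠ 0) (hu : b u u ≠ 0) (hv : b v v ≠ 0)
    (hsq : IsSquare (b u u * b v v)) : ∃ e ∈ E b, rf b u = e * rf b v := by
  obtain ⟨s, hs'⟩ := hsq
  have hs0 : s ≠ 0 := by
    rintro rfl
    rw [mul_zero] at hs'
    exact mul_ne_zero hu hv hs'
  -- rescale `u`
  set r := b v v / s with hr
  have hr0 : r ≠ 0 := div_ne_zero hv hs0
  have hn : b (r • u) (r • u) = b v v := by
    simp only [map_smul, LinearMap.smul_apply, smul_eq_mul]
    rw [hr]
    field_simp
    rw [pow_two, ← hs', mul_comm]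
  have hmain : ∃ e ∈ E b, rf b (e (r • u)) = rf b v := by
    rcases sim_main b hs h2 hw hw' hww' hz hz' hd (u := r • u) (v := v) (by rw [hn]; exact hv) hn
      with ⟨e, he, h⟩ | ⟨e, he, h⟩
    · exact ⟨e, he, by rw [h]⟩
    · refine ⟨e, he, ?_⟩
      rw [h, ← neg_one_smul (ZMod ℓ) v, rf_smul b (neg_ne_zero.2 one_ne_zero)]
  obtain ⟨e, he, h⟩ := hmain
  obtain ⟨e', he', i1, i2⟩ := E_inv b he
  have key : e * rf b u * e' = rf b v := by
    rw [← rf_smul b hr0, rf_conj b (E_isom b he) i1, h]
  -- rf u = e' * rf v * e = e' * (rf v * e * rf v) * rf v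
  refine ⟨e' * (rf b v * e * rf b v), Submonoid.mul_mem _ he'
    (E_conj b (rf_isom b hs hv) (rf_sq b hv) (rf_sq b hv) he), ?_⟩
  calc rf b u = (e' * e) * rf b u * (e' * e) := by rw [i2, one_mul, mul_one]
    _ = e' * (e * rf b u * e') * e := by simp only [mul_assoc]
    _ = e' * rf b v * e := by rw [key]
    _ = e' * (rf b v * e * (rf b v * rf b v)) := by rw [rf_sq b hv, mul_one, mul_assoc]
    _ = e' * (rf b v * e * rf b v) * rf b v := by simp only [mul_assoc]

omit hw hw' hww' hz hz'


variable [FiniteDimensional (ZMod ℓ) V]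

variable (nd : ∀ x, (∀ y, b x y = 0) → x = 0)
include nd

/-- an orthogonal basis -/
theorem exists_basis : ∃ v : Basis (Fin (finrank (ZMod ℓ) V)) (ZMod ℓ) V,
    (∀ i j, i ≠ j → b (v i) (v j) = 0) ∧ ∀ i, b (v i) (v i) ≠ 0 := by
  haveI : Invertible (2 : ZMod ℓ) := invertibleOfNonzero h2
  obtain ⟨v, hv⟩ := LinearMap.BilinForm.exists_orthogonal_basis (B := b) ⟨fun x y => hs x y⟩
  refine ⟨v, fun i j hij => hv hij, fun i h => ?_⟩
  have : v i = 0 := by
    apply nd
    intro y
    have hl : b (v i) = 0 := by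
      apply v.ext
      intro j
      by_cases hij : i = j
      · subst hij; simpa using h
      · simpa using hv hij
    rw [hl]; rfl
  exact v.ne_zero i this

theorem exists_hyp (h3 : 3 ≤ finrank (ZMod ℓ) V) : ∃ w w' z : V, b w w = 0 ∧ b w' w' = 0 ∧
    b w w' = 1 ∧ b z w = 0 ∧ b z w' = 0 ∧ b z z ≠ 0 := by
  obtain ⟨v, hv, hv0⟩ := exists_basis b hs h2 nd
  have hℓ : Fintype.card (ZMod ℓ) % 2 = 1 := by
    rw [ZMod.card]
    rcases (Fact.out : ℓ.Prime).eq_two_or_odd with h | h
    · exfalso
      apply h2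
      have h1 := ZMod.natCast_self ℓ
      have h2' : ((ℓ : ℕ) : ZMod ℓ) = ((2 : ℕ) : ZMod ℓ) :=
        congrArg (Nat.cast : ℕ → ZMod ℓ) h
      rw [h2'] at h1
      exact_mod_cast h1
    · exact h
  set i0 : Fin (finrank (ZMod ℓ) V) := ⟨0, by omega⟩
  set i1 : Fin (finrank (ZMod ℓ) V) := ⟨1, by omega⟩
  set i2 : Fin (finrank (ZMod ℓ) V) := ⟨2, by omega⟩
  have n01 : i0 ≠ i1 := by simp [i0, i1]
  have n02 : i0 ≠ i2 := by simp [i0, i2]
  have n12 : i1 ≠ i2 := by simp [i1, i2]
  obtain ⟨x, y, hxy⟩ := FiniteField.exists_root_sum_quadratic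
    (f := Polynomial.C (b (v i0) (v i0)) * Polynomial.X ^ 2 + Polynomial.C 0 * Polynomial.X
      + Polynomial.C 0)
    (g := Polynomial.C (b (v i1) (v i1)) * Polynomial.X ^ 2 + Polynomial.C 0 * Polynomial.X
      + Polynomial.C (b (v i2) (v i2)))
    (Polynomial.degree_quadratic (hv0 _)) (Polynomial.degree_quadratic (hv0 _)) hℓ
  simp only [Polynomial.eval_add, Polynomial.eval_mul, Polynomial.eval_C, Polynomial.eval_pow,
    Polynomial.eval_X, zero_mul, add_zero] at hxy
  set w : V := x • v i0 + y • v i1 + v i2 with hwdef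
  have hw : b w w = 0 := by
    simp only [hwdef, map_add, map_smul, LinearMap.add_apply, LinearMap.smul_apply, smul_eq_mul,
      hv _ _ n01, hv _ _ n02, hv _ _ n12, hv _ _ n01.symm, hv _ _ n02.symm, hv _ _ n12.symm]
    linear_combination hxy
  have hw0 : w ≠ 0 := by
    intro h
    have : b w (v i2) = 0 := by rw [h]; simp
    simp only [hwdef, map_add, map_smul, LinearMap.add_apply, LinearMap.smul_apply, smul_eq_mul,
      hv _ _ n02, hv _ _ n12] at this
    apply hv0 i2
    simpa using this
  have hex : ∃ p, b w p ≠ 0 := by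
    by_contra hcon
    push Not at hcon
    exact hw0 (nd w hcon)
  obtain ⟨p, hp⟩ := hex
  set q : V := (b w p)⁻¹ • p with hq
  have hwq : b w q = 1 := by simp [hq, hp]
  set w' : V := q - (b q q / 2) • w with hw'def
  have hw' : b w' w' = 0 := by
    simp only [hw'def, map_sub, map_smul, LinearMap.sub_apply, LinearMap.smul_apply, smul_eq_mul,
      hwq, hs q w, hw]
    field_simp
    ring
  have hww' : b w w' = 1 := by
    simp [hw'def, hwq, hw]
  -- the complement
  by_contra hcon
  push Not at hcon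
  have hz : ∀ z, b z w = 0 → b z w' = 0 → b z z = 0 := fun z h h' =>
    hcon w w' z hw hw' hww' h h'
  set pr : V → V := fun x => x - b x w' • w - b x w • w' with hpr
  have p1 : ∀ x, b (pr x) w = 0 := by
    intro x; simp [hpr, hw, hs w' w, hww']
  have p2 : ∀ x, b (pr x) w' = 0 := by
    intro x; simp [hpr, hw', hww']
  have p3 : ∀ x y, b (pr x) (pr y) = 0 := by
    intro x y
    have e1 : b (pr x + pr y) (pr x + pr y) = 0 :=
      hz _ (by simp [p1]) (by simp [p2])
    have e2 : b (pr x) (pr x) = 0 := hz _ (p1 _) (p2 _)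
    have e3 : b (pr y) (pr y) = 0 := hz _ (p1 _) (p2 _)
    simp only [map_add, LinearMap.add_apply, e2, e3, hs (pr y) (pr x)] at e1
    have : 2 * b (pr x) (pr y) = 0 := by linear_combination e1
    exact (mul_eq_zero.1 this).resolve_left h2
  have p4 : ∀ x, pr x = 0 := by
    intro x
    apply nd
    intro y
    have : y = pr y + b y w' • w + b y w • w' := by simp only [hpr]; abel
    rw [this]
    simp only [map_add, map_smul, smul_eq_mul, p1, p2, p3]
    ring
  have htop : (⊤ : Submodule (ZMod ℓ) V) ≤ Submodule.span (ZMod ℓ) {w, w'} := by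
    intro y _
    have : y = b y w' • w + b y w • w' := by
      have := p4 y
      simp only [hpr] at this
      rw [sub_sub, sub_eq_zero] at this
      exact this
    rw [this]
    exact Submodule.add_mem _
      (Submodule.smul_mem _ _ (Submodule.subset_span (by simp)))
      (Submodule.smul_mem _ _ (Submodule.subset_span (by simp)))
  have hle : finrank (ZMod ℓ) V ≤ 2 := by
    classical
    have e1 : finrank (ZMod ℓ) (Submodule.span (ZMod ℓ) ((({w, w'} : Finset V) : Set V))) ≤
        ({w, w'} : Finset V).card := finrank_span_finset_le_card _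
    have e2 : Submodule.span (ZMod ℓ) ((({w, w'} : Finset V) : Set V)) = ⊤ := by
      rw [eq_top_iff]; simpa using htop
    rw [e2, finrank_top] at e1
    exact e1.trans (Finset.card_le_two)
  omega

omit h2 nd hs [FiniteDimensional (ZMod ℓ) V] in
/-- the monoid generated by the reflections -/
def R : Submonoid (End (ZMod ℓ) V) := Submonoid.closure {g | ∃ u, b u u ≠ 0 ∧ g = rf b u}

omit h2 nd hs [FiniteDimensional (ZMod ℓ) V] in
theorem R_inv {e : End (ZMod ℓ) V} (he : e ∈ R b) : ∃ e' ∈ R b, e * e' = 1 ∧ e' * e = 1 := by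
  induction he using Submonoid.closure_induction with
  | mem x hx =>
    obtain ⟨u, hu, rfl⟩ := hx
    exact ⟨rf b u, Submonoid.subset_closure ⟨u, hu, rfl⟩, rf_sq b hu, rf_sq b hu⟩
  | one => exact ⟨1, Submonoid.one_mem _, by simp, by simp⟩
  | mul x y _ _ hx hy =>
    obtain ⟨x', hx', h1, h2⟩ := hx
    obtain ⟨y', hy', h3, h4⟩ := hy
    refine ⟨y' * x', Submonoid.mul_mem _ hy' hx', ?_, ?_⟩
    · calc x * y * (y' * x') = x * (y * y') * x' := by simp only [mul_assoc]
        _ = 1 := by rw [h3, mul_one, h1]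
    · calc y' * x' * (x * y) = y' * (x' * x) * y := by simp only [mul_assoc]
        _ = 1 := by rw [h2, mul_one, h4]

omit nd [FiniteDimensional (ZMod ℓ) V] h2 in
theorem R_isom {e : End (ZMod ℓ) V} (he : e ∈ R b) : Isom b e := by
  induction he using Submonoid.closure_induction with
  | mem x hx => obtain ⟨u, hu, rfl⟩ := hx; exact rf_isom b hs hu
  | one => exact Isom.one b
  | mul x y _ _ hx hy => exact hx.mul b hy

/-- weak Cartan-Dieudonné -/
theorem mem_R {g : End (ZMod ℓ) V} (hg : Isom b g) : g ∈ R b := by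
  obtain ⟨v, hv, hv0⟩ := exists_basis b hs h2 nd
  have key : ∀ k : ℕ, k ≤ finrank (ZMod ℓ) V → ∃ h ∈ R b, ∀ i : Fin (finrank (ZMod ℓ) V),
      (i : ℕ) < k → h (g (v i)) = v i := by
    intro k
    induction k with
    | zero => intro _; exact ⟨1, Submonoid.one_mem _, fun i hi => absurd hi (by omega)⟩
    | succ k ih =>
      intro hk
      obtain ⟨h, hh, hfix⟩ := ih (by omega)
      set i : Fin (finrank (ZMod ℓ) V) := ⟨k, by omega⟩ with hi
      set y := h (g (v i)) with hy
      have hiso : Isom b (h * g) := (R_isom b hs hh).mul b hg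
      have hyy : b y y = b (v i) (v i) := hiso (v i) (v i)
      have hyj : ∀ j : Fin (finrank (ZMod ℓ) V), (j : ℕ) < k → b y (v j) = 0 := by
        intro j hj
        have e1 : b y (h (g (v j))) = b (v i) (v j) := hiso (v i) (v j)
        rw [hfix j hj] at e1
        rw [e1]
        apply hv
        intro h
        rw [← h, hi] at hj
        simp at hj
      have hvj : ∀ j : Fin (finrank (ZMod ℓ) V), (j : ℕ) < k → b (v j) (v i) = 0 := by
        intro j hj
        apply hv
        intro h
        rw [h, hi] at hj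
        simp at hj
      -- it is enough to move `y` to `v i` fixing the previous vectors
      have hsuf : ∀ r ∈ R b, r y = v i → (∀ j : Fin (finrank (ZMod ℓ) V), (j : ℕ) < k →
          r (v j) = v j) → ∃ h ∈ R b, ∀ i : Fin (finrank (ZMod ℓ) V), (i : ℕ) < k + 1 →
          h (g (v i)) = v i := by
        intro r hr hry hrj
        refine ⟨r * h, Submonoid.mul_mem _ hr hh, fun j hj => ?_⟩
        rw [Module.End.mul_apply]
        rcases Nat.lt_succ_iff_lt_or_eq.1 hj with h' | h'
        · rw [hfix j h', hrj j h']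
        · have : j = i := Fin.ext h'
          rw [this]; exact hry
      by_cases hm : b (y - v i) (y - v i) = 0
      · -- use `y + v i`
        have hp : b (y + v i) (y + v i) ≠ 0 := by
          intro hp
          simp only [map_add, map_sub, LinearMap.add_apply, LinearMap.sub_apply, hyy,
            hs (v i) y] at hm hp
          have h4 : (2 * 2 : ZMod ℓ) * b (v i) (v i) = 0 := by linear_combination hm + hp
          exact mul_ne_zero (mul_ne_zero h2 h2) (hv0 i) h4
        refine hsuf (rf b (v i) * rf b (y + v i)) (Submonoid.mul_mem _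
          (Submonoid.subset_closure ⟨_, hv0 i, rfl⟩) (Submonoid.subset_closure ⟨_, hp, rfl⟩))
          ?_ ?_
        · rw [Module.End.mul_apply]
          have : rf b (y + v i) y = -(v i) := by
            rw [rf_apply]
            have e1 : 2 * b y (y + v i) / b (y + v i) (y + v i) = 1 := by
              rw [div_eq_one_iff_eq hp]
              simp only [map_add, LinearMap.add_apply, hyy, hs (v i) y]
              ring
            rw [e1, one_smul]; abel
          rw [this, map_neg, rf_self b (hv0 i), neg_neg]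
        · intro j hj
          have e1 : b (v j) (y + v i) = 0 := by
            rw [map_add, hs (v j) y, hyj j hj, hvj j hj, add_zero]
          rw [Module.End.mul_apply, rf_orth b e1, rf_orth b (hvj j hj)]
      · refine hsuf (rf b (y - v i)) (Submonoid.subset_closure ⟨_, hm, rfl⟩) ?_ ?_
        · rw [rf_apply]
          have e1 : 2 * b y (y - v i) / b (y - v i) (y - v i) = 1 := by
            rw [div_eq_one_iff_eq hm]
            simp only [map_sub, LinearMap.sub_apply, hyy, hs (v i) y]
            ring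
          rw [e1, one_smul]; abel
        · intro j hj
          rw [rf_orth]
          rw [map_sub, hs (v j) y, hyj j hj, hvj j hj, sub_zero]
  obtain ⟨h, hh, hfix⟩ := key _ le_rfl
  have h1 : h * g = 1 := by
    apply v.ext
    intro i
    rw [Module.End.mul_apply, hfix i i.2]; rfl
  obtain ⟨h', hh', i1, i2⟩ := R_inv b hh
  have : g = h' := by
    calc g = (h' * h) * g := by rw [i2, one_mul]
      _ = h' := by rw [mul_assoc, h1, mul_one]
  rw [this]; exact hh'

theorem main (h3 : 3 ≤ finrank (ZMod ℓ) V) {a a' : End (ZMod ℓ) V} (ha : Isom b a)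
    (ha' : Isom b a') (hd : LinearMap.det a = 1) (hd' : LinearMap.det a' = 1) (hE : a ∉ E b)
    (hE' : a' ∉ E b) : a * a' ∈ E b := by
  obtain ⟨w, w', z, hw, hw', hww', hz, hz', hzz⟩ := exists_hyp b hs h2 nd h3
  -- a nonsquare
  obtain ⟨ν, hν⟩ : ∃ ν : ZMod ℓ, ¬ IsSquare ν := by
    apply FiniteField.exists_nonsquare
    rw [ZMod.ringChar_zmod_n]
    rintro rfl
    exact h2 (by exact_mod_cast ZMod.natCast_self 2)
  have hν0 : ν ≠ 0 := fun h => hν (h ▸ IsSquare.zero)
  -- second vector
  set p : V := w + (ν * b z z / 2) • w' with hp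
  have hpp : b p p = ν * b z z := by
    simp only [hp, map_add, map_smul, LinearMap.add_apply, LinearMap.smul_apply, smul_eq_mul,
      hw, hw', hww', hs w' w]
    field_simp
    ring
  have hp0 : b p p ≠ 0 := by rw [hpp]; exact mul_ne_zero hν0 hzz
  have hpz : b p z = 0 := by
    simp [hp, hs w z, hs w' z, hz, hz']
  have hrfl : ∀ u, b u u ≠ 0 → (∃ e ∈ E b, rf b u = e * rf b z) ∨
      (∃ e ∈ E b, rf b u = e * rf b p) := by
    intro u hu
    by_cases h : IsSquare (b u u * b z z)
    · left; exact rf_conj_main b hs h2 hw hw' hww' hz hz' hzz hu hzz h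
    · right
      refine rf_conj_main b hs h2 hw hw' hww' hz hz' hzz hu hp0 ?_
      have := nsq_mul h hν
      rw [hpp]
      convert this using 1
      ring
  set s0 := rf b z with hs0
  set s1 := rf b p with hs1
  have q0 : s0 * s0 = 1 := rf_sq b hzz
  have q1 : s1 * s1 = 1 := rf_sq b hp0
  have q2 : s0 * s1 = s1 * s0 := by
    have e1 : s0 * s1 * s0 = s1 := by
      rw [hs0, hs1, rf_conj b (rf_isom b hs hzz) (rf_sq b hzz), rf_orth b hpz]
    calc s0 * s1 = s0 * s1 * (s0 * s0) := by rw [q0, mul_one]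
      _ = (s0 * s1 * s0) * s0 := by simp only [mul_assoc]
      _ = s1 * s0 := by rw [e1]
  have is0 : Isom b s0 := rf_isom b hs hzz
  have is1 : Isom b s1 := rf_isom b hs hp0
  -- the four cosets
  have hcos : ∀ g ∈ R b, ∃ e ∈ E b, g = e ∨ g = e * s0 ∨ g = e * s1 ∨ g = e * (s0 * s1) := by
    intro g hg
    induction hg using Submonoid.closure_induction_left with
    | one => exact ⟨1, Submonoid.one_mem _, Or.inl rfl⟩
    | mul_left x hx y hy ih =>
      obtain ⟨u, hu, rfl⟩ := hx
      obtain ⟨f, hf, hfy⟩ := ih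
      rcases hrfl u hu with ⟨e, he, heu⟩ | ⟨e, he, heu⟩
      · have hmem : e * (s0 * f * s0) ∈ E b := Submonoid.mul_mem _ he (E_conj b is0 q0 q0 hf)
        refine ⟨_, hmem, ?_⟩
        have hgen : ∀ q, rf b u * (f * q) = e * (s0 * f * s0) * (s0 * q) := by
          intro q
          rw [heu]
          calc e * s0 * (f * q) = e * (s0 * f) * q := by simp only [mul_assoc]
            _ = e * (s0 * f) * (s0 * s0) * q := by rw [q0, mul_one]
            _ = _ := by simp only [mul_assoc]
        rcases hfy with h | h | h | h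
        · right; left
          have := hgen 1
          rw [mul_one, mul_one] at this
          rw [h]; exact this
        · left; rw [h, hgen, q0, mul_one]
        · right; right; right; rw [h, hgen]
        · right; right; left; rw [h, hgen, ← mul_assoc s0 s0 s1, q0, one_mul]
      · have hmem : e * (s1 * f * s1) ∈ E b := Submonoid.mul_mem _ he (E_conj b is1 q1 q1 hf)
        refine ⟨_, hmem, ?_⟩
        have hgen : ∀ q, rf b u * (f * q) = e * (s1 * f * s1) * (s1 * q) := by
          intro q
          rw [heu]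
          calc e * s1 * (f * q) = e * (s1 * f) * q := by simp only [mul_assoc]
            _ = e * (s1 * f) * (s1 * s1) * q := by rw [q1, mul_one]
            _ = _ := by simp only [mul_assoc]
        rcases hfy with h | h | h | h
        · right; right; left
          have := hgen 1
          rw [mul_one, mul_one] at this
          rw [h]; exact this
        · right; right; right; rw [h, hgen, q2]
        · left; rw [h, hgen, q1, mul_one]
        · right; left; rw [h, hgen, q2, ← mul_assoc s1 s1 s0, q1, one_mul]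
  have hneg : (1 : ZMod ℓ) ≠ -1 := by
    intro h
    apply h2
    linear_combination h
  have hdet : ∀ g, Isom b g → LinearMap.det g = 1 → g ∉ E b → ∃ e ∈ E b, g = e * (s0 * s1) := by
    intro g hg hdg hgE
    obtain ⟨e, he, h | h | h | h⟩ := hcos g (mem_R b hs h2 nd hg)
    · exact absurd (h ▸ he) hgE
    · exfalso
      rw [h, map_mul, E_det b he, hs0, rf_det b hzz, one_mul] at hdg
      exact hneg hdg.symm
    · exfalso
      rw [h, map_mul, E_det b he, hs1, rf_det b hp0, one_mul] at hdg
      exact hneg hdg.symm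
    · exact ⟨e, he, h⟩
  obtain ⟨e, he, h⟩ := hdet a ha hd hE
  obtain ⟨e', he', h'⟩ := hdet a' ha' hd' hE'
  have q3 : (s0 * s1) * (s0 * s1) = 1 := by
    calc (s0 * s1) * (s0 * s1) = (s0 * s1) * (s1 * s0) := by rw [q2]
      _ = s0 * (s1 * s1) * s0 := by simp only [mul_assoc]
      _ = 1 := by rw [q1, mul_one, q0]
  have hmem := E_conj b (is0.mul b is1) q3 q3 he'
  have : a * a' = e * ((s0 * s1) * e' * (s0 * s1)) := by
    rw [h, h']
    simp only [mul_assoc]
  rw [this]
  exact Submonoid.mul_mem _ he hmem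

end Pool.Agent.T2H36.IX.GP

namespace Pool.Agent.T2H36.IX

open Matrix

theorem g_stmt : GStmt := by
  intro ℓ _ hℓ n hn B hB hdB a b ha hb hda hdb haO hbO
  have h2 : (2 : ZMod ℓ) ≠ 0 := by
    intro h
    apply hℓ
    have h1 : ((2 : ℕ) : ZMod ℓ) = 0 := by exact_mod_cast h
    rw [ZMod.natCast_eq_zero_iff] at h1
    exact (Nat.prime_dvd_prime_iff_eq Fact.out Nat.prime_two).1 h1
  set β : (Fin n → ZMod ℓ) →ₗ[ZMod ℓ] (Fin n → ZMod ℓ) →ₗ[ZMod ℓ] ZMod ℓ :=
    Matrix.toLinearMap₂' (ZMod ℓ) B with hβ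
  have hap : ∀ x y, β x y = x ⬝ᵥ (B *ᵥ y) := fun x y => by
    rw [hβ, Matrix.toLinearMap₂'_apply']
  have hs : ∀ x y, β x y = β y x := by
    intro x y
    rw [hap, hap, Matrix.dotProduct_mulVec, ← Matrix.mulVec_transpose, hB, dotProduct_comm]
  have nd : ∀ x, (∀ y, β x y = 0) → x = 0 := by
    intro x hx
    have h1 : B *ᵥ x = 0 := by
      apply dotProduct_eq
      intro y
      rw [dotProduct_comm, ← hap, hs, hx]; simp
    exact Matrix.eq_zero_of_mulVec_eq_zero hdB h1
  set f := Matrix.toLinAlgEquiv' (R := ZMod ℓ) (n := Fin n) with hf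
  have hfa : ∀ g x, f g x = g *ᵥ x := fun g x => rfl
  have hiso : ∀ g, gᵀ * B * g = B ↔ GP.Isom β (f g) := by
    intro g
    have h1 : ∀ x y, β (f g x) (f g y) = x ⬝ᵥ ((gᵀ * B * g) *ᵥ y) := by
      intro x y
      rw [hap, hfa, hfa, ← Matrix.mulVec_mulVec, ← Matrix.mulVec_mulVec,
        Matrix.dotProduct_mulVec x gᵀ, Matrix.vecMul_transpose]
    constructor
    · intro h x y
      rw [h1, h, hap]
    · intro h
      ext i j
      have := h (Pi.single i 1) (Pi.single j 1)
      rw [h1, hap] at this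
      simpa using this
  have hEO : ∀ g, g ∈ Om ℓ B ↔ f g ∈ GP.E β := by
    intro g
    have h1 : GP.E β = (Om ℓ B).map (f : Matrix (Fin n) (Fin n) (ZMod ℓ) →*
        Module.End (ZMod ℓ) (Fin n → ZMod ℓ)) := by
      rw [Om, MonoidHom.map_mclosure, GP.E]
      congr 1
      ext x
      constructor
      · rintro ⟨h1, h2⟩
        refine ⟨f.symm x, ⟨?_, ?_⟩, by simp⟩
        · rw [hiso]; simpa using h1
        · rw [← map_pow, h2, map_one]
      · rintro ⟨y, ⟨h1, h2⟩, rfl⟩
        refine ⟨(hiso y).1 h1, ?_⟩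
        change (f y) ^ ℓ = 1
        rw [← map_pow, h2, map_one]
    rw [h1]
    constructor
    · intro h; exact ⟨g, h, rfl⟩
    · rintro ⟨y, hy, hyg⟩
      have : y = g := f.injective hyg
      exact this ▸ hy
  have hdet : ∀ g, LinearMap.det (f g) = g.det := fun g => LinearMap.det_toLin' g
  rw [hEO, map_mul]
  refine GP.main β hs h2 nd (by simpa using hn) ((hiso a).1 ha) ((hiso b).1 hb) ?_ ?_ ?_ ?_
  · rw [hdet, hda]
  · rw [hdet, hdb]
  · rwa [← hEO]
  · rwa [← hEO]

end Pool.Agent.T2H36.IX
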