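import Pool.Agent.T2H36.IX.Defs4
import Pool.Agent.T2H36.IX.G
import Pool.Agent.T2H36.IX.IR

set_option autoImplicit false

/-!
Package TU: a torus element of `Om` which does not commute with a unipotent isometry.
-/

open Matrix Polynomial

namespace Pool.Agent.T2H36.IX

namespace TUaux

open IRaux

variable {F : Type*} [Field F] {n : ℕ} (B : Matrix (Fin n) (Fin n) F)

/-- the torus element `e ↦ c e`, `f ↦ c⁻¹ f` -/
def SS (e f : Fin n → F) (c : F) : Matrix (Fin n) (Fin n) F :=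
  1 + ((c - 1) • vecMulVec e (B *ᵥ f) + (c⁻¹ - 1) • vecMulVec f (B *ᵥ e))

lemma vm_apply (a w x : Fin n → F) : vecMulVec a (B *ᵥ w) *ᵥ x = bb B x w • a := by
  rw [Matrix.vecMulVec_mulVec]
  simp only [bb]
  rw [dotProduct_comm]
  simp

lemma SS_apply (e f x : Fin n → F) (c : F) :
    SS B e f c *ᵥ x = x + (((c - 1) * bb B x f) • e + ((c⁻¹ - 1) * bb B x e) • f) := by
  rw [SS, Matrix.add_mulVec, Matrix.add_mulVec, Matrix.smul_mulVec, Matrix.smul_mulVec,
    vm_apply, vm_apply, Matrix.one_mulVec, smul_smul, smul_smul]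

variable {B}

lemma ext_mv {M N : Matrix (Fin n) (Fin n) F} (h : ∀ x : Fin n → F, M *ᵥ x = N *ᵥ x) : M = N :=
  ext_bb fun x y => by rw [h y]

lemma SS_iso (hB : Bᵀ = B) (e f : Fin n → F) (c : F) (hc : c ≠ 0) (hee : bb B e e = 0)
    (hff : bb B f f = 0) (hef : bb B e f = 1) : (SS B e f c)ᵀ * B * (SS B e f c) = B := by
  apply ext_bb
  intro x y
  have h1 : x ⬝ᵥ ((SS B e f c)ᵀ * B * (SS B e f c)) *ᵥ y =
      bb B ((SS B e f c) *ᵥ x) ((SS B e f c) *ᵥ y) := by
    simp only [bb]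
    rw [← Matrix.mulVec_mulVec, ← Matrix.mulVec_mulVec, Matrix.dotProduct_mulVec,
      Matrix.vecMul_transpose]
  rw [h1]
  change _ = bb B x y
  have hfe : bb B f e = 1 := by rw [bb_comm hB]; exact hef
  simp only [SS_apply, bb_add_left, bb_add_right, bb_smul_left, bb_smul_right, hee, hff, hef, hfe]
  rw [bb_comm hB e y, bb_comm hB f y]
  field_simp
  ring

lemma SS_mul (hB : Bᵀ = B) (e f : Fin n → F) (c d : F) (hc : c ≠ 0) (hd : d ≠ 0)
    (hee : bb B e e = 0) (hff : bb B f f = 0) (hef : bb B e f = 1) :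
    SS B e f c * SS B e f d = SS B e f (c * d) := by
  apply ext_mv
  intro x
  have hfe : bb B f e = 1 := by rw [bb_comm hB]; exact hef
  rw [← Matrix.mulVec_mulVec, SS_apply, SS_apply, SS_apply]
  simp only [bb_add_left, bb_smul_left, hee, hff, hef, hfe, mul_zero, mul_one, add_zero, zero_add]
  have h1 : (c * d - 1) * bb B x f =
      (d - 1) * bb B x f + (c - 1) * (bb B x f + (d - 1) * bb B x f) := by ring
  have h2 : ((c * d)⁻¹ - 1) * bb B x e =
      (d⁻¹ - 1) * bb B x e + (c⁻¹ - 1) * (bb B x e + (d⁻¹ - 1) * bb B x e) := by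
    rw [mul_inv]; ring
  rw [h1, h2, add_smul, add_smul]
  abel

lemma SS_one (e f : Fin n → F) : SS B e f 1 = 1 := by
  simp [SS]

lemma SS_pow (hB : Bᵀ = B) (e f : Fin n → F) (c : F) (hc : c ≠ 0)
    (hee : bb B e e = 0) (hff : bb B f f = 0) (hef : bb B e f = 1) (k : ℕ) :
    SS B e f c ^ k = SS B e f (c ^ k) := by
  induction k with
  | zero => rw [pow_zero, pow_zero, SS_one]
  | succ k ih => rw [pow_succ, ih, SS_mul hB e f _ _ (pow_ne_zero _ hc) hc hee hff hef, pow_succ]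

lemma SS_det (hB : Bᵀ = B) (e f : Fin n → F) (c : F) (hc : c ≠ 0) (hee : bb B e e = 0)
    (hff : bb B f f = 0) (hef : bb B e f = 1) : (SS B e f c).det = 1 := by
  have hfe : bb B f e = 1 := by rw [bb_comm hB]; exact hef
  set U : Matrix (Fin n) (Fin 2) F := Matrix.of fun i k => ![e i, f i] k with hU
  set V : Matrix (Fin 2) (Fin n) F :=
    Matrix.of fun k j => ![(c - 1) * (B *ᵥ f) j, (c⁻¹ - 1) * (B *ᵥ e) j] k with hV
  have h1 : SS B e f c = 1 + U * V := by
    rw [SS]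
    congr 1
    ext i j
    simp only [Matrix.add_apply, Matrix.smul_apply, vecMulVec_apply, Matrix.mul_apply,
      Fin.sum_univ_two, hU, hV, Matrix.of_apply, Matrix.cons_val_zero, Matrix.cons_val_one,
      smul_eq_mul]
    ring
  rw [h1, Matrix.det_one_add_mul_comm]
  have hs : ∀ a w : Fin n → F, ∑ j, (B *ᵥ w) j * a j = bb B a w := by
    intro a w
    simp only [bb, dotProduct]
    exact Finset.sum_congr rfl fun j _ => mul_comm _ _
  have e00 : (1 + V * U : Matrix (Fin 2) (Fin 2) F) 0 0 = c := by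
    simp only [Matrix.add_apply, Matrix.mul_apply, hU, hV, Matrix.of_apply, Matrix.cons_val_zero,
      Matrix.one_apply_eq]
    have : ∑ j, (c - 1) * (B *ᵥ f) j * e j = (c - 1) * bb B e f := by
      rw [← hs, Finset.mul_sum]
      exact Finset.sum_congr rfl fun j _ => by ring
    rw [this, hef]; ring
  have e11 : (1 + V * U : Matrix (Fin 2) (Fin 2) F) 1 1 = c⁻¹ := by
    simp only [Matrix.add_apply, Matrix.mul_apply, hU, hV, Matrix.of_apply, Matrix.cons_val_one,
      Matrix.cons_val_fin_one, Matrix.one_apply_eq]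
    have : ∑ j, (c⁻¹ - 1) * (B *ᵥ e) j * f j = (c⁻¹ - 1) * bb B f e := by
      rw [← hs, Finset.mul_sum]
      exact Finset.sum_congr rfl fun j _ => by ring
    rw [this, hfe]; ring
  have e01 : (1 + V * U : Matrix (Fin 2) (Fin 2) F) 0 1 = 0 := by
    simp only [Matrix.add_apply, Matrix.mul_apply, hU, hV, Matrix.of_apply, Matrix.cons_val_zero,
      Matrix.cons_val_one, Matrix.cons_val_fin_one]
    have : ∑ j, (c - 1) * (B *ᵥ f) j * f j = (c - 1) * bb B f f := by
      rw [← hs, Finset.mul_sum]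
      exact Finset.sum_congr rfl fun j _ => by ring
    rw [this, hff]; simp
  have e10 : (1 + V * U : Matrix (Fin 2) (Fin 2) F) 1 0 = 0 := by
    simp only [Matrix.add_apply, Matrix.mul_apply, hU, hV, Matrix.of_apply, Matrix.cons_val_zero,
      Matrix.cons_val_one, Matrix.cons_val_fin_one]
    have : ∑ j, (c⁻¹ - 1) * (B *ᵥ e) j * e j = (c⁻¹ - 1) * bb B e e := by
      rw [← hs, Finset.mul_sum]
      exact Finset.sum_congr rfl fun j _ => by ring
    rw [this, hee]; simp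
  rw [Matrix.det_fin_two, e00, e11, e01, e10]
  simp [hc]

lemma NN_mul (h2 : (2 : F) ≠ 0) (hB : Bᵀ = B) (e y z : Fin n → F) (hee : bb B e e = 0)
    (hy : bb B e y = 0) (hz : bb B e z = 0) :
    (1 + NN B e y) * (1 + NN B e z) = 1 + NN B e (y + z) := by
  apply ext_mv
  intro x
  have hye : bb B y e = 0 := by rw [bb_comm hB]; exact hy
  have hze : bb B z e = 0 := by rw [bb_comm hB]; exact hz
  have hq : bb B (y + z) (y + z) / 2 = bb B y y / 2 + bb B z z / 2 + bb B z y := by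
    rw [bb_add_left, bb_add_right, bb_add_right, bb_comm hB y z]
    field_simp
    ring
  rw [← Matrix.mulVec_mulVec]
  simp only [Matrix.add_mulVec, Matrix.one_mulVec, NN_apply, hq]
  simp only [bb_add_left, bb_add_right, bb_sub_left, bb_smul_left, hee, hy, hz, hye, hze]
  module

lemma NN_apply_f (e f y : Fin n → F) (hfe : bb B f e = 1) (hfy : bb B f y = 0) :
    (1 + NN B e y) *ᵥ f = f - y - (bb B y y / 2) • e := by
  rw [Matrix.add_mulVec, Matrix.one_mulVec, NN_apply, hfe, hfy]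
  simp only [zero_smul, one_smul, mul_one, zero_sub]
  abel

lemma SS_NN (hB : Bᵀ = B) (e f y : Fin n → F) (c : F) (hc : c ≠ 0) (hee : bb B e e = 0)
    (hff : bb B f f = 0) (hef : bb B e f = 1) (hey : bb B e y = 0) (hfy : bb B f y = 0) :
    SS B e f c * (1 + NN B e y) = (1 + NN B e (c • y)) * SS B e f c := by
  apply ext_mv
  intro x
  have hfe : bb B f e = 1 := by rw [bb_comm hB]; exact hef
  have hye : bb B y e = 0 := by rw [bb_comm hB]; exact hey
  have hyf : bb B y f = 0 := by rw [bb_comm hB]; exact hfy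
  rw [← Matrix.mulVec_mulVec, ← Matrix.mulVec_mulVec]
  simp only [Matrix.add_mulVec, Matrix.one_mulVec, NN_apply, SS_apply, bb_add_left, bb_add_right,
    bb_sub_left, bb_smul_left, bb_smul_right, hee, hff, hef, hfe, hey, hfy, hye, hyf, mul_zero,
    mul_one, add_zero, zero_add, sub_zero]
  match_scalars <;> field_simp <;> ring

/-- a hyperbolic pair and a vector orthogonal to it -/
lemma exists_hyp {ℓ : ℕ} [Fact ℓ.Prime] (hℓ2 : ℓ ≠ 2) {n : ℕ} (hn : 3 ≤ n)
    {B : Matrix (Fin n) (Fin n) (ZMod ℓ)} (hB : Bᵀ = B) (hdet : B.det ≠ 0) :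
    ∃ e f x : Fin n → ZMod ℓ, bb B e e = 0 ∧ bb B f f = 0 ∧ bb B e f = 1 ∧ x ≠ 0 ∧
      bb B e x = 0 ∧ bb B f x = 0 := by
  have h2 : (2 : ZMod ℓ) ≠ 0 := two_ne hℓ2
  obtain ⟨e, he0, hee⟩ := ir_iso (B := B) hn
  obtain ⟨f, hff, hef⟩ : ∃ u', bb B u' u' = 0 ∧ bb B e u' = 1 := by
    obtain ⟨y, hy⟩ : ∃ y, bb B e y ≠ 0 := by
      by_contra hcon
      push Not at hcon
      exact he0 (bb_nondeg hB hdet e hcon)
    set y1 := (bb B e y)⁻¹ • y with hy1
    have h3 : bb B e y1 = 1 := by rw [hy1, bb_smul_right, inv_mul_cancel₀ hy]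
    have h3' : bb B y1 e = 1 := by rw [bb_comm hB, h3]
    refine ⟨y1 - (bb B y1 y1 / 2) • e, ?_, ?_⟩
    · simp only [bb_sub_left, bb_sub_right, bb_smul_left, bb_smul_right, hee, h3, h3']
      field_simp
      ring
    · simp only [bb_sub_right, bb_smul_right, hee, h3]
      ring
  have hfe : bb B f e = 1 := by rw [bb_comm hB, hef]
  obtain ⟨x, hx⟩ : ∃ x, x ∉ Submodule.span (ZMod ℓ) ({e, f} : Set (Fin n → ZMod ℓ)) := by
    by_contra hc
    push Not at hc
    have h3 : Submodule.span (ZMod ℓ) ({e, f} : Set (Fin n → ZMod ℓ)) = ⊤ := by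
      rw [eq_top_iff]; intro x _; exact hc x
    have h4 := finrank_span_le_card (R := ZMod ℓ) ({e, f} : Set (Fin n → ZMod ℓ))
    rw [h3, finrank_top, Module.finrank_fin_fun] at h4
    have h5 : (Set.toFinset ({e, f} : Set (Fin n → ZMod ℓ))).card ≤ 2 := by
      rw [Set.toFinset_insert, Set.toFinset_singleton]
      exact Finset.card_le_two
    omega
  refine ⟨e, f, x - bb B f x • e - bb B e x • f, hee, hff, hef, ?_, ?_, ?_⟩
  · intro h0
    apply hx
    have h3 : x = bb B f x • e + bb B e x • f := by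
      rw [sub_sub] at h0
      exact sub_eq_zero.1 h0
    rw [h3]
    exact Submodule.add_mem _ (Submodule.smul_mem _ _ (Submodule.subset_span (by simp)))
      (Submodule.smul_mem _ _ (Submodule.subset_span (by simp)))
  · simp only [bb_sub_right, bb_smul_right, hee, hef]
    ring
  · simp only [bb_sub_right, bb_smul_right, hff, hfe]
    ring

end TUaux

open TUaux IRaux in
theorem tu_stmt : TUStmt := by
  intro ℓ hℓ h5 n hn B hB hdet
  have hℓ2 : ℓ ≠ 2 := by omega
  have h2 : (2 : ZMod ℓ) ≠ 0 := two_ne hℓ2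
  have h3 : (3 : ZMod ℓ) ≠ 0 := by
    intro h
    have h1 : ((3 : ℕ) : ZMod ℓ) = 0 := by exact_mod_cast h
    rw [ZMod.natCast_eq_zero_iff] at h1
    have := Nat.le_of_dvd (by norm_num) h1
    omega
  obtain ⟨e, f, x, hee, hff, hef, hx0, hex, hfx⟩ := exists_hyp hℓ2 (by omega) hB hdet
  have hfe : bb B f e = 1 := by rw [bb_comm hB, hef]
  have hex3 : bb B e ((3 : ZMod ℓ) • x) = 0 := by rw [bb_smul_right, hex, mul_zero]
  have hfx3 : bb B f ((3 : ZMod ℓ) • x) = 0 := by rw [bb_smul_right, hfx, mul_zero]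
  have h4 : ((2 : ZMod ℓ) * 2) ≠ 0 := mul_ne_zero h2 h2
  refine ⟨SS B e f (2 * 2), 1 + NN B e x, 1 + NN B e ((3 : ZMod ℓ) • x), ?_, ?_,
    NN_iso h2 hB e x hee hex, NN_pow hℓ2 hB e x hee hex, ?_, NN_pow hℓ2 hB _ _ hee hex3, ?_⟩
  · rw [← SS_mul hB e f 2 2 h2 h2 hee hff hef]
    by_cases hm : SS B e f 2 ∈ Om ℓ B
    · exact mul_mem hm hm
    · exact g_stmt ℓ hℓ2 n (by omega) B hB hdet _ _ (SS_iso hB e f 2 h2 hee hff hef)
        (SS_iso hB e f 2 h2 hee hff hef) (SS_det hB e f 2 h2 hee hff hef)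
        (SS_det hB e f 2 h2 hee hff hef) hm hm
  · rw [SS_pow hB e f _ h4 hee hff hef, ZMod.pow_card_sub_one_eq_one h4, SS_one]
  · intro h
    have h6 : (1 + NN B e ((3 : ZMod ℓ) • x)) *ᵥ f = f := by rw [h, Matrix.one_mulVec]
    rw [NN_apply_f e f _ hfe hfx3] at h6
    set c := bb B ((3 : ZMod ℓ) • x) ((3 : ZMod ℓ) • x) / 2 with hc
    have h7 : (3 : ZMod ℓ) • x = -(c • e) := by
      have h8 : f - (3 : ZMod ℓ) • x - c • e - f = 0 := by rw [h6, sub_self]
      have h9 : (3 : ZMod ℓ) • x = -(c • e) - (f - (3 : ZMod ℓ) • x - c • e - f) := by abel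
      rw [h9, h8, sub_zero]
    have h8 : c = 0 := by
      have h9 := hfx3
      rw [h7, ← neg_smul, bb_smul_right, hfe, mul_one, neg_eq_zero] at h9
      exact h9
    rw [h8, zero_smul, neg_zero] at h7
    rcases smul_eq_zero.1 h7 with h9 | h9
    · exact h3 h9
    · exact hx0 h9
  · rw [SS_NN hB e f x _ h4 hee hff hef hex hfx, NN_mul h2 hB e _ _ hee hex3 hex]
    have h10 : ((2 : ZMod ℓ) * 2) • x = (3 : ZMod ℓ) • x + x := by
      have : ((2 : ZMod ℓ) * 2) = 3 + 1 := by norm_num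
      rw [this, add_smul, one_smul]
    rw [h10]

end Pool.Agent.T2H36.IX
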