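import Pool.Agent.T2H36.IX.E2

set_option autoImplicit false
set_option linter.unusedSectionVars false
set_option linter.style.haveILetI false

/-!
Project IX, part F8: the theorems on the adelic Mumford-Tate statement at 100 percent of the primes.
-/

open MvPolynomial Matrix Filter Topology NumberField IsDedekindDomain
open Pool.Agent.Y142.ZO Pool.Agent.Y142.ZI
open Pool.Agent.Y95.MT
open Pool.Agent.W544.PG (HS BD bl)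

namespace Pool.Agent.T2H36.IX

open Pool.Agent.R932 Pool.Agent.R932.OP

section final

variable {K : Type} [Field K] [NumberField K] {n : ℕ} {S : Set (HeightOneSpectrum (𝓞 K))}
  {P : HeightOneSpectrum (𝓞 K) → Polynomial ℚ} {Γ : Type} [Group Γ] [TopologicalSpace Γ]
  [IsTopologicalGroup Γ] [CompactSpace Γ] {s : GK K →* Γ} {T : HS n} {κ : Type} [Fintype κ]
  [DecidableEq κ]

/-- the conditions on the rank and the prime number `ℓ₀` -/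
def GoodPrime (n : ℕ) (Q : Matrix (Fin n) (Fin n) ℚ) (ℓ₀ : ℕ) : Prop :=
  (Odd n ∧ 5 ≤ n ∧ ¬ ℓ₀ ∣ n - 1) ∨
    (Even n ∧ 8 ≤ n ∧ ¬ ℓ₀ ∣ (n - 2) * (n - 4) ∧ Even (padicValRat ℓ₀ Q.det))

theorem GoodPrime.five {Q : Matrix (Fin n) (Fin n) ℚ} {ℓ₀ : ℕ} (h : GoodPrime n Q ℓ₀) : 5 ≤ n := by
  rcases h with h | h
  · exact h.2.1
  · have := h.2.1
    omega

/-- **from one prime with full Lie algebra to big images at 100 percent of the primes** -/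
theorem main_big (hS : S.Finite) (hs : Continuous s)
    (β : ∀ (ℓ : ℕ) [Fact ℓ.Prime], Γ →* Matrix (Fin n) (Fin n) ℤ_[ℓ])
    (hβ : ∀ (ℓ : ℕ) [Fact ℓ.Prime], RepT s T S P ℓ (β ℓ))
    {D : ℕ} {Z : Matrix (Fin n) (Fin n) ℤ} (hD : D ≠ 0)
    (hsys : ∀ (ℓ : ℕ) [Fact ℓ.Prime], IntegralSys K n ℓ s (β ℓ) (Z.map (Int.cast : ℤ → ℤ_[ℓ])) S P)
    {b : ℕ} (hb : ∀ (ℓ : ℕ) [Fact ℓ.Prime], b < ℓ → IsUnit (Z.map (Int.cast : ℤ → ℤ_[ℓ])).det)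
    (hgen : ∀ (ℓ : ℕ) [Fact ℓ.Prime], genM ℓ (Z.map (Int.cast : ℤ → ℤ_[ℓ])) =
        (D : ℚ_[ℓ]) • T.Q.map (algebraMap ℚ ℚ_[ℓ]))
    (ℓ₀ : ℕ) [hℓ₀ : Fact ℓ₀.Prime] (hgood : GoodPrime n T.Q ℓ₀)
    (hfull : FullLie ℓ₀ ((qrep (β ℓ₀)).comp s) (T.Q.map (algebraMap ℚ ℚ_[ℓ₀]))) :
    ∃ b' : ℕ, Y142.ZI.DensityZero {ℓ | ∃ _ : Fact ℓ.Prime, b' < ℓ ∧
      ¬ NormBig ℓ (β ℓ) (Z.map (Int.cast : ℤ → ℤ_[ℓ]))} := by
  have hD' : (D : ℚ_[ℓ₀]) ≠ 0 := by exact_mod_cast hD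
  have hfull' : FullLie ℓ₀ (genRep ℓ₀ ((β ℓ₀).comp s))
      (genM ℓ₀ (Z.map (Int.cast : ℤ → ℤ_[ℓ₀]))) := by
    intro X hX
    refine hfull X ?_
    rw [hgen] at hX
    unfold Skew at hX ⊢
    rw [smul_mul_assoc, transpose_smul, ← smul_neg] at hX
    exact smul_right_injective _ hD' hX
  rcases hgood with ⟨hodd, h5, hdvd⟩ | ⟨heven, h8, hdvd, hval⟩
  · exact big_one hodd h5 hS β (fun ℓ _ => (hβ ℓ).cont)
      (fun ℓ _ => Z.map (Int.cast : ℤ → ℤ_[ℓ])) hsys ⟨b, hb⟩ ℓ₀ hdvd hfull'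
  · refine big_even heven h8 hS β (fun ℓ _ => (hβ ℓ).cont)
      (fun ℓ _ => Z.map (Int.cast : ℤ → ℤ_[ℓ])) hsys ⟨b, hb⟩ ℓ₀ hdvd hfull' ?_
    have hQ : T.Q.det ≠ 0 := Pool.Agent.W74.PG.det_ne T
    have h1 : (T.Q.map (algebraMap ℚ ℚ_[ℓ₀])).det = ((T.Q.det : ℚ) : ℚ_[ℓ₀]) := by
      have := (algebraMap ℚ ℚ_[ℓ₀]).map_det T.Q
      rw [RingHom.mapMatrix_apply] at this
      rw [← this]
      rfl
    rw [hgen, Matrix.det_smul, Fintype.card_fin, h1, Padic.valuation_mul (pow_ne_zero _ hD')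
      (by exact_mod_cast hQ), Padic.valuation_pow, Padic.valuation_ratCast]
    obtain ⟨k, hk⟩ := heven
    refine Even.add ?_ hval
    refine Even.mul_right ?_ _
    exact ⟨k, by rw [hk]; push_cast; ring⟩

/-- **from one prime with full Lie algebra to the adelic statement at 100 percent of the primes** -/
theorem main_full (hB : FullMT κ T)
    (hS : S.Finite) (hs : Continuous s)
    (α : ∀ (ℓ : ℕ) [Fact ℓ.Prime], Γ →* Matrix κ κ ℤ_[ℓ])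
    (hα : ∀ (ℓ : ℕ) [Fact ℓ.Prime], (Set.range (α ℓ)).Finite)
    (β : ∀ (ℓ : ℕ) [Fact ℓ.Prime], Γ →* Matrix (Fin n) (Fin n) ℤ_[ℓ])
    (hβ : ∀ (ℓ : ℕ) [Fact ℓ.Prime], RepT s T S P ℓ (β ℓ))
    (hconn : ∀ (ℓ : ℕ) [Fact ℓ.Prime], Conn (totZ (α ℓ) (β ℓ)))
    (ℓ₀ : ℕ) [hℓ₀ : Fact ℓ₀.Prime] (hgood : GoodPrime n T.Q ℓ₀)
    (hfull : FullLie ℓ₀ ((qrep (β ℓ₀)).comp s) (T.Q.map (algebraMap ℚ ℚ_[ℓ₀]))) :
    ∃ Λ : Set ℕ, Y142.ZI.DensityZero {ℓ | ℓ.Prime ∧ ℓ ∉ Λ} ∧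
      AdelicBig κ T (fun ℓ _ => totZ (α ℓ) (β ℓ)) Λ := by
  obtain ⟨D, Z, hD, hZ, hsys, ⟨b, hb⟩, hgen⟩ := int_form hs β hβ
  obtain ⟨b', hb'⟩ := main_big hS hs β hβ hD hsys hb hgen ℓ₀ hgood hfull
  refine ⟨{ℓ | max (max b b') n < ℓ ∧ ∀ _ : Fact ℓ.Prime, NormBig ℓ (β ℓ) (Z.map (Int.cast : ℤ → ℤ_[ℓ]))},
    ?_, ?_⟩
  · refine Y142.ZI.DensityZero.mono ((densityZero_finite
      (Set.finite_Iic (max (max b b') n))).union hb') ?_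
    rintro ℓ ⟨hp, hℓ⟩
    by_cases h1 : max (max b b') n < ℓ
    · right
      refine ⟨⟨hp⟩, ?_, fun h2 => hℓ ⟨h1, fun _ => h2⟩⟩
      simp only [max_lt_iff] at h1
      exact h1.1.2
    · left
      exact not_lt.1 h1
  · refine adelic_final hB hgood.five α hα β (fun ℓ _ => (hβ ℓ).cont) (fun ℓ _ => (hβ ℓ).form) hconn
      D Z hD hZ _ ?_ ?_ ?_
    · rintro ℓ ⟨h1, -⟩
      simp only [max_lt_iff] at h1
      exact h1.2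
    · rintro ℓ _ ⟨h1, -⟩
      simp only [max_lt_iff] at h1
      exact hb ℓ h1.1.1
    · rintro ℓ _ ⟨-, h1⟩
      exact h1 _

/-- **from the Mumford-Tate conjecture at one prime** -/
theorem main_one (hB : FullMT κ T)
    (hS : S.Finite) (hs : Continuous s)
    (α : ∀ (ℓ : ℕ) [Fact ℓ.Prime], Γ →* Matrix κ κ ℤ_[ℓ])
    (hα : ∀ (ℓ : ℕ) [Fact ℓ.Prime], (Set.range (α ℓ)).Finite)
    (β : ∀ (ℓ : ℕ) [Fact ℓ.Prime], Γ →* Matrix (Fin n) (Fin n) ℤ_[ℓ])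
    (hβ : ∀ (ℓ : ℕ) [Fact ℓ.Prime], RepT s T S P ℓ (β ℓ))
    (hconn : ∀ (ℓ : ℕ) [Fact ℓ.Prime], Conn (totZ (α ℓ) (β ℓ)))
    (ℓ₀ : ℕ) [hℓ₀ : Fact ℓ₀.Prime] (hgood : GoodPrime n T.Q ℓ₀)
    (hmt : MTC (hM (fun _ => (1 : Matrix κ κ ℂ)) T) ((toQ (totZ (α ℓ₀) (β ℓ₀))).comp s)) :
    ∃ Λ : Set ℕ, Y142.ZI.DensityZero {ℓ | ℓ.Prime ∧ ℓ ∉ Λ} ∧
      AdelicBig κ T (fun ℓ _ => totZ (α ℓ) (β ℓ)) Λ := by
  refine main_full hB hS hs α hα β hβ hconn ℓ₀ hgood ?_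
  rw [toQ_totZ] at hmt
  exact full_of_mtc (α := (toQ (α ℓ₀)).comp s) (β := (β ℓ₀).comp s) hgood.five hB
    ((hβ ℓ₀).cont.comp hs) (fun σ => (hβ ℓ₀).form (s σ)) hmt

end final

end Pool.Agent.T2H36.IX
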