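import Mathlib

set_option autoImplicit false
set_option linter.unusedSectionVars false

/-!
Project IX, package A, part 1: the combinatorics of the weights of the adjoint representation of the
orthogonal Lie algebra.
-/

open Matrix

namespace Pool.Agent.T2H36.IX

variable {k : Type} [Field k] {n : ℕ}

/-- the elementary antisymmetric matrix -/
def ee (a b : Fin n) : Matrix (Fin n) (Fin n) k := Matrix.single a b 1 - Matrix.single b a 1

theorem ee_symm (a b : Fin n) : (ee a b : Matrix (Fin n) (Fin n) k) = -ee b a := by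
  unfold ee
  rw [neg_sub]

theorem ee_self (a : Fin n) : (ee a a : Matrix (Fin n) (Fin n) k) = 0 := by
  unfold ee
  rw [sub_self]

theorem ee_transpose (a b : Fin n) : (ee a b : Matrix (Fin n) (Fin n) k)ᵀ = -ee a b := by
  unfold ee
  rw [transpose_sub, Matrix.transpose_single, Matrix.transpose_single, neg_sub]

theorem single_mid (B : Matrix (Fin n) (Fin n) k) (a b c d : Fin n) :
    Matrix.single a b (1 : k) * B * Matrix.single c d (1 : k) = B b c • Matrix.single a d (1 : k) := by
  ext i j
  have h2 : ∀ x, (Matrix.single a b (1 : k) * B) i x = if a = i then B b x else 0 := by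
    intro x
    by_cases hi : a = i
    · subst hi
      rw [if_pos rfl, Matrix.single_mul_apply_same, one_mul]
    · rw [if_neg hi, Matrix.single_mul_apply_of_ne _ _ _ _ _ (Ne.symm hi)]
  by_cases hj : d = j
  · subst hj
    rw [Matrix.mul_single_apply_same, h2, mul_one, Matrix.smul_apply, Matrix.single_apply]
    by_cases hi : a = i <;> simp [hi]
  · rw [Matrix.mul_single_apply_of_ne _ _ _ _ _ (Ne.symm hj), Matrix.smul_apply, Matrix.single_apply]
    simp [hj]

/-- the bracket -/
def br (B X Y : Matrix (Fin n) (Fin n) k) : Matrix (Fin n) (Fin n) k := X * B * Y - Y * B * X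

theorem br_ee {B : Matrix (Fin n) (Fin n) k} (hB : Bᵀ = B) (a b c d : Fin n) :
    br B (ee a b) (ee c d) = B b c • ee a d - B b d • ee a c - B a c • ee b d + B a d • ee b c := by
  have hs : ∀ i j, B i j = B j i := fun i j => by
    conv_lhs => rw [← hB]
    rfl
  unfold br ee
  simp only [sub_mul, mul_sub, single_mid]
  rw [hs d a, hs c a, hs d b, hs c b]
  simp only [smul_sub]
  abel

theorem br_neg_right (B X Y : Matrix (Fin n) (Fin n) k) : br B X (-Y) = -br B X Y := by
  unfold br
  simp only [mul_neg, neg_mul]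
  abel

theorem br_add_right (B X Y Z : Matrix (Fin n) (Fin n) k) : br B X (Y + Z) = br B X Y + br B X Z := by
  unfold br
  simp only [mul_add, add_mul]
  abel

theorem br_sub_right (B X Y Z : Matrix (Fin n) (Fin n) k) : br B X (Y - Z) = br B X Y - br B X Z := by
  unfold br
  simp only [mul_sub, sub_mul]
  abel

theorem br_smul_right (B X Y : Matrix (Fin n) (Fin n) k) (t : k) : br B X (t • Y) = t • br B X Y := by
  unfold br
  simp only [mul_smul_comm, smul_mul_assoc, smul_sub]

theorem br_transpose {B X Y : Matrix (Fin n) (Fin n) k} (hB : Bᵀ = B) (hX : Xᵀ = -X) (hY : Yᵀ = -Y) :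
    (br B X Y)ᵀ = -br B X Y := by
  unfold br
  simp only [transpose_sub, transpose_mul, hB, hX, hY, mul_neg, neg_mul, neg_neg]
  rw [neg_sub, mul_assoc, mul_assoc]

/-- Jacobi: brackets of normalizing elements normalize -/
theorem br_br (B X Y Z : Matrix (Fin n) (Fin n) k) :
    br B (br B X Y) Z = br B X (br B Y Z) - br B Y (br B X Z) := by
  unfold br
  simp only [mul_sub, sub_mul, mul_assoc]
  abel

section core

variable {c : Fin n → Fin n} {B : Matrix (Fin n) (Fin n) k} {U M : Submodule k (Matrix (Fin n) (Fin n) k)}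

/-- the data of the combinatorial core -/
structure Core (c : Fin n → Fin n) (B : Matrix (Fin n) (Fin n) k)
    (U M : Submodule k (Matrix (Fin n) (Fin n) k)) : Prop where
  two : (2 : k) ≠ 0
  inv : ∀ i, c (c i) = i
  fix : ∀ i j, c i = i → c j = j → i = j
  symm : Bᵀ = B
  zero : ∀ i j, j ≠ c i → B i j = 0
  ne : ∀ i, B i (c i) ≠ 0
  alt : ∀ A ∈ U, Aᵀ = -A
  norm : ∀ A, A ∈ M ↔ Aᵀ = -A ∧ ∀ X ∈ U, br B A X ∈ U
  grU : ∀ A ∈ U, ∀ i j, j ≠ c i → A i j • ee i j ∈ U
  grM : ∀ A ∈ M, ∀ i j, j ≠ c i → A i j • ee i j ∈ M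

/-- the standard representation is irreducible -/
def Irr (B : Matrix (Fin n) (Fin n) k) (M : Submodule k (Matrix (Fin n) (Fin n) k)) : Prop :=
  ∀ W : Submodule k (Fin n → k), (∀ A ∈ M, ∀ w ∈ W, (A * B) *ᵥ w ∈ W) → W = ⊥ ∨ W = ⊤

theorem Core.ne' (h : Core c B U M) (i : Fin n) : B (c i) i ≠ 0 := by
  have := h.ne (c i)
  rwa [h.inv i] at this

theorem Core.beta (h : Core c B U M) (i : Fin n) : B (c i) i = B i (c i) := by
  have h1 := congrFun (congrFun h.symm i) (c i)
  exact h1

theorem Core.diag (h : Core c B U M) {A : Matrix (Fin n) (Fin n) k} (hA : Aᵀ = -A) (i : Fin n) :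
    A i i = 0 := by
  have h1 := congrFun (congrFun hA i) i
  have h2 : A i i = -A i i := h1
  have h3 : (2 : k) * A i i = 0 := by linear_combination h2
  exact (mul_eq_zero.1 h3).resolve_left h.two

/-- an antisymmetric matrix is the sum of its elementary parts -/
theorem two_smul_eq {A : Matrix (Fin n) (Fin n) k} (hA : Aᵀ = -A) :
    (2 : k) • A = ∑ i, ∑ j, A i j • ee i j := by
  have h1 : A = ∑ i, ∑ j, A i j • Matrix.single i j (1 : k) := by
    conv_lhs => rw [Matrix.matrix_eq_sum_single A]
    refine Finset.sum_congr rfl fun i _ => Finset.sum_congr rfl fun j _ => ?_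
    rw [Matrix.smul_single, smul_eq_mul, mul_one]
  have h2 : -A = ∑ i, ∑ j, A i j • Matrix.single j i (1 : k) := by
    conv_lhs => rw [← hA]
    conv_lhs => rw [h1]
    rw [Matrix.transpose_sum]
    refine Finset.sum_congr rfl fun i _ => ?_
    rw [Matrix.transpose_sum]
    refine Finset.sum_congr rfl fun j _ => ?_
    rw [Matrix.transpose_smul, Matrix.transpose_single]
  have h3 : ∑ i, ∑ j, A i j • (ee i j : Matrix (Fin n) (Fin n) k) = A - -A := by
    conv_rhs => rw [h2]
    conv_rhs => enter [1]; rw [h1]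
    rw [← Finset.sum_sub_distrib]
    refine Finset.sum_congr rfl fun i _ => ?_
    rw [← Finset.sum_sub_distrib]
    refine Finset.sum_congr rfl fun j _ => ?_
    unfold ee
    rw [smul_sub]
  rw [h3, two_smul, sub_neg_eq_add]

theorem Core.mem_of_parts (h : Core c B U M) {V : Submodule k (Matrix (Fin n) (Fin n) k)}
    {A : Matrix (Fin n) (Fin n) k} (hA : Aᵀ = -A) (hp : ∀ i j, A i j • (ee i j : Matrix (Fin n) (Fin n) k) ∈ V) :
    A ∈ V := by
  have h1 : (2 : k) • A ∈ V := by
    rw [two_smul_eq hA]
    exact V.sum_mem fun i _ => V.sum_mem fun j _ => hp i j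
  have h2 := V.smul_mem (2 : k)⁻¹ h1
  rwa [smul_smul, inv_mul_cancel₀ h.two, one_smul] at h2

/-- the bracket of a dual pair with an elementary matrix -/
theorem Core.br_dual (h : Core c B U M) (i a b : Fin n) (hi : c i ≠ i) :
    ∃ t : k, br B (ee i (c i)) (ee a b) = t • ee a b := by
  rw [br_ee h.symm]
  by_cases hab : a = b
  · subst hab
    refine ⟨0, ?_⟩
    rw [ee_self, zero_smul]
    abel
  -- B (c i) a is nonzero only if a = i
  by_cases ha : a = i
  · subst ha
    by_cases hb : b = c a
    · subst hb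
      refine ⟨0, ?_⟩
      rw [ee_self (c a), ee_self a, h.zero (c a) (c a) (by rw [h.inv]; exact hi),
        h.zero a a (Ne.symm hi), h.beta a]
      simp only [smul_zero, zero_smul, sub_zero, add_zero, zero_sub]
      rw [ee_symm (c a) a, smul_neg]
      abel
    · refine ⟨B (c a) a, ?_⟩
      rw [h.zero (c a) b (by rw [h.inv]; exact fun h' => hab h'.symm), h.zero a a (Ne.symm hi),
        h.zero a b hb]
      simp
  · by_cases ha' : a = c i
    · subst ha'
      by_cases hb : b = i
      · subst hb
        refine ⟨0, ?_⟩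
        rw [h.zero (c b) (c b) (by rw [h.inv]; exact hi), h.zero b b (Ne.symm hi), ee_self, ee_self,
          h.beta b, ee_symm (c b) b]
        simp only [smul_zero, zero_smul, smul_neg]
        abel
      · refine ⟨-B i (c i), ?_⟩
        rw [h.zero (c i) (c i) (by rw [h.inv]; exact hi),
          h.zero (c i) b (by rw [h.inv]; exact hb), h.zero i b (fun h' => hab h'.symm)]
        simp
    · rw [h.zero (c i) a (by rw [h.inv]; exact ha), h.zero i a ha']
      by_cases hb : b = i
      · subst hb
        refine ⟨B (c b) b, ?_⟩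
        rw [h.zero b b (Ne.symm hi), ee_symm a b]
        simp
      · by_cases hb' : b = c i
        · subst hb'
          refine ⟨-B i (c i), ?_⟩
          rw [h.zero (c i) (c i) (by rw [h.inv]; exact hi), ee_symm a (c i)]
          simp
        · refine ⟨0, ?_⟩
          rw [h.zero (c i) b (by rw [h.inv]; exact hb), h.zero i b hb']
          simp

end core

end Pool.Agent.T2H36.IX
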