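import Pool.Agent.T2H36.IX.A1

set_option autoImplicit false
set_option linter.unusedSectionVars false

/-!
Project IX, package A, part 2: the combinatorial core.
-/

open Matrix

namespace Pool.Agent.T2H36.IX

variable {k : Type} [Field k] {n : ℕ}

section core

variable {c : Fin n → Fin n} {B : Matrix (Fin n) (Fin n) k} {U M : Submodule k (Matrix (Fin n) (Fin n) k)}

theorem exists_avoid (hn : 5 ≤ n) (a b c d : Fin n) : ∃ m : Fin n, m ≠ a ∧ m ≠ b ∧ m ≠ c ∧ m ≠ d := by
  classical
  by_contra hcon
  push Not at hcon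
  have h1 : (Finset.univ : Finset (Fin n)) ⊆ {a, b, c, d} := by
    intro m _
    simp only [Finset.mem_insert, Finset.mem_singleton]
    by_contra h
    push Not at h
    exact h.2.2.2 (hcon m h.1 h.2.1 h.2.2.1)
  have h2 := Finset.card_le_card h1
  rw [Finset.card_univ, Fintype.card_fin] at h2
  have h3 := Finset.card_le_four (a := a) (b := b) (c := c) (d := d)
  omega

theorem Core.br_dual_dual (h : Core c B U M) (i a : Fin n) (hi : c i ≠ i) :
    br B (ee i (c i)) (ee a (c a)) = 0 := by
  rw [br_ee h.symm]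
  by_cases ha : a = i
  · subst ha
    rw [ee_self (c a), ee_self a, h.beta a, ee_symm (c a) a]
    simp
  · by_cases ha' : a = c i
    · subst ha'
      rw [h.inv, h.zero (c i) (c i) (by rw [h.inv]; exact hi), h.zero i i (Ne.symm hi), ee_self i,
        h.beta i, ee_symm (c i) i]
      simp
    · have h1 : c a ≠ i := fun h' => ha' (by rw [← h', h.inv])
      have h2 : c a ≠ c i := fun h' => ha (by rw [← h.inv a, h', h.inv])
      rw [h.zero (c i) a (by rw [h.inv]; exact ha), h.zero (c i) (c a) (by rw [h.inv]; exact h1),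
        h.zero i a ha', h.zero i (c a) h2]
      simp

theorem Core.dual_mem (h : Core c B U M) (i : Fin n) (hi : c i ≠ i) : ee i (c i) ∈ M := by
  rw [h.norm]
  refine ⟨ee_transpose _ _, fun X hX => ?_⟩
  have hXt := h.alt X hX
  have h1 : (2 : k) • br B (ee i (c i)) X ∈ U := by
    rw [← br_smul_right, two_smul_eq hXt]
    have h2 : ∀ (s : Finset (Fin n)) (f : Fin n → Matrix (Fin n) (Fin n) k),
        br B (ee i (c i)) (∑ x ∈ s, f x) = ∑ x ∈ s, br B (ee i (c i)) (f x) := by
      intro s f
      unfold br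
      rw [Finset.mul_sum, Finset.sum_mul, Finset.sum_mul, ← Finset.sum_sub_distrib]
    rw [h2]
    refine U.sum_mem fun a _ => ?_
    rw [h2]
    refine U.sum_mem fun b _ => ?_
    rw [br_smul_right]
    by_cases hb : b = c a
    · subst hb
      rw [h.br_dual_dual i a hi, smul_zero]
      exact U.zero_mem
    · obtain ⟨t, ht⟩ := h.br_dual i a b hi
      rw [ht, smul_comm]
      exact U.smul_mem _ (h.grU X hX a b hb)
  have h2 := U.smul_mem (2 : k)⁻¹ h1
  rwa [smul_smul, inv_mul_cancel₀ h.two, one_smul] at h2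

theorem Core.br_mem (h : Core c B U M) {X Y : Matrix (Fin n) (Fin n) k} (hX : X ∈ M) (hY : Y ∈ M) :
    br B X Y ∈ M := by
  obtain ⟨hX1, hX2⟩ := (h.norm X).1 hX
  obtain ⟨hY1, hY2⟩ := (h.norm Y).1 hY
  rw [h.norm]
  refine ⟨br_transpose h.symm hX1 hY1, fun Z hZ => ?_⟩
  rw [br_br]
  exact U.sub_mem (hX2 _ (hY2 Z hZ)) (hY2 _ (hX2 Z hZ))

/-- an edge of the graph of the weights -/
def Edge (c : Fin n → Fin n) (M : Submodule k (Matrix (Fin n) (Fin n) k)) (i j : Fin n) : Prop :=
  j ≠ i ∧ j ≠ c i ∧ ee j (c i) ∈ M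

theorem Core.edge_symm (h : Core c B U M) {i j : Fin n} (hij : Edge c M i j) :
    Edge c M (c j) (c i) := by
  obtain ⟨h1, h2, h3⟩ := hij
  refine ⟨fun h' => h1 ?_, fun h' => h2 ?_, ?_⟩
  · rw [← h.inv j, ← h', h.inv]
  · rw [h.inv] at h'
    exact h'.symm
  · rw [h.inv, ee_symm]
    exact M.neg_mem h3

theorem Core.edge_trans (h : Core c B U M) {i j l : Fin n} (hij : Edge c M i j) (hjl : Edge c M j l)
    (h1 : l ≠ i) (h2 : l ≠ c i) : Edge c M i l := by
  refine ⟨h1, h2, ?_⟩
  have h3 := h.br_mem hjl.2.2 hij.2.2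
  rw [br_ee h.symm, h.zero (c j) (c i) (by rw [h.inv]; exact hij.2.1.symm),
    h.zero l j (fun h' => hjl.2.1 (by rw [h', h.inv])),
    h.zero l (c i) (fun h' => h1 (by rw [← h.inv l, ← h', h.inv]))] at h3
  have h4 : B (c j) j • (ee l (c i) : Matrix (Fin n) (Fin n) k) ∈ M := by
    simpa using h3
  have h5 := M.smul_mem (B (c j) j)⁻¹ h4
  rwa [smul_smul, inv_mul_cancel₀ (h.ne' j), one_smul] at h5

theorem Core.mul_apply (h : Core c B U M) (A : Matrix (Fin n) (Fin n) k) (l x : Fin n) :
    (A * B) l x = A l (c x) * B (c x) x := by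
  rw [Matrix.mul_apply, Finset.sum_eq_single (c x)]
  · intro y _ hy
    rw [h.zero y x (fun h' => hy (by rw [h', h.inv])), mul_zero]
  · intro h'
    exact absurd (Finset.mem_univ _) h'

theorem Core.reach (h : Core c B U M) (hI : Irr B M) (i l : Fin n) : Relation.ReflTransGen (Edge c M) i l := by
  classical
  let W : Submodule k (Fin n → k) :=
    { carrier := {w | ∀ x, ¬ Relation.ReflTransGen (Edge c M) i x → w x = 0}
      zero_mem' := fun _ _ => rfl
      add_mem' := by
        intro a b ha hb x hx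
        rw [Pi.add_apply, ha x hx, hb x hx, add_zero]
      smul_mem' := by
        intro t a ha x hx
        rw [Pi.smul_apply, ha x hx, smul_zero] }
  have hW : ∀ A ∈ M, ∀ w ∈ W, (A * B) *ᵥ w ∈ W := by
    intro A hA w hw y hy
    rw [mulVec, dotProduct]
    refine Finset.sum_eq_zero fun x _ => ?_
    by_cases hx : Relation.ReflTransGen (Edge c M) i x
    · have h0 : A y (c x) = 0 := by
        by_contra hne
        apply hy
        have hyx : y ≠ x := by
          rintro rfl
          exact hy hx
        have hycx : y ≠ c x := by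
          rintro rfl
          exact hne (h.diag ((h.norm A).1 hA).1 _)
        have h1 := h.grM A hA y (c x) (fun h' => hyx (by rw [← h.inv y, ← h', h.inv]))
        have h2 := M.smul_mem (A y (c x))⁻¹ h1
        rw [smul_smul, inv_mul_cancel₀ hne, one_smul] at h2
        exact hx.tail ⟨hyx, hycx, h2⟩
      rw [h.mul_apply, h0, zero_mul, zero_mul]
    · rw [hw x hx, mul_zero]
  have hi : Pi.single i (1 : k) ∈ W := by
    intro x hx
    have : x ≠ i := by
      rintro rfl
      exact hx Relation.ReflTransGen.refl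
    rw [Pi.single_eq_of_ne this]
  rcases hI W hW with h1 | h1
  · rw [h1, Submodule.mem_bot] at hi
    exact absurd (congrFun hi i) (by rw [Pi.single_eq_same]; exact one_ne_zero)
  · by_contra hl
    have h2 : Pi.single l (1 : k) ∈ W := by
      rw [h1]
      exact Submodule.mem_top
    have h3 := h2 l hl
    rw [Pi.single_eq_same] at h3
    exact one_ne_zero h3

theorem Core.inv_path (h : Core c B U M) (hI : Irr B M) (i l : Fin n) :
    l = i ∨ Edge c M i l ∨ (l = c i ∧ ∃ a, Edge c M i a ∧ Edge c M a (c i)) := by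
  have h1 := h.reach hI i l
  induction h1 with
  | refl => exact Or.inl rfl
  | @tail j l _ hjl ih =>
    rcases ih with h2 | h2 | ⟨h2, a, ha1, ha2⟩
    · rw [h2] at hjl
      exact Or.inr (Or.inl hjl)
    · by_cases hli : l = i
      · exact Or.inl hli
      · by_cases hlc : l = c i
        · refine Or.inr (Or.inr ⟨hlc, j, h2, ?_⟩)
          rw [← hlc]
          exact hjl
        · exact Or.inr (Or.inl (h.edge_trans h2 hjl hli hlc))
    · rw [h2] at hjl
      have hlci : l ≠ c i := hjl.1
      have hli : l ≠ i := by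
        have := hjl.2.1
        rwa [h.inv] at this
      refine Or.inr (Or.inl ?_)
      by_cases hla : l = a
      · rw [hla]
        exact ha1
      · by_cases hlca : l = c a
        · rw [hlca]
          have := h.edge_symm ha2
          rwa [h.inv] at this
        · exact h.edge_trans ha1 (h.edge_trans ha2 hjl hla hlca) hli hlci

theorem Core.edge_all (h : Core c B U M) (hI : Irr B M) {i l : Fin n} (h1 : l ≠ i) (h2 : l ≠ c i) :
    Edge c M i l := by
  rcases h.inv_path hI i l with h3 | h3 | h3
  · exact absurd h3 h1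
  · exact h3
  · exact absurd h3.1 h2

theorem Core.mem_M (h : Core c B U M) (hI : Irr B M) {A : Matrix (Fin n) (Fin n) k} (hA : Aᵀ = -A) : A ∈ M := by
  refine h.mem_of_parts hA fun i j => ?_
  by_cases hij : i = j
  · subst hij
    rw [ee_self, smul_zero]
    exact M.zero_mem
  · refine M.smul_mem _ ?_
    by_cases hj : j = c i
    · subst hj
      exact h.dual_mem i (Ne.symm hij)
    · have h1 : Edge c M (c j) i := h.edge_all hI (fun h' => hj (by rw [h', h.inv]))
        (by rw [h.inv]; exact hij)
      have h2 := h1.2.2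
      rwa [h.inv] at h2

theorem Core.ideal (h : Core c B U M) (hI : Irr B M) {A X : Matrix (Fin n) (Fin n) k} (hA : Aᵀ = -A) (hX : X ∈ U) :
    br B A X ∈ U :=
  ((h.norm A).1 (h.mem_M hI hA)).2 X hX

theorem smul_cancel {V : Submodule k (Matrix (Fin n) (Fin n) k)} {t : k} {X : Matrix (Fin n) (Fin n) k}
    (ht : t ≠ 0) (h : t • X ∈ V) : X ∈ V := by
  have h5 := V.smul_mem t⁻¹ h
  rwa [smul_smul, inv_mul_cancel₀ ht, one_smul] at h5

/-- replacing an index, first form -/
theorem Core.move (h : Core c B U M) (hI : Irr B M) {i j l : Fin n} (hij : j ≠ i) (hX : ee i j ∈ U)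
    (h1 : l ≠ c i) (h2 : l ≠ c j) : ee l j ∈ U := by
  have h3 := h.ideal hI (ee_transpose l (c i)) hX
  rw [br_ee h.symm, h.zero (c i) j (by rw [h.inv]; exact hij),
    h.zero l i (fun h' => h1 (by rw [h', h.inv])), h.zero l j (fun h' => h2 (by rw [h', h.inv]))] at h3
  have h4 : B (c i) i • (ee l j : Matrix (Fin n) (Fin n) k) ∈ U := by
    simpa using h3
  exact smul_cancel (h.ne' i) h4

theorem Core.move' (h : Core c B U M) (hI : Irr B M) (hn : 5 ≤ n) {i j l : Fin n} (hij : j ≠ i) (hic : j ≠ c i)
    (hX : ee i j ∈ U) (h2 : l ≠ c j) : ee l j ∈ U := by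
  by_cases h1 : l = c i
  · obtain ⟨m, hm1, hm2, hm3, hm4⟩ := exists_avoid hn i (c i) j (c j)
    have h3 := h.move hI hij hX hm2 hm4
    refine h.move hI (Ne.symm hm3) h3 ?_ h2
    rw [h1]
    intro h'
    exact hm1 (by rw [← h.inv m, ← h', h.inv])
  · exact h.move hI hij hX h1 h2

theorem Core.root_all (h : Core c B U M) (hI : Irr B M) (hn : 5 ≤ n) {i j : Fin n} (hij : j ≠ i) (hic : j ≠ c i)
    (hX : ee i j ∈ U) {l m : Fin n} (hlm : m ≠ c l) : ee l m ∈ U := by
  by_cases hlm' : m = l
  · subst hlm'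
    rw [ee_self]
    exact U.zero_mem
  -- change `j` to an index which avoids `l` and its dual
  obtain ⟨j', h1, h2, h3, h4⟩ := exists_avoid hn i (c i) l (c l)
  have h5 : ee j i ∈ U := by
    rw [ee_symm]
    exact U.neg_mem hX
  have hij' : i ≠ c j := fun h' => hic (by rw [h', h.inv])
  have h6 : ee j' i ∈ U := h.move' hI hn (Ne.symm hij) hij' h5 h2
  have h7 : ee i j' ∈ U := by
    rw [ee_symm]
    exact U.neg_mem h6
  have h8 : ee l j' ∈ U := h.move' hI hn h1 h2 h7 (fun h' => h4 (by rw [h', h.inv]))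
  have h9 : ee j' l ∈ U := by
    rw [ee_symm]
    exact U.neg_mem h8
  have h10 : ee m l ∈ U := h.move' hI hn (Ne.symm h3) (fun h' => h4 (by rw [h', h.inv])) h9 hlm
  rw [ee_symm]
  exact U.neg_mem h10

theorem Core.dual_all (h : Core c B U M) (hI : Irr B M) (hn : 5 ≤ n) (hall : ∀ l m, m ≠ c l → ee l m ∈ U)
    (i : Fin n) : ee i (c i) ∈ U := by
  by_cases hi : c i = i
  · rw [hi, ee_self]
    exact U.zero_mem
  obtain ⟨j, h1, h2, -, -⟩ := exists_avoid hn i (c i) i i
  have hcj1 : c j ≠ i := fun h' => h2 (by rw [← h', h.inv])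
  have hcj2 : c j ≠ c i := fun h' => h1 (by rw [← h.inv j, h', h.inv])
  -- the bracket of `(c j, c i)` and `(i, j)`
  have key : ∀ j : Fin n, j ≠ i → j ≠ c i → c j ≠ i → c j ≠ c i →
      B (c i) i • (ee (c j) j : Matrix (Fin n) (Fin n) k) + B (c j) j • ee (c i) i ∈ U := by
    intro j h1 h2 hcj1 hcj2
    have h3 := h.ideal hI (ee_transpose (c j) (c i)) (hall i j h2)
    rw [br_ee h.symm, h.zero (c i) j (by rw [h.inv]; exact h1),
      h.zero (c j) i (by rw [h.inv]; exact Ne.symm h1)] at h3
    simpa using h3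
  have h3 := key j h1 h2 hcj1 hcj2
  have h4 := key (c j) hcj1 hcj2 (by rw [h.inv]; exact h1) (by rw [h.inv]; exact h2)
  rw [h.inv] at h4
  have h5 : (2 * B (c j) j) • (ee (c i) i : Matrix (Fin n) (Fin n) k) ∈ U := by
    have h6 := U.add_mem h3 h4
    have h7 : B (c i) i • (ee (c j) j : Matrix (Fin n) (Fin n) k) + B (c j) j • ee (c i) i +
        (B (c i) i • ee j (c j) + B j (c j) • ee (c i) i) =
        (2 * B (c j) j) • (ee (c i) i : Matrix (Fin n) (Fin n) k) := by
      rw [ee_symm j (c j), ← h.beta j, two_mul, add_smul, smul_neg]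
      abel
    rwa [h7] at h6
  rw [ee_symm]
  exact U.neg_mem (smul_cancel (mul_ne_zero h.two (h.ne' j)) h5)

/-- a nonzero ideal contains an elementary matrix -/
theorem Core.exists_root (h : Core c B U M) (hI : Irr B M) (hn : 5 ≤ n) (hU : U ≠ ⊥) :
    ∃ i j, j ≠ i ∧ j ≠ c i ∧ ee i j ∈ U := by
  obtain ⟨A, hA, hA0⟩ := (Submodule.ne_bot_iff U).1 hU
  have hAt := h.alt A hA
  by_cases h1 : ∃ i j, j ≠ c i ∧ A i j ≠ 0
  · obtain ⟨i, j, h2, h3⟩ := h1
    refine ⟨i, j, ?_, h2, smul_cancel h3 (h.grU A hA i j h2)⟩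
    rintro rfl
    exact h3 (h.diag hAt _)
  · push Not at h1
    have h2 : ∃ i, A i (c i) ≠ 0 := by
      by_contra h3
      push Not at h3
      apply hA0
      ext i j
      by_cases hj : j = c i
      · rw [hj]
        exact h3 i
      · exact h1 i j hj
    obtain ⟨i, hi⟩ := h2
    have hci : c i ≠ i := by
      intro h'
      rw [h'] at hi
      exact hi (h.diag hAt _)
    -- the diagonal entries of `A * B`
    have hanti : ∀ x y, A y x = -A x y := fun x y => by
      have := congrFun (congrFun hAt x) y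
      exact this
    have hbr : ∀ x y, br B A (ee x y) = (A x (c x) * B (c x) x + A y (c y) * B (c y) y) • ee x y := by
      intro x y
      have h3 : ∀ x y : Fin n, A * B * Matrix.single x y (1 : k) =
          (A x (c x) * B (c x) x) • Matrix.single x y (1 : k) := by
        intro x y
        ext a b
        by_cases hb : b = y
        · subst hb
          rw [Matrix.mul_single_apply_same, mul_one, h.mul_apply, Matrix.smul_apply,
            Matrix.single_apply]
          by_cases ha : a = x
          · subst ha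
            simp
          · rw [h1 a (c x) (fun h' => ha (by rw [← h.inv a, ← h', h.inv])), zero_mul,
              if_neg (fun h' => ha h'.1.symm), smul_zero]
        · rw [Matrix.mul_single_apply_of_ne _ _ _ _ _ hb, Matrix.smul_apply, Matrix.single_apply,
            if_neg (fun h' => hb h'.2.symm), smul_zero]
      have h4 : ∀ x y : Fin n, Matrix.single x y (1 : k) * B * A =
          (-(A y (c y) * B (c y) y)) • Matrix.single x y (1 : k) := by
        intro x y
        have h5 := congrArg Matrix.transpose (h3 y x)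
        rw [transpose_mul, transpose_mul, h.symm, hAt, transpose_smul, Matrix.transpose_single] at h5
        rw [neg_smul, ← h5, mul_neg, mul_neg, neg_neg, mul_assoc]
      unfold br ee
      rw [mul_sub, h3, h3, sub_mul, sub_mul, h4, h4]
      module
    -- choose a second index
    obtain ⟨j, h3, h4, -, -⟩ := exists_avoid hn i (c i) i i
    have hcj1 : c j ≠ i := fun h' => h4 (by rw [← h', h.inv])
    have hcj2 : c j ≠ c i := fun h' => h3 (by rw [← h.inv j, h', h.inv])
    have hai : A i (c i) * B (c i) i ≠ 0 := mul_ne_zero hi (h.ne' i)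
    have hmem : ∀ y, br B A (ee i y) ∈ U := by
      intro y
      have h5 : br B A (ee i y) = -br B (ee i y) A := by
        unfold br
        rw [neg_sub]
      rw [h5]
      exact U.neg_mem (h.ideal hI (ee_transpose i y) hA)
    by_cases h5 : A i (c i) * B (c i) i + A j (c j) * B (c j) j = 0
    · refine ⟨i, c j, hcj1, hcj2, ?_⟩
      have h6 := hmem (c j)
      rw [hbr, h.inv] at h6
      refine smul_cancel ?_ h6
      rw [hanti j (c j), ← h.beta j]
      intro h7
      have h8 : (2 : k) * (A i (c i) * B (c i) i) = 0 := by linear_combination h5 + h7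
      exact hai ((mul_eq_zero.1 h8).resolve_left h.two)
    · refine ⟨i, j, h3, h4, ?_⟩
      have h6 := hmem j
      rw [hbr] at h6
      exact smul_cancel h5 h6

/-- **the core** -/
theorem Core.main (h : Core c B U M) (hI : Irr B M) (hn : 5 ≤ n) (hU : U ≠ ⊥) {A : Matrix (Fin n) (Fin n) k}
    (hA : Aᵀ = -A) : A ∈ U := by
  obtain ⟨i, j, h1, h2, h3⟩ := h.exists_root hI hn hU
  have hall : ∀ l m, m ≠ c l → ee l m ∈ U := fun l m hlm => h.root_all hI hn h1 h2 h3 hlm
  refine h.mem_of_parts hA fun l m => U.smul_mem _ ?_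
  by_cases hm : m = c l
  · subst hm
    exact h.dual_all hI hn hall l
  · exact hall l m hm

end core

end Pool.Agent.T2H36.IX
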