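import Pool.Agent.T2H36.IX.A2

set_option autoImplicit false
set_option linter.unusedSectionVars false

/-!
Project IX, package A, part 3: the diagonal case of the Lie algebra step.
-/

open Matrix

namespace Pool.Agent.T2H36.IX

variable {k : Type} [Field k] {n : ℕ}

open scoped Classical in
/-- components of the elements of a subspace which is stable under a diagonal operator -/
theorem graded {V : Submodule k (Matrix (Fin n) (Fin n) k)} {mu : Fin n → k}
    (hst : ∀ A ∈ V, diagonal mu * A * diagonal mu ∈ V) {A : Matrix (Fin n) (Fin n) k} (hA : A ∈ V)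
    (τ : k) : (Matrix.of fun i j => if mu i * mu j = τ then A i j else 0) ∈ V := by
  classical
  have hd : ∀ A : Matrix (Fin n) (Fin n) k, diagonal mu * A * diagonal mu =
      Matrix.of fun i j => (mu i * mu j) * A i j := by
    intro A
    ext i j
    rw [Matrix.mul_diagonal, Matrix.diagonal_mul, Matrix.of_apply]
    ring
  have hp : ∀ p : Polynomial k, (Matrix.of fun i j => p.eval (mu i * mu j) * A i j) ∈ V := by
    intro p
    induction p using Polynomial.induction_on' with
    | add p q hp hq =>
      have h1 := V.add_mem hp hq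
      refine (congrArg (· ∈ V) ?_).mp h1
      ext i j
      simp only [Matrix.add_apply, Matrix.of_apply, Polynomial.eval_add]
      ring
    | monomial m a =>
      have h1 : ∀ m : ℕ, (Matrix.of fun i j => (mu i * mu j) ^ m * A i j) ∈ V := by
        intro m
        induction m with
        | zero =>
          refine (congrArg (· ∈ V) ?_).mp hA
          ext i j
          simp
        | succ m ih =>
          have h2 := hst _ ih
          rw [hd] at h2
          refine (congrArg (· ∈ V) ?_).mp h2
          ext i j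
          simp only [Matrix.of_apply]
          ring
      have h2 := V.smul_mem a (h1 m)
      refine (congrArg (· ∈ V) ?_).mp h2
      ext i j
      simp only [Matrix.smul_apply, Matrix.of_apply, Polynomial.eval_monomial, smul_eq_mul]
      ring
  let s : Finset k := (Finset.univ.image fun x : Fin n × Fin n => mu x.1 * mu x.2).erase τ
  let p : Polynomial k := ∏ σ ∈ s, (Polynomial.C (τ - σ)⁻¹ * (Polynomial.X - Polynomial.C σ))
  have h1 := hp p
  refine (congrArg (· ∈ V) ?_).mp h1
  ext i j
  simp only [Matrix.of_apply]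
  by_cases h : mu i * mu j = τ
  · rw [if_pos h, h]
    have h2 : p.eval τ = 1 := by
      rw [Polynomial.eval_prod]
      refine Finset.prod_eq_one fun σ hσ => ?_
      simp only [Polynomial.eval_mul, Polynomial.eval_C, Polynomial.eval_sub, Polynomial.eval_X]
      refine inv_mul_cancel₀ (sub_ne_zero.2 ?_)
      exact (Finset.ne_of_mem_erase hσ).symm
    rw [h2, one_mul]
  · rw [if_neg h]
    have h2 : p.eval (mu i * mu j) = 0 := by
      rw [Polynomial.eval_prod]
      refine Finset.prod_eq_zero (i := mu i * mu j) ?_ ?_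
      · exact Finset.mem_erase.2 ⟨h, Finset.mem_image.2 ⟨(i, j), Finset.mem_univ _, rfl⟩⟩
      · simp
    rw [h2, zero_mul]

/-- the submodule of the antisymmetric matrices which normalize `U` -/
def nrm (B : Matrix (Fin n) (Fin n) k) (U : Submodule k (Matrix (Fin n) (Fin n) k)) :
    Submodule k (Matrix (Fin n) (Fin n) k) where
  carrier := {A | Aᵀ = -A ∧ ∀ X ∈ U, br B A X ∈ U}
  zero_mem' := by
    refine ⟨by simp, fun X _ => ?_⟩
    unfold br
    rw [zero_mul, zero_mul, mul_zero, sub_zero]
    exact U.zero_mem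
  add_mem' := by
    rintro a b ⟨ha1, ha2⟩ ⟨hb1, hb2⟩
    refine ⟨by rw [transpose_add, ha1, hb1, neg_add], fun X hX => ?_⟩
    have h1 : br B (a + b) X = br B a X + br B b X := by
      unfold br
      simp only [add_mul, mul_add]
      abel
    rw [h1]
    exact U.add_mem (ha2 X hX) (hb2 X hX)
  smul_mem' := by
    rintro t a ⟨ha1, ha2⟩
    refine ⟨by rw [transpose_smul, ha1, smul_neg], fun X hX => ?_⟩
    have h1 : br B (t • a) X = t • br B a X := by
      unfold br
      simp only [smul_mul_assoc, mul_smul_comm, smul_sub]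
    rw [h1]
    exact U.smul_mem _ (ha2 X hX)

/-- the conditions on the eigenvalues -/
structure Free (mu : Fin n → k) : Prop where
  inj : Function.Injective mu
  sq : ∀ i j, mu i * mu i = 1 → mu j * mu j = 1 → i = j
  pair : ∀ i j a b, i ≠ j → a ≠ b → mu i * mu j = mu a * mu b →
    (i = a ∧ j = b) ∨ (i = b ∧ j = a) ∨ mu i * mu j = 1

theorem gr_alt {V : Submodule k (Matrix (Fin n) (Fin n) k)} {mu : Fin n → k} (hmu : Free mu)
    (hst : ∀ A ∈ V, diagonal mu * A * diagonal mu ∈ V) {A : Matrix (Fin n) (Fin n) k} (hA : A ∈ V)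
    (hAt : Aᵀ = -A) (hdiag : ∀ i, A i i = 0) {i j : Fin n} (hij : mu i * mu j ≠ 1) :
    A i j • ee i j ∈ V := by
  by_cases hne : i = j
  · subst hne
    rw [ee_self, smul_zero]
    exact V.zero_mem
  have h1 := graded hst hA (mu i * mu j)
  refine (congrArg (· ∈ V) ?_).mp h1
  have hanti : ∀ x y, A y x = -A x y := fun x y => by
    have := congrFun (congrFun hAt x) y
    exact this
  ext a b
  unfold ee
  rw [Matrix.of_apply, Matrix.smul_apply, Matrix.sub_apply, Matrix.single_apply, Matrix.single_apply,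
    smul_eq_mul]
  by_cases hab : a = b
  · subst hab
    have h3 : ¬ (i = a ∧ j = a) := fun h => hne (h.1.trans h.2.symm)
    have h4 : ¬ (j = a ∧ i = a) := fun h => hne (h.2.trans h.1.symm)
    rw [hdiag, ite_self, if_neg h3, if_neg h4, sub_zero, mul_zero]
  · by_cases h : mu a * mu b = mu i * mu j
    · rw [if_pos h]
      rcases hmu.pair i j a b hne hab h.symm with h2 | h2 | h2
      · obtain ⟨rfl, rfl⟩ := h2
        rw [if_pos ⟨rfl, rfl⟩, if_neg (fun h' => hne h'.1.symm), sub_zero, mul_one]
      · obtain ⟨rfl, rfl⟩ := h2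
        rw [if_neg (fun h' => hne h'.1), if_pos ⟨rfl, rfl⟩, zero_sub, mul_neg, mul_one, hanti]
      · exact absurd h2 hij
    · rw [if_neg h, if_neg, if_neg, sub_zero, mul_zero]
      · rintro ⟨rfl, rfl⟩
        exact h (mul_comm _ _)
      · rintro ⟨rfl, rfl⟩
        exact h rfl

section diag

variable {G : Type} [Group G] {f : G →* Matrix (Fin n) (Fin n) k} {B : Matrix (Fin n) (Fin n) k}

theorem inv_mul' (f : G →* Matrix (Fin n) (Fin n) k) (g : G) : f g⁻¹ * f g = 1 := by
  rw [← map_mul, inv_mul_cancel, map_one]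

theorem mul_inv'' (f : G →* Matrix (Fin n) (Fin n) k) (g : G) : f g * f g⁻¹ = 1 := by
  rw [← map_mul, mul_inv_cancel, map_one]

/-- coordinates of the subspaces which are stable under `M` -/
theorem coord_mem {c : Fin n → Fin n} {U M : Submodule k (Matrix (Fin n) (Fin n) k)}
    (h : Core c B U M) {W : Submodule k (Fin n → k)}
    (hW : ∀ A ∈ M, ∀ w ∈ W, (A * B) *ᵥ w ∈ W) {w : Fin n → k} (hw : w ∈ W) (i : Fin n) :
    Pi.single i (w i) ∈ W := by
  classical
  have key : ∀ i, c i ≠ i → ∀ w ∈ W, Pi.single i (w i) ∈ W := by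
    intro i hi
    have hact : ∀ w ∈ W, Pi.single i (w i) - Pi.single (c i) (w (c i)) ∈ W := by
      intro w hw
      have h1 := hW _ (h.dual_mem i hi) w hw
      have h2 : ((ee i (c i) : Matrix (Fin n) (Fin n) k) * B) *ᵥ w =
          (B (c i) i) • (Pi.single i (w i) - Pi.single (c i) (w (c i)) : Fin n → k) := by
        ext x
        rw [mulVec, dotProduct, Pi.smul_apply, Pi.sub_apply, smul_eq_mul]
        have h3 : ∀ y, ((ee i (c i) : Matrix (Fin n) (Fin n) k) * B) x y * w y =
            if y = x then (if x = i then B (c i) i * w i else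
              if x = c i then -(B (c i) i * w (c i)) else 0) else 0 := by
          intro y
          rw [h.mul_apply]
          unfold ee
          rw [Matrix.sub_apply, Matrix.single_apply, Matrix.single_apply]
          by_cases hyx : y = x
          · subst hyx
            rw [if_pos rfl]
            by_cases h4 : y = i
            · subst h4
              rw [if_pos rfl, if_pos ⟨rfl, rfl⟩, if_neg (fun h' => hi h'.1), sub_zero, one_mul]
            · rw [if_neg h4, if_neg (fun h' => h4 h'.1.symm)]
              by_cases h5 : y = c i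
              · subst h5
                rw [if_pos rfl, if_pos ⟨rfl, (h.inv i).symm⟩, zero_sub, h.inv, h.beta i]
                ring
              · rw [if_neg h5, if_neg (fun h' => h5 h'.1.symm), sub_zero, zero_mul, zero_mul]
          · rw [if_neg hyx, if_neg, if_neg, sub_zero, zero_mul, zero_mul]
            · rintro ⟨h', h''⟩
              apply hyx
              rw [← h', h'', h.inv]
            · rintro ⟨h', h''⟩
              apply hyx
              rw [← h', ← h.inv i, h'', h.inv]
        rw [Finset.sum_congr rfl fun y _ => h3 y, Finset.sum_ite_eq' Finset.univ x,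
          if_pos (Finset.mem_univ _)]
        by_cases h4 : x = i
        · subst h4
          rw [if_pos rfl, Pi.single_eq_same, Pi.single_eq_of_ne (Ne.symm hi), sub_zero]
        · rw [if_neg h4, Pi.single_eq_of_ne h4]
          by_cases h5 : x = c i
          · subst h5
            rw [if_pos rfl, Pi.single_eq_same]
            ring
          · rw [if_neg h5, Pi.single_eq_of_ne h5]
            ring
      rw [h2] at h1
      have h3 := W.smul_mem (B (c i) i)⁻¹ h1
      rwa [smul_smul, inv_mul_cancel₀ (h.ne' i), one_smul] at h3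
    intro w hw
    have h1 := hact w hw
    have h2 := hact _ h1
    have h3 := W.add_mem h1 h2
    have h4 : (Pi.single i (w i) - Pi.single (c i) (w (c i)) : Fin n → k) +
        (Pi.single i ((Pi.single i (w i) - Pi.single (c i) (w (c i)) : Fin n → k) i) -
          Pi.single (c i) ((Pi.single i (w i) - Pi.single (c i) (w (c i)) : Fin n → k) (c i))) =
        (2 : k) • Pi.single i (w i) := by
      rw [Pi.sub_apply, Pi.sub_apply, Pi.single_eq_same, Pi.single_eq_same,
        Pi.single_eq_of_ne (Ne.symm hi), Pi.single_eq_of_ne hi]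
      ext x
      simp only [Pi.add_apply, Pi.sub_apply, Pi.smul_apply, smul_eq_mul, sub_zero, zero_sub]
      by_cases h5 : x = i
      · subst h5
        rw [Pi.single_eq_same, Pi.single_eq_of_ne (Ne.symm hi), Pi.single_eq_of_ne (Ne.symm hi)]
        ring
      · rw [Pi.single_eq_of_ne h5]
        by_cases h6 : x = c i
        · subst h6
          rw [Pi.single_eq_same, Pi.single_eq_same]
          ring
        · rw [Pi.single_eq_of_ne h6, Pi.single_eq_of_ne h6]
          ring
    rw [h4] at h3
    have h5 := W.smul_mem (2 : k)⁻¹ h3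
    rwa [smul_smul, inv_mul_cancel₀ h.two, one_smul] at h5
  by_cases hi : c i = i
  · have h1 : (Pi.single i (w i) : Fin n → k) = w - ∑ x ∈ Finset.univ.erase i, Pi.single x (w x) := by
      have h2 : w = ∑ x, Pi.single x (w x) := (Finset.univ_sum_single w).symm
      conv_rhs => enter [1]; rw [h2]
      rw [← Finset.add_sum_erase _ _ (Finset.mem_univ i)]
      rw [add_sub_cancel_right]
    rw [h1]
    refine W.sub_mem hw (W.sum_mem fun x hx => ?_)
    refine key x (fun hx' => (Finset.ne_of_mem_erase hx) ?_) w hw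
    exact h.fix x i hx' hi
  · exact key i hi w hw

/-- **the Lie algebra step, diagonal case** -/
theorem lie_diag (h2 : (2 : k) ≠ 0) (hn : 5 ≤ n) (hB : Bᵀ = B) (hdet : B.det ≠ 0)
    (hiso : ∀ g, (f g)ᵀ * B * f g = B)
    (hirr : ∀ (U : Subgroup G) (W : Submodule k (Fin n → k)), U.index ≠ 0 → U.index ≤ 2 ^ n →
      (∀ g ∈ U, ∀ w ∈ W, f g *ᵥ w ∈ W) → W = ⊥ ∨ W = ⊤)
    {g₀ : G} {mu : Fin n → k} (hg₀ : f g₀ = diagonal mu) (hmu : Free mu)
    {L : Submodule k (Matrix (Fin n) (Fin n) k)} (hL : ∀ X ∈ L, Xᵀ * B + B * X = 0)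
    (hconj : ∀ g, ∀ X ∈ L, f g * X * f g⁻¹ ∈ L) (hne : L ≠ ⊥)
    {X : Matrix (Fin n) (Fin n) k} (hX : Xᵀ * B + B * X = 0) : X ∈ L := by
  classical
  have hBu : IsUnit B.det := isUnit_iff_ne_zero.2 hdet
  have hBi : (B⁻¹)ᵀ = B⁻¹ := by rw [transpose_nonsing_inv, hB]
  -- the duality
  have hmu0 : ∀ i j, B i j ≠ 0 → mu i * mu j = 1 := by
    intro i j hij
    have h1 := congrFun (congrFun (hiso g₀) i) j
    rw [hg₀, diagonal_transpose, Matrix.mul_diagonal, Matrix.diagonal_mul] at h1
    have h3 : (mu i * mu j - 1) * B i j = 0 := by linear_combination h1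
    exact sub_eq_zero.1 ((mul_eq_zero.1 h3).resolve_right hij)
  have hex : ∀ i, ∃ j, B i j ≠ 0 := by
    intro i
    by_contra hcon
    push Not at hcon
    apply hdet
    exact Matrix.det_eq_zero_of_row_eq_zero i hcon
  choose c hc using hex
  have hmun : ∀ i, mu i ≠ 0 := by
    intro i hi
    have := hmu0 i (c i) (hc i)
    rw [hi, zero_mul] at this
    exact zero_ne_one this
  have huniq : ∀ i j, mu i * mu j = 1 → j = c i := by
    intro i j hij
    apply hmu.inj
    exact mul_left_cancel₀ (hmun i) (hij.trans (hmu0 i (c i) (hc i)).symm)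
  have hinv : ∀ i, c (c i) = i := by
    intro i
    refine (huniq (c i) i ?_).symm
    rw [mul_comm]
    exact hmu0 i (c i) (hc i)
  have hDB : diagonal mu * B * diagonal mu = B := by
    have := hiso g₀
    rwa [hg₀, diagonal_transpose] at this
  -- the subspace `U`
  let U : Submodule k (Matrix (Fin n) (Fin n) k) :=
    { carrier := {A | A * B ∈ L}
      zero_mem' := by
        show (0 : Matrix (Fin n) (Fin n) k) * B ∈ L
        rw [zero_mul]
        exact L.zero_mem
      add_mem' := by
        intro a b ha hb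
        show (a + b) * B ∈ L
        rw [add_mul]
        exact L.add_mem ha hb
      smul_mem' := by
        intro t a ha
        show (t • a) * B ∈ L
        rw [smul_mul_assoc]
        exact L.smul_mem t ha }
  have hUdef : ∀ A, A ∈ U ↔ A * B ∈ L := fun A => Iff.rfl
  have halt : ∀ Y : Matrix (Fin n) (Fin n) k, Yᵀ * B + B * Y = 0 → (Y * B⁻¹)ᵀ = -(Y * B⁻¹) := by
    intro Y hY
    rw [transpose_mul, hBi]
    have h3 : B⁻¹ * (Yᵀ * B + B * Y) * B⁻¹ = 0 := by rw [hY, mul_zero, zero_mul]
    rw [mul_add, add_mul, ← mul_assoc, ← mul_assoc, Matrix.nonsing_inv_mul _ hBu, one_mul,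
      mul_assoc (B⁻¹ * Yᵀ), Matrix.mul_nonsing_inv _ hBu, mul_one] at h3
    exact eq_neg_of_add_eq_zero_left h3
  have hUalt : ∀ A ∈ U, Aᵀ = -A := by
    intro A hA
    have h3 := halt _ (hL _ hA)
    rwa [mul_assoc, Matrix.mul_nonsing_inv _ hBu, mul_one] at h3
  have hdiag0 : ∀ A : Matrix (Fin n) (Fin n) k, Aᵀ = -A → ∀ i, A i i = 0 := by
    intro A hA i
    have h1 : A i i = -A i i := congrFun (congrFun hA i) i
    have h3 : (2 : k) * A i i = 0 := by linear_combination h1
    exact (mul_eq_zero.1 h3).resolve_left h2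
  -- the action of the group
  have hBg : ∀ g, (f g)ᵀ * B = B * f g⁻¹ := by
    intro g
    calc (f g)ᵀ * B = (f g)ᵀ * B * (f g * f g⁻¹) := by rw [mul_inv'', mul_one]
      _ = ((f g)ᵀ * B * f g) * f g⁻¹ := by simp only [mul_assoc]
      _ = B * f g⁻¹ := by rw [hiso]
  have hUst : ∀ g, ∀ A ∈ U, f g * A * (f g)ᵀ ∈ U := by
    intro g A hA
    rw [hUdef, mul_assoc (f g * A), hBg, ← mul_assoc, mul_assoc (f g) A B]
    exact hconj g _ hA
  have hbrst : ∀ g (A Y : Matrix (Fin n) (Fin n) k),
      br B (f g * A * (f g)ᵀ) (f g * Y * (f g)ᵀ) = f g * br B A Y * (f g)ᵀ := by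
    intro g A Y
    have h3 : ∀ A Y : Matrix (Fin n) (Fin n) k,
        f g * A * (f g)ᵀ * B * (f g * Y * (f g)ᵀ) = f g * (A * B * Y) * (f g)ᵀ := by
      intro A Y
      calc f g * A * (f g)ᵀ * B * (f g * Y * (f g)ᵀ) =
          f g * A * ((f g)ᵀ * B * f g) * Y * (f g)ᵀ := by simp only [mul_assoc]
        _ = f g * (A * B * Y) * (f g)ᵀ := by rw [hiso]; simp only [mul_assoc]
    unfold br
    rw [h3, h3, mul_sub, sub_mul]
  have hMst : ∀ g, ∀ A ∈ nrm B U, f g * A * (f g)ᵀ ∈ nrm B U := by
    rintro g A ⟨hA1, hA2⟩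
    refine ⟨?_, fun Y hY => ?_⟩
    · rw [transpose_mul, transpose_mul, transpose_transpose, hA1]
      simp only [mul_neg, neg_mul, mul_assoc]
    · have h3 := hUst g⁻¹ Y hY
      have h4 : Y = f g * (f g⁻¹ * Y * (f g⁻¹)ᵀ) * (f g)ᵀ := by
        calc Y = (f g * f g⁻¹) * Y * (f g * f g⁻¹)ᵀ := by rw [mul_inv'']; simp
          _ = _ := by rw [transpose_mul]; simp only [mul_assoc]
      rw [h4, hbrst]
      exact hUst g _ (hA2 _ h3)
  have hstU : ∀ A ∈ U, diagonal mu * A * diagonal mu ∈ U := by
    intro A hA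
    have := hUst g₀ A hA
    rwa [hg₀, diagonal_transpose] at this
  have hstM : ∀ A ∈ nrm B U, diagonal mu * A * diagonal mu ∈ nrm B U := by
    intro A hA
    have := hMst g₀ A hA
    rwa [hg₀, diagonal_transpose] at this
  have hcore : Core c B U (nrm B U) := by
    refine ⟨h2, hinv, ?_, hB, ?_, hc, hUalt, fun A => Iff.rfl, ?_, ?_⟩
    · intro i j hi hj
      refine hmu.sq i j ?_ ?_
      · have := hmu0 i (c i) (hc i)
        rwa [hi] at this
      · have := hmu0 j (c j) (hc j)
        rwa [hj] at this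
    · intro i j hij
      by_contra h3
      exact hij (huniq i j (hmu0 i j h3))
    · intro A hA i j hij
      exact gr_alt hmu hstU hA (hUalt A hA) (hdiag0 A (hUalt A hA)) (fun h3 => hij (huniq i j h3))
    · intro A hA i j hij
      exact gr_alt hmu hstM hA hA.1 (hdiag0 A hA.1) (fun h3 => hij (huniq i j h3))
  -- irreducibility
  have hIrr : Irr B (nrm B U) := by
    intro W hW
    -- the action on the subspaces
    let _ : MulAction G (Submodule k (Fin n → k)) :=
      { smul := fun g W => W.map (Matrix.toLin' (f g))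
        one_smul := fun W => by
          show W.map (Matrix.toLin' (f 1)) = W
          rw [map_one, Matrix.toLin'_one, Submodule.map_id]
        mul_smul := fun g h W => by
          show W.map (Matrix.toLin' (f (g * h))) = (W.map (Matrix.toLin' (f h))).map
            (Matrix.toLin' (f g))
          rw [map_mul, Matrix.toLin'_mul, Submodule.map_comp] }
    have hsmul : ∀ (g : G) (W : Submodule k (Fin n → k)), g • W = W.map (Matrix.toLin' (f g)) :=
      fun _ _ => rfl
    let 𝒲 : Set (Submodule k (Fin n → k)) := {W | ∀ A ∈ nrm B U, ∀ w ∈ W, (A * B) *ᵥ w ∈ W}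
    have hst𝒲 : ∀ (g : G), ∀ W ∈ 𝒲, g • W ∈ 𝒲 := by
      intro g W hW A hA w hw
      rw [hsmul, Submodule.mem_map] at hw
      obtain ⟨w', hw', rfl⟩ := hw
      rw [hsmul, Submodule.mem_map]
      have h3 := hMst g⁻¹ A hA
      refine ⟨((f g⁻¹ * A * (f g⁻¹)ᵀ) * B) *ᵥ w', hW _ h3 w' hw', ?_⟩
      rw [Matrix.toLin'_apply, Matrix.toLin'_apply, mulVec_mulVec, mulVec_mulVec]
      congr 1
      calc f g * (f g⁻¹ * A * (f g⁻¹)ᵀ * B) = (f g * f g⁻¹) * A * ((f g⁻¹)ᵀ * B) := by
            simp only [mul_assoc]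
        _ = A * B * f g := by rw [mul_inv'', one_mul, hBg, inv_inv, mul_assoc]
    have hfin : 𝒲.Finite ∧ 𝒲.ncard ≤ 2 ^ n := by
      let J : Submodule k (Fin n → k) → Finset (Fin n) := fun W =>
        Finset.univ.filter fun i => (Pi.single i (1 : k) : Fin n → k) ∈ W
      have hJ : Set.InjOn J 𝒲 := by
        have hle : ∀ W ∈ 𝒲, ∀ W' : Submodule k (Fin n → k), J W ⊆ J W' → W ≤ W' := by
          intro W hW W' hJJ w hw
          rw [← Finset.univ_sum_single w]
          refine W'.sum_mem fun i _ => ?_
          by_cases hwi : w i = 0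
          · rw [hwi, Pi.single_zero]
            exact W'.zero_mem
          · have h3 := coord_mem hcore hW hw i
            have h4 : (Pi.single i (1 : k) : Fin n → k) ∈ W := by
              have h5 := W.smul_mem (w i)⁻¹ h3
              rwa [← Pi.single_smul, smul_eq_mul, inv_mul_cancel₀ hwi] at h5
            have h5 : i ∈ J W' := hJJ (Finset.mem_filter.2 ⟨Finset.mem_univ _, h4⟩)
            have h6 := W'.smul_mem (w i) (Finset.mem_filter.1 h5).2
            rwa [← Pi.single_smul, smul_eq_mul, mul_one] at h6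
        intro W hW W' hW' hJJ
        exact le_antisymm (hle W hW W' hJJ.le) (hle W' hW' W hJJ.ge)
      have h3 : (J '' 𝒲).Finite := Set.toFinite _
      have h4 : 𝒲.Finite := Set.Finite.of_finite_image h3 hJ
      refine ⟨h4, ?_⟩
      rw [← hJ.ncard_image]
      calc (J '' 𝒲).ncard ≤ (Set.univ : Set (Finset (Fin n))).ncard :=
            Set.ncard_le_ncard (Set.subset_univ _) (Set.toFinite _)
        _ = 2 ^ n := by
          rw [Set.ncard_univ, Nat.card_eq_fintype_card, Fintype.card_finset, Fintype.card_fin]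
    have horb : MulAction.orbit G W ⊆ 𝒲 := by
      rintro _ ⟨g, rfl⟩
      exact hst𝒲 g W hW
    have hidx : (MulAction.stabilizer G W).index = (MulAction.orbit G W).ncard :=
      MulAction.index_stabilizer G W
    refine hirr (MulAction.stabilizer G W) W ?_ ?_ ?_
    · rw [hidx]
      have hne' : (MulAction.orbit G W).Nonempty := ⟨W, MulAction.mem_orbit_self W⟩
      exact (hne'.ncard_pos (hfin.1.subset horb)).ne'
    · rw [hidx]
      exact (Set.ncard_le_ncard horb hfin.1).trans hfin.2
    · intro g hg w hw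
      have h3 : g • W = W := hg
      rw [← h3, hsmul, Submodule.mem_map]
      exact ⟨w, hw, by rw [Matrix.toLin'_apply]⟩
  have hUne : U ≠ ⊥ := by
    obtain ⟨Y, hY, hY0⟩ := (Submodule.ne_bot_iff L).1 hne
    rw [Submodule.ne_bot_iff]
    refine ⟨Y * B⁻¹, ?_, fun h3 => hY0 ?_⟩
    · rw [hUdef, mul_assoc, Matrix.nonsing_inv_mul _ hBu, mul_one]
      exact hY
    · rw [← mul_one Y, ← Matrix.nonsing_inv_mul _ hBu, ← mul_assoc, h3, zero_mul]
  have h3 := hcore.main hIrr hn hUne (halt X hX)
  rwa [hUdef, mul_assoc, Matrix.nonsing_inv_mul _ hBu, mul_one] at h3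

end diag

end Pool.Agent.T2H36.IX
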