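import Pool.Agent.T2H36.IX.A3

set_option autoImplicit false
set_option linter.unusedSectionVars false

/-!
Project IX, package A, part 4: the Lie algebra step; absolute irreducibility and commutants.
-/

open Matrix Polynomial

namespace Pool.Agent.T2H36.IX

section basis

variable {k : Type} [Field k] {n : ℕ}

/-- an eigenbasis -/
theorem exists_eigenbasis {A : Matrix (Fin n) (Fin n) k} {mu : Fin n → k}
    (hch : A.charpoly = ∏ i, (X - C (mu i))) (hinj : Function.Injective mu) :
    ∃ P : Matrix (Fin n) (Fin n) k, P.det ≠ 0 ∧ A * P = P * diagonal mu := by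
  have h1 : ∀ i, ∃ v : Fin n → k, v ≠ 0 ∧ A *ᵥ v = mu i • v := by
    intro i
    have h2 : (scalar (Fin n) (mu i) - A).det = 0 := by
      rw [← Matrix.eval_charpoly, hch, eval_prod]
      refine Finset.prod_eq_zero (Finset.mem_univ i) ?_
      simp
    obtain ⟨v, hv, hv'⟩ := Matrix.exists_mulVec_eq_zero_iff.2 h2
    refine ⟨v, hv, ?_⟩
    rw [sub_mulVec, sub_eq_zero, Matrix.scalar_apply] at hv'
    rw [← hv']
    ext x
    rw [Matrix.mulVec_diagonal, Pi.smul_apply, smul_eq_mul]
  choose v hv0 hv using h1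
  refine ⟨Matrix.of fun x i => v i x, ?_, ?_⟩
  · have h2 : LinearIndependent k v := by
      refine Module.End.eigenvectors_linearIndependent' (Matrix.toLin' A) mu hinj v fun i => ?_
      rw [Module.End.hasEigenvector_iff, Module.End.mem_eigenspace_iff]
      exact ⟨by rw [Matrix.toLin'_apply, hv], hv0 i⟩
    have h3 : IsUnit (Matrix.of fun x i => v i x : Matrix (Fin n) (Fin n) k) :=
      Matrix.linearIndependent_cols_iff_isUnit.1 h2
    exact ((Matrix.isUnit_iff_isUnit_det _).1 h3).ne_zero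
  · ext x i
    rw [Matrix.mul_diagonal]
    have h2 := congrFun (hv i) x
    rw [Pi.smul_apply, smul_eq_mul, mul_comm] at h2
    exact h2

end basis

section main

variable {F k : Type} [Field F] [Field k] [Algebra F k] {n : ℕ} {G : Type} [Group G]
  {f : G →* Matrix (Fin n) (Fin n) F} {B : Matrix (Fin n) (Fin n) F}

/-- base change of a matrix -/
abbrev bc (k : Type) {F : Type} [Field F] [Field k] [Algebra F k] {n : ℕ}
    (A : Matrix (Fin n) (Fin n) F) : Matrix (Fin n) (Fin n) k := A.map (algebraMap F k)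

theorem bc_mul (A A' : Matrix (Fin n) (Fin n) F) : bc k (A * A') = bc k A * bc k A' :=
  Matrix.map_mul

theorem bc_one : bc k (1 : Matrix (Fin n) (Fin n) F) = 1 :=
  Matrix.map_one _ (map_zero _) (map_one _)

theorem bc_transpose (A : Matrix (Fin n) (Fin n) F) : bc k Aᵀ = (bc k A)ᵀ := rfl

theorem bc_add (A A' : Matrix (Fin n) (Fin n) F) : bc k (A + A') = bc k A + bc k A' :=
  Matrix.map_add _ (map_add _) _ _

theorem bc_zero : bc k (0 : Matrix (Fin n) (Fin n) F) = 0 :=
  Matrix.map_zero _ (map_zero _)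

theorem bc_det (A : Matrix (Fin n) (Fin n) F) : (bc k A).det = algebraMap F k A.det := by
  rw [RingHom.map_det]
  rfl

theorem bc_inj {A A' : Matrix (Fin n) (Fin n) F} (h : bc k A = bc k A') : A = A' :=
  Matrix.map_injective (algebraMap F k).injective h

/-- a matrix over `F` in the span over `k` is in the span over `F` -/
theorem span_descent {S : Set (Matrix (Fin n) (Fin n) F)} {X : Matrix (Fin n) (Fin n) F}
    (h : bc k X ∈ Submodule.span k (bc k '' S)) : X ∈ Submodule.span F S := by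
  by_contra hcon
  obtain ⟨φ, hφ, hle⟩ := Submodule.exists_le_ker_of_notMem hcon
  let ψ : Matrix (Fin n) (Fin n) k →ₗ[k] k :=
    { toFun := fun A => ∑ i, ∑ j, algebraMap F k (φ (Matrix.single i j 1)) * A i j
      map_add' := by
        intro A A'
        simp only [Matrix.add_apply, mul_add, Finset.sum_add_distrib]
      map_smul' := by
        intro t A
        simp only [Matrix.smul_apply, smul_eq_mul, RingHom.id_apply, Finset.mul_sum]
        refine Finset.sum_congr rfl fun i _ => Finset.sum_congr rfl fun j _ => ?_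
        ring }
  have hψ : ∀ A : Matrix (Fin n) (Fin n) F, ψ (bc k A) = algebraMap F k (φ A) := by
    intro A
    have h1 : φ A = ∑ i, ∑ j, φ (Matrix.single i j 1) * A i j := by
      conv_lhs => rw [Matrix.matrix_eq_sum_single A]
      rw [map_sum]
      refine Finset.sum_congr rfl fun i _ => ?_
      rw [map_sum]
      refine Finset.sum_congr rfl fun j _ => ?_
      have h2 : Matrix.single i j (A i j) = A i j • Matrix.single i j (1 : F) := by
        rw [Matrix.smul_single, smul_eq_mul, mul_one]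
      rw [h2, map_smul, smul_eq_mul, mul_comm]
    rw [h1, map_sum]
    show ∑ i, ∑ j, algebraMap F k (φ (Matrix.single i j 1)) * (bc k A) i j = _
    refine Finset.sum_congr rfl fun i _ => ?_
    rw [map_sum]
    refine Finset.sum_congr rfl fun j _ => ?_
    rw [map_mul]
    rfl
  have h1 : Submodule.span k (bc k '' S) ≤ LinearMap.ker ψ := by
    rw [Submodule.span_le]
    rintro _ ⟨A, hA, rfl⟩
    rw [SetLike.mem_coe, LinearMap.mem_ker, hψ]
    have h2 : φ A = 0 := hle (Submodule.subset_span hA)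
    rw [h2, map_zero]
  have h2 := h1 h
  rw [LinearMap.mem_ker, hψ, map_eq_zero] at h2
  exact hφ h2

/-- **the Lie algebra step** -/
theorem lie_gen (h2 : (2 : F) ≠ 0) (hn : 5 ≤ n) (hB : Bᵀ = B) (hdet : B.det ≠ 0)
    (hiso : ∀ g, (f g)ᵀ * B * f g = B)
    (hirr : ∀ (U : Subgroup G) (W : Submodule k (Fin n → k)), U.index ≠ 0 → U.index ≤ 2 ^ n →
      (∀ g ∈ U, ∀ w ∈ W, bc k (f g) *ᵥ w ∈ W) → W = ⊥ ∨ W = ⊤)
    {g₀ : G} {mu : Fin n → k} (hch : (bc k (f g₀)).charpoly = ∏ i, (X - C (mu i)))
    (hmu : Free mu) {S : Set (Matrix (Fin n) (Fin n) F)} (hS : ∀ N ∈ S, Nᵀ * B + B * N = 0)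
    (hconj : ∀ g, ∀ N ∈ S, f g * N * f g⁻¹ ∈ S) (hne : ∃ N ∈ S, N ≠ 0)
    {Y : Matrix (Fin n) (Fin n) F} (hY : Yᵀ * B + B * Y = 0) : Y ∈ Submodule.span F S := by
  classical
  obtain ⟨P, hP0, hP⟩ := exists_eigenbasis hch hmu.inj
  have hPu : IsUnit P.det := isUnit_iff_ne_zero.2 hP0
  have hPP : P * P⁻¹ = 1 := Matrix.mul_nonsing_inv _ hPu
  have hPP' : P⁻¹ * P = 1 := Matrix.nonsing_inv_mul _ hPu
  have hPT : Pᵀ * (P⁻¹)ᵀ = 1 := by rw [← transpose_mul, hPP', transpose_one]
  have hPT' : (P⁻¹)ᵀ * Pᵀ = 1 := by rw [← transpose_mul, hPP, transpose_one]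
  -- the conjugated representation
  let f' : G →* Matrix (Fin n) (Fin n) k :=
    { toFun := fun g => P⁻¹ * bc k (f g) * P
      map_one' := by rw [map_one, bc_one, mul_one, hPP']
      map_mul' := by
        intro a b
        rw [map_mul, bc_mul]
        calc P⁻¹ * (bc k (f a) * bc k (f b)) * P =
            P⁻¹ * bc k (f a) * 1 * bc k (f b) * P := by rw [mul_one]; simp only [mul_assoc]
          _ = _ := by rw [← hPP]; simp only [mul_assoc] }
  have hf' : ∀ g, f' g = P⁻¹ * bc k (f g) * P := fun _ => rfl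
  let L : Submodule k (Matrix (Fin n) (Fin n) k) :=
    { carrier := {A | P * A * P⁻¹ ∈ Submodule.span k (bc k '' S)}
      zero_mem' := by
        show P * 0 * P⁻¹ ∈ Submodule.span k (bc k '' S)
        rw [mul_zero, zero_mul]
        exact Submodule.zero_mem _
      add_mem' := by
        intro a b ha hb
        show P * (a + b) * P⁻¹ ∈ Submodule.span k (bc k '' S)
        rw [mul_add, add_mul]
        exact Submodule.add_mem _ ha hb
      smul_mem' := by
        intro t a ha
        show P * (t • a) * P⁻¹ ∈ Submodule.span k (bc k '' S)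
        rw [mul_smul_comm, smul_mul_assoc]
        exact Submodule.smul_mem _ t ha }
  have hLdef : ∀ A, A ∈ L ↔ P * A * P⁻¹ ∈ Submodule.span k (bc k '' S) := fun A => Iff.rfl
  have hspan : ∀ Z ∈ Submodule.span k (bc k '' S), Zᵀ * bc k B + bc k B * Z = 0 := by
    intro Z hZ
    induction hZ using Submodule.span_induction with
    | mem Z hZ =>
      obtain ⟨N, hN, rfl⟩ := hZ
      rw [← bc_transpose, ← bc_mul, ← bc_mul, ← bc_add, hS N hN, bc_zero]
    | zero => rw [transpose_zero, zero_mul, mul_zero, add_zero]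
    | add a b _ _ ha hb =>
      have h3 := congrArg₂ (· + ·) ha hb
      simp only [add_zero] at h3
      rw [transpose_add, add_mul, mul_add, ← h3]
      abel
    | smul t a _ ha =>
      rw [transpose_smul, smul_mul_assoc, mul_smul_comm, ← smul_add, ha, smul_zero]
  have hform : ∀ A : Matrix (Fin n) (Fin n) k,
      Aᵀ * (Pᵀ * bc k B * P) + (Pᵀ * bc k B * P) * A =
        Pᵀ * ((P * A * P⁻¹)ᵀ * bc k B + bc k B * (P * A * P⁻¹)) * P := by
    intro A
    rw [mul_add, add_mul]
    congr 1
    · calc Aᵀ * (Pᵀ * bc k B * P) = 1 * Aᵀ * Pᵀ * bc k B * P := by rw [one_mul]; simp only [mul_assoc]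
        _ = _ := by
          rw [← hPT, transpose_mul, transpose_mul]
          simp only [mul_assoc]
    · calc (Pᵀ * bc k B * P) * A = Pᵀ * bc k B * P * A * 1 := by rw [mul_one]
        _ = _ := by
          rw [← hPP']
          simp only [mul_assoc]
  have h2k : (2 : k) ≠ 0 := by
    intro h
    apply h2
    apply (algebraMap F k).injective
    rw [map_ofNat, h, map_zero]
  have hmain := lie_diag (f := f') (B := Pᵀ * bc k B * P) (g₀ := g₀) (mu := mu) (L := L) h2k hn ?_ ?_ ?_
    ?_ ?_ hmu ?_ ?_ ?_ (X := P⁻¹ * bc k Y * P) ?_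
  · rw [hLdef] at hmain
    have h3 : P * (P⁻¹ * bc k Y * P) * P⁻¹ = bc k Y := by
      calc P * (P⁻¹ * bc k Y * P) * P⁻¹ = (P * P⁻¹) * bc k Y * (P * P⁻¹) := by simp only [mul_assoc]
        _ = _ := by rw [hPP, one_mul, mul_one]
    rw [h3] at hmain
    exact span_descent hmain
  · rw [transpose_mul, transpose_mul, transpose_transpose, ← bc_transpose, hB, mul_assoc]
  · rw [det_mul, det_mul, det_transpose, bc_det]
    refine mul_ne_zero (mul_ne_zero hP0 ?_) hP0
    exact fun h => hdet ((map_eq_zero _).1 h)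
  · intro g
    rw [hf', transpose_mul, transpose_mul]
    calc Pᵀ * ((bc k (f g))ᵀ * (P⁻¹)ᵀ) * (Pᵀ * bc k B * P) * (P⁻¹ * bc k (f g) * P) =
        Pᵀ * (bc k (f g))ᵀ * ((P⁻¹)ᵀ * Pᵀ) * bc k B * (P * P⁻¹) * bc k (f g) * P := by
          simp only [mul_assoc]
      _ = Pᵀ * ((bc k (f g))ᵀ * bc k B * bc k (f g)) * P := by
        rw [hPT', hPP, mul_one, mul_one]
        simp only [mul_assoc]
      _ = _ := by rw [← bc_transpose, ← bc_mul, ← bc_mul, hiso]
  · intro U W hU hUn hW
    have h3 := hirr U (W.map (Matrix.toLin' P)) hU hUn (by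
      intro g hg w hw
      obtain ⟨w', hw', rfl⟩ := Submodule.mem_map.1 hw
      refine Submodule.mem_map.2 ⟨f' g *ᵥ w', hW g hg w' hw', ?_⟩
      rw [Matrix.toLin'_apply, Matrix.toLin'_apply, mulVec_mulVec, mulVec_mulVec, hf', ← mul_assoc,
        ← mul_assoc, hPP, one_mul])
    have hinj : Function.Injective (Matrix.toLin' P) := by
      intro x y hxy
      rw [Matrix.toLin'_apply, Matrix.toLin'_apply] at hxy
      have h4 := congrArg (fun z => P⁻¹ *ᵥ z) hxy
      simp only [mulVec_mulVec, hPP', one_mulVec] at h4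
      exact h4
    have hsurj : Function.Surjective (Matrix.toLin' P) := by
      intro y
      refine ⟨P⁻¹ *ᵥ y, ?_⟩
      rw [Matrix.toLin'_apply, mulVec_mulVec, hPP, one_mulVec]
    rcases h3 with h3 | h3
    · left
      rw [eq_bot_iff]
      intro w hw
      have h4 : Matrix.toLin' P w ∈ W.map (Matrix.toLin' P) := Submodule.mem_map.2 ⟨w, hw, rfl⟩
      rw [h3, Submodule.mem_bot] at h4
      rw [Submodule.mem_bot]
      exact hinj (h4.trans (map_zero _).symm)
    · right
      rw [eq_top_iff]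
      intro w _
      have h4 : Matrix.toLin' P w ∈ W.map (Matrix.toLin' P) := by
        rw [h3]
        exact Submodule.mem_top
      obtain ⟨w', hw', h5⟩ := Submodule.mem_map.1 h4
      rwa [← hinj h5]
  · rw [hf', mul_assoc, hP, ← mul_assoc, hPP', one_mul]
  · intro A hA
    rw [hform, hspan _ hA, mul_zero, zero_mul]
  · intro g A hA
    rw [hLdef, hf', hf']
    have h3 : P * (P⁻¹ * bc k (f g) * P * A * (P⁻¹ * bc k (f g⁻¹) * P)) * P⁻¹ =
        bc k (f g) * (P * A * P⁻¹) * bc k (f g⁻¹) := by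
      calc P * (P⁻¹ * bc k (f g) * P * A * (P⁻¹ * bc k (f g⁻¹) * P)) * P⁻¹ =
          (P * P⁻¹) * bc k (f g) * (P * A * P⁻¹) * bc k (f g⁻¹) * (P * P⁻¹) := by
            simp only [mul_assoc]
        _ = _ := by rw [hPP, one_mul, mul_one]
    rw [h3]
    have h4 : ∀ Z ∈ Submodule.span k (bc k '' S), bc k (f g) * Z * bc k (f g⁻¹) ∈
        Submodule.span k (bc k '' S) := by
      intro Z hZ
      induction hZ using Submodule.span_induction with
      | mem Z hZ =>
        obtain ⟨N, hN, rfl⟩ := hZ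
        rw [← bc_mul, ← bc_mul]
        exact Submodule.subset_span ⟨_, hconj g N hN, rfl⟩
      | zero =>
        rw [mul_zero, zero_mul]
        exact Submodule.zero_mem _
      | add a b _ _ ha hb =>
        rw [mul_add, add_mul]
        exact Submodule.add_mem _ ha hb
      | smul t a _ ha =>
        rw [mul_smul_comm, smul_mul_assoc]
        exact Submodule.smul_mem _ _ ha
    exact h4 _ hA
  · obtain ⟨N, hN, hN0⟩ := hne
    rw [Submodule.ne_bot_iff]
    have h3 : P * (P⁻¹ * bc k N * P) * P⁻¹ = bc k N := by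
      calc P * (P⁻¹ * bc k N * P) * P⁻¹ = (P * P⁻¹) * bc k N * (P * P⁻¹) := by simp only [mul_assoc]
        _ = _ := by rw [hPP, one_mul, mul_one]
    refine ⟨P⁻¹ * bc k N * P, ?_, fun h4 => hN0 ?_⟩
    · rw [hLdef, h3]
      exact Submodule.subset_span ⟨N, hN, rfl⟩
    · rw [h4, mul_zero, zero_mul] at h3
      exact bc_inj (h3.symm.trans bc_zero.symm)
  · rw [hform]
    have h3 : P * (P⁻¹ * bc k Y * P) * P⁻¹ = bc k Y := by
      calc P * (P⁻¹ * bc k Y * P) * P⁻¹ = (P * P⁻¹) * bc k Y * (P * P⁻¹) := by simp only [mul_assoc]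
        _ = _ := by rw [hPP, one_mul, mul_one]
    rw [h3, ← bc_transpose, ← bc_mul, ← bc_mul, ← bc_add, hY, bc_zero, mul_zero, zero_mul]

end main

end Pool.Agent.T2H36.IX
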