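import Pool.Agent.T2H36.IX.Defs2

set_option autoImplicit false

namespace Pool.Agent.T2H36.IX

section

variable {K V : Type*} [Field K] [AddCommGroup V] [Module K V]

/-- if `Z w = w + u` and `Z u = u` then `Z ^ j w = w + j u` -/
theorem ab_pow_add (Z : Module.End K V) (w u : V) (h1 : Z w = w + u) (h2 : Z u = u) (j : ℕ) :
    (Z ^ j) w = w + (j : K) • u := by
  induction j with
  | zero => simp
  | succ j ih =>
    rw [pow_succ', Module.End.mul_apply, ih, map_add, map_smul, h1, h2]
    push_cast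
    rw [add_smul, one_smul]
    abel

/-- the eigenvectors `x ^ j v` -/
theorem ab_inj [IsAlgClosed K] [FiniteDimensional K V] (ℓ : ℕ) [Fact ℓ.Prime] (hℓ : (ℓ : K) ≠ 0)
    (hV : Module.finrank K V < ℓ) (G : Type*) [Group G] [Finite G] (hG : IsPGroup ℓ G)
    (F : G →* Module.End K V) (hF : Function.Injective F) (a b : G) : a * b = b * a := by
  by_contra hab
  have hprime : ℓ.Prime := Fact.out
  -- an element of the second centre
  have hnt : Nontrivial (G ⧸ Subgroup.center G) := by
    refine ⟨⟨(a : G ⧸ Subgroup.center G), 1, ?_⟩⟩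
    intro h
    rw [QuotientGroup.eq_one_iff, Subgroup.mem_center_iff] at h
    exact hab (h b).symm
  have hcn := (hG.to_quotient (Subgroup.center G)).center_nontrivial
  obtain ⟨⟨q, hq⟩, hq1⟩ := exists_ne (1 : Subgroup.center (G ⧸ Subgroup.center G))
  obtain ⟨x, rfl⟩ := QuotientGroup.mk_surjective q
  have hx : x ∉ Subgroup.center G := by
    intro h
    apply hq1
    apply Subtype.ext
    exact (QuotientGroup.eq_one_iff x).mpr h
  rw [Subgroup.mem_center_iff] at hx
  push Not at hx
  obtain ⟨y, hxy⟩ := hx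
  obtain ⟨z, hz⟩ : ∃ z, z = x * y * x⁻¹ * y⁻¹ := ⟨_, rfl⟩
  have hzc : z ∈ Subgroup.center G := by
    rw [← QuotientGroup.eq_one_iff]
    have h1 := (Subgroup.mem_center_iff.mp hq) (y : G ⧸ Subgroup.center G)
    rw [hz]
    change (x : G ⧸ Subgroup.center G) * y * (x : G ⧸ Subgroup.center G)⁻¹ *
      (y : G ⧸ Subgroup.center G)⁻¹ = 1
    rw [← h1]
    group
  have hz1 : z ≠ 1 := by
    intro h
    apply hxy
    have : x * y = y * x := by
      have h2 : z * y * x = x * y := by rw [hz]; group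
      rw [← h2, h, one_mul]
    exact this.symm
  obtain ⟨e, he⟩ := hG z
  have hxyz : x * y = z * (y * x) := by rw [hz]; group
  set X := F x with hX
  set Y := F y with hY
  set Z := F z with hZ
  have hXi : ∀ v, F x⁻¹ (X v) = v := by
    intro v
    rw [hX, ← Module.End.mul_apply, ← map_mul, inv_mul_cancel, map_one, Module.End.one_apply]
  have hYi : ∀ v, F y⁻¹ (Y v) = v := by
    intro v
    rw [hY, ← Module.End.mul_apply, ← map_mul, inv_mul_cancel, map_one, Module.End.one_apply]
  have hZe : Z ^ (ℓ ^ e) = 1 := by rw [hZ, ← map_pow, he, map_one]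
  have hZX : ∀ v, Z (X v) = X (Z v) := by
    intro v
    rw [hZ, hX, ← Module.End.mul_apply, ← Module.End.mul_apply, ← map_mul, ← map_mul,
      (Subgroup.mem_center_iff.mp hzc) x]
  have hZY : ∀ v, Z (Y v) = Y (Z v) := by
    intro v
    rw [hZ, hY, ← Module.End.mul_apply, ← Module.End.mul_apply, ← map_mul, ← map_mul,
      (Subgroup.mem_center_iff.mp hzc) y]
  have hXY : ∀ v, X (Y v) = Z (Y (X v)) := by
    intro v
    rw [hZ, hX, hY, ← Module.End.mul_apply, ← Module.End.mul_apply, ← Module.End.mul_apply,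
      ← map_mul, ← map_mul, ← map_mul, hxyz, mul_assoc]
  have hZne : Z ≠ 1 := by
    intro h
    apply hz1
    apply hF
    rw [← hZ, h, map_one]
  -- an eigenvalue different from one
  have hc : ∃ (c : K) (u : V), u ≠ 0 ∧ Z u = c • u ∧ c ≠ 1 := by
    have hU : ∀ u ∈ LinearMap.range (Z - 1), Z u ∈ LinearMap.range (Z - 1) := by
      rintro u ⟨w, rfl⟩
      refine ⟨Z w, ?_⟩
      simp [LinearMap.sub_apply, Module.End.one_apply]
    have hUnt : Nontrivial (LinearMap.range (Z - 1)) := by
      rw [Submodule.nontrivial_iff_ne_bot]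
      intro h
      rw [LinearMap.range_eq_bot] at h
      exact hZne (sub_eq_zero.mp h)
    obtain ⟨c, hc⟩ := Module.End.exists_eigenvalue (Z.restrict hU)
    obtain ⟨u, hu⟩ := hc.exists_hasEigenvector
    have hu1 : Z u.1 = c • u.1 := congrArg Subtype.val hu.apply_eq_smul
    have hu2 : u.1 ≠ 0 := fun h => hu.2 (Subtype.ext h)
    refine ⟨c, u.1, hu2, hu1, ?_⟩
    intro hc1
    rw [hc1, one_smul] at hu1
    obtain ⟨w, hw⟩ := u.2
    have hw1 : Z w = w + u.1 := by
      rw [← hw, LinearMap.sub_apply, Module.End.one_apply]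
      abel
    have h3 := ab_pow_add Z w u.1 hw1 hu1 (ℓ ^ e)
    rw [hZe, Module.End.one_apply] at h3
    have h4 : ((ℓ ^ e : ℕ) : K) • u.1 = 0 := by
      have h5 : w + ((ℓ ^ e : ℕ) : K) • u.1 = w + 0 := by rw [← h3, add_zero]
      exact add_left_cancel h5
    rcases smul_eq_zero.mp h4 with h | h
    · push_cast at h
      exact pow_ne_zero e hℓ h
    · exact hu2 h
  obtain ⟨c, u, hu0, hu, hc1⟩ := hc
  have hpow : ∀ j : ℕ, (Z ^ j) u = c ^ j • u := by
    intro j
    induction j with
    | zero => simp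
    | succ j ih => rw [pow_succ', Module.End.mul_apply, ih, map_smul, hu, smul_smul, pow_succ]
  have hce : c ^ (ℓ ^ e) = 1 := by
    have h := hpow (ℓ ^ e)
    rw [hZe, Module.End.one_apply] at h
    have h2 : (c ^ (ℓ ^ e) - 1) • u = 0 := by rw [sub_smul, one_smul, ← h, sub_self]
    rcases smul_eq_zero.mp h2 with h3 | h3
    · exact sub_eq_zero.mp h3
    · exact (hu0 h3).elim
  have hc0 : c ≠ 0 := by
    rintro rfl
    rw [zero_pow (pow_ne_zero _ hprime.ne_zero)] at hce
    exact zero_ne_one hce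
  have hord : ℓ ≤ orderOf c := by
    obtain ⟨b, hb, hb2⟩ := (Nat.dvd_prime_pow hprime).mp (orderOf_dvd_of_pow_eq_one hce)
    rw [hb2]
    rcases Nat.eq_zero_or_pos b with h | h
    · rw [h, pow_zero] at hb2
      exact (hc1 (orderOf_eq_one_iff.mp hb2)).elim
    · calc ℓ = ℓ ^ 1 := (pow_one ℓ).symm
        _ ≤ ℓ ^ b := Nat.pow_le_pow_right hprime.pos h
  -- an eigenvector of Y in the eigenspace of Z
  have hE : ∀ v ∈ Module.End.eigenspace Z c, Y v ∈ Module.End.eigenspace Z c := by
    intro v hv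
    rw [Module.End.mem_eigenspace_iff] at hv ⊢
    rw [hZY, hv, map_smul]
  have hEnt : Nontrivial (Module.End.eigenspace Z c) := by
    rw [Submodule.nontrivial_iff_ne_bot]
    intro h
    have : u ∈ Module.End.eigenspace Z c := Module.End.mem_eigenspace_iff.mpr hu
    rw [h, Submodule.mem_bot] at this
    exact hu0 this
  obtain ⟨t, ht⟩ := Module.End.exists_eigenvalue (Y.restrict hE)
  obtain ⟨v, hv⟩ := ht.exists_hasEigenvector
  have hv1 : Y v.1 = t • v.1 := congrArg Subtype.val hv.apply_eq_smul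
  have hv2 : v.1 ≠ 0 := fun h => hv.2 (Subtype.ext h)
  have hv3 : Z v.1 = c • v.1 := Module.End.mem_eigenspace_iff.mp v.2
  have ht0 : t ≠ 0 := by
    rintro rfl
    rw [zero_smul] at hv1
    apply hv2
    rw [← hYi v.1, hv1, map_zero]
  have hj : ∀ j : ℕ, Z ((X ^ j) v.1) = c • (X ^ j) v.1 ∧
      Y ((X ^ j) v.1) = (c⁻¹ ^ j * t) • (X ^ j) v.1 ∧ (X ^ j) v.1 ≠ 0 := by
    intro j
    induction j with
    | zero => exact ⟨by simpa using hv3, by simpa using hv1, by simpa using hv2⟩
    | succ j ih =>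
      obtain ⟨i1, i2, i3⟩ := ih
      have h1 : (X ^ (j + 1)) v.1 = X ((X ^ j) v.1) := by
        rw [pow_succ', Module.End.mul_apply]
      rw [h1]
      have h2 : Z (X ((X ^ j) v.1)) = c • X ((X ^ j) v.1) := by rw [hZX, i1, map_smul]
      refine ⟨h2, ?_, ?_⟩
      · have h3 := hXY ((X ^ j) v.1)
        rw [hZY, h2, map_smul, i2, map_smul] at h3
        -- h3 : s • X w = c • Y (X w)
        have h4 : Y (X ((X ^ j) v.1)) = c⁻¹ • (c • Y (X ((X ^ j) v.1))) := by
          rw [smul_smul, inv_mul_cancel₀ hc0, one_smul]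
        rw [h4, ← h3, smul_smul, pow_succ]
        congr 1
        ring
      · intro h
        apply i3
        rw [← hXi ((X ^ j) v.1), h, map_zero]
  have hli : LinearIndependent K (fun j : Fin ℓ => (X ^ (j : ℕ)) v.1) := by
    refine Module.End.eigenvectors_linearIndependent' Y (fun j : Fin ℓ => c⁻¹ ^ (j : ℕ) * t) ?_ _ ?_
    · intro i j hij
      have h1 : c⁻¹ ^ (i : ℕ) = c⁻¹ ^ (j : ℕ) := mul_right_cancel₀ ht0 hij
      rw [inv_pow, inv_pow, inv_inj] at h1
      have hi : (i : ℕ) ∈ Set.Iio (orderOf c) := by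
        rw [Set.mem_Iio]; omega
      have hj' : (j : ℕ) ∈ Set.Iio (orderOf c) := by
        rw [Set.mem_Iio]; omega
      have h2 := pow_injOn_Iio_orderOf (x := c) hi hj' h1
      exact Fin.ext h2
    · intro j
      exact ⟨Module.End.mem_eigenspace_iff.mpr (hj j).2.1, (hj j).2.2⟩
  have hcard := hli.fintype_card_le_finrank
  rw [Fintype.card_fin] at hcard
  omega

end

theorem ab_stmt : ABStmt := by
  intro ℓ p _ _ hℓp n hn R _ _ k hR f x y
  classical
  set K := AlgebraicClosure (ZMod p) with hK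
  set ι : ZMod p →+* K := algebraMap (ZMod p) K with hι
  set Φ : R →* Module.End K (Fin n → K) :=
    ((Matrix.toLinAlgEquiv' (R := K) (n := Fin n)).toAlgHom.toRingHom.toMonoidHom).comp
      ((ι.mapMatrix (m := Fin n)).toMonoidHom.comp f) with hΦ
  have hΦf : ∀ a b : R, Φ a = Φ b → f a = f b := by
    intro a b h
    have h1 : ι.mapMatrix (m := Fin n) (f a) = ι.mapMatrix (m := Fin n) (f b) :=
      (Matrix.toLinAlgEquiv' (R := K) (n := Fin n)).injective h
    exact Matrix.map_injective (RingHom.injective ι) h1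
  have hℓK : (ℓ : K) ≠ 0 := by
    intro h
    have : CharP K p := inferInstance
    rw [CharP.cast_eq_zero_iff K p] at h
    have hp := (Fact.out : p.Prime)
    have hl := (Fact.out : ℓ.Prime)
    exact hℓp ((Nat.prime_dvd_prime_iff_eq hp hl).mp h).symm
  -- the image
  set Q := (Φ.toHomUnits).range with hQ
  have : Finite Q := Finite.of_surjective _ Φ.toHomUnits.rangeRestrict_surjective
  have hQp : IsPGroup ℓ Q :=
    (IsPGroup.of_card hR).of_surjective Φ.toHomUnits.rangeRestrict
      Φ.toHomUnits.rangeRestrict_surjective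
  have h1 := ab_inj ℓ hℓK (by simpa using hn) Q hQp
    ((Units.coeHom (Module.End K (Fin n → K))).comp Q.subtype) (by
      intro a b h
      exact Subtype.ext (Units.ext h)) ⟨Φ.toHomUnits x, x, rfl⟩ ⟨Φ.toHomUnits y, y, rfl⟩
  have h2 : Φ (x * y) = Φ (y * x) := by
    have h3 := congrArg (fun q : Q => ((q.1 : (Module.End K (Fin n → K))ˣ) :
      Module.End K (Fin n → K))) h1
    simpa using h3
  have h4 := hΦf _ _ h2
  rwa [map_mul, map_mul] at h4

end Pool.Agent.T2H36.IX
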