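import Mathlib

set_option autoImplicit false

/-!
Project IX (helper36), problem MP_2b5912_ag (integral Mumford-Tate conjecture): from irreducibility
modulo `ℓ` to images of bounded index. Statements of the self-contained packages.
-/

open Matrix Polynomial

namespace Pool.Agent.T2H36.IX

/-- reduction modulo `ℓ` -/
noncomputable abbrev red (ℓ : ℕ) [Fact ℓ.Prime] {n : ℕ} (A : Matrix (Fin n) (Fin n) ℤ_[ℓ]) :
    Matrix (Fin n) (Fin n) (ZMod ℓ) :=
  A.map (PadicInt.toZMod : ℤ_[ℓ] →+* ZMod ℓ)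

/-- the truncated exponential -/
def tex {F : Type} [Field F] {n : ℕ} (N : Matrix (Fin n) (Fin n) F) : Matrix (Fin n) (Fin n) F :=
  ∑ k ∈ Finset.range n, ((k.factorial : F)⁻¹) • N ^ k

/-- package J: a finite group of complex matrices has a subgroup of bounded index with a nonscalar
commutant -/
def JStmt : Prop := ∀ n : ℕ, 2 ≤ n → ∃ J : ℕ, ∀ (G : Type) [Group G] [Finite G]
  (f : G →* Matrix (Fin n) (Fin n) ℂ),
  ∃ (U : Subgroup G) (X : Matrix (Fin n) (Fin n) ℂ), U.index ≤ J ∧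
    (∀ g ∈ U, f g * X = X * f g) ∧ ∀ c : ℂ, X ≠ c • (1 : Matrix (Fin n) (Fin n) ℂ)

/-- package L: lifting of representations of finite groups of order prime to `ℓ` -/
def LStmt : Prop := ∀ (ℓ : ℕ) [Fact ℓ.Prime] (n : ℕ) (G : Type) [Group G] [Finite G]
  (f : G →* Matrix (Fin n) (Fin n) (ZMod ℓ)), (Nat.card G).Coprime ℓ →
  ∃ F : G →* Matrix (Fin n) (Fin n) ℤ_[ℓ], ∀ g, red ℓ (F g) = f g

/-- package C: a polynomial map with the identity as its linear part has many values -/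
def CStmt : Prop := ∀ (F : Type) [Field F] [Fintype F] (d D : ℕ), 0 < D →
  ∀ φ : Fin d → MvPolynomial (Fin d) F, (∀ i, (φ i).totalDegree ≤ D) →
  (∀ i, MvPolynomial.coeff 0 (φ i) = 0) →
  (∀ i j, MvPolynomial.coeff (Finsupp.single j 1) (φ i) = if i = j then 1 else 0) →
  ((Fintype.card F - 1) / D + d).choose d ≤
    (Set.range fun (t : Fin d → F) (i : Fin d) => MvPolynomial.eval t (φ i)).ncard

/-- package E: a set of matrices which is closed under multiplication and contains the exponentials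
of `d` linearly independent nilpotent matrices has at least `const * ℓ ^ d` elements -/
def EStmt : Prop := ∀ n d : ℕ, ∃ c : ℕ, ∀ (ℓ : ℕ) [Fact ℓ.Prime], n < ℓ →
  ∀ N : Fin d → Matrix (Fin n) (Fin n) (ZMod ℓ), (∀ i, N i ^ n = 0) →
  LinearIndependent (ZMod ℓ) N → ∀ S : Set (Matrix (Fin n) (Fin n) (ZMod ℓ)),
  1 ∈ S → (∀ a ∈ S, ∀ b ∈ S, a * b ∈ S) → (∀ i, tex (N i) ∈ S) → ℓ ^ d ≤ c * S.ncard

/-- package K: if the logarithms of the elements of the image modulo `ℓ` span the Lie algebra of the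
form `B`, then the image contains the kernel of the reduction -/
def KStmt : Prop := ∀ (ℓ n : ℕ) [Fact ℓ.Prime], 2 * n < ℓ → 2 < ℓ →
  ∀ (G : Type) [Group G] [TopologicalSpace G] [IsTopologicalGroup G] [CompactSpace G]
  (β : G →* Matrix (Fin n) (Fin n) ℤ_[ℓ]), Continuous β →
  ∀ B : Matrix (Fin n) (Fin n) ℤ_[ℓ], (∀ g, (β g)ᵀ * B * β g = B) →
  (∀ X : Matrix (Fin n) (Fin n) (ZMod ℓ), Xᵀ * red ℓ B + red ℓ B * X = 0 →
    X ∈ Submodule.span (ZMod ℓ) {N | N ^ n = 0 ∧ ∃ g, red ℓ (β g) = tex N}) →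
  ∀ h : Matrix (Fin n) (Fin n) ℤ_[ℓ], hᵀ * B * h = B → red ℓ h = 1 → ∃ g, β g = h

/-- package O: the order of the orthogonal group -/
def OStmt : Prop := ∀ (F : Type) [Field F] [Fintype F], (2 : F) ≠ 0 →
  ∀ (n : ℕ) (B : Matrix (Fin n) (Fin n) F), Bᵀ = B → B.det ≠ 0 →
  {g : Matrix (Fin n) (Fin n) F | gᵀ * B * g = B}.ncard ≤
    2 ^ n * (Fintype.card F) ^ (n * (n - 1) / 2)

/-- package R: reduction of the eigenvalues modulo all large primes -/
def RStmt : Prop := ∀ (n : ℕ) (P : ℚ[X]) (lam : Fin n → ℂ),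
  P.map (algebraMap ℚ ℂ) = ∏ i, (X - C (lam i)) →
  ∀ E : Finset (MvPolynomial (Fin n) ℤ), (∀ e ∈ E, MvPolynomial.aeval lam e ≠ 0) →
  ∃ b : ℕ, ∀ (ℓ : ℕ) [Fact ℓ.Prime], b < ℓ → ∀ A : Matrix (Fin n) (Fin n) ℤ_[ℓ],
    (A.map (algebraMap ℤ_[ℓ] ℚ_[ℓ])).charpoly = P.map (algebraMap ℚ ℚ_[ℓ]) →
    ∃ mu : Fin n → AlgebraicClosure (ZMod ℓ),
      (red ℓ A).charpoly.map (algebraMap (ZMod ℓ) (AlgebraicClosure (ZMod ℓ))) =
        ∏ i, (X - C (mu i)) ∧
      (∀ e ∈ E, MvPolynomial.aeval mu e ≠ 0) ∧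
      ∀ e : MvPolynomial (Fin n) ℤ, MvPolynomial.aeval lam e = 0 → MvPolynomial.aeval mu e = 0

end Pool.Agent.T2H36.IX
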