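import Mathlib
import Pool.Agent.T2H36.IX.Defs

set_option autoImplicit false

/-!
Project IX (helper36), package E (helper89): a set of matrices which is closed under multiplication
and contains the exponentials of `d` linearly independent nilpotent matrices has at least
`const * ℓ ^ d` elements.
-/

open Matrix

namespace Pool.Agent.T2H36.IX

namespace PE

/-! ### truncated exponentials -/

section Tex

variable {ℓ : ℕ} [hp : Fact ℓ.Prime]

theorem fact_ne {k : ℕ} (h : k < ℓ) : (k.factorial : ZMod ℓ) ≠ 0 := by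
  intro h0
  rw [ZMod.natCast_eq_zero_iff] at h0
  exact absurd ((hp.1.dvd_factorial).1 h0) (by omega)

/-- the polynomial of the exponential of `a X` -/
noncomputable def Ea (n : ℕ) (a : ZMod ℓ) : Polynomial (ZMod ℓ) :=
  ∑ k ∈ Finset.range n, Polynomial.C (a ^ k * (k.factorial : ZMod ℓ)⁻¹) * Polynomial.X ^ k

theorem Ea_coeff {n : ℕ} (a : ZMod ℓ) {m : ℕ} (hm : m < n) :
    (Ea n a).coeff m = a ^ m * (m.factorial : ZMod ℓ)⁻¹ := by
  unfold Ea
  rw [Polynomial.finsetSum_coeff]
  simp only [Polynomial.coeff_C_mul, Polynomial.coeff_X_pow, mul_ite, mul_one, mul_zero]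
  rw [Finset.sum_ite_eq, if_pos (Finset.mem_range.2 hm)]

theorem aeval_Ea {n m : ℕ} (a : ZMod ℓ) (N : Matrix (Fin m) (Fin m) (ZMod ℓ)) :
    Polynomial.aeval N (Ea n a) =
      ∑ k ∈ Finset.range n, ((k.factorial : ZMod ℓ)⁻¹) • (a • N) ^ k := by
  unfold Ea
  rw [map_sum]
  refine Finset.sum_congr rfl fun k _ => ?_
  rw [map_mul, Polynomial.aeval_C, map_pow, Polynomial.aeval_X, ← Algebra.smul_def, smul_pow,
    smul_smul, mul_comm]

theorem Ea_mul {n : ℕ} (hn : n ≤ ℓ) (a b : ZMod ℓ) :
    (Polynomial.X : Polynomial (ZMod ℓ)) ^ n ∣ Ea n a * Ea n b - Ea n (a + b) := by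
  rw [Polynomial.X_pow_dvd_iff]
  intro m hm
  rw [Polynomial.coeff_sub, Polynomial.coeff_mul, Ea_coeff _ hm, sub_eq_zero]
  have h0 : (m.factorial : ZMod ℓ) ≠ 0 := fact_ne (by omega)
  rw [eq_mul_inv_iff_mul_eq₀ h0, (Commute.all a b).add_pow', Finset.sum_mul]
  refine Finset.sum_congr rfl fun x hx => ?_
  have hx := Finset.HasAntidiagonal.mem_antidiagonal.1 hx
  rw [Ea_coeff _ (by omega), Ea_coeff _ (by omega), nsmul_eq_mul]
  have h1 : (x.1.factorial : ZMod ℓ) ≠ 0 := fact_ne (by omega)
  have h2 : (x.2.factorial : ZMod ℓ) ≠ 0 := fact_ne (by omega)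
  have h3 : (m.factorial : ZMod ℓ) = (m.choose x.1 : ZMod ℓ) * x.1.factorial * x.2.factorial := by
    rw [← hx]
    have := Nat.add_choose_mul_factorial_mul_factorial x.1 x.2
    rw [← Nat.choose_symm_add] at this
    rw [← this, Nat.cast_mul, Nat.cast_mul]
  rw [h3]
  field_simp

theorem tex_add {n : ℕ} (hn : n ≤ ℓ) {N : Matrix (Fin n) (Fin n) (ZMod ℓ)} (hN : N ^ n = 0)
    (a b : ZMod ℓ) : tex (a • N) * tex (b • N) = tex ((a + b) • N) := by
  obtain ⟨F, hF⟩ := Ea_mul hn a b
  have h1 := congrArg (Polynomial.aeval N) hF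
  rw [map_sub, map_mul, map_mul, map_pow, Polynomial.aeval_X, hN, zero_mul, aeval_Ea, aeval_Ea,
    aeval_Ea, sub_eq_zero] at h1
  exact h1

theorem tex_nat {n : ℕ} (hn : n ≤ ℓ) {N : Matrix (Fin n) (Fin n) (ZMod ℓ)} (hN : N ^ n = 0)
    (hn0 : 0 < n) (m : ℕ) : tex ((m : ZMod ℓ) • N) = tex N ^ m := by
  induction m with
  | zero =>
    rw [Nat.cast_zero, zero_smul, pow_zero]
    unfold tex
    obtain ⟨k, rfl⟩ : ∃ k, n = k + 1 := ⟨n - 1, by omega⟩
    rw [Finset.sum_range_succ']
    simp
  | succ m ih =>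
    rw [pow_succ, ← ih, Nat.cast_succ, ← tex_add hn hN, one_smul]

end Tex

/-! ### coefficients -/

section Coef

variable {F : Type} [Field F] {d n : ℕ}

open MvPolynomial

theorem cj_mul (j : Fin d) (p q : MvPolynomial (Fin d) F) :
    coeff (Finsupp.single j 1) (p * q) =
      coeff 0 p * coeff (Finsupp.single j 1) q + coeff (Finsupp.single j 1) p * coeff 0 q := by
  classical
  rw [coeff_mul, Finsupp.antidiagonal_single, Finset.sum_map]
  simp [Finset.Nat.antidiagonal_succ]

/-- the constant terms -/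
noncomputable def c0 (A : Matrix (Fin n) (Fin n) (MvPolynomial (Fin d) F)) :
    Matrix (Fin n) (Fin n) F := A.map (coeff 0)

/-- the linear terms -/
noncomputable def cj (j : Fin d) (A : Matrix (Fin n) (Fin n) (MvPolynomial (Fin d) F)) :
    Matrix (Fin n) (Fin n) F := A.map (coeff (Finsupp.single j 1))

theorem c0_mul (A B : Matrix (Fin n) (Fin n) (MvPolynomial (Fin d) F)) :
    c0 (A * B) = c0 A * c0 B := by
  have h : ∀ A : Matrix (Fin n) (Fin n) (MvPolynomial (Fin d) F),
      c0 A = (constantCoeff (σ := Fin d) (R := F)).mapMatrix A := fun A => rfl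
  rw [h, h, h, map_mul]

theorem c0_one : c0 (1 : Matrix (Fin n) (Fin n) (MvPolynomial (Fin d) F)) = 1 := by
  have h : ∀ A : Matrix (Fin n) (Fin n) (MvPolynomial (Fin d) F),
      c0 A = (constantCoeff (σ := Fin d) (R := F)).mapMatrix A := fun A => rfl
  rw [h, map_one]

theorem cj_one (j : Fin d) :
    cj j (1 : Matrix (Fin n) (Fin n) (MvPolynomial (Fin d) F)) = 0 := by
  classical
  ext a b
  unfold cj
  rw [Matrix.map_apply, Matrix.one_apply]
  split_ifs
  · rw [coeff_one, if_neg, Matrix.zero_apply]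
    intro h
    have := congrArg (fun f : Fin d →₀ ℕ => f j) h
    simp at this
  · simp

theorem cj_mul_mat (j : Fin d) (A B : Matrix (Fin n) (Fin n) (MvPolynomial (Fin d) F)) :
    cj j (A * B) = c0 A * cj j B + cj j A * c0 B := by
  ext a b
  unfold cj c0
  simp only [Matrix.map_apply, Matrix.mul_apply, Matrix.add_apply, coeff_sum, cj_mul,
    Finset.sum_add_distrib]

theorem deg_mul {A B : Matrix (Fin n) (Fin n) (MvPolynomial (Fin d) F)} {x y : ℕ}
    (hA : ∀ a b, (A a b).totalDegree ≤ x) (hB : ∀ a b, (B a b).totalDegree ≤ y) (a b : Fin n) :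
    ((A * B) a b).totalDegree ≤ x + y := by
  rw [Matrix.mul_apply]
  refine totalDegree_finsetSum_le fun c _ => ?_
  exact (totalDegree_mul _ _).trans (add_le_add (hA _ _) (hB _ _))

/-- the exponential of `X_i N` -/
noncomputable def TT (i : Fin d) (N : Matrix (Fin n) (Fin n) F) :
    Matrix (Fin n) (Fin n) (MvPolynomial (Fin d) F) :=
  ∑ k ∈ Finset.range n, (C ((k.factorial : F)⁻¹) * X i ^ k) • (N ^ k).map C

theorem TT_deg (i : Fin d) (N : Matrix (Fin n) (Fin n) F) (a b : Fin n) :
    (TT i N a b).totalDegree ≤ n := by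
  unfold TT
  rw [Matrix.sum_apply]
  refine totalDegree_finsetSum_le fun k hk => ?_
  rw [Matrix.smul_apply, Matrix.map_apply, smul_eq_mul]
  refine (totalDegree_mul _ _).trans ?_
  rw [totalDegree_C, add_zero]
  refine (totalDegree_mul _ _).trans ?_
  rw [totalDegree_C, zero_add]
  refine (totalDegree_pow _ _).trans ?_
  have h1 : (X i : MvPolynomial (Fin d) F).totalDegree ≤ 1 := by
    rw [totalDegree_X]
  have h2 := Finset.mem_range.1 hk
  nlinarith

theorem TT_c0 (i : Fin d) (N : Matrix (Fin n) (Fin n) F) (hn : 0 < n) : c0 (TT i N) = 1 := by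
  obtain ⟨m, rfl⟩ : ∃ m, n = m + 1 := ⟨n - 1, by omega⟩
  have h : ∀ A : Matrix (Fin (m + 1)) (Fin (m + 1)) (MvPolynomial (Fin d) F),
      c0 A = (constantCoeff (σ := Fin d) (R := F)).mapMatrix A := fun A => rfl
  rw [h]
  unfold TT
  rw [map_sum, Finset.sum_range_succ']
  have h2 : ∀ k ∈ Finset.range m, (constantCoeff (σ := Fin d) (R := F)).mapMatrix
      ((C (((k + 1).factorial : F)⁻¹) * X i ^ (k + 1)) • (N ^ (k + 1)).map C) = 0 := by
    intro k _
    ext a b
    simp
  rw [Finset.sum_eq_zero h2, zero_add]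
  ext a b
  simp [Matrix.one_apply]

theorem coeff_X_pow' (i j : Fin d) (k : ℕ) :
    coeff (Finsupp.single j 1) ((X i : MvPolynomial (Fin d) F) ^ k) =
      if k = 1 ∧ i = j then 1 else 0 := by
  classical
  rw [coeff_X_pow]
  refine if_congr ?_ rfl rfl
  constructor
  · intro h
    have h1 := (Finsupp.single_eq_single_iff _ _ _ _).1 h
    rcases h1 with ⟨h1, h2⟩ | ⟨h1, h2⟩
    · exact ⟨h2, h1⟩
    · omega
  · rintro ⟨rfl, rfl⟩
    rfl

theorem TT_cj (i j : Fin d) (N : Matrix (Fin n) (Fin n) F) (hn : 1 < n) :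
    cj j (TT i N) = if i = j then N else 0 := by
  unfold cj TT
  ext a b
  rw [Matrix.map_apply, Matrix.sum_apply, coeff_sum]
  have h1 : ∀ k ∈ Finset.range n, coeff (Finsupp.single j 1)
      (((C ((k.factorial : F)⁻¹) * X i ^ k) • (N ^ k).map C) a b : MvPolynomial (Fin d) F) =
      if k = 1 then (if i = j then N a b else 0) else 0 := by
    intro k _
    rw [Matrix.smul_apply, Matrix.map_apply, smul_eq_mul, mul_comm, coeff_C_mul, coeff_C_mul,
      coeff_X_pow']
    by_cases hk : k = 1
    · subst hk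
      by_cases hij : i = j
      · simp [hij]
      · simp [hij]
    · simp [hk]
  rw [Finset.sum_congr rfl h1, Finset.sum_ite_eq', if_pos (Finset.mem_range.2 hn)]
  split_ifs <;> rfl

theorem TT_eval (i : Fin d) (N : Matrix (Fin n) (Fin n) F) (t : Fin d → F) :
    (eval t).mapMatrix (TT i N) = tex (t i • N) := by
  unfold TT tex
  rw [map_sum]
  refine Finset.sum_congr rfl fun k _ => ?_
  ext a b
  rw [smul_pow]
  simp
  ring

/-- the product of the exponentials -/
noncomputable def Phi (N : Fin d → Matrix (Fin n) (Fin n) F) :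
    Matrix (Fin n) (Fin n) (MvPolynomial (Fin d) F) :=
  ((List.finRange d).map fun i => TT i (N i)).prod

theorem prod_deg (N : Fin d → Matrix (Fin n) (Fin n) F) (l : List (Fin d)) (a b : Fin n) :
    ((l.map fun i => TT i (N i)).prod a b).totalDegree ≤ l.length * n := by
  classical
  induction l generalizing a b with
  | nil =>
    rw [List.map_nil, List.prod_nil, Matrix.one_apply]
    split_ifs <;> simp
  | cons i l ih =>
    rw [List.map_cons, List.prod_cons, List.length_cons]
    refine (deg_mul (TT_deg i (N i)) ih a b).trans (by nlinarith)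

theorem prod_c0 (N : Fin d → Matrix (Fin n) (Fin n) F) (hn : 0 < n) (l : List (Fin d)) :
    c0 (l.map fun i => TT i (N i)).prod = 1 := by
  induction l with
  | nil => rw [List.map_nil, List.prod_nil, c0_one]
  | cons i l ih => rw [List.map_cons, List.prod_cons, c0_mul, ih, TT_c0 _ _ hn, one_mul]

theorem prod_cj (N : Fin d → Matrix (Fin n) (Fin n) F) (hn : 1 < n) (l : List (Fin d))
    (j : Fin d) : cj j (l.map fun i => TT i (N i)).prod =
      (l.map fun i => if i = j then N i else 0).sum := by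
  induction l with
  | nil => rw [List.map_nil, List.prod_nil, cj_one]; rfl
  | cons i l ih =>
    rw [List.map_cons, List.prod_cons, cj_mul_mat, ih, TT_c0 _ _ (by omega), one_mul,
      prod_c0 _ (by omega), mul_one, TT_cj _ _ _ hn, List.map_cons, List.sum_cons, add_comm]

theorem Phi_cj (N : Fin d → Matrix (Fin n) (Fin n) F) (hn : 1 < n) (j : Fin d) :
    cj j (Phi N) = N j := by
  unfold Phi
  rw [prod_cj _ hn, ← Fin.sum_univ_def, Finset.sum_ite_eq', if_pos (Finset.mem_univ _)]

end Coef

theorem mem_of_list {M : Type*} [Monoid M] {S : Set M} (h1 : 1 ∈ S)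
    (hm : ∀ a ∈ S, ∀ b ∈ S, a * b ∈ S) (l : List M) (hl : ∀ a ∈ l, a ∈ S) : l.prod ∈ S := by
  induction l with
  | nil => exact h1
  | cons a l ih =>
    rw [List.prod_cons]
    exact hm _ (hl _ List.mem_cons_self) _ (ih fun b hb => hl _ (List.mem_cons_of_mem _ hb))

theorem pow_mem' {M : Type*} [Monoid M] {S : Set M} (h1 : 1 ∈ S)
    (hm : ∀ a ∈ S, ∀ b ∈ S, a * b ∈ S) {a : M} (ha : a ∈ S) (k : ℕ) : a ^ k ∈ S := by
  induction k with
  | zero => rw [pow_zero]; exact h1
  | succ k ih => rw [pow_succ]; exact hm _ ih _ ha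

/-- the counting -/
theorem count {ℓ D d : ℕ} (hD : 0 < D) (hℓ : 0 < ℓ) :
    ℓ ^ d ≤ (D ^ d * d.factorial) * ((ℓ - 1) / D + d).choose d := by
  set e := (ℓ - 1) / D with he
  have h1 : ℓ ≤ D * (e + 1) := by
    have := Nat.lt_mul_div_succ (ℓ - 1) hD
    rw [← he] at this
    omega
  have h2 : (e + 1) ^ d ≤ d.factorial * (e + d).choose d := by
    rw [← Nat.ascFactorial_eq_factorial_mul_choose]
    exact Nat.pow_succ_le_ascFactorial _ _
  calc ℓ ^ d ≤ (D * (e + 1)) ^ d := Nat.pow_le_pow_left h1 d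
    _ = D ^ d * (e + 1) ^ d := mul_pow _ _ _
    _ ≤ D ^ d * (d.factorial * (e + d).choose d) := Nat.mul_le_mul_left _ h2
    _ = _ := by ring

end PE

open PE MvPolynomial in
/-- **Package E.** -/
theorem e_stmt : CStmt → EStmt := by
  classical
  intro hC n d
  refine ⟨(d * n + 1) ^ d * d.factorial, ?_⟩
  intro ℓ hp hn N hN hli S h1 hm hS
  rcases Nat.eq_zero_or_pos d with rfl | hd
  · simp only [pow_zero, Nat.factorial_zero, mul_one, one_mul]
    exact Nat.one_le_iff_ne_zero.2 fun h0 => by
      rw [Set.ncard_eq_zero (Set.toFinite S)] at h0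
      rw [h0] at h1
      exact h1
  have hn1 : 1 < n := by
    by_contra hcon
    have h2 : N ⟨0, hd⟩ ≠ 0 := hli.ne_zero _
    have h3 := hN ⟨0, hd⟩
    rcases (show n = 0 ∨ n = 1 by omega) with h4 | h4
    · subst h4
      exact h2 (by ext i; exact i.elim0)
    · subst h4
      rw [pow_one] at h3
      exact h2 h3
  -- dual linear forms
  obtain ⟨L, hL⟩ : ∃ L : Matrix (Fin n) (Fin n) (ZMod ℓ) →ₗ[ZMod ℓ] (Fin d → ZMod ℓ),
      ∀ j, L (N j) = Pi.single j 1 := by
    have hker : LinearMap.ker (Fintype.linearCombination (ZMod ℓ) N) = ⊥ := by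
      rw [LinearMap.ker_eq_bot']
      intro m hm'
      rw [Fintype.linearCombination_apply] at hm'
      exact funext (Fintype.linearIndependent_iff.1 hli m hm')
    obtain ⟨g, hg⟩ := LinearMap.exists_leftInverse_of_injective _ hker
    refine ⟨g, fun j => ?_⟩
    have h3 := congrArg (fun f => f (Pi.single j 1)) hg
    simp only [LinearMap.comp_apply, LinearMap.id_apply, Fintype.linearCombination_apply] at h3
    rw [← h3]
    congr 1
    rw [Finset.sum_eq_single j]
    · simp
    · intro b _ hb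
      simp [hb]
    · simp
  have hLsum : ∀ (i : Fin d) (A : Matrix (Fin n) (Fin n) (ZMod ℓ)),
      L A i = ∑ a, ∑ b, L (Matrix.single a b 1) i * A a b := by
    intro i A
    conv_lhs => rw [matrix_eq_sum_single A]
    rw [map_sum, Finset.sum_apply]
    refine Finset.sum_congr rfl fun a _ => ?_
    rw [map_sum, Finset.sum_apply]
    refine Finset.sum_congr rfl fun b _ => ?_
    have h3 : Matrix.single a b (A a b) = A a b • Matrix.single a b (1 : ZMod ℓ) := by
      rw [Matrix.smul_single, smul_eq_mul, mul_one]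
    rw [h3, map_smul, Pi.smul_apply, smul_eq_mul, mul_comm]
  set φ : Fin d → MvPolynomial (Fin d) (ZMod ℓ) := fun i =>
    ∑ a, ∑ b, C (L (Matrix.single a b 1) i) * (Phi N - 1) a b with hφ
  have hdeg : ∀ i, (φ i).totalDegree ≤ d * n + 1 := by
    intro i
    refine totalDegree_finsetSum_le fun a _ => totalDegree_finsetSum_le fun b _ => ?_
    refine (totalDegree_mul _ _).trans ?_
    rw [totalDegree_C, zero_add, Matrix.sub_apply]
    refine (totalDegree_sub _ _).trans (max_le ?_ ?_)
    · have := prod_deg N (List.finRange d) a b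
      rw [List.length_finRange] at this
      exact this.trans (by omega)
    · rw [Matrix.one_apply]
      split_ifs <;> simp
  have hcoeff : ∀ (m : Fin d →₀ ℕ) (i : Fin d),
      coeff m (φ i) = L ((Phi N - 1).map (coeff m)) i := by
    intro m i
    rw [hLsum]
    simp only [hφ, coeff_sum, coeff_C_mul, Matrix.map_apply]
  have h0 : ∀ i, coeff 0 (φ i) = 0 := by
    intro i
    rw [hcoeff]
    have h3 : (Phi N - 1).map (coeff 0) = 0 := by
      have h4 := prod_c0 N (show 0 < n by omega) (List.finRange d)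
      have h5 : (Phi N - 1).map (coeff 0) =
          c0 (Phi N) - c0 (1 : Matrix (Fin n) (Fin n) (MvPolynomial (Fin d) (ZMod ℓ))) := by
        ext a b
        rfl
      rw [h5, c0_one]
      unfold Phi
      rw [h4, sub_self]
    rw [h3, map_zero, Pi.zero_apply]
  have h1' : ∀ i j, coeff (Finsupp.single j 1) (φ i) = if i = j then 1 else 0 := by
    intro i j
    rw [hcoeff]
    have h5 : (Phi N - 1).map (coeff (Finsupp.single j 1)) = cj j (Phi N) - cj j 1 := by
      ext a b
      rfl
    rw [h5, cj_one, sub_zero, Phi_cj N hn1, hL, Pi.single_apply]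
  have key := hC (ZMod ℓ) d (d * n + 1) (by omega) φ hdeg h0 h1'
  rw [ZMod.card] at key
  have hle : (Set.range fun (t : Fin d → ZMod ℓ) (i : Fin d) => MvPolynomial.eval t (φ i)).ncard ≤
      S.ncard := by
    have hsub : (Set.range fun (t : Fin d → ZMod ℓ) (i : Fin d) => MvPolynomial.eval t (φ i)) ⊆
        (fun A => L (A - 1)) '' S := by
      rintro _ ⟨t, rfl⟩
      refine ⟨(eval t).mapMatrix (Phi N), ?_, ?_⟩
      · unfold Phi
        rw [map_list_prod, List.map_map]
        refine mem_of_list h1 hm _ ?_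
        intro A hA
        obtain ⟨i, -, rfl⟩ := List.mem_map.1 hA
        simp only [Function.comp_apply]
        rw [TT_eval]
        have h3 : t i = ((t i).val : ZMod ℓ) := (ZMod.natCast_zmod_val _).symm
        rw [h3, tex_nat hn.le (hN i) (by omega)]
        exact pow_mem' h1 hm (hS i) _
      · funext i
        simp only
        rw [hLsum]
        simp only [hφ, map_sum, map_mul, eval_C, Matrix.sub_apply, map_sub]
        refine Finset.sum_congr rfl fun a _ => Finset.sum_congr rfl fun b _ => ?_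
        congr 2
        rw [Matrix.one_apply, Matrix.one_apply]
        split_ifs <;> simp
    exact (Set.ncard_le_ncard hsub ((Set.toFinite S).image _)).trans (Set.ncard_image_le (Set.toFinite S))
  calc ℓ ^ d ≤ ((d * n + 1) ^ d * d.factorial) * ((ℓ - 1) / (d * n + 1) + d).choose d :=
        count (by omega) hp.1.pos
    _ ≤ ((d * n + 1) ^ d * d.factorial) * S.ncard := Nat.mul_le_mul_left _ (key.trans hle)

end Pool.Agent.T2H36.IX
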