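import Pool.Agent.T2H36.IX.K
import Pool.Agent.T2H36.IX.E

set_option autoImplicit false
set_option linter.unusedSectionVars false

/-!
Project IX, assembly, part 1: the truncated exponential is injective, and every unipotent matrix
is an exponential.
-/

open Matrix Polynomial

namespace Pool.Agent.T2H36.IX

open PK (exists_P log_exp aeval_EE EE X_dvd_EE)
open PE (tex_add tex_nat)

variable {ℓ : ℕ} [hp : Fact ℓ.Prime] {n : ℕ}

/-- the logarithm as a polynomial -/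
theorem exists_log (hn : n < ℓ) : ∃ L : (ZMod ℓ)[X], ∀ N : Matrix (Fin n) (Fin n) (ZMod ℓ),
    N ^ n = 0 → aeval (tex N - 1) L = N := by
  obtain ⟨P, hP⟩ := exists_P ℓ
  refine ⟨P.map (Int.castRingHom (ZMod ℓ)), fun N hN => ?_⟩
  obtain ⟨Q, hQ⟩ := log_exp hP hn
  have h1 := congrArg (aeval N) hQ
  rw [map_sub, aeval_X, map_mul, map_pow, aeval_X, hN, zero_mul, aeval_comp, map_sub, map_one,
    aeval_EE] at h1
  exact sub_eq_zero.1 h1

theorem tex_inj (hn : n < ℓ) {N N' : Matrix (Fin n) (Fin n) (ZMod ℓ)} (hN : N ^ n = 0)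
    (hN' : N' ^ n = 0) (h : tex N = tex N') : N = N' := by
  obtain ⟨L, hL⟩ := exists_log hn (n := n) (ℓ := ℓ)
  rw [← hL N hN, ← hL N' hN', h]

theorem tex_zero' (hn0 : 0 < n) : tex (0 : Matrix (Fin n) (Fin n) (ZMod ℓ)) = 1 := by
  unfold tex
  obtain ⟨k, rfl⟩ : ∃ k, n = k + 1 := ⟨n - 1, by omega⟩
  rw [Finset.sum_range_succ']
  simp

theorem tex_neg_mul (hn : n ≤ ℓ) (hn0 : 0 < n) {N : Matrix (Fin n) (Fin n) (ZMod ℓ)}
    (hN : N ^ n = 0) : tex (-N) * tex N = 1 := by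
  have h1 := tex_add hn hN (-1) 1
  rw [one_smul, neg_one_smul, neg_add_cancel, zero_smul, tex_zero' hn0] at h1
  exact h1

/-- `tex` and conjugation -/
theorem tex_conj {A A' : Matrix (Fin n) (Fin n) (ZMod ℓ)} (h : A' * A = 1)
    (N : Matrix (Fin n) (Fin n) (ZMod ℓ)) : tex (A * N * A') = A * tex N * A' := by
  have hpow : ∀ k, (A * N * A') ^ k = A * N ^ k * A' := by
    intro k
    induction k with
    | zero => rw [pow_zero, pow_zero, mul_one, mul_eq_one_comm.1 h]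
    | succ k ih =>
      rw [pow_succ, ih, pow_succ]
      calc A * N ^ k * A' * (A * N * A') = A * N ^ k * (A' * A) * N * A' := by simp only [mul_assoc]
        _ = _ := by rw [h, mul_one]; simp only [mul_assoc]
  unfold tex
  rw [Finset.mul_sum, Finset.sum_mul]
  refine Finset.sum_congr rfl fun k _ => ?_
  rw [hpow, mul_smul_comm, smul_mul_assoc]

theorem conj_pow_zero {A A' : Matrix (Fin n) (Fin n) (ZMod ℓ)} (h : A' * A = 1)
    {N : Matrix (Fin n) (Fin n) (ZMod ℓ)} (hN : N ^ n = 0) : (A * N * A') ^ n = 0 := by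
  have hpow : ∀ k, (A * N * A') ^ k = A * N ^ k * A' := by
    intro k
    induction k with
    | zero => rw [pow_zero, pow_zero, mul_one, mul_eq_one_comm.1 h]
    | succ k ih =>
      rw [pow_succ, ih, pow_succ]
      calc A * N ^ k * A' * (A * N * A') = A * N ^ k * (A' * A) * N * A' := by simp only [mul_assoc]
        _ = _ := by rw [h, mul_one]; simp only [mul_assoc]
  rw [hpow, hN, mul_zero, zero_mul]

theorem tex_transpose (N : Matrix (Fin n) (Fin n) (ZMod ℓ)) : tex Nᵀ = (tex N)ᵀ := by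
  unfold tex
  rw [transpose_sum]
  refine Finset.sum_congr rfl fun k _ => ?_
  rw [transpose_smul, transpose_pow]

/-- the logarithm of an isometry is in the Lie algebra -/
theorem log_lie (hn : n < ℓ) (hn0 : 0 < n) {B N : Matrix (Fin n) (Fin n) (ZMod ℓ)}
    (hdet : B.det ≠ 0) (hN : N ^ n = 0) (h : (tex N)ᵀ * B * tex N = B) : Nᵀ * B + B * N = 0 := by
  have hBu : IsUnit B.det := isUnit_iff_ne_zero.2 hdet
  have h1 : B * B⁻¹ = 1 := Matrix.mul_nonsing_inv _ hBu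
  have h2 : B⁻¹ * B = 1 := Matrix.nonsing_inv_mul _ hBu
  have hNT : (Nᵀ) ^ n = 0 := by rw [← transpose_pow, hN, transpose_zero]
  have hNT' : (-Nᵀ) ^ n = 0 := by rw [neg_pow, hNT, mul_zero]
  have h3 : tex (B⁻¹ * (-Nᵀ) * B) = tex N := by
    rw [tex_conj h1]
    have h4 : tex (-Nᵀ) * tex Nᵀ = 1 := tex_neg_mul hn.le hn0 hNT
    calc B⁻¹ * tex (-Nᵀ) * B = B⁻¹ * tex (-Nᵀ) * ((tex N)ᵀ * B * tex N) := by rw [h]
      _ = B⁻¹ * (tex (-Nᵀ) * (tex N)ᵀ) * B * tex N := by simp only [mul_assoc]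
      _ = tex N := by rw [← tex_transpose, h4, mul_one, h2, one_mul]
  have h5 := tex_inj hn (conj_pow_zero h1 hNT') hN h3
  have h6 : B * N = -Nᵀ * B := by
    conv_lhs => rw [← h5]
    rw [← mul_assoc, ← mul_assoc, h1, one_mul]
  rw [h6, neg_mul, add_neg_cancel]

/-- every unipotent matrix is an exponential -/
theorem tex_surj (hn : n < ℓ) (hn0 : 0 < n) {x : Matrix (Fin n) (Fin n) (ZMod ℓ)}
    (hx : (x - 1) ^ n = 0) : ∃ N : Matrix (Fin n) (Fin n) (ZMod ℓ), N ^ n = 0 ∧ tex N = x := by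
  classical
  obtain ⟨m, rfl⟩ : ∃ m, n = m + 1 := ⟨n - 1, by omega⟩
  set Y := x - 1 with hY
  let S : Set (Matrix (Fin (m + 1)) (Fin (m + 1)) (ZMod ℓ)) :=
    {N | ∃ p : (ZMod ℓ)[X], N = aeval Y (X * p)}
  have hSn : ∀ N ∈ S, N ^ (m + 1) = 0 := by
    rintro N ⟨p, rfl⟩
    rw [← map_pow, mul_pow, map_mul, map_pow, aeval_X, hx, zero_mul]
  obtain ⟨q, hq⟩ := X_dvd_EE (ℓ := ℓ) (n := m)
  have hSt : ∀ N ∈ S, tex N - 1 ∈ S := by
    rintro N ⟨p, hN⟩
    refine ⟨p * q.comp (X * p), ?_⟩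
    have h1 : tex N - 1 = aeval N (EE ℓ (m + 1) - 1) := by
      rw [map_sub, map_one, aeval_EE]
      rfl
    rw [h1, hq, hN, ← aeval_comp, mul_comp, X_comp, mul_assoc]
  let Φ : S → S := fun N => ⟨tex N.1 - 1, hSt N.1 N.2⟩
  have hΦ : Function.Injective Φ := by
    intro a b hab
    have h1 : tex a.1 - 1 = tex b.1 - 1 := congrArg Subtype.val hab
    exact Subtype.ext (tex_inj hn (hSn _ a.2) (hSn _ b.2) (sub_left_inj.1 h1))
  have hfin : Finite S := Set.toFinite S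
  have hsurj : Function.Surjective Φ := Finite.injective_iff_surjective.1 hΦ
  obtain ⟨N, hN⟩ := hsurj ⟨Y, ⟨1, by rw [mul_one, aeval_X]⟩⟩
  refine ⟨N.1, hSn _ N.2, ?_⟩
  have h1 : tex N.1 - 1 = Y := congrArg Subtype.val hN
  rw [hY] at h1
  exact sub_left_inj.1 h1

end Pool.Agent.T2H36.IX
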