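import Mathlib
import Pool.Agent.T2H36.IX.Defs

/-!
Package L: lifting of representations of finite groups of order prime to `ℓ` to the `ℓ`-adic
integers, by successive approximation.
-/

open Matrix Filter
open scoped Topology

namespace Pool.Agent.T2H36.IX

namespace Lft

variable {ℓ : ℕ} [Fact ℓ.Prime] {n : ℕ}

/-- divisibility of a matrix by `ℓ ^ k` -/
def dv (k : ℕ) (X : Matrix (Fin n) (Fin n) ℤ_[ℓ]) : Prop := ∃ Y, X = ((ℓ : ℤ_[ℓ]) ^ k) • Y

theorem dv_add {k : ℕ} {X Y : Matrix (Fin n) (Fin n) ℤ_[ℓ]} (hX : dv k X) (hY : dv k Y) :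
    dv k (X + Y) := by
  obtain ⟨a, rfl⟩ := hX
  obtain ⟨b, rfl⟩ := hY
  exact ⟨a + b, by rw [smul_add]⟩

theorem dv_neg {k : ℕ} {X : Matrix (Fin n) (Fin n) ℤ_[ℓ]} (hX : dv k X) : dv k (-X) := by
  obtain ⟨a, rfl⟩ := hX
  exact ⟨-a, by rw [smul_neg]⟩

theorem dv_sub {k : ℕ} {X Y : Matrix (Fin n) (Fin n) ℤ_[ℓ]} (hX : dv k X) (hY : dv k Y) :
    dv k (X - Y) := by
  rw [sub_eq_add_neg]
  exact dv_add hX (dv_neg hY)

theorem dv_mul_left {k : ℕ} {X : Matrix (Fin n) (Fin n) ℤ_[ℓ]} (Y : Matrix (Fin n) (Fin n) ℤ_[ℓ])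
    (hX : dv k X) : dv k (Y * X) := by
  obtain ⟨a, rfl⟩ := hX
  exact ⟨Y * a, by rw [Matrix.mul_smul]⟩

theorem dv_mul_right {k : ℕ} {X : Matrix (Fin n) (Fin n) ℤ_[ℓ]}
    (Y : Matrix (Fin n) (Fin n) ℤ_[ℓ]) (hX : dv k X) : dv k (X * Y) := by
  obtain ⟨a, rfl⟩ := hX
  exact ⟨a * Y, by rw [Matrix.smul_mul]⟩

theorem dv_smul {k : ℕ} {X : Matrix (Fin n) (Fin n) ℤ_[ℓ]} (c : ℤ_[ℓ]) (hX : dv k X) :
    dv k (c • X) := by
  obtain ⟨a, rfl⟩ := hX
  exact ⟨c • a, by rw [smul_comm]⟩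

theorem dv_mul {k j : ℕ} {X Y : Matrix (Fin n) (Fin n) ℤ_[ℓ]} (hX : dv k X) (hY : dv j Y) :
    dv (k + j) (X * Y) := by
  obtain ⟨a, rfl⟩ := hX
  obtain ⟨b, rfl⟩ := hY
  exact ⟨a * b, by rw [Matrix.smul_mul, Matrix.mul_smul, smul_smul, pow_add]⟩

theorem dv_sum {ι : Type} (s : Finset ι) {k : ℕ} {X : ι → Matrix (Fin n) (Fin n) ℤ_[ℓ]}
    (hX : ∀ i, dv k (X i)) : dv k (∑ i ∈ s, X i) := by
  classical
  induction s using Finset.induction_on with
  | empty => exact ⟨0, by simp⟩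
  | insert a s ha ih => rw [Finset.sum_insert ha]; exact dv_add (hX a) ih

theorem dv_mono {k j : ℕ} (h : j ≤ k) {X : Matrix (Fin n) (Fin n) ℤ_[ℓ]} (hX : dv k X) :
    dv j X := by
  obtain ⟨a, rfl⟩ := hX
  refine ⟨((ℓ : ℤ_[ℓ]) ^ (k - j)) • a, ?_⟩
  rw [smul_smul, ← pow_add, Nat.add_sub_of_le h]

theorem toZMod_eq_zero_iff (x : ℤ_[ℓ]) : PadicInt.toZMod x = 0 ↔ ‖x‖ < 1 := by
  rw [← RingHom.mem_ker, PadicInt.ker_toZMod, IsLocalRing.mem_maximalIdeal, PadicInt.mem_nonunits]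

theorem isUnit_iff_toZMod (x : ℤ_[ℓ]) : IsUnit x ↔ PadicInt.toZMod x ≠ 0 := by
  rw [Ne, toZMod_eq_zero_iff, PadicInt.isUnit_iff]
  have := PadicInt.norm_le_one x
  constructor
  · intro h h'; linarith
  · intro h; exact le_antisymm this (not_lt.1 h)

theorem dv_one_iff (X : Matrix (Fin n) (Fin n) ℤ_[ℓ]) : dv 1 X ↔ red ℓ X = 0 := by
  constructor
  · rintro ⟨a, rfl⟩
    ext i j
    simp [red, Matrix.map_apply]
  · intro h
    have h1 : ∀ i j, ∃ y, X i j = (ℓ : ℤ_[ℓ]) * y := by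
      intro i j
      have h2 : PadicInt.toZMod (X i j) = 0 := by
        have := congrFun (congrFun h i) j
        simpa [red, Matrix.map_apply] using this
      exact (PadicInt.norm_lt_one_iff_dvd _).1 ((toZMod_eq_zero_iff _).1 h2)
    choose y hy using h1
    refine ⟨fun i j => y i j, ?_⟩
    ext i j
    rw [pow_one, Matrix.smul_apply, smul_eq_mul]
    exact hy i j

theorem red_sub (A B : Matrix (Fin n) (Fin n) ℤ_[ℓ]) : red ℓ (A - B) = red ℓ A - red ℓ B :=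
  Matrix.map_sub _ (fun a b => map_sub _ a b) A B

theorem mtend {S : ℕ → Matrix (Fin n) (Fin n) ℤ_[ℓ]} {F : Matrix (Fin n) (Fin n) ℤ_[ℓ]}
    (h : ∀ i j, Tendsto (fun k => S k i j) atTop (𝓝 (F i j))) : Tendsto S atTop (𝓝 F) :=
  tendsto_pi_nhds.2 fun i => tendsto_pi_nhds.2 fun j => h i j

theorem norm_le_of_dv {k : ℕ} {X : Matrix (Fin n) (Fin n) ℤ_[ℓ]} (h : dv k X) (i j : Fin n) :
    ‖X i j‖ ≤ ((ℓ : ℝ)⁻¹) ^ k := by
  obtain ⟨a, rfl⟩ := h
  rw [Matrix.smul_apply, smul_eq_mul, norm_mul, norm_pow, PadicInt.norm_p]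
  exact mul_le_of_le_one_right (by positivity) (PadicInt.norm_le_one _)

variable {G : Type} [Group G] [Fintype G]

/-- one step of the approximation -/
noncomputable def st (u : ℤ_[ℓ]) (F : G → Matrix (Fin n) (Fin n) ℤ_[ℓ]) (g : G) :
    Matrix (Fin n) (Fin n) ℤ_[ℓ] := u • ∑ h, F (g * h) * (F h)⁻¹

/-- approximate homomorphisms -/
structure App (f : G →* Matrix (Fin n) (Fin n) (ZMod ℓ)) (k : ℕ)
    (F : G → Matrix (Fin n) (Fin n) ℤ_[ℓ]) : Prop where
  lift : ∀ g, red ℓ (F g) = f g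
  mul : ∀ g h, dv k (F g * F h - F (g * h))

theorem red_mul (A B : Matrix (Fin n) (Fin n) ℤ_[ℓ]) : red ℓ (A * B) = red ℓ A * red ℓ B :=
  Matrix.map_mul

theorem unit_det {f : G →* Matrix (Fin n) (Fin n) (ZMod ℓ)}
    {F : G → Matrix (Fin n) (Fin n) ℤ_[ℓ]} (hF : ∀ g, red ℓ (F g) = f g) (g : G) :
    IsUnit (F g).det := by
  rw [isUnit_iff_toZMod]
  have h1 : PadicInt.toZMod (F g).det = (f g).det := by
    rw [← hF g]
    exact RingHom.map_det (PadicInt.toZMod : ℤ_[ℓ] →+* ZMod ℓ) (F g)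
  rw [h1]
  have h2 : f g * f g⁻¹ = 1 := by rw [← map_mul, mul_inv_cancel, map_one]
  have h3 := congrArg Matrix.det h2
  rw [Matrix.det_mul, Matrix.det_one] at h3
  exact left_ne_zero_of_mul_eq_one h3

theorem step {f : G →* Matrix (Fin n) (Fin n) (ZMod ℓ)} {k : ℕ} (hk : 1 ≤ k)
    {F : G → Matrix (Fin n) (Fin n) ℤ_[ℓ]} (hF : App f k F) {u : ℤ_[ℓ]}
    (hu : u * (Fintype.card G : ℤ_[ℓ]) = 1) :
    App f (k + 1) (st u F) ∧ ∀ g, dv k (st u F g - F g) := by
  have hinv : ∀ g, F g * (F g)⁻¹ = 1 := fun g => Matrix.mul_nonsing_inv _ (unit_det hF.lift g)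
  have hinv' : ∀ g, (F g)⁻¹ * F g = 1 := fun g => Matrix.nonsing_inv_mul _ (unit_det hF.lift g)
  obtain ⟨E, hE⟩ : ∃ E : G → G → Matrix (Fin n) (Fin n) ℤ_[ℓ],
      ∀ g h, E g h = F g * F h - F (g * h) := ⟨_, fun _ _ => rfl⟩
  have hEd : ∀ g h, dv k (E g h) := fun g h => by rw [hE]; exact hF.mul g h
  obtain ⟨D, hD⟩ : ∃ D : G → Matrix (Fin n) (Fin n) ℤ_[ℓ],
      ∀ g, D g = u • ∑ h, E g h * (F h)⁻¹ := ⟨_, fun _ => rfl⟩
  have hDd : ∀ g, dv k (D g) := fun g => by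
    rw [hD]
    exact dv_smul _ (dv_sum _ fun h => dv_mul_right _ (hEd g h))
  have hcst : ∀ X : Matrix (Fin n) (Fin n) ℤ_[ℓ], u • ∑ _h : G, X = X := by
    intro X
    rw [Finset.sum_const, Finset.card_univ, ← Nat.cast_smul_eq_nsmul ℤ_[ℓ], smul_smul, hu,
      one_smul]
  have hst : ∀ g, st u F g = F g - D g := by
    intro g
    have e1 : ∀ h, F (g * h) * (F h)⁻¹ = F g - E g h * (F h)⁻¹ := by
      intro h
      rw [hE, sub_mul, mul_assoc, hinv, mul_one]
      abel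
    unfold st
    simp only [e1]
    rw [Finset.sum_sub_distrib, smul_sub, hcst, ← hD]
  have hdiff : ∀ g, dv k (st u F g - F g) := by
    intro g
    rw [hst]
    have : F g - D g - F g = -D g := by abel
    rw [this]
    exact dv_neg (hDd g)
  refine ⟨⟨fun g => ?_, fun g h => ?_⟩, hdiff⟩
  · have h1 := (dv_one_iff _).1 (dv_mono hk (hdiff g))
    rw [red_sub, sub_eq_zero] at h1
    rw [h1]
    exact hF.lift g
  · -- the cocycle identity
    have hcoc : ∀ v, E (g * h) v + E g h * F v = E g (h * v) + F g * E h v := by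
      intro v
      rw [hE, hE, hE, hE, mul_assoc g h v]
      noncomm_ring
    have hDgh : D (g * h) = u • ∑ v, (E g (h * v) * (F v)⁻¹ + F g * E h v * (F v)⁻¹ - E g h) := by
      rw [hD]
      congr 1
      refine Finset.sum_congr rfl fun v _ => ?_
      have e1 : E (g * h) v = E g (h * v) + F g * E h v - E g h * F v := by
        rw [← hcoc v]; abel
      rw [e1, sub_mul, add_mul, mul_assoc (E g h), hinv, mul_one]
    have hDg : dv (k + 1) (D g * F h - u • ∑ v, E g (h * v) * (F v)⁻¹) := by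
      have e1 : D g = u • ∑ v, E g (h * v) * (F (h * v))⁻¹ := by
        rw [hD, ← Equiv.sum_comp (Equiv.mulLeft h) (fun w => E g w * (F w)⁻¹)]
        rfl
      rw [e1, Matrix.smul_mul, ← smul_sub, Finset.sum_mul, ← Finset.sum_sub_distrib]
      refine dv_smul _ (dv_sum _ fun v => ?_)
      have e2 : E g (h * v) * (F (h * v))⁻¹ * F h - E g (h * v) * (F v)⁻¹ =
          E g (h * v) * ((F (h * v))⁻¹ * E h v * (F v)⁻¹) := by
        have e3 : (F (h * v))⁻¹ * E h v * (F v)⁻¹ = (F (h * v))⁻¹ * F h - (F v)⁻¹ := by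
          rw [hE, mul_sub, sub_mul, hinv', one_mul, ← mul_assoc, mul_assoc _ (F v), hinv,
            mul_one]
        rw [e3]
        noncomm_ring
      rw [e2]
      refine dv_mono (by omega : k + 1 ≤ k + k) (dv_mul (hEd _ _) ?_)
      exact dv_mul_right _ (dv_mul_left _ (hEd _ _))
    have hDh : F g * D h = u • ∑ v, F g * E h v * (F v)⁻¹ := by
      rw [hD, Matrix.mul_smul, Finset.mul_sum]
      simp only [mul_assoc]
    have hsplit : u • ∑ v, (E g (h * v) * (F v)⁻¹ + F g * E h v * (F v)⁻¹ - E g h) =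
        u • (∑ v, E g (h * v) * (F v)⁻¹) + u • (∑ v, F g * E h v * (F v)⁻¹) - E g h := by
      rw [Finset.sum_sub_distrib, Finset.sum_add_distrib, smul_sub, smul_add, hcst]
    have e5 : st u F g * st u F h - st u F (g * h) =
        -(D g * F h - u • ∑ v, E g (h * v) * (F v)⁻¹) + D g * D h := by
      rw [hst, hst, hst, hDgh, hsplit, ← hDh]
      have e6 : F g * F h = E g h + F (g * h) := by rw [hE]; abel
      have e7 : (F g - D g) * (F h - D h) = F g * F h - F g * D h - D g * F h + D g * D h := by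
        noncomm_ring
      rw [e7, e6]
      abel
    rw [e5]
    exact dv_add (dv_neg hDg) (dv_mono (by omega) (dv_mul (hDd g) (hDd h)))

end Lft

open Lft

theorem l_stmt : LStmt := by
  intro ℓ hℓ n G _ _ f hcop
  have hfin : Fintype G := Fintype.ofFinite G
  have hcard : Nat.card G = Fintype.card G := Nat.card_eq_fintype_card
  rw [hcard] at hcop
  -- the inverse of the order
  obtain ⟨u, hu⟩ : ∃ u : ℤ_[ℓ], u * (Fintype.card G : ℤ_[ℓ]) = 1 := by
    have h1 : IsUnit (Fintype.card G : ℤ_[ℓ]) := by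
      rw [isUnit_iff_toZMod, map_natCast, Ne, ZMod.natCast_eq_zero_iff]
      intro h
      have := Nat.Coprime.eq_one_of_dvd hcop.symm h
      exact hℓ.out.one_lt.ne' this
    obtain ⟨v, hv⟩ := h1
    exact ⟨((v⁻¹ : ℤ_[ℓ]ˣ) : ℤ_[ℓ]), by rw [← hv, Units.inv_mul]⟩
  -- the first lift
  obtain ⟨F0, hF0⟩ : ∃ F0 : G → Matrix (Fin n) (Fin n) ℤ_[ℓ], App f 1 F0 := by
    have h1 : ∀ g : G, ∀ i j, ∃ x : ℤ_[ℓ], PadicInt.toZMod x = f g i j := by
      intro g i j
      refine ⟨((f g i j).val : ℤ_[ℓ]), ?_⟩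
      rw [map_natCast, ZMod.natCast_zmod_val]
    choose x hx using h1
    have h2 : ∀ g, red ℓ (fun i j => x g i j : Matrix (Fin n) (Fin n) ℤ_[ℓ]) = f g := by
      intro g
      ext i j
      exact hx g i j
    refine ⟨fun g => (fun i j => x g i j : Matrix (Fin n) (Fin n) ℤ_[ℓ]), h2, fun g h => ?_⟩
    rw [dv_one_iff, red_sub, sub_eq_zero, red_mul, h2, h2, h2, map_mul]
  -- the sequence
  obtain ⟨S, hS⟩ : ∃ S : ℕ → G → Matrix (Fin n) (Fin n) ℤ_[ℓ], S = fun k => (st u)^[k] F0 :=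
    ⟨_, rfl⟩
  have hSs : ∀ k, S (k + 1) = st u (S k) := by
    intro k
    rw [hS]
    simp only [Function.iterate_succ_apply']
  have hApp : ∀ k, App f (k + 1) (S k) := by
    intro k
    induction k with
    | zero => rw [hS]; exact hF0
    | succ k ih => rw [hSs]; exact (step (by omega) ih hu).1
  have hdif : ∀ k g, dv (k + 1) (S (k + 1) g - S k g) := by
    intro k g
    rw [hSs]
    exact (step (by omega) (hApp k) hu).2 g
  have hl1 : ((ℓ : ℝ)⁻¹) < 1 := by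
    have : (1 : ℝ) < ℓ := by exact_mod_cast hℓ.out.one_lt
    exact inv_lt_one_of_one_lt₀ this
  have hl0 : 0 ≤ ((ℓ : ℝ)⁻¹) := by positivity
  -- convergence
  have hcau : ∀ g i j, ∃ y : ℤ_[ℓ], Tendsto (fun k => S k g i j) atTop (𝓝 y) := by
    intro g i j
    refine cauchySeq_tendsto_of_complete (cauchySeq_of_le_geometric ((ℓ : ℝ)⁻¹) 1 hl1 fun k => ?_)
    rw [dist_comm, dist_eq_norm, one_mul]
    have h1 := norm_le_of_dv (hdif k g) i j
    rw [Matrix.sub_apply] at h1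
    refine h1.trans ?_
    exact pow_le_pow_of_le_one hl0 hl1.le (Nat.le_succ k)
  choose y hy using hcau
  obtain ⟨F, hF⟩ : ∃ F : G → Matrix (Fin n) (Fin n) ℤ_[ℓ], ∀ g i j, F g i j = y g i j :=
    ⟨fun g => Matrix.of fun i j => y g i j, fun _ _ _ => rfl⟩
  have hlim : ∀ g, Tendsto (fun k => S k g) atTop (𝓝 (F g)) := by
    intro g
    refine mtend fun i j => ?_
    rw [hF]
    exact hy g i j
  have hzero : Tendsto (fun k : ℕ => ((ℓ : ℝ)⁻¹) ^ (k + 1)) atTop (𝓝 0) :=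
    (tendsto_pow_atTop_nhds_zero_of_lt_one hl0 hl1).comp (tendsto_add_atTop_nat 1)
  have hmul : ∀ g h, F (g * h) = F g * F h := by
    intro g h
    have h1 : Tendsto (fun k => S k g * S k h - S k (g * h)) atTop
        (𝓝 (F g * F h - F (g * h))) := ((hlim g).mul (hlim h)).sub (hlim (g * h))
    have h2 : Tendsto (fun k => S k g * S k h - S k (g * h)) atTop (𝓝 0) := by
      refine mtend fun i j => ?_
      rw [Matrix.zero_apply, tendsto_zero_iff_norm_tendsto_zero]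
      exact squeeze_zero (fun k => norm_nonneg _)
        (fun k => norm_le_of_dv ((hApp k).mul g h) i j) hzero
    exact (sub_eq_zero.1 (tendsto_nhds_unique h1 h2)).symm
  have hred : ∀ g, red ℓ (F g) = f g := by
    intro g
    rw [← (hApp 0).lift g, ← sub_eq_zero]
    have h0 : ∀ k, dv 1 (S k g - S 0 g) := by
      intro k
      rw [dv_one_iff, red_sub, sub_eq_zero]
      exact ((hApp k).lift g).trans ((hApp 0).lift g).symm
    ext i j
    have h1 : Tendsto (fun k => ‖(S k g - S 0 g) i j‖) atTop (𝓝 ‖(F g - S 0 g) i j‖) := by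
      refine Tendsto.norm ?_
      simp only [Matrix.sub_apply, hF]
      exact (hy g i j).sub_const _
    have h2 : ‖(F g - S 0 g) i j‖ ≤ ((ℓ : ℝ)⁻¹) ^ 1 :=
      le_of_tendsto h1 (Eventually.of_forall fun k => norm_le_of_dv (h0 k) i j)
    rw [pow_one] at h2
    have h3 := (toZMod_eq_zero_iff _).2 (lt_of_le_of_lt h2 hl1)
    rw [Matrix.sub_apply, map_sub] at h3
    exact h3
  have hone : F 1 = 1 := by
    have h1 := hmul 1 1
    rw [mul_one] at h1
    have h2 := unit_det (f := f) hred 1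
    have h3 : F 1 * (F 1)⁻¹ = 1 := Matrix.mul_nonsing_inv _ h2
    calc F 1 = F 1 * (F 1 * (F 1)⁻¹) := by rw [h3, mul_one]
      _ = (F 1 * F 1) * (F 1)⁻¹ := by rw [mul_assoc]
      _ = 1 := by rw [← h1, h3]
  exact ⟨{ toFun := F, map_one' := hone, map_mul' := hmul }, hred⟩

end Pool.Agent.T2H36.IX
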