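import Pool.Agent.T2H36.IX.J
import Pool.Agent.T2H36.IX.L
import Pool.Agent.W435.PG.SQR

set_option autoImplicit false
set_option linter.unusedSectionVars false

/-!
Project IX, assembly, part 2: a group of matrices modulo `ℓ` such that subgroups of bounded index
have scalar commutants has order divisible by `ℓ`.
-/

open Matrix Polynomial

namespace Pool.Agent.T2H36.IX

section descent

variable {E K : Type} [Field E] [Field K] [Algebra E K] {n : ℕ}

/-- the commutant is defined over the base field -/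
theorem commutant_descent {X : Matrix (Fin n) (Fin n) K} (hX : ∀ c : K, X ≠ c • 1) (hn : 0 < n) :
    ∃ X' : Matrix (Fin n) (Fin n) E, (∀ c : E, X' ≠ c • 1) ∧
      ∀ A : Matrix (Fin n) (Fin n) E, A.map (algebraMap E K) * X = X * A.map (algebraMap E K) →
        A * X' = X' * A := by
  classical
  -- a functional which detects that `X` is not scalar
  have h1 : ∃ φ : K →ₗ[E] E, (∃ i j, i ≠ j ∧ φ (X i j) ≠ 0) ∨ ∃ i j, φ (X i i) ≠ φ (X j j) := by
    have hex : ∀ x : K, x ≠ 0 → ∃ φ : K →ₗ[E] E, φ x ≠ 0 := by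
      intro x hx
      have h2 : x ∉ (⊥ : Submodule E K) := by rwa [Submodule.mem_bot]
      obtain ⟨φ, hφ, -⟩ := Submodule.exists_le_ker_of_notMem h2
      exact ⟨φ, hφ⟩
    by_cases h2 : ∃ i j, i ≠ j ∧ X i j ≠ 0
    · obtain ⟨i, j, hij, h3⟩ := h2
      obtain ⟨φ, hφ⟩ := hex _ h3
      exact ⟨φ, Or.inl ⟨i, j, hij, hφ⟩⟩
    · push Not at h2
      by_cases h3 : ∃ i j, X i i ≠ X j j
      · obtain ⟨i, j, hij⟩ := h3
        obtain ⟨φ, hφ⟩ := hex _ (sub_ne_zero.2 hij)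
        refine ⟨φ, Or.inr ⟨i, j, fun h4 => hφ ?_⟩⟩
        rw [map_sub, h4, sub_self]
      · push Not at h3
        exfalso
        apply hX (X ⟨0, hn⟩ ⟨0, hn⟩)
        ext i j
        rw [Matrix.smul_apply, Matrix.one_apply, smul_eq_mul]
        by_cases hij : i = j
        · subst hij
          rw [if_pos rfl, mul_one]
          exact h3 _ _
        · rw [if_neg hij, mul_zero]
          exact h2 i j hij
  obtain ⟨φ, hφ⟩ := h1
  refine ⟨X.map φ, ?_, ?_⟩
  · intro c hc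
    have h2 : ∀ i j, φ (X i j) = if i = j then c else 0 := by
      intro i j
      have h3 := congrFun (congrFun hc i) j
      rw [Matrix.map_apply, Matrix.smul_apply, Matrix.one_apply, smul_eq_mul] at h3
      rw [h3]
      split_ifs <;> simp
    rcases hφ with ⟨i, j, hij, h3⟩ | ⟨i, j, h3⟩
    · exact h3 (by rw [h2, if_neg hij])
    · exact h3 (by rw [h2, h2, if_pos rfl, if_pos rfl])
  · intro A hA
    ext i j
    have h2 := congrArg φ (congrFun (congrFun hA i) j)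
    rw [Matrix.mul_apply, Matrix.mul_apply, map_sum, map_sum] at h2
    rw [Matrix.mul_apply, Matrix.mul_apply]
    convert h2 using 1
    · refine Finset.sum_congr rfl fun x _ => ?_
      rw [Matrix.map_apply, Matrix.map_apply, ← Algebra.smul_def, map_smul, smul_eq_mul]
    · refine Finset.sum_congr rfl fun x _ => ?_
      rw [Matrix.map_apply, Matrix.map_apply, mul_comm (X i x), ← Algebra.smul_def, map_smul,
        smul_eq_mul, mul_comm]

end descent

/-- a nonscalar matrix over `ℚ_ℓ` gives one modulo `ℓ` -/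
theorem commutant_red {ℓ : ℕ} [hp : Fact ℓ.Prime] {n : ℕ} (hn : 0 < n)
    {X : Matrix (Fin n) (Fin n) ℚ_[ℓ]} (hX : ∀ c : ℚ_[ℓ], X ≠ c • 1) :
    ∃ X' : Matrix (Fin n) (Fin n) (ZMod ℓ), (∀ c : ZMod ℓ, X' ≠ c • 1) ∧
      ∀ A : Matrix (Fin n) (Fin n) ℤ_[ℓ],
        A.map (algebraMap ℤ_[ℓ] ℚ_[ℓ]) * X = X * A.map (algebraMap ℤ_[ℓ] ℚ_[ℓ]) →
        red ℓ A * X' = X' * red ℓ A := by
  classical
  let o : Fin n := ⟨0, hn⟩
  set Y := X - X o o • (1 : Matrix (Fin n) (Fin n) ℚ_[ℓ]) with hY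
  have hY0 : Y o o = 0 := by
    rw [hY, Matrix.sub_apply, Matrix.smul_apply, Matrix.one_apply_eq, smul_eq_mul, mul_one, sub_self]
  have hYne : Y ≠ 0 := fun h => hX (X o o) (sub_eq_zero.1 h)
  obtain ⟨⟨a, b⟩, -, hmax⟩ := Finset.exists_max_image (Finset.univ : Finset (Fin n × Fin n))
    (fun x => ‖Y x.1 x.2‖) ⟨(o, o), Finset.mem_univ _⟩
  have hab : Y a b ≠ 0 := by
    intro h
    apply hYne
    ext i j
    have h1 := hmax (i, j) (Finset.mem_univ _)
    simp only [h, norm_zero] at h1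
    exact norm_le_zero_iff.1 h1
  have hle : ∀ i j, ‖(Y a b)⁻¹ * Y i j‖ ≤ 1 := by
    intro i j
    rw [norm_mul, norm_inv]
    have h1 := hmax (i, j) (Finset.mem_univ _)
    rw [inv_mul_le_iff₀ (norm_pos_iff.2 hab), mul_one]
    exact h1
  let Z : Matrix (Fin n) (Fin n) ℤ_[ℓ] := Matrix.of fun i j => ⟨(Y a b)⁻¹ * Y i j, hle i j⟩
  have hZ : Z.map (algebraMap ℤ_[ℓ] ℚ_[ℓ]) = (Y a b)⁻¹ • Y := by
    ext i j
    rfl
  refine ⟨red ℓ Z, ?_, ?_⟩
  · intro c hc
    have h1 := congrFun (congrFun hc o) o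
    have h2 : Z o o = 0 := by
      apply Subtype.ext
      show (Y a b)⁻¹ * Y o o = 0
      rw [hY0, mul_zero]
    have h1' : PadicInt.toZMod (Z o o) = c * (1 : Matrix (Fin n) (Fin n) (ZMod ℓ)) o o := h1
    rw [h2, map_zero, Matrix.one_apply_eq, mul_one] at h1'
    have h3 := congrFun (congrFun hc a) b
    have h4 : Z a b = 1 := by
      apply Subtype.ext
      show (Y a b)⁻¹ * Y a b = 1
      rw [inv_mul_cancel₀ hab]
    have h3' : PadicInt.toZMod (Z a b) = c * (1 : Matrix (Fin n) (Fin n) (ZMod ℓ)) a b := h3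
    rw [h4, map_one, ← h1', zero_mul] at h3'
    exact one_ne_zero h3'
  · intro A hA
    have h1 : A.map (algebraMap ℤ_[ℓ] ℚ_[ℓ]) * Y = Y * A.map (algebraMap ℤ_[ℓ] ℚ_[ℓ]) := by
      rw [hY, mul_sub, sub_mul, hA, mul_smul_comm, smul_mul_assoc, mul_one, one_mul]
    have h2 : A * Z = Z * A := by
      have hinj : Function.Injective (algebraMap ℤ_[ℓ] ℚ_[ℓ]) := Subtype.val_injective
      apply Matrix.map_injective hinj
      show (A * Z).map (algebraMap ℤ_[ℓ] ℚ_[ℓ]) = (Z * A).map (algebraMap ℤ_[ℓ] ℚ_[ℓ])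
      rw [Matrix.map_mul, Matrix.map_mul, hZ, mul_smul_comm, smul_mul_assoc, h1]
    rw [← Lft.red_mul, ← Lft.red_mul, h2]

/-- the composition of a representation with the embedding in the complex numbers -/
noncomputable def toC {ℓ : ℕ} [Fact ℓ.Prime] (e : ℚ_[ℓ] →+* ℂ) {n : ℕ} {Q : Type} [Group Q]
    (F : Q →* Matrix (Fin n) (Fin n) ℤ_[ℓ]) : Q →* Matrix (Fin n) (Fin n) ℂ where
  toFun g := ((F g).map (algebraMap ℤ_[ℓ] ℚ_[ℓ])).map e
  map_one' := by
    rw [map_one, Matrix.map_one _ (map_zero _) (map_one _),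
      Matrix.map_one _ (map_zero _) (map_one _)]
  map_mul' := by
    intro a b
    rw [map_mul, Matrix.map_mul, Matrix.map_mul]

/-- the case of a finite group -/
theorem ell_dvd_finite {n J : ℕ} (hn : 2 ≤ n)
    (hJ : ∀ (G : Type) [Group G] [Finite G] (f : G →* Matrix (Fin n) (Fin n) ℂ),
      ∃ (U : Subgroup G) (X : Matrix (Fin n) (Fin n) ℂ), U.index ≤ J ∧
      (∀ g ∈ U, f g * X = X * f g) ∧ ∀ c : ℂ, X ≠ c • (1 : Matrix (Fin n) (Fin n) ℂ))
    (ℓ : ℕ) [Fact ℓ.Prime] (Q : Type) [Group Q] [Finite Q] (f : Q →* Matrix (Fin n) (Fin n) (ZMod ℓ))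
    (hf : ∀ U : Subgroup Q, U.index ≤ J → ∀ X : Matrix (Fin n) (Fin n) (ZMod ℓ),
      (∀ g ∈ U, f g * X = X * f g) → ∃ c : ZMod ℓ, X = c • 1) :
    ℓ ∣ Nat.card Q := by
  by_contra hdvd
  have hcop : (Nat.card Q).Coprime ℓ :=
    ((Nat.Prime.coprime_iff_not_dvd (Fact.out : ℓ.Prime)).2 hdvd).symm
  obtain ⟨F, hF⟩ := l_stmt ℓ n Q f hcop
  obtain ⟨e⟩ := _root_.W435.PG.emb ℓ
  obtain ⟨U, X, hU, hUX, hX⟩ := hJ Q (toC e F)
  let _ : Algebra ℚ_[ℓ] ℂ := e.toAlgebra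
  obtain ⟨X₁, hX₁, hX₁c⟩ := commutant_descent (E := ℚ_[ℓ]) hX (by omega)
  obtain ⟨X₂, hX₂, hX₂c⟩ := commutant_red (by omega) hX₁
  obtain ⟨c, hc⟩ := hf U hU X₂ (by
    intro g hg
    have h1 := hUX g hg
    have h2 := hX₂c _ (hX₁c _ h1)
    rw [hF] at h2
    exact h2)
  exact hX₂ c hc

/-- **the order is divisible by `ℓ`** -/
theorem ell_dvd (n : ℕ) (hn : 2 ≤ n) : ∃ J : ℕ, ∀ (ℓ : ℕ) [Fact ℓ.Prime] (G : Type) [Group G]
    (f : G →* Matrix (Fin n) (Fin n) (ZMod ℓ)),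
    (∀ U : Subgroup G, U.index ≠ 0 → U.index ≤ J → ∀ X : Matrix (Fin n) (Fin n) (ZMod ℓ),
      (∀ g ∈ U, f g * X = X * f g) → ∃ c : ZMod ℓ, X = c • 1) →
    ℓ ∣ Nat.card f.toHomUnits.range := by
  obtain ⟨J, hJ⟩ := j_stmt n hn
  refine ⟨J, fun ℓ _ G _ f hf => ?_⟩
  refine ell_dvd_finite hn hJ ℓ f.toHomUnits.range
    ((Units.coeHom _).comp f.toHomUnits.range.subtype) ?_
  intro U hU X hX
  have hidx : (U.comap f.toHomUnits.rangeRestrict).index = U.index :=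
    Subgroup.index_comap_of_surjective U (MonoidHom.rangeRestrict_surjective _)
  refine hf (U.comap f.toHomUnits.rangeRestrict) ?_ (by rw [hidx]; exact hU) X ?_
  · rw [hidx]
    exact Subgroup.index_ne_zero_of_finite
  · intro g hg
    exact hX _ hg

end Pool.Agent.T2H36.IX
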