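import Pool.Agent.T2H36.IX.A4

set_option autoImplicit false
set_option linter.unusedSectionVars false

/-!
Project IX, assembly, part 3: absolute irreducibility and scalar commutants, from irreducibility and
a simple rational eigenvalue.
-/

open Matrix Polynomial

namespace Pool.Agent.T2H36.IX

section vec

variable {k : Type} [Field k] {n : ℕ}

/-- components of the vectors in a subspace which is stable under a diagonal matrix -/
theorem vec_component {W : Submodule k (Fin n → k)} {nu : Fin n → k}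
    (hst : ∀ w ∈ W, diagonal nu *ᵥ w ∈ W) {w : Fin n → k} (hw : w ∈ W) {i₀ : Fin n}
    (hne : ∀ i, i ≠ i₀ → nu i ≠ nu i₀) : Pi.single i₀ (w i₀) ∈ W := by
  classical
  have hp : ∀ p : Polynomial k, (fun i => p.eval (nu i) * w i) ∈ W := by
    intro p
    induction p using Polynomial.induction_on' with
    | add p q hp hq =>
      have h1 := W.add_mem hp hq
      refine (congrArg (· ∈ W) ?_).mp h1
      ext i
      simp only [Pi.add_apply, Polynomial.eval_add]
      ring
    | monomial m a =>
      have h1 : ∀ m : ℕ, (fun i => (nu i) ^ m * w i) ∈ W := by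
        intro m
        induction m with
        | zero =>
          refine (congrArg (· ∈ W) ?_).mp hw
          ext i
          simp
        | succ m ih =>
          have h2 := hst _ ih
          refine (congrArg (· ∈ W) ?_).mp h2
          ext i
          rw [Matrix.mulVec_diagonal]
          ring
      have h2 := W.smul_mem a (h1 m)
      refine (congrArg (· ∈ W) ?_).mp h2
      ext i
      simp only [Pi.smul_apply, Polynomial.eval_monomial, smul_eq_mul]
      ring
  let s : Finset (Fin n) := Finset.univ.erase i₀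
  let p : Polynomial k := ∏ j ∈ s, (Polynomial.C (nu i₀ - nu j)⁻¹ * (Polynomial.X - Polynomial.C (nu j)))
  have h1 := hp p
  refine (congrArg (· ∈ W) ?_).mp h1
  ext i
  by_cases h : i = i₀
  · subst h
    rw [Pi.single_eq_same]
    have h2 : p.eval (nu i) = 1 := by
      rw [Polynomial.eval_prod]
      refine Finset.prod_eq_one fun j hj => ?_
      simp only [Polynomial.eval_mul, Polynomial.eval_C, Polynomial.eval_sub, Polynomial.eval_X]
      exact inv_mul_cancel₀ (sub_ne_zero.2 (hne j (Finset.ne_of_mem_erase hj)).symm)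
    rw [h2, one_mul]
  · rw [Pi.single_eq_of_ne h]
    have h2 : p.eval (nu i) = 0 := by
      rw [Polynomial.eval_prod]
      refine Finset.prod_eq_zero (i := i) (Finset.mem_erase.2 ⟨h, Finset.mem_univ _⟩) ?_
      simp
    rw [h2, zero_mul]

end vec

section main

variable {F k : Type} [Field F] [Field k] [Algebra F k] {n : ℕ} {G : Type} [Group G]
  {f : G →* Matrix (Fin n) (Fin n) F}

/-- base change of a vector -/
def bv (k : Type) {F : Type} [Field F] [Field k] [Algebra F k] {n : ℕ} (x : Fin n → F) : Fin n → k :=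
  fun i => algebraMap F k (x i)

theorem bv_inj {x y : Fin n → F} (h : bv k x = bv k y) : x = y := by
  ext i
  exact (algebraMap F k).injective (congrFun h i)

theorem bv_mulVec (A : Matrix (Fin n) (Fin n) F) (x : Fin n → F) :
    bv k (A *ᵥ x) = bc k A *ᵥ bv k x := by
  ext i
  unfold bv
  rw [mulVec, mulVec, dotProduct, dotProduct, map_sum]
  refine Finset.sum_congr rfl fun j _ => ?_
  rw [map_mul]
  rfl

theorem bv_smul (a : F) (x : Fin n → F) : bv k (a • x) = algebraMap F k a • bv k x := by
  ext i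
  unfold bv
  rw [Pi.smul_apply, smul_eq_mul, map_mul]
  rfl

theorem bv_ne {x : Fin n → F} (h : x ≠ 0) : bv k x ≠ 0 := by
  intro h1
  apply h
  ext i
  have h2 := congrFun h1 i
  exact (map_eq_zero _).1 h2

theorem bv_dot (x y : Fin n → F) : bv k x ⬝ᵥ bv k y = algebraMap F k (x ⬝ᵥ y) := by
  rw [dotProduct, dotProduct, map_sum]
  refine Finset.sum_congr rfl fun j _ => ?_
  rw [map_mul]
  rfl

theorem bc_pow (A : Matrix (Fin n) (Fin n) F) (m : ℕ) : bc k (A ^ m) = bc k A ^ m := by
  induction m with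
  | zero => rw [pow_zero, pow_zero, bc_one]
  | succ m ih => rw [pow_succ, pow_succ, bc_mul, ih]

/-- the data: irreducibility under subgroups of bounded index, and an element with a simple rational
eigenvalue -/
structure Sim (f : G →* Matrix (Fin n) (Fin n) F) (k : Type) [Field k] [Algebra F k] (d : ℕ)
    (g₀ : G) (mu : Fin n → k) (i₀ : Fin n) (a : F) : Prop where
  irr : ∀ (U : Subgroup G) (W : Submodule F (Fin n → F)), U.index ≠ 0 → U.index ≤ d →
    (∀ g ∈ U, ∀ w ∈ W, f g *ᵥ w ∈ W) → W = ⊥ ∨ W = ⊤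
  ch : (bc k (f g₀)).charpoly = ∏ i, (X - C (mu i))
  inj : Function.Injective mu
  rat : mu i₀ = algebraMap F k a
  pow : ∀ m, 1 ≤ m → m ≤ d → ∀ i, i ≠ i₀ → mu i ^ m ≠ mu i₀ ^ m

variable {d : ℕ} {g₀ : G} {mu : Fin n → k} {i₀ : Fin n} {a : F}

theorem pow_diag {A P : Matrix (Fin n) (Fin n) k} (hP : A * P = P * diagonal mu) (m : ℕ) :
    A ^ m * P = P * diagonal (fun i => mu i ^ m) := by
  induction m with
  | zero => simp
  | succ m ih =>
    rw [pow_succ', mul_assoc, ih, ← mul_assoc, hP, mul_assoc, Matrix.diagonal_mul_diagonal]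
    congr 2
    ext i
    rw [pow_succ']

theorem Sim.eigen (h : Sim f k d g₀ mu i₀ a) : (∃ v : Fin n → F, v ≠ 0 ∧ f g₀ *ᵥ v = a • v) ∧
    ∃ r : Fin n → F, r ≠ 0 ∧ (f g₀)ᵀ *ᵥ r = a • r := by
  have h1 : ∀ A : Matrix (Fin n) (Fin n) F, (bc k A).charpoly = ∏ i, (X - C (mu i)) →
      ∃ v : Fin n → F, v ≠ 0 ∧ A *ᵥ v = a • v := by
    intro A hA
    have h2 : (scalar (Fin n) a - A).det = 0 := by
      rw [← Matrix.eval_charpoly]
      apply (algebraMap F k).injective
      rw [map_zero, ← Polynomial.eval₂_at_apply, ← Polynomial.eval_map, ← Matrix.charpoly_map]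
      show eval (algebraMap F k a) (bc k A).charpoly = 0
      rw [hA, eval_prod]
      refine Finset.prod_eq_zero (Finset.mem_univ i₀) ?_
      rw [eval_sub, eval_X, eval_C, h.rat, sub_self]
    obtain ⟨v, hv, hv'⟩ := Matrix.exists_mulVec_eq_zero_iff.2 h2
    refine ⟨v, hv, ?_⟩
    rw [sub_mulVec, sub_eq_zero, Matrix.scalar_apply] at hv'
    rw [← hv']
    ext x
    rw [Matrix.mulVec_diagonal, Pi.smul_apply, smul_eq_mul]
  refine ⟨h1 _ h.ch, h1 _ ?_⟩
  rw [bc_transpose, Matrix.charpoly_transpose]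
  exact h.ch

/-- **absolute irreducibility** -/
theorem Sim.abs (h : Sim f k d g₀ mu i₀ a) {U : Subgroup G} {W : Submodule k (Fin n → k)}
    (hU0 : U.index ≠ 0) (hUd : U.index ≤ d) (hW : ∀ g ∈ U, ∀ w ∈ W, bc k (f g) *ᵥ w ∈ W) :
    W = ⊥ ∨ W = ⊤ := by
  classical
  obtain ⟨P, hP0, hP⟩ := exists_eigenbasis h.ch h.inj
  have hPu : IsUnit P.det := isUnit_iff_ne_zero.2 hP0
  have hPP : P * P⁻¹ = 1 := Matrix.mul_nonsing_inv _ hPu
  have hPP' : P⁻¹ * P = 1 := Matrix.nonsing_inv_mul _ hPu
  obtain ⟨⟨v, hv0, hv⟩, r, hr0, hr⟩ := h.eigen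
  obtain ⟨m, hm0, hmle, hmU⟩ := Subgroup.exists_pow_mem_of_index_ne_zero hU0 g₀
  -- the line of the eigenvalue
  have hline : ∀ c : Fin n → k, bv k v = P *ᵥ c → c = Pi.single i₀ (c i₀) := by
    intro c hc
    have h1 : P *ᵥ (diagonal mu *ᵥ c) = P *ᵥ (mu i₀ • c) := by
      rw [mulVec_mulVec, ← hP, ← mulVec_mulVec, ← hc, ← bv_mulVec, hv, bv_smul, mulVec_smul, ← hc,
        h.rat]
    have h2 : diagonal mu *ᵥ c = mu i₀ • c := by
      have h3 := congrArg (fun z => P⁻¹ *ᵥ z) h1
      beta_reduce at h3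
      rw [mulVec_mulVec (diagonal mu *ᵥ c) P⁻¹ P, mulVec_mulVec (mu i₀ • c) P⁻¹ P, hPP', one_mulVec,
        one_mulVec] at h3
      exact h3
    ext i
    by_cases hi : i = i₀
    · subst hi
      rw [Pi.single_eq_same]
    · rw [Pi.single_eq_of_ne hi]
      have h3 := congrFun h2 i
      rw [Matrix.mulVec_diagonal, Pi.smul_apply, smul_eq_mul] at h3
      have h4 : (mu i - mu i₀) * c i = 0 := by linear_combination h3
      exact (mul_eq_zero.1 h4).resolve_left (sub_ne_zero.2 fun h5 => hi (h.inj h5))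
  -- the subspace in coordinates
  let W' : Submodule k (Fin n → k) := W.comap (Matrix.toLin' P)
  have hW' : ∀ c, c ∈ W' ↔ P *ᵥ c ∈ W := fun c => by
    rw [Submodule.mem_comap, Matrix.toLin'_apply]
  have hst : ∀ c ∈ W', diagonal (fun i => mu i ^ m) *ᵥ c ∈ W' := by
    intro c hc
    rw [hW', mulVec_mulVec, ← pow_diag hP, ← mulVec_mulVec, ← bc_pow, ← map_pow]
    exact hW _ hmU _ ((hW' c).1 hc)
  have hcomp : ∀ c ∈ W', Pi.single i₀ (c i₀) ∈ W' := fun c hc =>
    vec_component hst hc fun i hi => h.pow m hm0 (hmle.trans hUd) i hi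
  by_cases hcase : ∃ c ∈ W', c i₀ ≠ 0
  · right
    obtain ⟨c, hc, hc0⟩ := hcase
    have h1 := hcomp c hc
    -- the rational vector is in `W`
    have hvW : bv k v ∈ W := by
      have h2 : bv k v = P *ᵥ (P⁻¹ *ᵥ bv k v) := by rw [mulVec_mulVec, hPP, one_mulVec]
      have h3 := hline _ h2
      rw [h2, ← hW', h3]
      have h4 := W'.smul_mem ((P⁻¹ *ᵥ bv k v) i₀ * (c i₀)⁻¹) h1
      rwa [← Pi.single_smul, smul_eq_mul, mul_assoc, inv_mul_cancel₀ hc0, mul_one] at h4
    let WF : Submodule F (Fin n → F) :=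
      { carrier := {x | bv k x ∈ W}
        zero_mem' := by
          have : bv k (0 : Fin n → F) = 0 := by
            ext i
            exact map_zero _
          show bv k (0 : Fin n → F) ∈ W
          rw [this]
          exact W.zero_mem
        add_mem' := by
          intro x y hx hy
          have : bv k (x + y) = bv k x + bv k y := by
            ext i
            exact map_add _ _ _
          show bv k (x + y) ∈ W
          rw [this]
          exact W.add_mem hx hy
        smul_mem' := by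
          intro t x hx
          show bv k (t • x) ∈ W
          rw [bv_smul]
          exact W.smul_mem _ hx }
    rcases h.irr U WF hU0 hUd (by
      intro g hg w hw
      show bv k (f g *ᵥ w) ∈ W
      rw [bv_mulVec]
      exact hW g hg _ hw) with h2 | h2
    · exfalso
      have h3 : v ∈ WF := hvW
      rw [h2, Submodule.mem_bot] at h3
      exact hv0 h3
    · rw [eq_top_iff]
      intro w _
      rw [← Finset.univ_sum_single w]
      refine W.sum_mem fun i _ => ?_
      have h3 : (Pi.single i (1 : F) : Fin n → F) ∈ WF := by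
        rw [h2]
        exact Submodule.mem_top
      have h4 : bv k (Pi.single i (1 : F) : Fin n → F) ∈ W := h3
      have h5 := W.smul_mem (w i) h4
      refine (congrArg (· ∈ W) ?_).mp h5
      ext j
      rw [Pi.smul_apply, smul_eq_mul]
      unfold bv
      by_cases hj : j = i
      · subst hj
        simp
      · rw [Pi.single_eq_of_ne hj, Pi.single_eq_of_ne hj, map_zero, mul_zero]
  · left
    push Not at hcase
    let R : Submodule F (Fin n → F) :=
      { carrier := {x | ∀ w ∈ W, bv k x ⬝ᵥ w = 0}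
        zero_mem' := by
          intro w _
          have : bv k (0 : Fin n → F) = 0 := by
            ext i
            exact map_zero _
          rw [this, zero_dotProduct]
        add_mem' := by
          intro x y hx hy w hw
          have : bv k (x + y) = bv k x + bv k y := by
            ext i
            exact map_add _ _ _
          rw [this, add_dotProduct, hx w hw, hy w hw, add_zero]
        smul_mem' := by
          intro t x hx w hw
          rw [bv_smul, smul_dotProduct, hx w hw, smul_zero] }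
    have hrR : r ∈ R := by
      intro w hw
      have h1 : w = P *ᵥ (P⁻¹ *ᵥ w) := by rw [mulVec_mulVec, hPP, one_mulVec]
      have h2 : P⁻¹ *ᵥ w ∈ W' := by
        rw [hW', ← h1]
        exact hw
      have h3 := hcase _ h2
      have h4 : bv k r ᵥ* P = Pi.single i₀ ((bv k r ᵥ* P) i₀) := by
        ext i
        by_cases hi : i = i₀
        · subst hi
          rw [Pi.single_eq_same]
        · rw [Pi.single_eq_of_ne hi]
          have h5 : bv k r ᵥ* (bc k (f g₀) * P) = mu i₀ • (bv k r ᵥ* P) := by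
            rw [← vecMul_vecMul, ← Matrix.mulVec_transpose (bc k (f g₀)), ← bc_transpose, ← bv_mulVec,
              hr, bv_smul, smul_vecMul, h.rat]
          rw [hP, ← vecMul_vecMul] at h5
          have h6 := congrFun h5 i
          rw [Matrix.vecMul_diagonal, Pi.smul_apply, smul_eq_mul] at h6
          have h7 : (mu i - mu i₀) * (bv k r ᵥ* P) i = 0 := by linear_combination h6
          exact (mul_eq_zero.1 h7).resolve_left (sub_ne_zero.2 fun h8 => hi (h.inj h8))
      rw [h1, Matrix.dotProduct_mulVec, h4, single_dotProduct, h3, mul_zero]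
    let Z : Submodule F (Fin n → F) :=
      { carrier := {y | ∀ x ∈ R, x ⬝ᵥ y = 0}
        zero_mem' := fun x _ => dotProduct_zero _
        add_mem' := by
          intro y y' hy hy' x hx
          rw [dotProduct_add, hy x hx, hy' x hx, add_zero]
        smul_mem' := by
          intro t y hy x hx
          rw [dotProduct_smul, hy x hx, smul_zero] }
    have hRst : ∀ g ∈ U, ∀ x ∈ R, (f g)ᵀ *ᵥ x ∈ R := by
      intro g hg x hx w hw
      rw [bv_mulVec, bc_transpose, Matrix.mulVec_transpose, ← Matrix.dotProduct_mulVec]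
      exact hx _ (hW g hg w hw)
    rcases h.irr U Z hU0 hUd (by
      intro g hg y hy x hx
      rw [Matrix.dotProduct_mulVec, ← Matrix.mulVec_transpose]
      exact hy _ (hRst g hg x hx)) with h2 | h2
    · -- `R` is everything
      have hRtop : R = ⊤ := by
        by_contra hne
        obtain ⟨x, hx⟩ : ∃ x, x ∉ R := by
          by_contra hcon
          push Not at hcon
          exact hne (eq_top_iff.2 fun x _ => hcon x)
        obtain ⟨φ, hφ, hle⟩ := Submodule.exists_le_ker_of_notMem hx
        have h3 : ∀ y : Fin n → F, φ y = y ⬝ᵥ fun i => φ (Pi.single i 1) := by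
          intro y
          conv_lhs => rw [← Finset.univ_sum_single y]
          rw [map_sum, dotProduct]
          refine Finset.sum_congr rfl fun i _ => ?_
          have h4 : (Pi.single i (y i) : Fin n → F) = y i • Pi.single i 1 := by
            rw [← Pi.single_smul, smul_eq_mul, mul_one]
          rw [h4, map_smul, smul_eq_mul]
        have h4 : (fun i => φ (Pi.single i 1)) ∈ Z := by
          intro y hy
          rw [← h3]
          exact hle hy
        rw [h2, Submodule.mem_bot] at h4
        apply hφ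
        rw [h3, h4, dotProduct_zero]
      rw [eq_bot_iff]
      intro w hw
      rw [Submodule.mem_bot]
      ext i
      have h3 : (Pi.single i (1 : F) : Fin n → F) ∈ R := by
        rw [hRtop]
        exact Submodule.mem_top
      have h4 := h3 w hw
      have h5 : bv k (Pi.single i (1 : F) : Fin n → F) = Pi.single i 1 := by
        ext j
        unfold bv
        by_cases hj : j = i
        · subst hj
          simp
        · rw [Pi.single_eq_of_ne hj, Pi.single_eq_of_ne hj, map_zero]
      rw [h5, single_dotProduct, one_mul] at h4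
      exact h4
    · exfalso
      apply hr0
      ext i
      have h3 : (Pi.single i (1 : F) : Fin n → F) ∈ Z := by
        rw [h2]
        exact Submodule.mem_top
      have h4 := h3 r hrR
      rw [dotProduct_single, mul_one] at h4
      exact h4

/-- **scalar commutants** -/
theorem Sim.comm (h : Sim f k d g₀ mu i₀ a) {U : Subgroup G} (hU0 : U.index ≠ 0)
    (hUd : U.index ≤ d) {Y : Matrix (Fin n) (Fin n) F} (hY : ∀ g ∈ U, f g * Y = Y * f g) :
    ∃ c : F, Y = c • 1 := by
  classical
  obtain ⟨P, hP0, hP⟩ := exists_eigenbasis h.ch h.inj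
  have hPu : IsUnit P.det := isUnit_iff_ne_zero.2 hP0
  have hPP : P * P⁻¹ = 1 := Matrix.mul_nonsing_inv _ hPu
  have hPP' : P⁻¹ * P = 1 := Matrix.nonsing_inv_mul _ hPu
  obtain ⟨⟨v, hv0, hv⟩, -⟩ := h.eigen
  obtain ⟨m, hm0, hmle, hmU⟩ := Subgroup.exists_pow_mem_of_index_ne_zero hU0 g₀
  have hpow : ∀ m : ℕ, f g₀ ^ m *ᵥ v = a ^ m • v := by
    intro m
    induction m with
    | zero => rw [pow_zero, pow_zero, one_mulVec, one_smul]
    | succ m ih => rw [pow_succ', ← mulVec_mulVec, ih, mulVec_smul, hv, smul_smul, pow_succ]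
  -- vectors in the eigenspace
  have hline : ∀ x : Fin n → F, f g₀ ^ m *ᵥ x = a ^ m • x →
      P⁻¹ *ᵥ bv k x = Pi.single i₀ ((P⁻¹ *ᵥ bv k x) i₀) := by
    intro x hx
    set c := P⁻¹ *ᵥ bv k x with hc
    have hxc : bv k x = P *ᵥ c := by rw [hc, mulVec_mulVec, hPP, one_mulVec]
    have h1 : P *ᵥ (diagonal (fun i => mu i ^ m) *ᵥ c) = P *ᵥ (mu i₀ ^ m • c) := by
      rw [mulVec_mulVec, ← pow_diag hP, ← mulVec_mulVec, ← hxc, ← bc_pow, ← bv_mulVec, hx, bv_smul,
        mulVec_smul, ← hxc, h.rat, map_pow]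
    have h2 : diagonal (fun i => mu i ^ m) *ᵥ c = mu i₀ ^ m • c := by
      have h3 := congrArg (fun z => P⁻¹ *ᵥ z) h1
      beta_reduce at h3
      rw [mulVec_mulVec _ P⁻¹ P, mulVec_mulVec _ P⁻¹ P, hPP', one_mulVec, one_mulVec] at h3
      exact h3
    ext i
    by_cases hi : i = i₀
    · subst hi
      rw [Pi.single_eq_same]
    · rw [Pi.single_eq_of_ne hi]
      have h3 := congrFun h2 i
      rw [Matrix.mulVec_diagonal, Pi.smul_apply, smul_eq_mul] at h3
      have h4 : (mu i ^ m - mu i₀ ^ m) * c i = 0 := by linear_combination h3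
      exact (mul_eq_zero.1 h4).resolve_left (sub_ne_zero.2 (h.pow m hm0 (hmle.trans hUd) i hi))
  have hYv : f g₀ ^ m *ᵥ (Y *ᵥ v) = a ^ m • (Y *ᵥ v) := by
    have h1 := hY _ hmU
    rw [map_pow] at h1
    rw [mulVec_mulVec, h1, ← mulVec_mulVec, hpow, mulVec_smul]
  have h1 := hline v (hpow m)
  have h2 := hline _ hYv
  obtain ⟨x, hx⟩ : ∃ x, v x ≠ 0 := by
    by_contra hcon
    push Not at hcon
    exact hv0 (funext hcon)
  have hc0 : (P⁻¹ *ᵥ bv k v) i₀ ≠ 0 := by
    intro h3
    rw [h3, Pi.single_zero] at h1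
    apply bv_ne (k := k) hv0
    rw [← one_mulVec (bv k v), ← hPP, ← mulVec_mulVec, h1, mulVec_zero]
  -- proportionality
  have h3 : bv k (Y *ᵥ v) = ((P⁻¹ *ᵥ bv k (Y *ᵥ v)) i₀ * ((P⁻¹ *ᵥ bv k v) i₀)⁻¹) • bv k v := by
    have h4 : P⁻¹ *ᵥ bv k (Y *ᵥ v) =
        ((P⁻¹ *ᵥ bv k (Y *ᵥ v)) i₀ * ((P⁻¹ *ᵥ bv k v) i₀)⁻¹) • (P⁻¹ *ᵥ bv k v) := by
      conv_lhs => rw [h2]
      conv_rhs => rw [h1]
      rw [Pi.single_eq_same, ← Pi.single_smul, smul_eq_mul, mul_assoc, inv_mul_cancel₀ hc0, mul_one]
    have h5 := congrArg (fun z => P *ᵥ z) h4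
    simp only [mulVec_smul] at h5
    rw [mulVec_mulVec, mulVec_mulVec, hPP, one_mulVec, one_mulVec] at h5
    exact h5
  set s := (P⁻¹ *ᵥ bv k (Y *ᵥ v)) i₀ * ((P⁻¹ *ᵥ bv k v) i₀)⁻¹ with hs
  have h4 : s = algebraMap F k ((Y *ᵥ v) x * (v x)⁻¹) := by
    have h5 := congrFun h3 x
    rw [Pi.smul_apply, smul_eq_mul] at h5
    have h6 : algebraMap F k ((Y *ᵥ v) x) = s * algebraMap F k (v x) := h5
    rw [map_mul, h6, map_inv₀, mul_assoc, mul_inv_cancel₀, mul_one]
    exact fun h7 => hx ((map_eq_zero _).1 h7)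
  set c := (Y *ᵥ v) x * (v x)⁻¹ with hc
  have h5 : Y *ᵥ v = c • v := by
    apply bv_inj (k := k)
    rw [h3, h4, bv_smul]
  refine ⟨c, ?_⟩
  let W : Submodule F (Fin n → F) :=
    { carrier := {w | Y *ᵥ w = c • w}
      zero_mem' := by
        show Y *ᵥ 0 = c • (0 : Fin n → F)
        rw [mulVec_zero, smul_zero]
      add_mem' := by
        intro x y hx hy
        show Y *ᵥ (x + y) = c • (x + y)
        rw [mulVec_add, smul_add, hx, hy]
      smul_mem' := by
        intro t x hx
        show Y *ᵥ (t • x) = c • (t • x)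
        rw [mulVec_smul, hx, smul_comm] }
  rcases h.irr U W hU0 hUd (by
    intro g hg w hw
    show Y *ᵥ (f g *ᵥ w) = c • (f g *ᵥ w)
    have hw' : Y *ᵥ w = c • w := hw
    rw [mulVec_mulVec, ← hY g hg, ← mulVec_mulVec, hw', mulVec_smul]) with h6 | h6
  · exfalso
    have h7 : v ∈ W := h5
    rw [h6, Submodule.mem_bot] at h7
    exact hv0 h7
  · ext i j
    have h7 : (Pi.single j (1 : F) : Fin n → F) ∈ W := by
      rw [h6]
      exact Submodule.mem_top
    have h8 : Y *ᵥ (Pi.single j (1 : F) : Fin n → F) = c • (Pi.single j (1 : F) : Fin n → F) := h7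
    have h9 := congrFun h8 i
    rw [Matrix.mulVec_single_one] at h9
    rw [Matrix.smul_apply, Matrix.one_apply, smul_eq_mul]
    have h10 : Y i j = c * (Pi.single j (1 : F) : Fin n → F) i := h9
    rw [h10]
    by_cases hij : i = j
    · subst hij
      rw [Pi.single_eq_same, if_pos rfl]
    · rw [Pi.single_eq_of_ne hij, if_neg hij]

end main

end Pool.Agent.T2H36.IX
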