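import Pool.Agent.T2H36.IX.Defs

set_option autoImplicit false

/-!
Package C: a polynomial map with the identity as its linear part has many values
(the polynomial method).
-/

open MvPolynomial

namespace Pool.Agent.T2H36.IX

namespace PkgC

variable {F : Type} [Field F] {d : ℕ}

/-- all monomials of degree less than `k` have coefficient zero -/
def Lo (k : ℕ) (p : MvPolynomial (Fin d) F) : Prop :=
  ∀ m : Fin d →₀ ℕ, ∑ i, m i < k → coeff m p = 0

theorem Lo.mul {a b : ℕ} {p q : MvPolynomial (Fin d) F} (hp : Lo a p) (hq : Lo b q) :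
    Lo (a + b) (p * q) := by
  intro m hm
  rw [coeff_mul]
  refine Finset.sum_eq_zero fun x hx => ?_
  rw [Finset.HasAntidiagonal.mem_antidiagonal] at hx
  have h1 : ∑ i, m i = ∑ i, x.1 i + ∑ i, x.2 i := by
    rw [← hx, ← Finset.sum_add_distrib]
    exact Finset.sum_congr rfl fun i _ => by simp
  by_cases h2 : ∑ i, x.1 i < a
  · rw [hp _ h2, zero_mul]
  · have h3 : ∑ i, x.2 i < b := by omega
    rw [hq _ h3, mul_zero]

theorem Lo.add {a : ℕ} {p q : MvPolynomial (Fin d) F} (hp : Lo a p) (hq : Lo a q) :
    Lo a (p + q) := by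
  intro m hm
  rw [coeff_add, hp m hm, hq m hm, add_zero]

/-- `p` and `p'` have no terms of degree less than `a` and the same terms of degree `a` -/
def Rel (a : ℕ) (p p' : MvPolynomial (Fin d) F) : Prop :=
  Lo a p ∧ Lo a p' ∧ Lo (a + 1) (p - p')

theorem Rel.mul {a b : ℕ} {p p' q q' : MvPolynomial (Fin d) F} (h : Rel a p p') (h' : Rel b q q') :
    Rel (a + b) (p * q) (p' * q') := by
  refine ⟨h.1.mul h'.1, h.2.1.mul h'.2.1, ?_⟩
  have e : p * q - p' * q' = p * (q - q') + (p - p') * q' := by ring
  rw [e]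
  refine Lo.add ?_ ?_
  · have := h.1.mul h'.2.2
    rwa [← add_assoc] at this
  · have := h.2.2.mul h'.2.1
    rwa [add_right_comm] at this

theorem Rel.one : Rel 0 (1 : MvPolynomial (Fin d) F) 1 := by
  refine ⟨fun m hm => by omega, fun m hm => by omega, fun m _ => by simp⟩

theorem Rel.pow {a : ℕ} {p p' : MvPolynomial (Fin d) F} (h : Rel a p p') (n : ℕ) :
    Rel (n * a) (p ^ n) (p' ^ n) := by
  induction n with
  | zero => simpa using Rel.one
  | succ n ih =>
    rw [pow_succ, pow_succ, Nat.succ_mul]
    exact ih.mul h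

theorem Rel.prod {ι : Type} [DecidableEq ι] (s : Finset ι) (a : ι → ℕ)
    (p p' : ι → MvPolynomial (Fin d) F)
    (h : ∀ i ∈ s, Rel (a i) (p i) (p' i)) : Rel (∑ i ∈ s, a i) (∏ i ∈ s, p i) (∏ i ∈ s, p' i) := by
  induction s using Finset.induction_on with
  | empty => simpa using Rel.one
  | insert i s hi ih =>
    rw [Finset.sum_insert hi, Finset.prod_insert hi, Finset.prod_insert hi]
    exact (h i (Finset.mem_insert_self i s)).mul (ih fun j hj => h j (Finset.mem_insert_of_mem hj))

theorem deg_zero_of_lt_one {m : Fin d →₀ ℕ} (hm : ∑ i, m i < 1) : m = 0 := by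
  have h0 : ∑ i, m i = 0 := by omega
  ext i
  have := (Finset.sum_eq_zero_iff (s := Finset.univ) (f := fun i => m i)).1 h0 i (Finset.mem_univ i)
  simpa using this

theorem deg_lt_two {m : Fin d →₀ ℕ} (hm : ∑ i, m i < 2) :
    m = 0 ∨ ∃ j, m = Finsupp.single j 1 := by
  by_cases h : m = 0
  · exact Or.inl h
  · right
    obtain ⟨j, hj⟩ := Finsupp.ne_iff.1 h
    have hj' : 1 ≤ m j := by
      have : m j ≠ 0 := by simpa using hj
      omega
    refine ⟨j, ?_⟩
    ext i
    have hs : m j + ∑ i ∈ Finset.univ.erase j, m i = ∑ i, m i :=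
      Finset.add_sum_erase _ _ (Finset.mem_univ j)
    by_cases hij : i = j
    · subst hij
      rw [Finsupp.single_eq_same]
      omega
    · rw [Finsupp.single_eq_of_ne hij]
      have h2 : m i ≤ ∑ i ∈ Finset.univ.erase j, m i :=
        Finset.single_le_sum (f := fun i => m i) (fun _ _ => Nat.zero_le _)
          (Finset.mem_erase.2 ⟨hij, Finset.mem_univ i⟩)
      omega

theorem rel_phi {p : MvPolynomial (Fin d) F} {i : Fin d} (h0 : coeff 0 p = 0)
    (h1 : ∀ j, coeff (Finsupp.single j 1) p = if i = j then 1 else 0) : Rel 1 p (X i) := by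
  have hX0 : coeff 0 (X i : MvPolynomial (Fin d) F) = 0 := by simp
  refine ⟨?_, ?_, ?_⟩
  · intro m hm
    rw [deg_zero_of_lt_one hm, h0]
  · intro m hm
    rw [deg_zero_of_lt_one hm, hX0]
  · intro m hm
    rcases deg_lt_two hm with h | ⟨j, h⟩
    · rw [h, coeff_sub, h0, hX0, sub_zero]
    · rw [h, coeff_sub, h1 j, coeff_X]
      by_cases hij : i = j
      · subst hij; simp
      · rw [if_neg hij, if_neg, sub_zero]
        intro h3
        exact hij (Finsupp.single_left_injective one_ne_zero h3)

/-- the monomials of degree at most `e`, indexed by `Sym (Fin (d+1)) e` -/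
noncomputable def expo (d e : ℕ) (s : Sym (Fin (d + 1)) e) (i : Fin d) : ℕ :=
  (Sym.equivNatSumOfFintype (Fin (d + 1)) e s).1 i.succ

theorem expo_inj (d e : ℕ) : Function.Injective (expo d e) := by
  intro s t h
  apply (Sym.equivNatSumOfFintype (Fin (d + 1)) e).injective
  apply Subtype.ext
  have hs := (Sym.equivNatSumOfFintype (Fin (d + 1)) e s).2
  have ht := (Sym.equivNatSumOfFintype (Fin (d + 1)) e t).2
  have hst : ∀ i : Fin d, (Sym.equivNatSumOfFintype (Fin (d + 1)) e s).1 i.succ =
    (Sym.equivNatSumOfFintype (Fin (d + 1)) e t).1 i.succ := fun i => congrFun h i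
  rw [Fin.sum_univ_succ] at hs ht
  funext i
  refine Fin.cases ?_ (fun i => hst i) i
  have h2 : ∑ i : Fin d, (Sym.equivNatSumOfFintype (Fin (d + 1)) e s).1 i.succ
    = ∑ i : Fin d, (Sym.equivNatSumOfFintype (Fin (d + 1)) e t).1 i.succ :=
    Finset.sum_congr rfl fun i _ => hst i
  omega

theorem expo_sum (d e : ℕ) (s : Sym (Fin (d + 1)) e) : ∑ i, expo d e s i ≤ e := by
  have hs := (Sym.equivNatSumOfFintype (Fin (d + 1)) e s).2
  rw [Fin.sum_univ_succ] at hs
  unfold expo
  omega

theorem card_sym (d e : ℕ) : Fintype.card (Sym (Fin (d + 1)) e) = (e + d).choose d := by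
  rw [Sym.card_sym_eq_choose, Fintype.card_fin]
  have h1 : d + 1 + e - 1 = d + e := by omega
  rw [h1, Nat.add_comm d e, Nat.choose_symm_add]

theorem coeff_prod_X (a : Fin d → ℕ) (m : Fin d →₀ ℕ) :
    coeff m (∏ i, (X i : MvPolynomial (Fin d) F) ^ a i) = if ⇑m = a then 1 else 0 := by
  have e : ∏ i, (X i : MvPolynomial (Fin d) F) ^ a i
      = monomial (Finsupp.equivFunOnFinite.symm a) 1 := by
    rw [monomial_eq, C_1, one_mul, Finsupp.prod_fintype _ _ (fun i => by simp)]
    exact Finset.prod_congr rfl fun i _ => by simp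
  rw [e, coeff_monomial]
  congr 1
  rw [eq_iff_iff]
  constructor
  · intro h; rw [← h]; rfl
  · intro h
    ext i
    rw [← h]; rfl

end PkgC

open PkgC in
theorem c_stmt : CStmt := by
  intro F _ _ d D hD φ hdeg h0 h1
  classical
  by_contra hlt
  push Not at hlt
  set V : Set (Fin d → F) := Set.range fun (t : Fin d → F) (i : Fin d) => eval t (φ i) with hV
  set e : ℕ := (Fintype.card F - 1) / D with he
  have hVfin : V.Finite := Set.toFinite V
  let _ : Fintype V := hVfin.fintype
  -- the linear map
  let L : (Sym (Fin (d + 1)) e → F) →ₗ[F] (V → F) :=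
    { toFun := fun a v => ∑ s, a s * ∏ i, v.1 i ^ expo d e s i
      map_add' := fun a b => by
        funext v
        simp only [Pi.add_apply, add_mul, Finset.sum_add_distrib]
      map_smul' := fun c a => by
        funext v
        simp only [Pi.smul_apply, smul_eq_mul, mul_assoc, Finset.mul_sum, RingHom.id_apply] }
  have hrank : Module.finrank F (V → F) < Module.finrank F (Sym (Fin (d + 1)) e → F) := by
    rw [Module.finrank_fintype_fun_eq_card, Module.finrank_fintype_fun_eq_card, card_sym]
    rw [← Nat.card_eq_fintype_card]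
    exact hlt
  have hker := LinearMap.ker_ne_bot_of_finrank_lt (f := L) hrank
  obtain ⟨a, haL, ha0⟩ := (Submodule.ne_bot_iff _).1 hker
  rw [LinearMap.mem_ker] at haL
  -- the composed polynomial
  set P : MvPolynomial (Fin d) F := ∑ s, C (a s) * ∏ i, φ i ^ expo d e s i with hP
  have hPdeg : P.totalDegree ≤ Fintype.card F - 1 := by
    refine totalDegree_finsetSum_le fun s _ => ?_
    refine (totalDegree_mul _ _).trans ?_
    rw [totalDegree_C, zero_add]
    refine (totalDegree_finsetProd _ _).trans ?_
    have h2 : ∑ i, (φ i ^ expo d e s i).totalDegree ≤ ∑ i, expo d e s i * D :=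
      Finset.sum_le_sum fun i _ => (totalDegree_pow _ _).trans
        (Nat.mul_le_mul_left _ (hdeg i))
    refine h2.trans ?_
    rw [← Finset.sum_mul]
    exact (Nat.mul_le_mul_right _ (expo_sum d e s)).trans (Nat.div_mul_le_self _ _)
  have hcard : 1 ≤ Fintype.card F := Fintype.card_pos
  have hP0 : P = 0 := by
    refine eq_zero_of_eval_zero_at_prod_finset P (fun _ => Finset.univ) (fun i => ?_) fun x _ => ?_
    · have := degreeOf_le_totalDegree P i
      rw [Finset.card_univ]
      omega
    · have h2 := congrFun haL ⟨fun i => eval x (φ i), ⟨x, rfl⟩⟩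
      have h3 : eval x P = ∑ s, a s * ∏ i, (eval x (φ i)) ^ expo d e s i := by
        rw [hP, map_sum]
        refine Finset.sum_congr rfl fun s _ => ?_
        rw [map_mul, eval_C, map_prod]
        congr 1
        exact Finset.prod_congr rfl fun i _ => by rw [map_pow]
      rw [h3]
      exact h2
  -- the lowest degree term
  obtain ⟨s1, hs1⟩ := Function.ne_iff.1 ha0
  obtain ⟨s0, hs0, hmin⟩ := Finset.exists_min_image
    (Finset.univ.filter fun s : Sym (Fin (d + 1)) e => a s ≠ 0) (fun s => ∑ i, expo d e s i)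
    ⟨s1, by simpa using hs1⟩
  rw [Finset.mem_filter] at hs0
  have hc : coeff (Finsupp.equivFunOnFinite.symm (expo d e s0)) P = a s0 := by
    rw [hP, coeff_sum]
    rw [Finset.sum_eq_single s0]
    · rw [coeff_C_mul]
      have hr := Rel.prod Finset.univ (fun i => expo d e s0 i * 1) (fun i => φ i ^ expo d e s0 i)
        (fun i => X i ^ expo d e s0 i) (fun i _ => (rel_phi (h0 i) (h1 i)).pow _)
      have h2 := hr.2.2 (Finsupp.equivFunOnFinite.symm (expo d e s0)) (by simp)
      rw [coeff_sub, sub_eq_zero] at h2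
      rw [h2, coeff_prod_X, if_pos (by simp), mul_one]
    · intro s _ hs
      rw [coeff_C_mul]
      by_cases has : a s = 0
      · rw [has, zero_mul]
      · have hle : ∑ i, expo d e s0 i ≤ ∑ i, expo d e s i :=
          hmin s (Finset.mem_filter.2 ⟨Finset.mem_univ _, has⟩)
        have hr := Rel.prod Finset.univ (fun i => expo d e s i * 1) (fun i => φ i ^ expo d e s i)
          (fun i => X i ^ expo d e s i) (fun i _ => (rel_phi (h0 i) (h1 i)).pow _)
        have h2 := hr.2.2 (Finsupp.equivFunOnFinite.symm (expo d e s0)) (by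
          simp only [mul_one, Finsupp.equivFunOnFinite_symm_apply_apply]
          omega)
        rw [coeff_sub, sub_eq_zero] at h2
        rw [h2, coeff_prod_X, if_neg, mul_zero]
        intro h3
        apply hs
        apply expo_inj d e
        rw [← h3]
        simp
    · intro h; exact absurd (Finset.mem_univ _) h
  rw [hP0, coeff_zero] at hc
  exact hs0.2 hc.symm

end Pool.Agent.T2H36.IX
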