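import Pool.Agent.T2H36.IX.Defs

set_option autoImplicit false

/-!
Project IX (helper36), second round of packages: generation of the kernel of the spinor norm modulo
`ℓ`, and the adelic independence argument. Self-contained over Mathlib.
-/

open Matrix Polynomial

namespace Pool.Agent.T2H36.IX

/-- the submonoid (in fact subgroup) generated by the isometries of order dividing `ℓ` -/
def Om (ℓ : ℕ) {n : ℕ} (B : Matrix (Fin n) (Fin n) (ZMod ℓ)) :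
    Submonoid (Matrix (Fin n) (Fin n) (ZMod ℓ)) :=
  Submonoid.closure {g | gᵀ * B * g = B ∧ g ^ ℓ = 1}

/-- package G: this subgroup has index at most two in the special orthogonal group -/
def GStmt : Prop := ∀ (ℓ : ℕ) [Fact ℓ.Prime], ℓ ≠ 2 → ∀ (n : ℕ), 3 ≤ n →
  ∀ B : Matrix (Fin n) (Fin n) (ZMod ℓ), Bᵀ = B → B.det ≠ 0 →
  ∀ a b : Matrix (Fin n) (Fin n) (ZMod ℓ), aᵀ * B * a = B → bᵀ * B * b = B → a.det = 1 → b.det = 1 →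
    a ∉ Om ℓ B → b ∉ Om ℓ B → a * b ∈ Om ℓ B

/-- package AB: groups of matrices modulo `p` of order a power of the prime `ℓ`, larger than the
size, are commutative -/
def ABStmt : Prop := ∀ (ℓ p : ℕ) [Fact ℓ.Prime] [Fact p.Prime], ℓ ≠ p → ∀ n : ℕ, n < ℓ →
  ∀ (R : Type) [Group R] [Finite R] (k : ℕ), Nat.card R = ℓ ^ k →
  ∀ f : R →* Matrix (Fin n) (Fin n) (ZMod p), ∀ x y : R, f x * f y = f y * f x

/-- package NA: a noncommutative unipotent group of isometries -/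
def NAStmt : Prop := ∀ (ℓ : ℕ) [Fact ℓ.Prime], ∀ n : ℕ, 5 ≤ n → n < ℓ →
  ∀ B : Matrix (Fin n) (Fin n) (ZMod ℓ), Bᵀ = B → B.det ≠ 0 →
  ∃ (R : Subgroup (Matrix (Fin n) (Fin n) (ZMod ℓ))ˣ) (k : ℕ), Nat.card R = ℓ ^ k ∧
    (∀ g ∈ R, (g : Matrix (Fin n) (Fin n) (ZMod ℓ))ᵀ * B * (g : Matrix (Fin n) (Fin n) (ZMod ℓ)) = B ∧
      (g : Matrix (Fin n) (Fin n) (ZMod ℓ)) ∈ Om ℓ B) ∧
    ∃ x ∈ R, ∃ y ∈ R, x * y ≠ y * x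

/-- package AD: independence of the images at different primes. `M ℓ` is a set of matrices over
`ℤ_ℓ` which is contained in the image of every closed normal subgroup with a reduction of order
divisible by `ℓ`, and which contains lifts of a noncommutative `ℓ`-group. -/
def ADStmt : Prop := ∀ (Γ : Type) [Group Γ] [TopologicalSpace Γ] [IsTopologicalGroup Γ]
  [CompactSpace Γ] (n : ℕ) (L : Set ℕ),
  (∀ ℓ ∈ L, n < ℓ) →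
  ∀ (β : ∀ (ℓ : ℕ) [Fact ℓ.Prime], Γ →* Matrix (Fin n) (Fin n) ℤ_[ℓ]),
  (∀ (ℓ : ℕ) [Fact ℓ.Prime], Continuous (β ℓ)) →
  ∀ (M : ∀ (ℓ : ℕ) [Fact ℓ.Prime], Set (Matrix (Fin n) (Fin n) ℤ_[ℓ])),
  (∀ (ℓ : ℕ) [Fact ℓ.Prime], ℓ ∈ L → ∀ h ∈ M ℓ, ∃ g : Γ, β ℓ g = h) →
  (∀ (ℓ : ℕ) [Fact ℓ.Prime], ℓ ∈ L → ∀ K : Subgroup Γ, K.Normal → IsClosed (K : Set Γ) →
    (∃ g ∈ K, red ℓ (β ℓ g) ≠ 1 ∧ red ℓ (β ℓ g) ^ ℓ = 1) →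
    ∀ h ∈ M ℓ, ∃ g ∈ K, β ℓ g = h) →
  (∀ (ℓ : ℕ) [Fact ℓ.Prime], ℓ ∈ L →
    ∃ (R : Subgroup (Matrix (Fin n) (Fin n) (ZMod ℓ))ˣ) (k : ℕ), Nat.card R = ℓ ^ k ∧
      (∀ g ∈ R, ∃ h ∈ M ℓ, red ℓ h = (g : Matrix (Fin n) (Fin n) (ZMod ℓ))) ∧
      ∃ x ∈ R, ∃ y ∈ R, x * y ≠ y * x) →
  ∀ h : ∀ (ℓ : ℕ) [Fact ℓ.Prime], Matrix (Fin n) (Fin n) ℤ_[ℓ],
    (∀ (ℓ : ℕ) [Fact ℓ.Prime], ℓ ∈ L → h ℓ ∈ M ℓ) →
    ∃ σ : Γ, ∀ (ℓ : ℕ) [Fact ℓ.Prime], ℓ ∈ L → β ℓ σ = h ℓ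

end Pool.Agent.T2H36.IX
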