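import Mathlib
import Pool.Agent.T2H36.IX.Defs

/-!
Package O: the order of the orthogonal group of a nondegenerate form over a finite field.
-/

open Matrix MvPolynomial

namespace Pool.Agent.T2H36.IX

namespace Ort

/-- A quadric not through the origin has at most `2 q ^ k` points in dimension `k + 1`. -/
theorem quad_count {F : Type} [Field F] [Fintype F] (k : ℕ) {V : Type}
    [AddCommGroup V] [Module F V] [Finite V] (B : V →ₗ[F] V →ₗ[F] F) (b : F) (hb : b ≠ 0)
    (hV : Module.finrank F V = k + 1) :
    Nat.card {x : V // B x x = b} ≤ 2 * Fintype.card F ^ k := by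
  classical
  have hfd : Module.Finite F V := Module.Finite.of_finite
  let v : Module.Basis (Fin (k + 1)) F V := Module.finBasisOfFinrankEq F V hV
  let p : MvPolynomial (Fin (k + 1)) F := ∑ i, ∑ j,
    MvPolynomial.C (B (v i) (v j)) * (MvPolynomial.X i * MvPolynomial.X j) - MvPolynomial.C b
  have hev : ∀ x : V, eval (v.equivFun x) p = B x x - b := by
    intro x
    have h1 : x = ∑ i, v.equivFun x i • v i := (v.sum_equivFun x).symm
    have h2 : B x x = ∑ i, ∑ j, v.equivFun x i * (v.equivFun x j * B (v i) (v j)) := by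
      conv_lhs => rw [h1]
      simp only [map_sum, LinearMap.sum_apply, map_smul, LinearMap.smul_apply, smul_eq_mul,
        Finset.mul_sum]
      rw [Finset.sum_comm]
      refine Finset.sum_congr rfl fun i _ => Finset.sum_congr rfl fun j _ => ?_
      ring
    rw [h2]
    simp only [p, map_sub, map_sum, map_mul, eval_C, eval_X]
    congr 1
    refine Finset.sum_congr rfl fun i _ => Finset.sum_congr rfl fun j _ => ?_
    ring
  have hp0 : p ≠ 0 := by
    intro h
    have h1 := hev 0
    rw [h] at h1
    simp at h1
    exact hb h1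
  have hdeg : p.totalDegree ≤ 2 := by
    refine (totalDegree_sub _ _).trans (max_le ?_ ?_)
    · refine totalDegree_finsetSum_le fun i _ => totalDegree_finsetSum_le fun j _ => ?_
      refine (totalDegree_mul _ _).trans ?_
      rw [totalDegree_C, zero_add]
      refine (totalDegree_mul _ _).trans ?_
      rw [totalDegree_X, totalDegree_X]
    · rw [totalDegree_C]; omega
  have hsz := schwartz_zippel_totalDegree hp0 (Finset.univ : Finset F)
  have hq : (0 : ℚ≥0) < (Fintype.card F : ℚ≥0) := by
    exact_mod_cast Fintype.card_pos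
  rw [Finset.card_univ, div_le_iff₀ (by positivity)] at hsz
  obtain ⟨T, hT⟩ : ∃ T, T = Finset.filter (fun f => eval f p = 0)
    (Fintype.piFinset fun _ : Fin (k + 1) => (Finset.univ : Finset F)) := ⟨_, rfl⟩
  rw [← hT] at hsz
  have h3 : Nat.card {x : V // B x x = b} ≤ T.card := by
    have hmem : ∀ x : {x : V // B x x = b}, v.equivFun x.1 ∈ T := by
      intro x
      rw [hT, Finset.mem_filter]
      refine ⟨Fintype.mem_piFinset.2 fun _ => Finset.mem_univ _, ?_⟩
      rw [hev, x.2, sub_self]
    have h4 := Nat.card_le_card_of_injective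
      (fun x : {x : V // B x x = b} => (⟨v.equivFun x.1, hmem x⟩ : T)) (fun x y h => by
        have h5 := congrArg Subtype.val h
        exact Subtype.ext (v.equivFun.injective h5))
    rwa [Nat.card_eq_fintype_card (α := T), Fintype.card_coe] at h4
  refine h3.trans ?_
  have h4 : (T.card : ℚ≥0) ≤ ((2 * Fintype.card F ^ k : ℕ) : ℚ≥0) := by
    refine hsz.trans ?_
    have h5 : (p.totalDegree : ℚ≥0) ≤ 2 := by exact_mod_cast hdeg
    calc (p.totalDegree : ℚ≥0) / (Fintype.card F) * (Fintype.card F : ℚ≥0) ^ (k + 1)
        ≤ 2 / (Fintype.card F) * (Fintype.card F : ℚ≥0) ^ (k + 1) := by gcongr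
      _ = _ := by
        push_cast
        rw [pow_succ]
        field_simp
  exact_mod_cast h4

/-- The number of orthogonal frames with given nonzero values. -/
theorem frames {F : Type} [Field F] [Fintype F] (k : ℕ) : ∀ {V : Type}
    [AddCommGroup V] [Module F V] [Finite V] (B : V →ₗ[F] V →ₗ[F] F) (b : Fin k → F),
    (∀ i, b i ≠ 0) → Module.finrank F V = k →
    Nat.card {v : Fin k → V // ∀ i j, B (v i) (v j) = if i = j then b i else 0} ≤
      2 ^ k * Fintype.card F ^ (k * (k - 1) / 2) := by
  classical
  induction k with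
  | zero =>
    intro V _ _ _ B b _ _
    have h1 : Subsingleton {v : Fin 0 → V // ∀ i j, B (v i) (v j) = if i = j then b i else 0} :=
      ⟨fun x y => Subtype.ext (Subsingleton.elim _ _)⟩
    have h2 := Finite.card_le_one_iff_subsingleton.2 h1
    simpa using h2
  | succ k ih =>
    intro V _ _ _ B b hb hV
    have hfd : Module.Finite F V := Module.Finite.of_finite
    have hfr : ∀ x : {x : V // B x x = b 0}, Module.finrank F (LinearMap.ker (B x.1)) = k := by
      intro x
      have h1 : B x.1 ≠ 0 := by
        intro h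
        have h2 := x.2
        rw [h] at h2
        exact hb 0 h2.symm
      have h2 := Module.Dual.finrank_ker_add_one_of_ne_zero (K := F) (f := B x.1) h1
      omega
    let W : {x : V // B x x = b 0} → Type := fun x =>
      {w : Fin k → LinearMap.ker (B x.1) // ∀ i j,
        (B.domRestrict₁₂ (LinearMap.ker (B x.1)) (LinearMap.ker (B x.1))) (w i) (w j) =
          if i = j then b i.succ else 0}
    have hW : ∀ x, Nat.card (W x) ≤ 2 ^ k * Fintype.card F ^ (k * (k - 1) / 2) := fun x =>
      ih _ (fun i => b i.succ) (fun i => hb _) (hfr x)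
    have hfinW : ∀ x, Finite (W x) := fun x => inferInstanceAs (Finite {w : Fin k → _ // _})
    let Φ : {v : Fin (k + 1) → V // ∀ i j, B (v i) (v j) = if i = j then b i else 0} →
        Σ x, W x := fun v => ⟨⟨v.1 0, by rw [v.2, if_pos rfl]⟩,
      ⟨fun i => ⟨v.1 i.succ, by
        rw [LinearMap.mem_ker, v.2, if_neg (Fin.succ_ne_zero i).symm]⟩, fun i j => by
        show B (v.1 i.succ) (v.1 j.succ) = _
        rw [v.2]
        simp only [Fin.succ_inj]⟩⟩
    have hinj : Function.Injective Φ := by
      intro v w h
      apply Subtype.ext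
      have h0 : v.1 0 = w.1 0 := congrArg (fun z : (Σ x, W x) => (z.1 : V)) h
      have hs : ∀ i : Fin k, v.1 i.succ = w.1 i.succ := fun i =>
        congrArg (fun z : (Σ x, W x) => ((z.2.1 i : LinearMap.ker (B z.1.1)) : V)) h
      funext i
      refine Fin.cases h0 (fun i => hs i) i
    have hft : Fintype {x : V // B x x = b 0} := Fintype.ofFinite _
    have hfs : Finite (Σ x, W x) := inferInstance
    have h1 := Nat.card_le_card_of_injective Φ hinj
    rw [Nat.card_sigma] at h1
    refine h1.trans ((Finset.sum_le_card_nsmul _ _ _ fun x _ => hW x).trans ?_)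
    rw [Finset.card_univ, ← Nat.card_eq_fintype_card, smul_eq_mul]
    have h2 := quad_count k B (b 0) (hb 0) hV
    refine (Nat.mul_le_mul_right _ h2).trans (le_of_eq ?_)
    have h3 : (k + 1) * (k + 1 - 1) / 2 = k + k * (k - 1) / 2 := by
      rw [Nat.add_sub_cancel]
      rcases k with _ | k
      · rfl
      · rw [Nat.add_sub_cancel]
        have e : (k + 1 + 1) * (k + 1) = (k + 1) * k + 2 * (k + 1) := by ring
        rw [e, Nat.add_mul_div_left _ _ (by norm_num)]
        ring
    rw [h3, pow_succ, pow_add]
    ring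

end Ort

open Ort

theorem o_stmt : OStmt := by
  intro F _ _ h2 n B hB hdet
  classical
  have hinv : Invertible (2 : F) := invertibleOfNonzero h2
  let β : LinearMap.BilinForm F (Fin n → F) := Matrix.toBilin' B
  have hβ : ∀ x y, β x y = x ⬝ᵥ B *ᵥ y := fun x y => Matrix.toBilin'_apply' B x y
  have hsymm : LinearMap.IsSymm β := by
    constructor
    intro x y
    show β x y = β y x
    rw [hβ, hβ, dotProduct_mulVec, ← mulVec_transpose, hB, dotProduct_comm]
  have hnd : β.Nondegenerate := LinearMap.BilinForm.nondegenerate_toBilin'_iff_det_ne_zero.2 hdet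
  obtain ⟨v', hv'⟩ := LinearMap.BilinForm.exists_orthogonal_basis hsymm
  have hfr : Module.finrank F (Fin n → F) = n := by simp
  obtain ⟨v, hv⟩ : ∃ v : Module.Basis (Fin n) F (Fin n → F), β.IsOrthoᵢ v := by
    refine ⟨v'.reindex (finCongr hfr), fun i j hij => ?_⟩
    show β (v'.reindex (finCongr hfr) i) (v'.reindex (finCongr hfr) j) = 0
    rw [Module.Basis.reindex_apply, Module.Basis.reindex_apply]
    exact hv' fun h => hij ((finCongr hfr).symm.injective h)
  have hne := hv.not_isOrtho_basis_self_of_separatingLeft hnd.1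
  have hfin : Finite (Fin n → F) := inferInstance
  have h3 := frames n β (fun i => β (v i) (v i)) hne hfr
  rw [← Nat.card_coe_set_eq]
  refine le_trans ?_ h3
  refine Nat.card_le_card_of_injective (fun g => ⟨fun i => g.1 *ᵥ v i, fun i j => ?_⟩) ?_
  · have h4 : β (g.1 *ᵥ v i) (g.1 *ᵥ v j) = β (v i) (v j) := by
      rw [hβ, hβ, mulVec_mulVec, ← vecMul_transpose, ← dotProduct_mulVec, mulVec_mulVec,
        ← mul_assoc, g.2]
    rw [h4]
    by_cases hij : i = j
    · subst hij; rw [if_pos rfl]
    · rw [if_neg hij]; exact hv hij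
  · intro g h hgh
    apply Subtype.ext
    have h4 : ∀ i, g.1 *ᵥ v i = h.1 *ᵥ v i := fun i => congrFun (congrArg Subtype.val hgh) i
    apply Matrix.toLin'.injective
    refine v.ext fun i => ?_
    rw [Matrix.toLin'_apply, Matrix.toLin'_apply]
    exact h4 i

end Pool.Agent.T2H36.IX
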