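import Pool.Agent.T2H36.IX.A4
import Pool.Agent.T2H36.IX.B1
import Pool.Agent.T2H36.IX.B2
import Pool.Agent.T2H36.IX.B3
import Pool.Agent.T2H36.IX.C
import Pool.Agent.T2H36.IX.O
import Pool.Agent.T2H36.IX.Defs2

set_option autoImplicit false
set_option linter.unusedSectionVars false

/-!
Project IX, assembly, part 4: the theorem modulo `ℓ`: images of closed normal subgroups.
-/

open Matrix Polynomial

namespace Pool.Agent.T2H36.IX

section so

variable {F : Type} [Field F] {n : ℕ}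

/-- the Lie algebra of the form has dimension at least `n (n - 1) / 2` -/
theorem finrank_so {B : Matrix (Fin n) (Fin n) F} (hB : Bᵀ = B) (hdet : B.det ≠ 0)
    {V : Submodule F (Matrix (Fin n) (Fin n) F)}
    (hV : ∀ X : Matrix (Fin n) (Fin n) F, Xᵀ * B + B * X = 0 → X ∈ V) :
    n * (n - 1) / 2 ≤ Module.finrank F V := by
  classical
  have hBu : IsUnit B.det := isUnit_iff_ne_zero.2 hdet
  have h1 : B * B⁻¹ = 1 := Matrix.mul_nonsing_inv _ hBu
  let I := {p : Fin n × Fin n // p.1 < p.2}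
  let φ : I → Matrix (Fin n) (Fin n) F := fun p => ee p.1.1 p.1.2
  have hBT : (B⁻¹)ᵀ = B⁻¹ := by rw [transpose_nonsing_inv, hB]
  have hmem : ∀ p, B⁻¹ * φ p ∈ V := by
    intro p
    apply hV
    rw [transpose_mul, ee_transpose, hBT, ← mul_assoc, h1, one_mul, neg_mul, neg_mul, mul_assoc,
      Matrix.nonsing_inv_mul _ hBu, mul_one, neg_add_cancel]
  have hli : LinearIndependent F φ := by
    rw [linearIndependent_iff']
    intro s g hg p hp
    have h2 := congrFun (congrFun hg p.1.1) p.1.2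
    rw [Matrix.sum_apply, Finset.sum_eq_single p] at h2
    · have h3 : (φ p) p.1.1 p.1.2 = 1 := by
        show (Matrix.single p.1.1 p.1.2 (1 : F) - Matrix.single p.1.2 p.1.1 1 :
          Matrix (Fin n) (Fin n) F) p.1.1 p.1.2 = 1
        rw [Matrix.sub_apply, Matrix.single_apply_same, Matrix.single_apply_of_ne, sub_zero]
        rintro ⟨h4, -⟩
        exact p.2.ne' h4
      rw [Matrix.smul_apply, h3, smul_eq_mul, mul_one] at h2
      exact h2
    · intro q hq hqp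
      rw [Matrix.smul_apply]
      have h3 : (φ q) p.1.1 p.1.2 = 0 := by
        show (Matrix.single q.1.1 q.1.2 (1 : F) - Matrix.single q.1.2 q.1.1 1 :
          Matrix (Fin n) (Fin n) F) p.1.1 p.1.2 = 0
        rw [Matrix.sub_apply, Matrix.single_apply_of_ne, Matrix.single_apply_of_ne, sub_zero]
        · rintro ⟨h4, h5⟩
          have h6 := q.2
          have h7 := p.2
          rw [h4, h5] at h6
          exact lt_asymm h6 h7
        · rintro ⟨h4, h5⟩
          exact hqp (Subtype.ext (Prod.ext h4 h5))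
      rw [h3, smul_zero]
    · intro h
      exact absurd hp h
  have hli2 : LinearIndependent F (fun p : I => (⟨B⁻¹ * φ p, hmem p⟩ : V)) := by
    have h2 : LinearIndependent F (fun p : I => B⁻¹ * φ p) := by
      have h3 := hli.map' (LinearMap.mulLeft F B⁻¹) (LinearMap.ker_eq_bot.2 (by
        intro a b hab
        have hab' : B⁻¹ * a = B⁻¹ * b := hab
        have h4 := congrArg (fun z => B * z) hab'
        beta_reduce at h4
        rwa [← mul_assoc, ← mul_assoc, h1, one_mul, one_mul] at h4))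
      exact h3
    exact LinearIndependent.of_comp V.subtype h2
  have hcard := hli2.fintype_card_le_finrank
  refine le_trans (le_of_eq ?_) hcard
  have h5 : Fintype.card I = (Finset.univ.filter fun p : Fin n × Fin n => p.1 < p.2).card := by
    rw [Fintype.card_subtype]
  rw [h5]
  have h6 : ∀ m : ℕ, (Finset.univ.filter fun p : Fin m × Fin m => p.1 < p.2).card = m.choose 2 := by
    intro m
    have h7 := Finset.card_powersetCard 2 (Finset.univ : Finset (Fin m))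
    rw [Finset.card_univ, Fintype.card_fin] at h7
    rw [← h7]
    refine Finset.card_bij (fun p _ => {p.1, p.2}) ?_ ?_ ?_
    · intro p hp
      rw [Finset.mem_filter] at hp
      rw [Finset.mem_powersetCard]
      exact ⟨Finset.subset_univ _, Finset.card_pair hp.2.ne⟩
    · intro p hp q hq hpq
      rw [Finset.mem_filter] at hp hq
      have h8 : p.1 ∈ ({q.1, q.2} : Finset (Fin m)) := by rw [← hpq]; simp
      have h9 : p.2 ∈ ({q.1, q.2} : Finset (Fin m)) := by rw [← hpq]; simp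
      have h10 := hp.2
      have h11 := hq.2
      rw [Finset.mem_insert, Finset.mem_singleton] at h8 h9
      rcases h8 with h8 | h8 <;> rcases h9 with h9 | h9
      · rw [h8, h9] at h10; exact absurd h10 (lt_irrefl _)
      · exact Prod.ext h8 h9
      · rw [h8, h9] at h10; exact absurd h10 (lt_asymm h11)
      · rw [h8, h9] at h10; exact absurd h10 (lt_irrefl _)
    · intro s hs
      rw [Finset.mem_powersetCard] at hs
      obtain ⟨a, b, hab, rfl⟩ := Finset.card_eq_two.1 hs.2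
      rcases lt_or_gt_of_ne hab with h8 | h8
      · exact ⟨(a, b), by simp [h8], rfl⟩
      · exact ⟨(b, a), by simp [h8], Finset.pair_comm _ _⟩
  rw [h6, Nat.choose_two_right]

end so

section main

variable {ℓ : ℕ} [hp : Fact ℓ.Prime] {n : ℕ} {Γ : Type} [Group Γ]

/-- the reduction of a representation -/
noncomputable def rh (β : Γ →* Matrix (Fin n) (Fin n) ℤ_[ℓ]) : Γ →* Matrix (Fin n) (Fin n) (ZMod ℓ) where
  toFun g := red ℓ (β g)
  map_one' := by rw [map_one]; exact Matrix.map_one _ (map_zero _) (map_one _)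
  map_mul' a b := by rw [map_mul]; exact Lft.red_mul _ _

theorem rh_apply (β : Γ →* Matrix (Fin n) (Fin n) ℤ_[ℓ]) (g : Γ) : rh β g = red ℓ (β g) := rfl

/-- a subgroup of index less than `ℓ` contains all elements of order `ℓ` -/
theorem mem_of_index {A : Type} [Group A] {H O : Subgroup A} (hfin : H.relIndex O ≠ 0)
    (hlt : H.relIndex O < ℓ) {x : A} (hx : x ∈ O) (hxl : x ^ ℓ = 1) : x ∈ H := by
  obtain ⟨m, hm0, hmle, hm⟩ := Subgroup.exists_pow_mem_of_relIndex_ne_zero hfin hx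
  have hcop : Nat.Coprime m ℓ :=
    Nat.Coprime.symm ((Nat.Prime.coprime_iff_not_dvd hp.out).2 fun h =>
      absurd (Nat.le_of_dvd hm0 h) (by omega))
  have h1 : x ^ ((m : ℤ) * Nat.gcdA m ℓ + ℓ * Nat.gcdB m ℓ) = x := by
    rw [← Nat.gcd_eq_gcd_ab, Nat.Coprime.gcd_eq_one hcop]
    simp
  rw [← h1, _root_.zpow_add, _root_.zpow_mul, _root_.zpow_mul, _root_.zpow_natCast,
    _root_.zpow_natCast, hxl, _root_.one_zpow, mul_one]
  exact Subgroup.zpow_mem _ hm.1 _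

/-- the isometry group -/
def isoG (B : Matrix (Fin n) (Fin n) (ZMod ℓ)) : Subgroup (Matrix (Fin n) (Fin n) (ZMod ℓ))ˣ where
  carrier := {g | (g : Matrix (Fin n) (Fin n) (ZMod ℓ))ᵀ * B * g = B}
  one_mem' := by simp
  mul_mem' := by
    intro a b ha hb
    simp only [Set.mem_ofPred_eq, Units.val_mul, transpose_mul] at *
    calc (b : Matrix (Fin n) (Fin n) (ZMod ℓ))ᵀ * (a : Matrix (Fin n) (Fin n) (ZMod ℓ))ᵀ * B *
        (a * b) = (b : Matrix (Fin n) (Fin n) (ZMod ℓ))ᵀ *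
          ((a : Matrix (Fin n) (Fin n) (ZMod ℓ))ᵀ * B * a) * b := by simp only [mul_assoc]
      _ = B := by rw [ha, hb]
  inv_mem' := by
    intro a ha
    simp only [Set.mem_ofPred_eq] at *
    have h1 : (a : Matrix (Fin n) (Fin n) (ZMod ℓ)) * (a⁻¹ : (Matrix (Fin n) (Fin n) (ZMod ℓ))ˣ) = 1 :=
      a.mul_inv
    have h2 : ((a⁻¹ : (Matrix (Fin n) (Fin n) (ZMod ℓ))ˣ) : Matrix (Fin n) (Fin n) (ZMod ℓ))ᵀ *
        (a : Matrix (Fin n) (Fin n) (ZMod ℓ))ᵀ = 1 := by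
      rw [← transpose_mul, h1, transpose_one]
    calc ((a⁻¹ : (Matrix (Fin n) (Fin n) (ZMod ℓ))ˣ) : Matrix (Fin n) (Fin n) (ZMod ℓ))ᵀ * B *
        (a⁻¹ : (Matrix (Fin n) (Fin n) (ZMod ℓ))ˣ)
        = ((a⁻¹ : (Matrix (Fin n) (Fin n) (ZMod ℓ))ˣ) : Matrix (Fin n) (Fin n) (ZMod ℓ))ᵀ *
          ((a : Matrix (Fin n) (Fin n) (ZMod ℓ))ᵀ * B * a) *
          (a⁻¹ : (Matrix (Fin n) (Fin n) (ZMod ℓ))ˣ) := by rw [ha]
      _ = (((a⁻¹ : (Matrix (Fin n) (Fin n) (ZMod ℓ))ˣ) : Matrix (Fin n) (Fin n) (ZMod ℓ))ᵀ *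
          (a : Matrix (Fin n) (Fin n) (ZMod ℓ))ᵀ) * B *
          (a * (a⁻¹ : (Matrix (Fin n) (Fin n) (ZMod ℓ))ˣ)) := by simp only [mul_assoc]
      _ = B := by rw [h1, h2, one_mul, mul_one]

theorem mem_isoG {B : Matrix (Fin n) (Fin n) (ZMod ℓ)} {g : (Matrix (Fin n) (Fin n) (ZMod ℓ))ˣ} :
    g ∈ isoG B ↔ (g : Matrix (Fin n) (Fin n) (ZMod ℓ))ᵀ * B * g = B := Iff.rfl

/-- **images of normal subgroups with an element of order `ℓ`** -/
theorem norm_main (n : ℕ) (hn : 5 ≤ n) : ∃ C : ℕ, 2 * n ≤ C ∧ ∀ (ℓ : ℕ) [Fact ℓ.Prime], C < ℓ →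
    ∀ (Γ : Type) [Group Γ] [TopologicalSpace Γ] [IsTopologicalGroup Γ] [CompactSpace Γ]
    (β : Γ →* Matrix (Fin n) (Fin n) ℤ_[ℓ]), Continuous β →
    ∀ B : Matrix (Fin n) (Fin n) ℤ_[ℓ], Bᵀ = B → (red ℓ B).det ≠ 0 →
    (∀ g, (β g)ᵀ * B * β g = B) →
    ∀ (d : ℕ) (g₀ : Γ) (mu : Fin n → AlgebraicClosure (ZMod ℓ)) (i₀ : Fin n) (a : ZMod ℓ),
    2 ^ n ≤ d → Sim (rh β) (AlgebraicClosure (ZMod ℓ)) d g₀ mu i₀ a → Free mu →
    ∀ K : Subgroup Γ, K.Normal → IsClosed (K : Set Γ) →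
    (∃ g ∈ K, red ℓ (β g) ≠ 1 ∧ red ℓ (β g) ^ ℓ = 1) →
    (∀ x ∈ Om ℓ (red ℓ B), ∃ g ∈ K, red ℓ (β g) = x) ∧
    ∀ h : Matrix (Fin n) (Fin n) ℤ_[ℓ], hᵀ * B * h = B → red ℓ h ∈ Om ℓ (red ℓ B) →
    ∃ g ∈ K, β g = h := by
  obtain ⟨c, hc⟩ := e_stmt c_stmt n (n * (n - 1) / 2)
  refine ⟨2 * n + 2 ^ n * c, by omega, ?_⟩
  intro ℓ hℓ hCℓ Γ _ _ _ _ β hβ B hB hdet hiso d g₀ mu i₀ a hd hSim hFree K hKn hKc hKel
  classical
  have hnℓ : n < ℓ := by omega
  have h2ℓ : (2 : ZMod ℓ) ≠ 0 := by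
    intro h2
    have h3 : ((2 : ℕ) : ZMod ℓ) = 0 := by exact_mod_cast h2
    rw [ZMod.natCast_eq_zero_iff] at h3
    exact absurd (Nat.le_of_dvd (by norm_num) h3) (by omega)
  have hisor : ∀ g, (red ℓ (β g))ᵀ * red ℓ B * red ℓ (β g) = red ℓ B := by
    intro g
    have h1 := congrArg (red ℓ) (hiso g)
    rw [Lft.red_mul, Lft.red_mul] at h1
    exact h1
  have hBr : (red ℓ B)ᵀ = red ℓ B := congrArg (red ℓ) hB
  set S : Set (Matrix (Fin n) (Fin n) (ZMod ℓ)) :=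
    {N | N ^ n = 0 ∧ ∃ g ∈ K, red ℓ (β g) = tex N} with hSdef
  have hSlie : ∀ N ∈ S, Nᵀ * red ℓ B + red ℓ B * N = 0 := by
    rintro N ⟨hN, g, -, hg⟩
    exact log_lie hnℓ (by omega) hdet hN (by rw [← hg]; exact hisor g)
  have hinv : ∀ g, rh β g⁻¹ * rh β g = 1 := fun g => by rw [← map_mul, inv_mul_cancel, map_one]
  have hSconj : ∀ g, ∀ N ∈ S, rh β g * N * rh β g⁻¹ ∈ S := by
    rintro g N ⟨hN, x, hx, hxN⟩
    refine ⟨conj_pow_zero (hinv g) hN, g * x * g⁻¹, hKn.conj_mem x hx g, ?_⟩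
    rw [tex_conj (hinv g), ← hxN]
    show rh β (g * x * g⁻¹) = rh β g * rh β x * rh β g⁻¹
    rw [map_mul, map_mul]
  have hSne : ∃ N ∈ S, N ≠ 0 := by
    obtain ⟨g, hg, hg1, hgl⟩ := hKel
    have : Nonempty (Fin n) := ⟨⟨0, by omega⟩⟩
    have h1 : (red ℓ (β g) - 1) ^ ℓ = 0 := by
      rw [sub_pow_char_of_commute ℓ (Commute.one_right _), one_pow, hgl, sub_self]
    have h2 : (red ℓ (β g) - 1) ^ n = 0 := by
      have h3 : IsNilpotent (red ℓ (β g) - 1) := ⟨ℓ, h1⟩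
      have h4 := Matrix.isNilpotent_charpoly_sub_pow_of_isNilpotent h3
      have h5 := Matrix.aeval_self_charpoly (red ℓ (β g) - 1)
      have h6 := h4.eq_zero
      rw [sub_eq_zero] at h6
      rw [h6, map_pow, aeval_X, Fintype.card_fin] at h5
      exact h5
    obtain ⟨N, hN, hNx⟩ := tex_surj hnℓ (by omega) h2
    refine ⟨N, ⟨hN, g, hg, hNx.symm⟩, ?_⟩
    rintro rfl
    rw [tex_zero' (by omega)] at hNx
    exact hg1 hNx.symm
  have hirr : ∀ (U : Subgroup Γ) (W : Submodule (AlgebraicClosure (ZMod ℓ))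
      (Fin n → AlgebraicClosure (ZMod ℓ))), U.index ≠ 0 → U.index ≤ 2 ^ n →
      (∀ g ∈ U, ∀ w ∈ W, bc (AlgebraicClosure (ZMod ℓ)) (rh β g) *ᵥ w ∈ W) → W = ⊥ ∨ W = ⊤ :=
    fun U W hU0 hU hW => hSim.abs hU0 (hU.trans hd) hW
  have hspan : ∀ X : Matrix (Fin n) (Fin n) (ZMod ℓ), Xᵀ * red ℓ B + red ℓ B * X = 0 →
      X ∈ Submodule.span (ZMod ℓ) S := fun X hX =>
    lie_gen h2ℓ hn hBr hdet hisor hirr hSim.ch hFree hSlie hSconj hSne hX
  -- the congruence kernel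
  have hKcomp : CompactSpace K := isCompact_iff_compactSpace.1 hKc.isCompact
  have hcong : ∀ h : Matrix (Fin n) (Fin n) ℤ_[ℓ], hᵀ * B * h = B → red ℓ h = 1 →
      ∃ g ∈ K, β g = h := by
    intro h hh hr
    obtain ⟨g, hg⟩ := k_stmt ℓ n (by omega) (by omega) K (β.comp K.subtype)
      (hβ.comp continuous_subtype_val) B (fun g => hiso g) (by
        intro X hX
        refine Submodule.span_mono ?_ (hspan X hX)
        rintro N ⟨hN, g, hg, hgN⟩
        exact ⟨hN, ⟨g, hg⟩, hgN⟩) h hh hr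
    exact ⟨g, g.2, hg⟩
  -- the index modulo `ℓ`
  set H : Subgroup (Matrix (Fin n) (Fin n) (ZMod ℓ))ˣ := K.map (rh β).toHomUnits with hH
  have hHO : H ≤ isoG (red ℓ B) := by
    rintro x ⟨g, -, rfl⟩
    exact hisor g
  have hcardH : ℓ ^ (n * (n - 1) / 2) ≤ c * Nat.card H := by
    obtain ⟨f, hfS, -, hfli⟩ := Submodule.exists_fun_fin_finrank_span_eq (ZMod ℓ) S
    have hdim : n * (n - 1) / 2 ≤ Module.finrank (ZMod ℓ) (Submodule.span (ZMod ℓ) S) :=
      finrank_so hBr hdet hspan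
    let S' : Set (Matrix (Fin n) (Fin n) (ZMod ℓ)) := (fun g => rh β g) '' (K : Set Γ)
    have h1 := hc ℓ hnℓ (fun i => f (Fin.castLE hdim i)) (fun i => (hfS _).1)
      (hfli.comp _ (Fin.castLE_injective hdim)) S' ⟨1, K.one_mem, map_one _⟩ (by
        rintro _ ⟨x, hx, rfl⟩ _ ⟨y, hy, rfl⟩
        exact ⟨x * y, K.mul_mem hx hy, map_mul _ _ _⟩) (by
        intro i
        obtain ⟨-, g, hg, hg'⟩ := hfS (Fin.castLE hdim i)
        exact ⟨g, hg, hg'⟩)
    refine h1.trans (Nat.mul_le_mul_left _ (le_of_eq ?_))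
    have h2 : S' = (fun u : (Matrix (Fin n) (Fin n) (ZMod ℓ))ˣ =>
        (u : Matrix (Fin n) (Fin n) (ZMod ℓ))) '' (H : Set _) := by
      ext x
      constructor
      · rintro ⟨g, hg, rfl⟩
        exact ⟨(rh β).toHomUnits g, ⟨g, hg, rfl⟩, rfl⟩
      · rintro ⟨_, ⟨g, hg, rfl⟩, rfl⟩
        exact ⟨g, hg, rfl⟩
    rw [h2, Set.ncard_image_of_injective _ Units.val_injective]
    rfl
  have hcardO : Nat.card (isoG (red ℓ B)) ≤ 2 ^ n * ℓ ^ (n * (n - 1) / 2) := by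
    have h1 := o_stmt (ZMod ℓ) h2ℓ n (red ℓ B) hBr hdet
    rw [ZMod.card] at h1
    refine le_trans (le_of_eq ?_) h1
    have h2 : {g : Matrix (Fin n) (Fin n) (ZMod ℓ) | gᵀ * red ℓ B * g = red ℓ B} =
        (fun u : (Matrix (Fin n) (Fin n) (ZMod ℓ))ˣ =>
        (u : Matrix (Fin n) (Fin n) (ZMod ℓ))) '' (isoG (red ℓ B) : Set _) := by
      ext x
      constructor
      · intro hx
        have hx' : xᵀ * red ℓ B * x = red ℓ B := hx
        have h3 : IsUnit x := by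
          rw [Matrix.isUnit_iff_isUnit_det, isUnit_iff_ne_zero]
          intro h4
          have h5 := congrArg Matrix.det hx'
          rw [det_mul, h4, mul_zero] at h5
          exact hdet h5.symm
        obtain ⟨u, rfl⟩ := h3
        exact ⟨u, hx', rfl⟩
      · rintro ⟨u, hu, rfl⟩
        exact hu
    rw [h2, Set.ncard_image_of_injective _ Units.val_injective]
    rfl
  have hlt : H.relIndex (isoG (red ℓ B)) < ℓ := by
    have h1 : H.relIndex (isoG (red ℓ B)) * Nat.card H = Nat.card (isoG (red ℓ B)) := by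
      have h2 := Subgroup.index_mul_card (H.subgroupOf (isoG (red ℓ B)))
      rw [Nat.card_congr (Subgroup.subgroupOfEquivOfLe hHO).toEquiv] at h2
      exact h2
    have hHpos : 0 < Nat.card H := Nat.card_pos
    by_contra hge
    rw [not_lt] at hge
    have h2 : ℓ * Nat.card H ≤ 2 ^ n * (c * Nat.card H) := by
      calc ℓ * Nat.card H ≤ H.relIndex (isoG (red ℓ B)) * Nat.card H := Nat.mul_le_mul_right _ hge
        _ ≤ 2 ^ n * ℓ ^ (n * (n - 1) / 2) := by rw [h1]; exact hcardO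
        _ ≤ 2 ^ n * (c * Nat.card H) := Nat.mul_le_mul_left _ hcardH
    rw [← mul_assoc] at h2
    have h3 := Nat.le_of_mul_le_mul_right h2 hHpos
    omega
  have hfin : H.relIndex (isoG (red ℓ B)) ≠ 0 := Subgroup.index_ne_zero_of_finite
  have hOm : ∀ x ∈ Om ℓ (red ℓ B), ∃ g ∈ K, red ℓ (β g) = x := by
    intro x hx
    induction hx using Submonoid.closure_induction with
    | mem x hx =>
      have h3 : IsUnit x := by
        rw [Matrix.isUnit_iff_isUnit_det, isUnit_iff_ne_zero]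
        intro h4
        have h5 := congrArg Matrix.det hx.1
        rw [det_mul, h4, mul_zero] at h5
        exact hdet h5.symm
      obtain ⟨u, rfl⟩ := h3
      obtain ⟨g, hg, hg'⟩ := mem_of_index hfin hlt (x := u) hx.1 (Units.ext (by
        rw [Units.val_pow_eq_pow_val]; exact hx.2))
      exact ⟨g, hg, congrArg Units.val hg'⟩
    | one => exact ⟨1, K.one_mem, (rh β).map_one⟩
    | mul x y _ _ hx hy =>
      obtain ⟨g, hg, rfl⟩ := hx
      obtain ⟨g', hg', rfl⟩ := hy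
      exact ⟨g * g', K.mul_mem hg hg', (rh β).map_mul _ _⟩
  refine ⟨hOm, ?_⟩
  intro h hh hr
  obtain ⟨g, hg, hgr⟩ := hOm _ hr
  have hgg : β g * β g⁻¹ = 1 := by rw [← map_mul, mul_inv_cancel, map_one]
  have hgg' : β g⁻¹ * β g = 1 := by rw [← map_mul, inv_mul_cancel, map_one]
  obtain ⟨g', hg', hg''⟩ := hcong (h * β g⁻¹) (by
    rw [transpose_mul]
    calc (β g⁻¹)ᵀ * hᵀ * B * (h * β g⁻¹) = (β g⁻¹)ᵀ * (hᵀ * B * h) * β g⁻¹ := by
          simp only [mul_assoc]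
      _ = B := by rw [hh, hiso]) (by
    rw [Lft.red_mul, ← hgr, ← Lft.red_mul, hgg]
    exact Matrix.map_one _ (map_zero _) (map_one _))
  exact ⟨g' * g, K.mul_mem hg' hg, by rw [map_mul, hg'', mul_assoc, hgg', mul_one]⟩

/-- **an element of order `ℓ`** -/
theorem exists_ord (n : ℕ) (hn : 2 ≤ n) : ∃ J : ℕ, ∀ (ℓ : ℕ) [Fact ℓ.Prime],
    ∀ (Γ : Type) [Group Γ] (β : Γ →* Matrix (Fin n) (Fin n) ℤ_[ℓ]) (d : ℕ) (g₀ : Γ)
    (mu : Fin n → AlgebraicClosure (ZMod ℓ)) (i₀ : Fin n) (a : ZMod ℓ),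
    J ≤ d → Sim (rh β) (AlgebraicClosure (ZMod ℓ)) d g₀ mu i₀ a →
    ∃ g, red ℓ (β g) ≠ 1 ∧ red ℓ (β g) ^ ℓ = 1 := by
  obtain ⟨J, hJ⟩ := ell_dvd n hn
  refine ⟨J, fun ℓ _ Γ _ β d g₀ mu i₀ a hd hSim => ?_⟩
  have h1 := hJ ℓ Γ (rh β) fun U hU0 hU X hX => hSim.comm hU0 (hU.trans hd) hX
  obtain ⟨⟨x, g, hg⟩, hx⟩ := exists_prime_orderOf_dvd_card' ℓ h1
  refine ⟨g, ?_, ?_⟩
  · intro h2
    have h3 : x = 1 := by
      rw [← hg]
      exact Units.ext h2
    subst h3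
    have h4 : (⟨1, ⟨g, hg⟩⟩ : (rh β).toHomUnits.range) = 1 := rfl
    rw [h4, orderOf_one] at hx
    exact (Fact.out : ℓ.Prime).one_lt.ne hx
  · have h2 := pow_orderOf_eq_one (⟨x, ⟨g, hg⟩⟩ : (rh β).toHomUnits.range)
    rw [hx] at h2
    have h3 : x ^ ℓ = 1 := congrArg Subtype.val h2
    have h4 := congrArg Units.val h3
    rw [Units.val_pow_eq_pow_val, ← hg] at h4
    exact h4

end main

end Pool.Agent.T2H36.IX
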