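import Pool.Agent.T2H36.IX.Defs2

set_option autoImplicit false

/-!
Project IX (helper36), third round: irreducibility of the subgroup generated by the isometries of
order `ℓ`. Self-contained over Mathlib.
-/

open Matrix Polynomial

namespace Pool.Agent.T2H36.IX

/-- package IR: no proper subspace is stable under the isometries of order dividing `ℓ` -/
def IRStmt : Prop := ∀ (ℓ : ℕ) [Fact ℓ.Prime], ℓ ≠ 2 → ∀ n : ℕ, 3 ≤ n →
  ∀ B : Matrix (Fin n) (Fin n) (ZMod ℓ), Bᵀ = B → B.det ≠ 0 →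
  ∀ W : Submodule (ZMod ℓ) (Fin n → ZMod ℓ),
    (∀ g : Matrix (Fin n) (Fin n) (ZMod ℓ), gᵀ * B * g = B → g ^ ℓ = 1 → ∀ w ∈ W, g *ᵥ w ∈ W) →
    W = ⊥ ∨ W = ⊤

end Pool.Agent.T2H36.IX
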