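import Pool.Agent.T2H36.IX.F7
import Pool.Agent.R932.OP.OrthE

set_option autoImplicit false
set_option linter.unusedSectionVars false
set_option linter.style.haveILetI false

/-!
Project IX, part E1: even rank; the places (the construction in `densityE` of the starting files).
-/

open Matrix Polynomial Filter Topology NumberField IsDedekindDomain
open Pool.Agent.Y142.ZO Pool.Agent.Y142.ZI
open Pool.Agent.Y142.ZS (Generic NiceP restrict0 nice_of_p)
open Pool.Agent.Y142.ZD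

namespace Pool.Agent.T2H36.IX

section
variable {K : Type} [Field K] [NumberField K] {N : ℕ} {S : Set (HeightOneSpectrum (𝓞 K))}
  {P : HeightOneSpectrum (𝓞 K) → ℚ[X]}

/-- the places for the even rank case -/
theorem keyE {n : ℕ} (hn : 4 ≤ n) (hN : N = 2 * n)
    (hMULTI : S_MULTI) (hFROB : S_FROB)
    (hCHARE : S_CHARE) (hKRQ : S_KRQ) (hFDA : S_FDA) (hFDB : S_FDB) (hTYPD2 : S_TYPD2)
    (hTYPD3 : S_TYPD3) (hNR : S_NR) (hTAME : S_TAME) (hGEND : S_GEND) (hCLD : S_CLD)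
    (hINT : S_INT) (hS : S.Finite)
    (ρ : ∀ (ℓ : ℕ) [Fact ℓ.Prime], GK K →* Matrix (Fin N) (Fin N) ℚ_[ℓ])
    (B : ∀ (ℓ : ℕ) [Fact ℓ.Prime], Matrix (Fin N) (Fin N) ℚ_[ℓ])
    (hsys : ∀ (ℓ : ℕ) [Fact ℓ.Prime], Orthogonal K N ℓ (ρ ℓ) (B ℓ) S P)
    (hinf : ∀ b : ℕ, ∃ ℓ : ℕ, b < ℓ ∧ ∃ _ : Fact ℓ.Prime, FullLie ℓ (ρ ℓ) (B ℓ))
    (hevb : ∃ b : ℕ, ∀ ℓ : ℕ, b < ℓ → ∀ _ : Fact ℓ.Prime, Even (Padic.valuation (B ℓ).det))
    (M : IntermediateField ℚ QQ) (hM : FiniteDimensional ℚ M) :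
      ∃ v : HeightOneSpectrum (𝓞 K), GenO S P v ∧ (P v).natDegree = N ∧
        (∀ (d : ℕ) (g : GK ℚ), 0 < d → d < N → ∃ h : GK ℚ, (∀ x ∈ M, h x = x) ∧
          g * h ∈ Cl (P v) d) ∧
        (∀ g : GK ℚ, ∃ h : GK ℚ, (∀ x ∈ M, h x = x) ∧ g * h ∈ Fx (P v)) := by
  classical
  obtain ⟨be, hbe⟩ := hevb
  obtain ⟨f, hf, hMf, b, hb⟩ := hINT M hM
  set L : ℕ := 4 * ((n - 1) * (n - 2)) with hLdef
  have hLpos : 0 < L := by
    have h1 : 0 < n - 1 := by omega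
    have h2 : 0 < n - 2 := by omega
    positivity
  -- four primes
  set 𝒢 : Set ℕ := {ℓ | max (max b be) (max N L) < ℓ ∧ ∃ _ : Fact ℓ.Prime, FullLie ℓ (ρ ℓ) (B ℓ)}
    with h𝒢
  have h𝒢inf : 𝒢.Infinite := by
    apply Set.infinite_of_forall_exists_gt
    intro a
    obtain ⟨ℓ, hℓ, hp, hfull⟩ := hinf (max a (max (max b be) (max N L)))
    rw [max_lt_iff] at hℓ
    exact ⟨ℓ, ⟨hℓ.2, hp, hfull⟩, hℓ.1⟩
  let e : ℕ ↪ 𝒢 := h𝒢inf.natEmbedding
  let p : Fin 4 → ℕ := fun i => (e i.1).1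
  have hpinj : Function.Injective p := by
    intro i j hij
    exact Fin.ext (e.injective (Subtype.ext hij))
  have hpmem : ∀ i, p i ∈ 𝒢 := fun i => (e i.1).2
  haveI hpp : ∀ i, Fact (p i).Prime := fun i => (hpmem i).2.1
  have hpfull : ∀ i, FullLie (p i) (ρ (p i)) (B (p i)) := by
    intro i
    obtain ⟨-, h, h'⟩ := hpmem i
    exact h'
  have hplt : ∀ i, (b < p i ∧ be < p i) ∧ N < p i ∧ L < p i := fun i => by
    have := (hpmem i).1
    simp only [max_lt_iff] at this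
    exact this
  have hpL : ∀ i, ¬ p i ∣ L := fun i h => by
    have := Nat.le_of_dvd hLpos h
    have := (hplt i).2.2
    omega
  have hBi : ∀ i, (B (p i))ᵀ = B (p i) := fun i => (hsys (p i)).2.1
  have hBd : ∀ i, (B (p i)).det ≠ 0 := fun i => (hsys (p i)).2.2.1
  have hBe : ∀ i, Even (Padic.valuation (B (p i)).det) := fun i => hbe (p i) (hplt i).1.2 (hpp i)
  let Con : ∀ i, ℚ_[p i][X] → Prop := fun i Q =>
    (i = 0 → ConA (p i) (n - 1) 1 Q) ∧ (i = 1 → ConA (p i) (n - 2) 2 Q) ∧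
      (i = 2 → Con2 (p i) Q) ∧ (i = 3 → Con3 (p i) Q)
  have hlt : ∀ i, LocalTypeE (p i) N (B (p i)) (Con i) := by
    intro i
    have h2 : p i ≠ 2 := by have := (hplt i).2.1; omega
    by_cases hi0 : i = 0
    · refine (lte_a hKRQ hFDA h2 (a := n - 1) (b := 1) (by omega) (by omega) (by omega) (hBi i)
        (hBd i) (hBe i)).mono fun Q hQ => ⟨fun _ => hQ, fun h => ?_, fun h => ?_, fun h => ?_⟩
      · exact absurd (h.symm.trans hi0) (by decide)
      · exact absurd (h.symm.trans hi0) (by decide)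
      · exact absurd (h.symm.trans hi0) (by decide)
    by_cases hi1 : i = 1
    · refine (lte_a hKRQ hFDA h2 (a := n - 2) (b := 2) (by omega) (by omega) (by omega) (hBi i)
        (hBd i) (hBe i)).mono fun Q hQ => ⟨fun h => ?_, fun _ => hQ, fun h => ?_, fun h => ?_⟩
      · exact absurd (h.symm.trans hi1) (by decide)
      · exact absurd (h.symm.trans hi1) (by decide)
      · exact absurd (h.symm.trans hi1) (by decide)
    by_cases hi2 : i = 2
    · refine (lte_2 (m := n - 2) hKRQ hFDB hTYPD2 (by omega)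
        (by have := (hplt i).2.1; omega) (by omega) (hBi i)
        (hBd i) (hBe i)).mono fun Q hQ => ⟨fun h => ?_, fun h => ?_, fun _ => hQ, fun h => ?_⟩
      · exact absurd (h.symm.trans hi2) (by decide)
      · exact absurd (h.symm.trans hi2) (by decide)
      · exact absurd (h.symm.trans hi2) (by decide)
    exact (lte_3 (m := n - 2) hKRQ hFDB hTYPD3 h2 (by omega) (by omega) (hBi i)
        (hBd i) (hBe i)).mono fun Q hQ => ⟨fun h => absurd h hi0, fun h => absurd h hi1,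
          fun h => absurd h hi2, fun _ => hQ⟩
  obtain ⟨v, hvS, hmon, hdeg, hcon⟩ := realiseE hMULTI hFROB hCHARE (by omega) hS ρ B hsys (Fin 4)
    p hpinj hpfull Con hlt
  have c0 := (hcon 0).1.1 rfl
  have c1 := (hcon 1).1.2.1 rfl
  have c2 := (hcon 2).1.2.2.1 rfl
  have c3 := (hcon 3).1.2.2.2 rfl
  have hinv := inv_of_p (hcon 0).2
  have hgen : GenO S P v := by
    obtain ⟨R₀, heven, hbij, ⟨hgen, h0⟩, -, -⟩ := c3
    exact genO_of_p (nice_of_p hvS hmon (p 3) hbij.1 hbij.2.1) (sq_of_bij hbij heven h0) (p 3)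
      (hbij.2.2.1 hgen)
  obtain ⟨hfinR, hcardR⟩ := card_Rt hmon hgen.1.2.2.1
  letI : Fintype (Rt (P v)) := Fintype.ofFinite _
  rw [Nat.card_eq_fintype_card, hdeg] at hcardR
  have hsurj := surjE hGEND hNR hTAME hn hmon hinv hgen.2.1 M f hf hMf (p 0) (p 1) (p 2) (p 3)
    (hb _ (hplt 0).1.1 (hpp 0).out) (hb _ (hplt 1).1.1 (hpp 1).out) (hb _ (hplt 2).1.1 (hpp 2).out)
    (hb _ (hplt 3).1.1 (hpp 3).out) (hpL 0) (hpL 1) (hpL 2) (hpL 3) c0 c1 c2 c3
  obtain ⟨hs1, hs2⟩ := coset hCLD hinv hgen.2.1 (by omega) M hsurj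
  rw [hcardR] at hs1
  exact ⟨v, hgen, hdeg, hs1, hs2⟩

end

end Pool.Agent.T2H36.IX
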