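import Pool.Agent.R932.OP.TypX

set_option autoImplicit false

/-!
Project IX, part F: places at which the multiplicative relations between the Frobenius eigenvalues
are trivial; the local type.
-/

open Polynomial Filter Topology
open Pool.Agent.Y142.ZI
open Pool.Agent.Y331.ZD (um_add um_sub near_split norm_map exists_mu exists_bd root_aut)

namespace Pool.Agent.T2H36.IX

open Pool.Agent.R932.OP

section four

variable {L : Type} [NormedField L] [IsUltrametricDist L]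

theorem um2 {x u v : L} (hu : ‖u‖ < ‖x‖) (hv : ‖v‖ < ‖x‖) : ‖u + v‖ < ‖x‖ := um_add hu hv

/-- four terms, the first one of maximal norm -/
theorem four_max (h2 : ‖(2 : L)‖ = 1) {x y z w : L}
    (hxy : ‖x‖ = ‖y‖ → x = y ∨ x = -y) (hxz : ‖x‖ = ‖z‖ → x = z ∨ x = -z)
    (hxw : ‖x‖ = ‖w‖ → x = w ∨ x = -w)
    (h3y : 3 * x = y ∨ 3 * x = -y → x = 0) (h3z : 3 * x = z ∨ 3 * x = -z → x = 0)
    (h3w : 3 * x = w ∨ 3 * x = -w → x = 0)
    (hy : ‖y‖ ≤ ‖x‖) (hz : ‖z‖ ≤ ‖x‖) (hw : ‖w‖ ≤ ‖x‖) (h : x + y = z + w) :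
    (x = z ∧ y = w) ∨ (x = w ∧ y = z) ∨ x + y = 0 := by
  by_cases hx0 : x = 0
  · right; right
    rw [hx0, norm_zero] at hy
    rw [hx0, norm_le_zero_iff.1 hy, add_zero]
  by_cases h1 : x = -y
  · right; right
    rw [h1, neg_add_cancel]
  by_cases h2' : x = z
  · left
    exact ⟨h2', by rw [h2'] at h; exact add_left_cancel h⟩
  by_cases h3' : x = w
  · right; left
    exact ⟨h3', by rw [h3', add_comm z w] at h; exact add_left_cancel h⟩
  exfalso
  have hxpos : 0 < ‖x‖ := norm_pos_iff.2 hx0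
  have hn2 : ‖2 * x‖ = ‖x‖ := by rw [norm_mul, h2, one_mul]
  rcases hy.lt_or_eq with hy | hy <;> rcases hz.lt_or_eq with hz | hz <;>
    rcases hw.lt_or_eq with hw | hw
  · have e : x = z + (w + -y) := by linear_combination h
    have h5 : ‖z + (w + -y)‖ < ‖x‖ := um2 hz (um2 hw (by rwa [norm_neg]))
    rw [← e] at h5
    exact lt_irrefl _ h5
  · rcases hxw hw.symm with h4 | h4
    · exact h3' h4
    have e : 2 * x = z + -y := by linear_combination h + h4
    have h5 : ‖z + -y‖ < ‖x‖ := um2 hz (by rwa [norm_neg])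
    rw [← e, hn2] at h5
    exact lt_irrefl _ h5
  · rcases hxz hz.symm with h4 | h4
    · exact h2' h4
    have e : 2 * x = w + -y := by linear_combination h + h4
    have h5 : ‖w + -y‖ < ‖x‖ := um2 hw (by rwa [norm_neg])
    rw [← e, hn2] at h5
    exact lt_irrefl _ h5
  · rcases hxw hw.symm with h4 | h4
    · exact h3' h4
    rcases hxz hz.symm with h5 | h5
    · exact h2' h5
    have e : 3 * x = -y := by linear_combination h + h4 + h5
    exact hx0 (h3y (Or.inr e))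
  · rcases hxy hy.symm with h4 | h4
    swap
    · exact h1 h4
    have e : 2 * x = z + w := by linear_combination h + h4
    have h5 : ‖z + w‖ < ‖x‖ := um2 hz hw
    rw [← e, hn2] at h5
    exact lt_irrefl _ h5
  · rcases hxy hy.symm with h4 | h4
    swap
    · exact h1 h4
    rcases hxw hw.symm with h5 | h5
    · exact h3' h5
    have e : 3 * x = z := by linear_combination h + h4 + h5
    exact hx0 (h3z (Or.inl e))
  · rcases hxy hy.symm with h4 | h4
    swap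
    · exact h1 h4
    rcases hxz hz.symm with h5 | h5
    · exact h2' h5
    have e : 3 * x = w := by linear_combination h + h4 + h5
    exact hx0 (h3w (Or.inl e))
  · rcases hxy hy.symm with h4 | h4
    swap
    · exact h1 h4
    rcases hxz hz.symm with h5 | h5
    · exact h2' h5
    rcases hxw hw.symm with h6 | h6
    · exact h3' h6
    have e : 2 * (2 * x) = 0 := by linear_combination h + h4 + h5 + h6
    have h2L : (2 : L) ≠ 0 := by
      intro h
      rw [h, norm_zero] at h2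
      exact zero_ne_one h2
    rcases mul_eq_zero.1 e with h7 | h7
    · exact h2L h7
    · rcases mul_eq_zero.1 h7 with h8 | h8
      · exact h2L h8
      · exact hx0 h8

/-- four terms out of a family -/
theorem four (h2 : ‖(2 : L)‖ = 1) {J : Type} (b : J → L)
    (hb : ∀ i j, ‖b i‖ = ‖b j‖ → b i = b j ∨ b i = -b j)
    (h3 : ∀ i j, 3 * b i = b j ∨ 3 * b i = -b j → b i = 0) (x y z w : J) (h : b x + b y = b z + b w) :
    (b x = b z ∧ b y = b w) ∨ (b x = b w ∧ b y = b z) ∨ b x + b y = 0 := by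
  by_cases hx : ‖b y‖ ≤ ‖b x‖ ∧ ‖b z‖ ≤ ‖b x‖ ∧ ‖b w‖ ≤ ‖b x‖
  · exact four_max h2 (hb _ _) (hb _ _) (hb _ _) (h3 _ _) (h3 _ _) (h3 _ _) hx.1 hx.2.1 hx.2.2 h
  by_cases hy : ‖b x‖ ≤ ‖b y‖ ∧ ‖b z‖ ≤ ‖b y‖ ∧ ‖b w‖ ≤ ‖b y‖
  · rcases four_max h2 (hb y x) (hb y z) (hb y w) (h3 _ _) (h3 _ _) (h3 _ _) hy.1 hy.2.1 hy.2.2
      (by rw [add_comm]; exact h) with h4 | h4 | h4
    · exact Or.inr (Or.inl ⟨h4.2, h4.1⟩)
    · exact Or.inl ⟨h4.2, h4.1⟩
    · exact Or.inr (Or.inr (by rw [add_comm]; exact h4))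
  by_cases hz : ‖b w‖ ≤ ‖b z‖ ∧ ‖b x‖ ≤ ‖b z‖ ∧ ‖b y‖ ≤ ‖b z‖
  · rcases four_max h2 (hb z w) (hb z x) (hb z y) (h3 _ _) (h3 _ _) (h3 _ _) hz.1 hz.2.1 hz.2.2
      h.symm with h4 | h4 | h4
    · exact Or.inl ⟨h4.1.symm, h4.2.symm⟩
    · exact Or.inr (Or.inl ⟨h4.2.symm, h4.1.symm⟩)
    · exact Or.inr (Or.inr (by rw [h]; exact h4))
  have hw : ‖b z‖ ≤ ‖b w‖ ∧ ‖b x‖ ≤ ‖b w‖ ∧ ‖b y‖ ≤ ‖b w‖ := by
    by_contra hw
    rcases le_total ‖b x‖ ‖b y‖ with h1 | h1 <;> rcases le_total ‖b z‖ ‖b w‖ with h2 | h2 <;>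
      rcases le_total ‖b x‖ ‖b z‖ with h3 | h3 <;> rcases le_total ‖b x‖ ‖b w‖ with h4 | h4 <;>
      rcases le_total ‖b y‖ ‖b z‖ with h5 | h5 <;> rcases le_total ‖b y‖ ‖b w‖ with h6 | h6 <;>
      first
      | exact hx ⟨by linarith, by linarith, by linarith⟩
      | exact hy ⟨by linarith, by linarith, by linarith⟩
      | exact hz ⟨by linarith, by linarith, by linarith⟩
      | exact hw ⟨by linarith, by linarith, by linarith⟩
  rcases four_max h2 (hb w z) (hb w x) (hb w y) (h3 _ _) (h3 _ _) (h3 _ _) hw.1 hw.2.1 hw.2.2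
    (by rw [add_comm, ← h]) with h4 | h4 | h4
  · exact Or.inr (Or.inl ⟨h4.1.symm, h4.2.symm⟩)
  · exact Or.inl ⟨h4.2.symm, h4.1.symm⟩
  · exact Or.inr (Or.inr (by rw [h, add_comm]; exact h4))

end four

/-- the condition on the polynomial `Q`: the relations between the roots of `(X - 1) Q` -/
def ConY (ℓ : ℕ) [Fact ℓ.Prime] (Q : ℚ_[ℓ][X]) : Prop :=
  Q.Separable ∧ Q.eval 1 ≠ 0 ∧
    (∀ (j : ℕ) (x y : AlgebraicClosure ℚ_[ℓ]), 0 < j → aeval x ((X - 1) * Q) = 0 →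
      aeval y ((X - 1) * Q) = 0 → x ^ j = y ^ j → x = y) ∧
    ∀ x y z w : AlgebraicClosure ℚ_[ℓ], aeval x ((X - 1) * Q) = 0 → aeval y ((X - 1) * Q) = 0 →
      aeval z ((X - 1) * Q) = 0 → aeval w ((X - 1) * Q) = 0 → x * y = z * w →
      (x = z ∧ y = w) ∨ (x = w ∧ y = z) ∨ x * y = 1

variable {ℓ : ℕ} [hℓ : Fact ℓ.Prime]

theorem typy : ∀ (ℓ : ℕ) [Fact ℓ.Prime], ℓ ≠ 2 → ∀ (m : ℕ),
    ∃ A : Matrix (Fin m) (Fin m) ℚ_[ℓ], ∀ c : ℚ_[ℓ], ‖c‖ = (ℓ : ℝ)⁻¹ → ∃ (ε : ℝ) (k₀ : ℕ), 0 < ε ∧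
    ∀ (k : ℕ) (Q : ℚ_[ℓ][X]), k₀ ≤ k → 0 < k → Q.Monic → Q.natDegree = 2 * m + 2 →
    (∀ x : AlgebraicClosure ℚ_[ℓ], aeval x Q = 0 → x ≠ 0 ∧ aeval x⁻¹ Q = 0) →
    (∀ j, ‖(resc ℓ k Q - (X ^ 2 - C c) * A.charpoly * (-A).charpoly).coeff j‖ < ε) →
    ConY ℓ Q := by
  classical
  intro ℓ hℓ h2 m
  set L := AlgebraicClosure ℚ_[ℓ] with hL
  have hnorm : ∀ x : ℚ_[ℓ], ‖algebraMap ℚ_[ℓ] L x‖ = ‖x‖ := norm_map
  have hℓ1 : (1 : ℝ) < ℓ := by exact_mod_cast hℓ.out.one_lt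
  have hℓ0 : (0 : ℝ) < ℓ := by linarith
  -- the matrix
  have hmon : (∏ j : Fin m, (X - C ((ℓ : ℚ_[ℓ]) ^ (2 * ((j : ℕ) + 1))))).Monic :=
    monic_prod_of_monic _ _ fun j _ => monic_X_sub_C _
  have hdeg : (∏ j : Fin m, (X - C ((ℓ : ℚ_[ℓ]) ^ (2 * ((j : ℕ) + 1))))).natDegree = m := by
    rw [natDegree_prod_of_monic _ _ fun j _ => monic_X_sub_C _,
      Finset.sum_congr rfl fun j _ => natDegree_X_sub_C _]
    simp
  obtain ⟨A, hA⟩ := Pool.Agent.Y547.ZI.t2 ℚ_[ℓ] m _ hmon hdeg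
  have hA' : (-A).charpoly = ∏ j : Fin m, (X + C ((ℓ : ℚ_[ℓ]) ^ (2 * ((j : ℕ) + 1)))) := by
    rw [Pool.Agent.Y405.ZI.charpoly_neg', hA, prod_comp]
    have h1 : ((-1 : ℚ_[ℓ][X]) ^ m) = ∏ _j : Fin m, (-1 : ℚ_[ℓ][X]) := by
      rw [Finset.prod_const, Finset.card_univ, Fintype.card_fin]
    rw [h1, ← Finset.prod_mul_distrib]
    refine Finset.prod_congr rfl fun j _ => ?_
    rw [sub_comp, X_comp, C_comp]
    ring
  refine ⟨A, fun c hc => ?_⟩
  -- the roots
  obtain ⟨γ, hγ⟩ := IsAlgClosed.exists_pow_nat_eq (algebraMap ℚ_[ℓ] L c) (show 0 < 2 by norm_num)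
  have hγn : ‖γ‖ ^ 2 = (ℓ : ℝ)⁻¹ := by rw [← norm_pow, hγ, hnorm, hc]
  let a : Option (Fin m) → L := fun o =>
    o.elim γ (fun j => algebraMap ℚ_[ℓ] L ((ℓ : ℚ_[ℓ]) ^ (2 * ((j : ℕ) + 1))))
  have haS : ∀ j : Fin m, ‖a (some j)‖ = ((ℓ : ℝ)⁻¹) ^ (2 * ((j : ℕ) + 1)) := by
    intro j
    show ‖algebraMap ℚ_[ℓ] L ((ℓ : ℚ_[ℓ]) ^ (2 * ((j : ℕ) + 1)))‖ = _
    rw [hnorm, norm_pow, Padic.norm_p]
  have haN : ‖a none‖ ^ 2 = (ℓ : ℝ)⁻¹ := hγn
  have hinv1 : (ℓ : ℝ)⁻¹ < 1 := inv_lt_one_of_one_lt₀ hℓ1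
  have hinv0 : 0 < (ℓ : ℝ)⁻¹ := inv_pos.2 hℓ0
  have hpinj : Function.Injective (fun n : ℕ => ((ℓ : ℝ)⁻¹) ^ n) :=
    (pow_right_strictAnti₀ hinv0 hinv1).injective
  -- the squares of the norms are powers with exponents `1` and `4 (j + 1)`
  let e : Option (Fin m) → ℕ := fun o => o.elim 1 (fun j => 4 * ((j : ℕ) + 1))
  have hae : ∀ o, ‖a o‖ ^ 2 = ((ℓ : ℝ)⁻¹) ^ e o := by
    rintro (_ | j)
    · rw [haN]
      show _ = ((ℓ : ℝ)⁻¹) ^ 1
      rw [pow_one]
    · rw [haS, ← pow_mul]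
      show _ = ((ℓ : ℝ)⁻¹) ^ (4 * ((j : ℕ) + 1))
      congr 1
      ring
  have heinj : ∀ i i', e i = e i' → i = i' := by
    rintro (_ | j) (_ | j') h
    · rfl
    · exfalso
      have h' : 1 = 4 * ((j' : ℕ) + 1) := h
      omega
    · exfalso
      have h' : 4 * ((j : ℕ) + 1) = 1 := h
      omega
    · have h' : 4 * ((j : ℕ) + 1) = 4 * ((j' : ℕ) + 1) := h
      have h'' : (j : ℕ) = j' := by omega
      rw [Fin.ext h'']
  have he2 : ∀ i i', e i' ≠ e i + 2 := by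
    rintro (_ | j) (_ | j') h
    · have h' : 1 = 1 + 2 := h
      omega
    · have h' : 4 * ((j' : ℕ) + 1) = 1 + 2 := h
      omega
    · have h' : 1 = 4 * ((j : ℕ) + 1) + 2 := h
      omega
    · have h' : 4 * ((j' : ℕ) + 1) = 4 * ((j : ℕ) + 1) + 2 := h
      omega
  have hainj : ∀ i i', ‖a i‖ = ‖a i'‖ → i = i' := by
    intro i i' h
    apply heinj
    apply hpinj
    show ((ℓ : ℝ)⁻¹) ^ e i = ((ℓ : ℝ)⁻¹) ^ e i'
    rw [← hae, ← hae, h]
  have ha0 : ∀ i, a i ≠ 0 := by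
    intro i h
    have h1 := hae i
    rw [h, norm_zero] at h1
    have h3 : 0 < ((ℓ : ℝ)⁻¹) ^ e i := pow_pos hinv0 _
    rw [← h1] at h3
    norm_num at h3
  have ha1 : ∀ i, ‖a i‖ ≤ 1 := by
    intro i
    by_contra hcon
    rw [not_le] at hcon
    have h1 : 1 < ‖a i‖ ^ 2 := one_lt_pow₀ hcon (by norm_num)
    rw [hae] at h1
    have h3 : ((ℓ : ℝ)⁻¹) ^ e i ≤ 1 := pow_le_one₀ hinv0.le hinv1.le
    linarith
  have h2n : ‖(2 : L)‖ = 1 := by
    have h1 := hnorm 2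
    rw [map_ofNat, Pool.Agent.Y405.ZI.norm_two h2] at h1
    exact h1
  have h2L : (2 : L) ≠ 0 := by
    intro h
    rw [h, norm_zero] at h2n
    exact zero_ne_one h2n
  have h3n : ‖(3 : L)‖ = 1 ∨ ‖(3 : L)‖ ^ 2 = ((ℓ : ℝ)⁻¹) ^ 2 := by
    have h1 := hnorm 3
    rw [map_ofNat] at h1
    rw [h1]
    by_cases h3 : ℓ = 3
    · right
      have h4 : (3 : ℚ_[ℓ]) = (ℓ : ℚ_[ℓ]) := by
        have h5 : ((3 : ℕ) : ℚ_[ℓ]) = ((ℓ : ℕ) : ℚ_[ℓ]) := congrArg _ h3.symm
        exact_mod_cast h5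
      rw [h4, Padic.norm_p]
    · left
      have h6 : ‖((3 : ℕ) : ℚ_[ℓ])‖ = 1 := by
        rw [Padic.norm_natCast_eq_one_iff]
        exact ((Nat.coprime_primes hℓ.out Nat.prime_three).2 h3)
      exact_mod_cast h6
  set b := pm a with hb
  have hbn : ∀ p, ‖b p‖ = ‖a p.1‖ := pm_norm a
  have hb0 : ∀ p, b p ≠ 0 := pm_ne a ha0
  have hbb : ∀ p q, ‖b p‖ = ‖b q‖ → b p = b q ∨ b p = -(b q) := by
    rintro ⟨i, s⟩ ⟨i', s'⟩ h
    rw [hbn, hbn] at h
    have h1 := hainj _ _ h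
    dsimp only at h1
    subst h1
    cases s <;> cases s'
    · exact Or.inl rfl
    · exact Or.inr rfl
    · refine Or.inr ?_
      show a i = - -(a i)
      rw [neg_neg]
    · exact Or.inl rfl
  have hbinj : Function.Injective b := by
    rintro ⟨i, s⟩ ⟨i', s'⟩ h
    have h1 : i = i' := hainj _ _ (by
      have := congrArg norm h
      rwa [hbn, hbn] at this)
    subst h1
    have h4 : a i ≠ -(a i) := by
      intro h5
      have h6 : (2 : L) * a i = 0 := by linear_combination h5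
      rcases mul_eq_zero.1 h6 with h7 | h7
      · exact h2L h7
      · exact ha0 i h7
    cases s <;> cases s'
    · rfl
    · simp only [hb, pm] at h
      exact absurd h.symm h4
    · simp only [hb, pm] at h
      exact absurd h h4
    · rfl
  have hb3 : ∀ p q, 3 * b p = b q ∨ 3 * b p = -b q → b p = 0 := by
    intro p q h
    have hn : ‖(3 : L)‖ * ‖a p.1‖ = ‖a q.1‖ := by
      rw [← hbn, ← hbn, ← norm_mul]
      rcases h with h | h
      · rw [h]
      · rw [h, norm_neg]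
    rcases h3n with h3 | h3
    · rw [h3, one_mul] at hn
      have h4 : ‖b p‖ = ‖b q‖ := by rw [hbn, hbn, hn]
      have h5 : (2 : L) * b p = 0 ∨ (2 : L) * (2 * b p) = 0 := by
        rcases h with h | h <;> rcases hbb _ _ h4 with h6 | h6
        · left; linear_combination h - h6
        · right; linear_combination h + h6
        · right; linear_combination h + h6
        · left; linear_combination h - h6
      rcases h5 with h5 | h5
      · exact (mul_eq_zero.1 h5).resolve_left h2L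
      · exact (mul_eq_zero.1 ((mul_eq_zero.1 h5).resolve_left h2L)).resolve_left h2L
    · exfalso
      have h4 := congrArg (fun t : ℝ => t ^ 2) hn
      beta_reduce at h4
      rw [mul_pow, h3, hae, hae, ← pow_add] at h4
      exact he2 p.1 q.1 (by rw [add_comm]; exact (hpinj h4).symm)
  -- the family with the additional value `0`
  let J := Option (Option (Fin m) × Bool)
  let b' : J → L := fun j => j.elim 0 b
  have hb'0 : ∀ j, b' j = 0 → j = none := by
    rintro (_ | p) h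
    · rfl
    · exact absurd h (hb0 p)
  have hb'inj : Function.Injective b' := by
    rintro (_ | p) (_ | q) h
    · rfl
    · exact absurd (show b q = 0 from h.symm) (hb0 q)
    · exact absurd (show b p = 0 from h) (hb0 p)
    · rw [hbinj (show b p = b q from h)]
  have hb'b : ∀ i j, ‖b' i‖ = ‖b' j‖ → b' i = b' j ∨ b' i = -b' j := by
    rintro (_ | p) (_ | q) h
    · exact Or.inl rfl
    · have h' : ‖(0 : L)‖ = ‖b q‖ := h
      rw [norm_zero] at h'
      exact absurd (norm_eq_zero.1 h'.symm) (hb0 q)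
    · have h' : ‖b p‖ = ‖(0 : L)‖ := h
      rw [norm_zero] at h'
      exact absurd (norm_eq_zero.1 h') (hb0 p)
    · exact hbb p q h
  have hb'3 : ∀ i j, 3 * b' i = b' j ∨ 3 * b' i = -b' j → b' i = 0 := by
    rintro (_ | p) (_ | q) h
    · rfl
    · rfl
    · have h' : 3 * b p = 0 := by
        rcases h with h | h
        · exact h
        · rw [show -b' none = 0 from neg_zero] at h
          exact h
      rcases mul_eq_zero.1 h' with h4 | h4
      · exfalso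
        rcases h3n with h3 | h3
        · rw [h4, norm_zero] at h3
          exact zero_ne_one h3
        · rw [h4, norm_zero] at h3
          have h5 : 0 < ((ℓ : ℝ)⁻¹) ^ 2 := pow_pos hinv0 _
          rw [← h3] at h5
          norm_num at h5
      · exact h4
    · exact hb3 p q h
  have hR : ((X ^ 2 - C c) * A.charpoly * (-A).charpoly).map (algebraMap ℚ_[ℓ] L) =
      ∏ p, (X - C (b p)) := by
    rw [hb, prod_pm, Fintype.prod_option, hA, hA', mul_assoc, ← Finset.prod_mul_distrib,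
      Polynomial.map_mul, Polynomial.map_prod]
    congr 1
    · rw [Polynomial.map_sub, Polynomial.map_pow, map_X, map_C, ← hγ]
      show X ^ 2 - C (γ ^ 2) = (X - C γ) * (X + C γ)
      rw [C_pow]
      ring
    · refine Finset.prod_congr rfl fun j _ => ?_
      rw [Polynomial.map_mul, Polynomial.map_sub, Polynomial.map_add, map_X, map_C]
      rfl
  obtain ⟨μ1, h10, h11, h12⟩ := exists_mu
    (fun q : (Option (Fin m) × Bool) × (Option (Fin m) × Bool) => ‖b q.1 - b q.2‖)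
    (fun q => b q.1 - b q.2 ≠ 0) (fun q hq => norm_pos_iff.mpr hq)
  obtain ⟨μ2, h20, h21, h22⟩ := exists_mu
    (fun q : J × J => ‖b' q.1 + b' q.2‖) (fun q => b' q.1 + b' q.2 ≠ 0)
    (fun q hq => norm_pos_iff.mpr hq)
  obtain ⟨μ3, h30, h31, h32⟩ := exists_mu
    (fun q : (J × J) × (J × J) => ‖(b' q.1.1 + b' q.1.2) - (b' q.2.1 + b' q.2.2)‖)
    (fun q => (b' q.1.1 + b' q.1.2) - (b' q.2.1 + b' q.2.2) ≠ 0)
    (fun q hq => norm_pos_iff.mpr hq)
  obtain ⟨ε, k₀, hε, -, H⟩ := core b _ hR (μ := min μ1 (min μ2 μ3)) (by positivity)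
    ((min_le_left _ _).trans h11) (by
      intro j j' hjj
      refine (min_le_left _ _).trans (h12 (j, j') ?_)
      exact sub_ne_zero.2 (fun e => hjj (hbinj e)))
  refine ⟨ε, k₀, hε, ?_⟩
  intro k Q hk hk0 hQ hQd hinv hcl
  obtain ⟨r, hrinj, hrb, hrr, hr3, -, hroot, hsep⟩ := H k Q hk hQ (by
    rw [hQd]
    simp
    ring) hcl
  have hm2 : min μ1 (min μ2 μ3) ≤ μ2 := (min_le_right _ _).trans (min_le_left _ _)
  have hm3 : min μ1 (min μ2 μ3) ≤ μ3 := (min_le_right _ _).trans (min_le_right _ _)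
  have hm1 : min μ1 (min μ2 μ3) ≤ 1 := (min_le_left _ _).trans h11
  have hμ0 : 0 < min μ1 (min μ2 μ3) := by positivity
  -- the roots of `(X - 1) Q`
  let r' : J → L := fun j => j.elim 0 r
  have hrb' : ∀ j, ‖r' j - b' j‖ < min μ1 (min μ2 μ3) := by
    rintro (_ | p)
    · show ‖(0 : L) - 0‖ < _
      rw [sub_zero, norm_zero]
      exact hμ0
    · exact hrb p
  have hrr' : ∀ j j', ‖la ℓ k * (r' j * r' j')‖ < min μ1 (min μ2 μ3) := by
    have hz : ‖la ℓ k * (0 : L)‖ < min μ1 (min μ2 μ3) := by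
      rw [mul_zero, norm_zero]
      exact hμ0
    rintro (_ | p) (_ | q)
    · show ‖la ℓ k * ((0 : L) * 0)‖ < _
      rw [mul_zero]
      exact hz
    · show ‖la ℓ k * ((0 : L) * r q)‖ < _
      rw [zero_mul]
      exact hz
    · show ‖la ℓ k * (r p * (0 : L))‖ < _
      rw [mul_zero]
      exact hz
    · exact hrr p q
  have hroot' : ∀ x : L, aeval x ((X - 1) * Q) = 0 → ∃ j, x = 1 + la ℓ k * r' j := by
    intro x hx
    rw [map_mul, mul_eq_zero] at hx
    rcases hx with hx | hx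
    · rw [map_sub, aeval_X, map_one, sub_eq_zero] at hx
      refine ⟨none, ?_⟩
      show x = 1 + la ℓ k * 0
      rw [mul_zero, add_zero, hx]
    · obtain ⟨j, hj⟩ := (hroot x).1 hx
      exact ⟨some j, hj⟩
  have hlan : ‖la ℓ k‖ ≤ (ℓ : ℝ)⁻¹ := by
    rw [la, hnorm, norm_pow, Padic.norm_p]
    calc ((ℓ : ℝ)⁻¹) ^ k ≤ ((ℓ : ℝ)⁻¹) ^ 1 := pow_le_pow_of_le_one hinv0.le hinv1.le hk0
      _ = _ := pow_one _
  have hb'1 : ∀ j, ‖b' j‖ ≤ 1 := by
    rintro (_ | p)
    · show ‖(0 : L)‖ ≤ 1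
      rw [norm_zero]
      exact zero_le_one
    · show ‖b p‖ ≤ 1
      rw [hbn]
      exact ha1 _
  have hr'1 : ∀ j, ‖r' j‖ ≤ 1 := by
    intro j
    have h1 : r' j = (r' j - b' j) + b' j := by ring
    rw [h1]
    refine (IsUltrametricDist.norm_add_le_max _ _).trans (max_le ?_ (hb'1 j))
    exact (hrb' j).le.trans hm1
  have hx1 : ∀ x : L, aeval x ((X - 1) * Q) = 0 → ‖x - 1‖ ≤ (ℓ : ℝ)⁻¹ := by
    intro x hx
    obtain ⟨j, rfl⟩ := hroot' x hx
    rw [add_sub_cancel_left, norm_mul]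
    calc ‖la ℓ k‖ * ‖r' j‖ ≤ (ℓ : ℝ)⁻¹ * 1 :=
          mul_le_mul hlan (hr'1 j) (norm_nonneg _) hinv0.le
      _ = _ := mul_one _
  -- products
  have hprod : ∀ j1 j2 : J, (1 + la ℓ k * r' j1) * (1 + la ℓ k * r' j2) = 1 →
      b' j1 + b' j2 = 0 := by
    intro j1 j2 h
    by_contra hne
    have h4 : r' j1 + r' j2 = -(la ℓ k * (r' j1 * r' j2)) := by
      apply mul_left_cancel₀ (la_ne (ℓ := ℓ) k)
      linear_combination h
    have h5 : ‖b' j1 + b' j2‖ < min μ1 (min μ2 μ3) := by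
      have h6 : b' j1 + b' j2 = (r' j1 + r' j2) - (r' j1 - b' j1) - (r' j2 - b' j2) := by ring
      rw [h6]
      refine um_sub (um_sub ?_ (hrb' j1)) (hrb' j2)
      rw [h4, norm_neg]
      exact hrr' j1 j2
    have h7 : μ2 ≤ ‖b' j1 + b' j2‖ := h22 (j1, j2) hne
    linarith
  refine ⟨hsep, ?_, ?_, ?_⟩
  · intro h1
    have h2' : aeval (algebraMap ℚ_[ℓ] L 1) Q = 0 := by
      rw [aeval_algebraMap_apply, coe_aeval_eq_eval, h1, map_zero]
    rw [map_one] at h2'
    obtain ⟨j, hj⟩ := (hroot 1).1 h2'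
    have h4 : la ℓ k * r j = 0 := by linear_combination -hj
    have h5 : r j = 0 := (mul_eq_zero.1 h4).resolve_left (la_ne k)
    have h6 := hrb j
    rw [h5, zero_sub, norm_neg] at h6
    have h7 : μ2 ≤ ‖b' (some j) + b' none‖ := h22 (some j, none) (by
      show b j + 0 ≠ 0
      rw [add_zero]
      exact hb0 j)
    have h8 : b' (some j) + b' none = b j := add_zero _
    rw [h8] at h7
    linarith
  · intro j x y hj hx hy hxy
    exact Pool.Agent.Y547.ZI.t1 ℓ h2 x y j hj (hx1 x hx) (hx1 y hy) hxy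
  · intro x y z w hx hy hz hw h
    have hxinv : aeval x Q = 0 ∨ x = 1 := by
      rw [map_mul, mul_eq_zero] at hx
      rcases hx with hx | hx
      · right
        rwa [map_sub, aeval_X, map_one, sub_eq_zero] at hx
      · exact Or.inl hx
    obtain ⟨j1, hj1⟩ := hroot' x hx
    obtain ⟨j2, hj2⟩ := hroot' y hy
    obtain ⟨j3, hj3⟩ := hroot' z hz
    obtain ⟨j4, hj4⟩ := hroot' w hw
    have hsum : b' j1 + b' j2 = b' j3 + b' j4 := by
      by_contra hne
      have h4 : (r' j1 + r' j2) - (r' j3 + r' j4) =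
          la ℓ k * (r' j3 * r' j4) - la ℓ k * (r' j1 * r' j2) := by
        apply mul_left_cancel₀ (la_ne (ℓ := ℓ) k)
        rw [hj1, hj2, hj3, hj4] at h
        linear_combination h
      have h5 : ‖(b' j1 + b' j2) - (b' j3 + b' j4)‖ < min μ1 (min μ2 μ3) := by
        have h6 : (b' j1 + b' j2) - (b' j3 + b' j4) = ((r' j1 + r' j2) - (r' j3 + r' j4)) -
          (r' j1 - b' j1) - (r' j2 - b' j2) + (r' j3 - b' j3) + (r' j4 - b' j4) := by ring
        rw [h6, h4]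
        exact um_add (um_add (um_sub (um_sub (um_sub (hrr' _ _) (hrr' _ _)) (hrb' j1)) (hrb' j2))
          (hrb' j3)) (hrb' j4)
      have h7 : μ3 ≤ ‖(b' j1 + b' j2) - (b' j3 + b' j4)‖ :=
        h32 ((j1, j2), (j3, j4)) (sub_ne_zero.2 hne)
      linarith
    rcases four h2n b' hb'b hb'3 j1 j2 j3 j4 hsum with ⟨h4, h5⟩ | ⟨h4, h5⟩ | h4
    · left
      have h6 := hb'inj h4
      have h7 := hb'inj h5
      subst h6 h7
      exact ⟨by rw [hj1, hj3], by rw [hj2, hj4]⟩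
    · right; left
      have h6 := hb'inj h4
      have h7 := hb'inj h5
      subst h6 h7
      exact ⟨by rw [hj1, hj4], by rw [hj2, hj3]⟩
    · right; right
      rcases hxinv with h6 | h6
      · obtain ⟨hx0, h7⟩ := hinv x h6
        have h7' : aeval x⁻¹ ((X - 1) * Q) = 0 := by rw [map_mul, h7, mul_zero]
        obtain ⟨j5, hj5⟩ := hroot' _ h7'
        have h8 := hprod j1 j5 (by rw [← hj1, ← hj5, mul_inv_cancel₀ hx0])
        have h9 : b' j2 = b' j5 := add_left_cancel (h4.trans h8.symm)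
        have h10 := hb'inj h9
        subst h10
        rw [hj2, ← hj5, mul_inv_cancel₀ hx0]
      · have h7 : j1 = none := by
          apply hb'0
          have h8 : la ℓ k * r' j1 = 0 := by linear_combination h6 - hj1
          have h9 : r' j1 = 0 := (mul_eq_zero.1 h8).resolve_left (la_ne k)
          by_contra hne
          have h10 : μ2 ≤ ‖b' j1 + b' none‖ := h22 (j1, none) (by
            show b' j1 + 0 ≠ 0
            rw [add_zero]
            exact hne)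
          have h11 : b' j1 + b' none = b' j1 := add_zero _
          rw [h11] at h10
          have h12 := hrb' j1
          rw [h9, zero_sub, norm_neg] at h12
          linarith
        subst h7
        have h8 : b' j2 = 0 := by
          have h9 : (0 : L) + b' j2 = 0 := h4
          rwa [zero_add] at h9
        have h9 := hb'0 _ h8
        subst h9
        have h10 : y = 1 := by
          rw [hj2]
          show 1 + la ℓ k * 0 = 1
          rw [mul_zero, add_zero]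
        rw [h6, h10, mul_one]

end Pool.Agent.T2H36.IX
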