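import Pool.Agent.T2H36.IX.F1
import Pool.Agent.T2H36.IX.B4
import Pool.Agent.T2H36.IX.R
import Pool.Agent.Y142.ZI.Top
import Pool.Agent.R932.IrC

set_option autoImplicit false
set_option linter.unusedSectionVars false
set_option linter.style.haveILetI false

/-!
Project IX, part F: free places; their existence from one prime with full Lie algebra, and what they
give modulo large primes.
-/

open Matrix Polynomial Filter Topology NumberField IsDedekindDomain
open Pool.Agent.Y142.ZO Pool.Agent.Y142.ZI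

namespace Pool.Agent.T2H36.IX

/-- the relations between the roots of `P` are trivial -/
def FreePoly (P : ℚ[X]) : Prop :=
  P.Monic ∧ P.Separable ∧ P.eval 1 = 0 ∧
    (∀ (j : ℕ) (x y : ℂ), 0 < j → aeval x P = 0 → aeval y P = 0 → x ^ j = y ^ j → x = y) ∧
    ∀ x y z w : ℂ, aeval x P = 0 → aeval y P = 0 → aeval z P = 0 → aeval w P = 0 →
      x * y = z * w → (x = z ∧ y = w) ∨ (x = w ∧ y = z) ∨ x * y = 1

section local_type

variable {ℓ : ℕ} [hℓ : Fact ℓ.Prime] {m : ℕ}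
  {B : Matrix (Fin (2 * m + 3)) (Fin (2 * m + 3)) ℚ_[ℓ]}

theorem lt_y (hFORM1 : S_FORM1) (h2 : ℓ ≠ 2) (hB : Bᵀ = B) (hdet : B.det ≠ 0) :
    LocalType ℓ (2 * m + 3) B (ConY ℓ) := by
  obtain ⟨A, hA⟩ := typy ℓ h2 m
  obtain ⟨T, c, hT, hc, hTc⟩ := hFORM1 ℓ h2 m B hB hdet A
  obtain ⟨ε, k₀, hε, h⟩ := hA c hc
  exact ⟨T, _, ε, k₀, hT, hTc, hε, fun k Q hk₀ hk hmon hdeg hinv hclose =>
    h k Q hk₀ hk hmon (by omega) hinv hclose⟩

end local_type

section
variable {K : Type} [Field K] [NumberField K] {m : ℕ} {S : Set (HeightOneSpectrum (𝓞 K))}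
  {P : HeightOneSpectrum (𝓞 K) → ℚ[X]}

/-- **a free place from one prime with full Lie algebra** -/
theorem free_of_full (hFROB : S_FROB) (hMULTI : S_MULTI) (hCHAR : S_CHAR) (hFORM1 : S_FORM1)
    (hS : S.Finite)
    (ρ : ∀ (ℓ : ℕ) [Fact ℓ.Prime], GK K →* Matrix (Fin (2 * m + 3)) (Fin (2 * m + 3)) ℚ_[ℓ])
    (B : ∀ (ℓ : ℕ) [Fact ℓ.Prime], Matrix (Fin (2 * m + 3)) (Fin (2 * m + 3)) ℚ_[ℓ])
    (hsys : ∀ (ℓ : ℕ) [Fact ℓ.Prime], Orthogonal K (2 * m + 3) ℓ (ρ ℓ) (B ℓ) S P)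
    (ℓ : ℕ) [hℓ : Fact ℓ.Prime] (hℓ2 : ℓ ≠ 2) (hfull : FullLie ℓ (ρ ℓ) (B ℓ)) :
    ∃ v : HeightOneSpectrum (𝓞 K), v ∉ S ∧ FreePoly (P v) := by
  have hN : Odd (2 * m + 3) := ⟨m + 1, by ring⟩
  have hlt := lt_y hFORM1 hℓ2 (hsys ℓ).2.1 (hsys ℓ).2.2.1
  obtain ⟨v, Q, hvS, hPv, hmon, hdeg, hvℓ, hcon⟩ := realise hMULTI hFROB hCHAR hN hS ρ B hsys Unit
    (fun _ => ℓ) (fun _ _ _ => rfl) (fun _ => hℓ2) (fun _ => hfull)
    (fun _ => ConY ℓ) (fun _ => hlt)
  obtain ⟨hsep, h1, hpow, hfour⟩ := (hcon ()).1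
  have hX1 : (X - 1 : ℚ[X]).Monic := by
    have := monic_X_sub_C (1 : ℚ)
    rwa [C_1] at this
  have hPmon : (P v).Monic := by
    rw [hPv]
    exact hX1.mul hmon
  have hP0 : P v ≠ 0 := hPmon.ne_zero
  obtain ⟨j⟩ := emb ℓ
  obtain ⟨jc⟩ := nonempty_LC
  have lift : ∀ w : ℂ, aeval w (P v) = 0 → ∃ r : QQ, aeval r (P v) = 0 ∧ jc r = w := by
    intro w hw
    have h1 : eval₂ (Rat.castHom ℂ) w (P v) = 0 := by
      rw [aeval_def] at hw
      rw [← hw]
      congr 1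
    obtain ⟨r, hr, hrw⟩ := root_lift jc hP0 h1
    refine ⟨r, ?_, hrw⟩
    rw [aeval_def, ← hr]
    congr 1
  have push : ∀ r : QQ, aeval r (P v) = 0 → aeval (j r) ((X - 1) * Q.map (algebraMap ℚ ℚ_[ℓ])) = 0 := by
    intro r hr
    have h2 := push_root ℓ j hr
    rw [hPv, Polynomial.map_mul, Polynomial.map_sub, map_X, Polynomial.map_one] at h2
    exact h2
  refine ⟨v, hvS, hPmon, ?_, ?_, ?_, ?_⟩
  · rw [hPv]
    have hX1s : (X - 1 : ℚ[X]).Separable := by
      have := separable_X_sub_C (x := (1 : ℚ))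
      rwa [C_1] at this
    have hQs : Q.Separable := (separable_map (algebraMap ℚ ℚ_[ℓ])).1 hsep
    refine hX1s.mul hQs ?_
    have h7 : IsCoprime (X - C (1 : ℚ)) Q := by
      refine (Polynomial.irreducible_X_sub_C (1 : ℚ)).coprime_iff_not_dvd.2 ?_
      rw [dvd_iff_isRoot]
      intro h8
      apply h1
      have h9 := eval_map_rat (F := ℚ_[ℓ]) Q 1
      rw [map_one] at h9
      rw [h9, show Q.eval 1 = 0 from h8, map_zero]
    rwa [C_1] at h7
  · rw [hPv, eval_mul, eval_sub, eval_X, eval_one, sub_self, zero_mul]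
  · intro n x y hn hx hy hxy
    obtain ⟨r, hr, rfl⟩ := lift x hx
    obtain ⟨s, hs, rfl⟩ := lift y hy
    rw [← map_pow, ← map_pow] at hxy
    have h2 := jc.injective hxy
    have h3 := hpow n (j r) (j s) hn (push r hr) (push s hs) (by rw [← map_pow, ← map_pow, h2])
    rw [j.injective h3]
  · intro x y z w hx hy hz hw hxy
    obtain ⟨r, hr, rfl⟩ := lift x hx
    obtain ⟨s, hs, rfl⟩ := lift y hy
    obtain ⟨t, ht, rfl⟩ := lift z hz
    obtain ⟨u, hu, rfl⟩ := lift w hw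
    rw [← map_mul, ← map_mul] at hxy
    have h2 := jc.injective hxy
    rcases hfour (j r) (j s) (j t) (j u) (push r hr) (push s hs) (push t ht) (push u hu)
      (by rw [← map_mul, ← map_mul, h2]) with ⟨h3, h4⟩ | ⟨h3, h4⟩ | h3
    · left
      rw [j.injective h3, j.injective h4]
      exact ⟨rfl, rfl⟩
    · right; left
      rw [j.injective h3, j.injective h4]
      exact ⟨rfl, rfl⟩
    · right; right
      rw [← map_mul] at h3
      have h5 : r * s = 1 := j.injective (by rw [h3, map_one])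
      rw [← map_mul, h5, map_one]

end

section place

variable {n : ℕ}

/-- the conditions modulo large primes, at a free place -/
theorem free_red {P : ℚ[X]} (hP : FreePoly P) (hn : 0 < n) (d : ℕ) :
    ∃ b : ℕ, ∀ (ℓ : ℕ) [Fact ℓ.Prime], b < ℓ → ∀ A : Matrix (Fin n) (Fin n) ℤ_[ℓ],
      (A.map (algebraMap ℤ_[ℓ] ℚ_[ℓ])).charpoly = P.map (algebraMap ℚ ℚ_[ℓ]) →
      ∃ (mu : Fin n → AlgebraicClosure (ZMod ℓ)) (i₀ : Fin n),
        (red ℓ A).charpoly.map (algebraMap (ZMod ℓ) (AlgebraicClosure (ZMod ℓ))) =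
          ∏ i, (X - C (mu i)) ∧ Free mu ∧ mu i₀ = 1 ∧
        ∀ m, 1 ≤ m → m ≤ d → ∀ i, i ≠ i₀ → mu i ^ m ≠ mu i₀ ^ m := by
  classical
  obtain ⟨hmon, hsep, h1, hpow, hfour⟩ := hP
  by_cases hdeg : P.natDegree = n
  swap
  · refine ⟨0, fun ℓ _ _ A hA => absurd ?_ hdeg⟩
    have h2 := congrArg natDegree hA
    rw [Matrix.charpoly_natDegree_eq_dim, Fintype.card_fin, natDegree_map] at h2
    exact h2.symm
  -- the complex roots
  obtain ⟨lam, hlam, hinj⟩ : ∃ lam : Fin n → ℂ, P.map (algebraMap ℚ ℂ) = ∏ i, (X - C (lam i)) ∧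
      Function.Injective lam := by
    have hsplit : (P.map (algebraMap ℚ ℂ)).Splits := IsAlgClosed.splits _
    have hcard : (P.map (algebraMap ℚ ℂ)).roots.card = n := by
      rw [← hsplit.natDegree_eq_card_roots, natDegree_map, hdeg]
    have hnd : (P.map (algebraMap ℚ ℂ)).roots.Nodup := nodup_roots (hsep.map)
    set s : Finset ℂ := (P.map (algebraMap ℚ ℂ)).roots.toFinset with hs
    have hsc : s.card = n := by
      rw [hs, Multiset.toFinset_card_of_nodup hnd, hcard]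
    let e : Fin n ≃ s := (s.equivFinOfCardEq hsc).symm
    refine ⟨fun i => (e i : ℂ), ?_, fun i j hij => e.injective (Subtype.ext hij)⟩
    have h2 := hsplit.eq_prod_roots_of_monic (hmon.map _)
    rw [h2]
    have h3 : (P.map (algebraMap ℚ ℂ)).roots = s.val := by
      rw [hs, Multiset.toFinset_val, Multiset.dedup_eq_self.2 hnd]
    rw [h3]
    have h4 : ∏ i, (X - C ((e i : ℂ))) = ∏ x : s, (X - C (x : ℂ)) :=
      Equiv.prod_comp e (fun x : s => (X - C (x : ℂ)))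
    rw [h4, Finset.prod_coe_sort s (fun x => (X - C x))]
    rfl
  have hlr : ∀ i, aeval (lam i) P = 0 := by
    intro i
    rw [aeval_def, ← eval_map, hlam, eval_prod]
    exact Finset.prod_eq_zero (Finset.mem_univ i) (by simp)
  obtain ⟨i₀, hi₀⟩ : ∃ i₀, lam i₀ = 1 := by
    have h2 : (P.map (algebraMap ℚ ℂ)).eval 1 = 0 := by
      have h3 := eval₂_at_apply (algebraMap ℚ ℂ) (1 : ℚ) (p := P)
      rw [h1, map_zero, map_one] at h3
      rw [eval_map]
      exact h3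
    rw [hlam, eval_prod, Finset.prod_eq_zero_iff] at h2
    obtain ⟨i, -, hi⟩ := h2
    refine ⟨i, ?_⟩
    rw [eval_sub, eval_X, eval_C, sub_eq_zero] at hi
    exact hi.symm
  -- the finite list of conditions
  let E1 : Finset (MvPolynomial (Fin n) ℤ) :=
    ((Finset.univ : Finset (Fin n × Fin n)).filter (fun q => q.1 ≠ q.2) ×ˢ
      (Finset.Icc 1 (max d 2))).image
      (fun q => MvPolynomial.X q.1.1 ^ q.2 - MvPolynomial.X q.1.2 ^ q.2)
  let E2 : Finset (MvPolynomial (Fin n) ℤ) :=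
    ((Finset.univ : Finset ((Fin n × Fin n) × (Fin n × Fin n))).filter
      (fun q => lam q.1.1 * lam q.1.2 ≠ lam q.2.1 * lam q.2.2)).image
      (fun q => MvPolynomial.X q.1.1 * MvPolynomial.X q.1.2 -
        MvPolynomial.X q.2.1 * MvPolynomial.X q.2.2)
  obtain ⟨b, hb⟩ := r_stmt n P lam hlam (E1 ∪ E2) (by
    intro e he
    rcases Finset.mem_union.1 he with he | he
    · obtain ⟨⟨⟨i, j⟩, m⟩, hq, rfl⟩ := Finset.mem_image.1 he
      rw [Finset.mem_product, Finset.mem_filter, Finset.mem_Icc] at hq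
      rw [map_sub, map_pow, map_pow, MvPolynomial.aeval_X, MvPolynomial.aeval_X, sub_ne_zero]
      intro h2
      exact hq.1.2 (hinj (hpow m _ _ (by omega) (hlr i) (hlr j) h2))
    · obtain ⟨q, hq, rfl⟩ := Finset.mem_image.1 he
      rw [Finset.mem_filter] at hq
      rw [map_sub, map_mul, map_mul, MvPolynomial.aeval_X, MvPolynomial.aeval_X,
        MvPolynomial.aeval_X, MvPolynomial.aeval_X, sub_ne_zero]
      exact hq.2)
  refine ⟨b, fun ℓ _ hℓ A hA => ?_⟩
  obtain ⟨mu, hmu, hE, hR⟩ := hb ℓ hℓ A hA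
  have hp : ∀ m, 1 ≤ m → m ≤ max d 2 → ∀ i j, i ≠ j → mu i ^ m ≠ mu j ^ m := by
    intro m hm hmd i j hij h2
    apply hE (MvPolynomial.X i ^ m - MvPolynomial.X j ^ m)
    · refine Finset.mem_union_left _ (Finset.mem_image.2 ⟨((i, j), m), ?_, rfl⟩)
      rw [Finset.mem_product, Finset.mem_filter, Finset.mem_Icc]
      exact ⟨⟨Finset.mem_univ _, hij⟩, hm, hmd⟩
    · rw [map_sub, map_pow, map_pow, MvPolynomial.aeval_X, MvPolynomial.aeval_X, h2, sub_self]
  have hq : ∀ i j a b, mu i * mu j = mu a * mu b → lam i * lam j = lam a * lam b := by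
    intro i j a b h2
    by_contra h3
    apply hE (MvPolynomial.X i * MvPolynomial.X j - MvPolynomial.X a * MvPolynomial.X b)
    · refine Finset.mem_union_right _ (Finset.mem_image.2 ⟨((i, j), (a, b)), ?_, rfl⟩)
      rw [Finset.mem_filter]
      exact ⟨Finset.mem_univ _, h3⟩
    · rw [map_sub, map_mul, map_mul, MvPolynomial.aeval_X, MvPolynomial.aeval_X,
        MvPolynomial.aeval_X, MvPolynomial.aeval_X, h2, sub_self]
  have hmu1 : mu i₀ = 1 := by
    have h2 := hR (MvPolynomial.X i₀ - 1) (by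
      rw [map_sub, MvPolynomial.aeval_X, map_one, hi₀, sub_self])
    rw [map_sub, MvPolynomial.aeval_X, map_one, sub_eq_zero] at h2
    exact h2
  have hmuinj : Function.Injective mu := by
    intro i j hij
    by_contra hne
    exact hp 1 le_rfl (by omega) i j hne (by rw [hij])
  refine ⟨mu, i₀, hmu, ⟨hmuinj, ?_, ?_⟩, hmu1, ?_⟩
  · intro i j hi hj
    by_contra hne
    exact hp 2 (by norm_num) (le_max_right _ _) i j hne (by rw [sq, sq, hi, hj])
  · intro i j a b _ _ h2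
    rcases hfour _ _ _ _ (hlr i) (hlr j) (hlr a) (hlr b) (hq i j a b h2) with ⟨h3, h4⟩ | ⟨h3, h4⟩ | h3
    · exact Or.inl ⟨hinj h3, hinj h4⟩
    · exact Or.inr (Or.inl ⟨hinj h3, hinj h4⟩)
    · right; right
      have h4 := hR (MvPolynomial.X i * MvPolynomial.X j - 1) (by
        rw [map_sub, map_mul, MvPolynomial.aeval_X, MvPolynomial.aeval_X, map_one, h3, sub_self])
      rw [map_sub, map_mul, MvPolynomial.aeval_X, MvPolynomial.aeval_X, map_one, sub_eq_zero] at h4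
      exact h4
  · intro m hm hmd i hi
    exact hp m hm (le_trans hmd (le_max_left _ _)) i i₀ hi

end place

end Pool.Agent.T2H36.IX
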