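import Pool.Agent.T2H36.IX.F2
import Pool.Agent.R932.OP.Irr1

set_option autoImplicit false
set_option linter.unusedSectionVars false
set_option linter.style.haveILetI false

/-!
Project IX, part F3: big images at all large primes at which the representation modulo `ℓ` is
uniformly irreducible.
-/

open Matrix Polynomial Filter Topology NumberField IsDedekindDomain
open Pool.Agent.Y142.ZO Pool.Agent.Y142.ZI

namespace Pool.Agent.T2H36.IX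

open Pool.Agent.R932

/-- the closed normal subgroups with a reduction of order divisible by `ℓ` contain all isometries
whose reduction is in `Om`, and there is an element of order `ℓ` -/
def NormBig (ℓ : ℕ) [Fact ℓ.Prime] {n : ℕ} {Γ : Type} [Group Γ] [TopologicalSpace Γ]
    (β : Γ →* Matrix (Fin n) (Fin n) ℤ_[ℓ]) (B : Matrix (Fin n) (Fin n) ℤ_[ℓ]) : Prop :=
  (∀ K : Subgroup Γ, K.Normal → IsClosed (K : Set Γ) →
    (∃ g ∈ K, red ℓ (β g) ≠ 1 ∧ red ℓ (β g) ^ ℓ = 1) →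
    (∀ x ∈ Om ℓ (red ℓ B), ∃ g ∈ K, red ℓ (β g) = x) ∧
    ∀ h : Matrix (Fin n) (Fin n) ℤ_[ℓ], hᵀ * B * h = B → red ℓ h ∈ Om ℓ (red ℓ B) →
    ∃ g ∈ K, β g = h) ∧
  ∃ g, red ℓ (β g) ≠ 1 ∧ red ℓ (β g) ^ ℓ = 1

section

variable {K : Type} [Field K] [NumberField K] {n : ℕ} {Γ : Type} [Group Γ] [TopologicalSpace Γ]
  [IsTopologicalGroup Γ] [CompactSpace Γ] {s : GK K →* Γ}
  {S : Set (HeightOneSpectrum (𝓞 K))} {P : HeightOneSpectrum (𝓞 K) → ℚ[X]}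

/-- **the bound for the index of the subgroups** -/
theorem exists_dn (n : ℕ) (hn : 5 ≤ n) : ∃ d : ℕ, ∀ (K : Type) [Field K] [NumberField K]
    (Γ : Type) [Group Γ] [TopologicalSpace Γ] [IsTopologicalGroup Γ] [CompactSpace Γ]
    (s : GK K →* Γ) (S : Set (HeightOneSpectrum (𝓞 K))) (P : HeightOneSpectrum (𝓞 K) → ℚ[X])
    (v : HeightOneSpectrum (𝓞 K)), v ∉ S → FreePoly (P v) →
    ∃ b : ℕ, ∀ (ℓ : ℕ) [Fact ℓ.Prime], b < ℓ →
    ∀ (β : Γ →* Matrix (Fin n) (Fin n) ℤ_[ℓ]) (B : Matrix (Fin n) (Fin n) ℤ_[ℓ]),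
    IntegralSys K n ℓ s β B S P → Continuous β → IsUnit B.det → IrrMod ℓ d β → NormBig ℓ β B := by
  obtain ⟨C, hC2, hC⟩ := norm_main n hn
  obtain ⟨J, hJ⟩ := exists_ord n (by omega)
  refine ⟨max (2 ^ n) J, fun K _ _ Γ _ _ _ _ s S P v hv hfree => ?_⟩
  obtain ⟨b, hb⟩ := free_red hfree (n := n) (by omega) (max (2 ^ n) J)
  refine ⟨max (max b C) (Ideal.absNorm v.asIdeal), fun ℓ hp hℓ β B hsys hβ hB hirr => ?_⟩
  simp only [max_lt_iff] at hℓ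
  obtain ⟨-, hBs, -, hiso, hfrob⟩ := hsys
  obtain ⟨σ, hσ⟩ := Pool.Agent.W401.Frob.exists_frob v
  have hch := hfrob v hv (not_mem_of_lt v hp.out hℓ.2) σ hσ
  rw [← Matrix.charpoly_map] at hch
  obtain ⟨mu, i₀, h1, h2, h3, h4⟩ := hb ℓ hℓ.1.1 (β (s σ⁻¹)) hch
  have hsim : Sim (rh β) (AlgebraicClosure (ZMod ℓ)) (max (2 ^ n) J) (s σ⁻¹) mu i₀ 1 := by
    refine ⟨hirr, ?_, h2.inj, ?_, h4⟩
    · rw [← h1]
      exact Matrix.charpoly_map _ _
    · rw [h3, map_one]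
  have hdet : (red ℓ B).det ≠ 0 := by
    have h5 : (red ℓ B).det = (PadicInt.toZMod : ℤ_[ℓ] →+* ZMod ℓ) B.det := by
      rw [RingHom.map_det, RingHom.mapMatrix_apply]
    rw [h5]
    exact (hB.map (PadicInt.toZMod : ℤ_[ℓ] →+* ZMod ℓ)).ne_zero
  exact ⟨hC ℓ hℓ.1.2 Γ β hβ B hBs hdet hiso _ _ mu i₀ 1 (le_max_left _ _) hsim h2,
    hJ ℓ Γ β _ _ mu i₀ 1 (le_max_right _ _) hsim⟩

end

end Pool.Agent.T2H36.IX
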