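import Mathlib
import Pool.Agent.T2H36.IX.Defs2

/-!
Package NA: a noncommutative unipotent group of isometries of a nondegenerate form in at least five
variables over a prime field.
-/

set_option autoImplicit false

open Matrix Polynomial

namespace Pool.Agent.T2H36.IX

namespace Una

variable {F : Type} [Field F] {n : ℕ}

/-- the bilinear form -/
def bf (B : Matrix (Fin n) (Fin n) F) (x y : Fin n → F) : F := x ⬝ᵥ (B *ᵥ y)

theorem bf_symm {B : Matrix (Fin n) (Fin n) F} (hB : Bᵀ = B) (x y : Fin n → F) :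
    bf B x y = bf B y x := by
  unfold bf
  rw [dotProduct_comm y, dotProduct_mulVec, ← mulVec_transpose, hB, dotProduct_comm]

theorem bf_add_right (B : Matrix (Fin n) (Fin n) F) (x y z : Fin n → F) :
    bf B x (y + z) = bf B x y + bf B x z := by
  unfold bf
  rw [mulVec_add, dotProduct_add]

theorem bf_add_left (B : Matrix (Fin n) (Fin n) F) (x y z : Fin n → F) :
    bf B (x + y) z = bf B x z + bf B y z := by
  unfold bf
  rw [add_dotProduct]

theorem bf_sub_right (B : Matrix (Fin n) (Fin n) F) (x y z : Fin n → F) :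
    bf B x (y - z) = bf B x y - bf B x z := by
  unfold bf
  rw [mulVec_sub, dotProduct_sub]

theorem bf_sub_left (B : Matrix (Fin n) (Fin n) F) (x y z : Fin n → F) :
    bf B (x - y) z = bf B x z - bf B y z := by
  unfold bf
  rw [sub_dotProduct]

theorem bf_smul_right (B : Matrix (Fin n) (Fin n) F) (c : F) (x y : Fin n → F) :
    bf B x (c • y) = c * bf B x y := by
  unfold bf
  rw [mulVec_smul, dotProduct_smul, smul_eq_mul]

theorem bf_smul_left (B : Matrix (Fin n) (Fin n) F) (c : F) (x y : Fin n → F) :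
    bf B (c • x) y = c * bf B x y := by
  unfold bf
  rw [smul_dotProduct, smul_eq_mul]

theorem ext_bf {M N : Matrix (Fin n) (Fin n) F}
    (h : ∀ x y : Fin n → F, x ⬝ᵥ (M *ᵥ y) = x ⬝ᵥ (N *ᵥ y)) : M = N := by
  ext i j
  have := h (Pi.single i 1) (Pi.single j 1)
  simpa using this

theorem isom_of_bf {B g : Matrix (Fin n) (Fin n) F}
    (h : ∀ x y : Fin n → F, bf B (g *ᵥ x) (g *ᵥ y) = bf B x y) : gᵀ * B * g = B := by
  refine ext_bf fun x y => ?_
  have h1 := h x y
  unfold bf at h1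
  rw [← h1, ← mulVec_mulVec, ← mulVec_mulVec, dotProduct_mulVec, vecMul_transpose]

/-- the Siegel transformation -/
def Tm (B : Matrix (Fin n) (Fin n) F) (w y : Fin n → F) : Matrix (Fin n) (Fin n) F :=
  1 + vecMulVec y (B *ᵥ w) - vecMulVec w (B *ᵥ y) - (bf B y y / 2) • vecMulVec w (B *ᵥ w)

theorem Tm_mulVec {B : Matrix (Fin n) (Fin n) F} (w y x : Fin n → F) :
    Tm B w y *ᵥ x = x + bf B x w • y - bf B x y • w - (bf B y y / 2 * bf B x w) • w := by
  have h : ∀ u v : Fin n → F, vecMulVec u (B *ᵥ v) *ᵥ x = bf B x v • u := by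
    intro u v
    funext i
    simp only [mulVec, vecMulVec_apply, dotProduct, bf, Pi.smul_apply, smul_eq_mul]
    rw [Finset.sum_mul]
    refine Finset.sum_congr rfl fun j _ => ?_
    ring
  unfold Tm
  rw [sub_mulVec, sub_mulVec, add_mulVec, one_mulVec, smul_mulVec, h, h, h, smul_smul]

theorem Tm_isom {B : Matrix (Fin n) (Fin n) F} (hB : Bᵀ = B) (h2 : (2 : F) ≠ 0)
    {w y : Fin n → F} (hw : bf B w w = 0) (hy : bf B w y = 0) :
    (Tm B w y)ᵀ * B * Tm B w y = B := by
  have hy' : bf B y w = 0 := by rw [bf_symm hB]; exact hy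
  refine isom_of_bf fun x z => ?_
  rw [Tm_mulVec, Tm_mulVec]
  simp only [bf_sub_left, bf_sub_right, bf_add_left, bf_add_right, bf_smul_left, bf_smul_right,
    hw, hy, hy']
  rw [bf_symm hB y z, bf_symm hB w z]
  field_simp
  ring

/-- the matrices preserving a flag, unipotent on the graded pieces -/
def Fl (W : ℕ → Submodule F (Fin n → F)) (g : Matrix (Fin n) (Fin n) F) : Prop :=
  ∀ i, ∀ x ∈ W (i + 1), (g - 1) *ᵥ x ∈ W i

theorem Fl_one (W : ℕ → Submodule F (Fin n → F)) : Fl W 1 := by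
  intro i x _
  rw [sub_self, zero_mulVec]
  exact Submodule.zero_mem _

theorem Fl_mul {W : ℕ → Submodule F (Fin n → F)} (hW : ∀ i, W i ≤ W (i + 1))
    {g h : Matrix (Fin n) (Fin n) F} (hg : Fl W g) (hh : Fl W h) : Fl W (g * h) := by
  intro i x hx
  have e : g * h - 1 = (g - 1) * (h - 1) + (g - 1) + (h - 1) := by
    noncomm_ring
  rw [e, add_mulVec, add_mulVec, ← mulVec_mulVec]
  refine Submodule.add_mem _ (Submodule.add_mem _ ?_ (hg i x hx)) (hh i x hx)
  exact hg i _ (hW i (hh i x hx))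

theorem Fl_pow {W : ℕ → Submodule F (Fin n → F)} {g : Matrix (Fin n) (Fin n) F} (hg : Fl W g)
    (k : ℕ) : ∀ i, ∀ x ∈ W (i + k), ((g - 1) ^ k) *ᵥ x ∈ W i := by
  induction k with
  | zero =>
    intro i x hx
    rw [pow_zero, one_mulVec]
    exact hx
  | succ k ih =>
    intro i x hx
    rw [pow_succ, ← mulVec_mulVec]
    exact ih i _ (hg (i + k) x hx)

theorem Fl_nil {W : ℕ → Submodule F (Fin n → F)} {g : Matrix (Fin n) (Fin n) F} (hg : Fl W g)
    {k : ℕ} (h0 : W 0 = ⊥) (hk : W k = ⊤) : (g - 1) ^ k = 0 := by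
  refine ext_bf fun x y => ?_
  have h := Fl_pow hg k 0 y (by rw [zero_add, hk]; exact Submodule.mem_top)
  rw [h0, Submodule.mem_bot] at h
  rw [h, zero_mulVec]

/-- from three orthogonal vectors to a hyperbolic pair and an orthogonal vector -/
theorem hyp {B : Matrix (Fin n) (Fin n) F} [Fintype F] (hB : Bᵀ = B) (h2 : (2 : F) ≠ 0)
    {p q r : Fin n → F} (hpq : bf B p q = 0) (hpr : bf B p r = 0) (hqr : bf B q r = 0)
    (hp : bf B p p ≠ 0) (hq : bf B q q ≠ 0) (hr : bf B r r ≠ 0) :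
    ∃ (a1 a2 a3 b1 b2 b3 c1 c2 c3 : F), ∃ w u t : Fin n → F,
      w = a1 • p + a2 • q + a3 • r ∧ u = b1 • p + b2 • q + b3 • r ∧
      t = c1 • p + c2 • q + c3 • r ∧
      bf B w w = 0 ∧ bf B u u = 0 ∧ bf B w u = 1 ∧ bf B t w = 0 ∧ bf B t u = 0 ∧ bf B t t ≠ 0 := by
  classical
  set α := bf B p p with hα
  set β := bf B q q with hβ
  set γ := bf B r r with hγ
  have hodd : Fintype.card F % 2 = 1 := by
    rcases Nat.even_or_odd (Fintype.card F) with h | h
    · exfalso
      have h3 : ringChar F = 2 := by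
        have := FiniteField.even_card_iff_char_two (F := F)
        exact this.2 (Nat.even_iff.1 h)
      have h4 : ((2 : ℕ) : F) = 0 := by
        rw [← h3]
        exact ringChar.Nat.cast_ringChar
      exact h2 (by exact_mod_cast h4)
    · exact Nat.odd_iff.1 h
  obtain ⟨x, y, hxy⟩ := FiniteField.exists_root_sum_quadratic (R := F)
    (f := C α * X ^ 2 + C 0 * X + C γ) (g := C β * X ^ 2 + C 0 * X + C 0)
    (degree_quadratic hp) (degree_quadratic hq) hodd
  have hxy' : α * x ^ 2 + β * y ^ 2 + γ = 0 := by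
    simp only [map_zero, zero_mul, add_zero, eval_add, eval_mul, eval_C, eval_pow, eval_X] at hxy
    linear_combination hxy
  have hqp : bf B q p = 0 := by rw [bf_symm hB]; exact hpq
  have hrp : bf B r p = 0 := by rw [bf_symm hB]; exact hpr
  have hrq : bf B r q = 0 := by rw [bf_symm hB]; exact hqr
  refine ⟨x, y, 1, -(x / (2 * γ)), -(y / (2 * γ)), 1 / (2 * γ), β * y, -(α * x), 0, _, _, _,
    rfl, rfl, rfl, ?_, ?_, ?_, ?_, ?_, ?_⟩
  · simp only [bf_add_left, bf_add_right, bf_smul_left, bf_smul_right, hpq, hpr, hqr, hqp, hrp, hrq,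
      ← hα, ← hβ, ← hγ]
    linear_combination hxy'
  · simp only [bf_add_left, bf_add_right, bf_smul_left, bf_smul_right, hpq, hpr, hqr, hqp, hrp, hrq,
      ← hα, ← hβ, ← hγ]
    field_simp
    linear_combination hxy'
  · simp only [bf_add_left, bf_add_right, bf_smul_left, bf_smul_right, hpq, hpr, hqr, hqp, hrp, hrq,
      ← hα, ← hβ, ← hγ]
    field_simp
    linear_combination (-1 : F) * hxy'
  · simp only [bf_add_left, bf_add_right, bf_smul_left, bf_smul_right, hpq, hpr, hqr, hqp, hrp, hrq,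
      ← hα, ← hβ, ← hγ]
    ring
  · simp only [bf_add_left, bf_add_right, bf_smul_left, bf_smul_right, hpq, hpr, hqr, hqp, hrp, hrq,
      ← hα, ← hβ, ← hγ]
    ring
  · simp only [bf_add_left, bf_add_right, bf_smul_left, bf_smul_right, hpq, hpr, hqr, hqp, hrp, hrq,
      ← hα, ← hβ, ← hγ]
    have e : β * y * (β * y * α + -(α * x) * 0 + 0 * 0) + -(α * x) * (β * y * 0 + -(α * x) * β + 0 * 0)
        + 0 * (β * y * 0 + -(α * x) * 0 + 0 * γ) = -(α * β * γ) := by
      linear_combination (α * β) * hxy'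
    rw [show ∀ a : F, a ≠ 0 ↔ a ≠ 0 from fun _ => Iff.rfl]
    intro h
    have h5 : -(α * β * γ) = 0 := by
      rw [← e]
      linear_combination h
    rw [neg_eq_zero, mul_eq_zero, mul_eq_zero] at h5
    rcases h5 with (h5 | h5) | h5
    · exact hp h5
    · exact hq h5
    · exact hr h5

/-- five orthogonal vectors -/
theorem orth5 {B : Matrix (Fin n) (Fin n) F} (hB : Bᵀ = B) (h2 : (2 : F) ≠ 0) (hdet : B.det ≠ 0) :
    ∃ v : Fin n → (Fin n → F), (∀ i j, i ≠ j → bf B (v i) (v j) = 0) ∧ ∀ i, bf B (v i) (v i) ≠ 0 := by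
  have : Invertible (2 : F) := invertibleOfNonzero h2
  have hs : LinearMap.IsSymm (Matrix.toBilin' B) := by
    refine ⟨fun x y => ?_⟩
    rw [Matrix.toBilin'_apply', Matrix.toBilin'_apply']
    exact bf_symm hB x y
  obtain ⟨v, hv⟩ := LinearMap.BilinForm.exists_orthogonal_basis hs
  have hnd : (Matrix.toBilin' B).Nondegenerate :=
    LinearMap.BilinForm.nondegenerate_toBilin'_of_det_ne_zero' B hdet
  have hv2 := hv.not_isOrtho_basis_self_of_separatingLeft hnd.1
  have hfr : Module.finrank F (Fin n → F) = n := by simp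
  refine ⟨fun i => v (Fin.cast hfr.symm i), fun i j hij => ?_, fun i => ?_⟩
  · have h := hv (i := Fin.cast hfr.symm i) (j := Fin.cast hfr.symm j) (by
      intro h
      exact hij (Fin.cast_injective _ h))
    change Matrix.toBilin' B _ _ = 0 at h
    rw [Matrix.toBilin'_apply'] at h
    exact h
  · intro h
    apply hv2 (Fin.cast hfr.symm i)
    change Matrix.toBilin' B _ _ = 0
    rw [Matrix.toBilin'_apply']
    exact h

theorem Tm_sub {B : Matrix (Fin n) (Fin n) F} (w y x : Fin n → F) :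
    (Tm B w y - 1) *ᵥ x = bf B x w • y - bf B x y • w - (bf B y y / 2 * bf B x w) • w := by
  rw [sub_mulVec, Tm_mulVec, one_mulVec]
  abel

/-- the linear form -/
def lf (B : Matrix (Fin n) (Fin n) F) (w : Fin n → F) : (Fin n → F) →ₗ[F] F where
  toFun x := bf B w x
  map_add' x y := bf_add_right B w x y
  map_smul' c x := by rw [bf_smul_right]; rfl

/-- the flag -/
def WW (B : Matrix (Fin n) (Fin n) F) (w1 w2 : Fin n → F) : ℕ → Submodule F (Fin n → F)
  | 0 => ⊥
  | 1 => Submodule.span F {w2}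
  | 2 => Submodule.span F {w1, w2}
  | 3 => LinearMap.ker (lf B w1) ⊓ LinearMap.ker (lf B w2)
  | 4 => LinearMap.ker (lf B w2)
  | _ + 5 => ⊤

theorem mem3 {B : Matrix (Fin n) (Fin n) F} {w1 w2 x : Fin n → F} :
    x ∈ WW B w1 w2 3 ↔ bf B w1 x = 0 ∧ bf B w2 x = 0 := Iff.rfl

theorem mem4 {B : Matrix (Fin n) (Fin n) F} {w1 w2 x : Fin n → F} :
    x ∈ WW B w1 w2 4 ↔ bf B w2 x = 0 := Iff.rfl

theorem WW_mono {B : Matrix (Fin n) (Fin n) F} (hB : Bᵀ = B) {w1 w2 : Fin n → F}
    (h11 : bf B w1 w1 = 0) (h22 : bf B w2 w2 = 0) (h12 : bf B w1 w2 = 0) :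
    ∀ i, WW B w1 w2 i ≤ WW B w1 w2 (i + 1) := by
  have h21 : bf B w2 w1 = 0 := by rw [bf_symm hB]; exact h12
  intro i
  match i with
  | 0 => exact bot_le
  | 1 => exact Submodule.span_mono (by simp)
  | 2 =>
    change Submodule.span F {w1, w2} ≤ _
    rw [Submodule.span_le]
    intro x hx
    simp only [Set.mem_insert_iff, Set.mem_singleton_iff] at hx
    change x ∈ WW B w1 w2 3
    rw [mem3]
    rcases hx with rfl | rfl
    · exact ⟨h11, h21⟩
    · exact ⟨h12, h22⟩
  | 3 => exact inf_le_right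
  | 4 => exact le_top
  | _ + 5 => exact le_top

theorem span1 {w2 x : Fin n → F} (c : F) (h : x = c • w2) : x ∈ Submodule.span F {w2} := by
  rw [Submodule.mem_span_singleton]
  exact ⟨c, h.symm⟩

theorem Fl_a {B : Matrix (Fin n) (Fin n) F} (hB : Bᵀ = B) {w1 w2 z : Fin n → F}
    (h11 : bf B w1 w1 = 0) (h12 : bf B w1 w2 = 0)
    (hz1 : bf B w1 z = 0) (hz2 : bf B w2 z = 0) : Fl (WW B w1 w2) (Tm B w1 z) := by
  have h21 : bf B w2 w1 = 0 := by rw [bf_symm hB]; exact h12
  intro i x hx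
  rw [Tm_sub]
  match i with
  | 0 =>
    change x ∈ Submodule.span F {w2} at hx
    rw [Submodule.mem_span_singleton] at hx
    obtain ⟨c, rfl⟩ := hx
    change _ ∈ (⊥ : Submodule F (Fin n → F))
    rw [Submodule.mem_bot, bf_smul_left, bf_smul_left, h21, hz2]
    simp
  | 1 =>
    change x ∈ Submodule.span F {w1, w2} at hx
    rw [Submodule.mem_span_pair] at hx
    obtain ⟨c, d, rfl⟩ := hx
    refine span1 0 ?_
    rw [bf_add_left, bf_add_left, bf_smul_left, bf_smul_left, bf_smul_left, bf_smul_left, h21, hz2,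
      h11, hz1]
    simp
  | 2 =>
    have hx' := mem3.1 hx
    change _ ∈ Submodule.span F {w1, w2}
    rw [Submodule.mem_span_pair]
    refine ⟨-(bf B x z), 0, ?_⟩
    rw [bf_symm hB x w1, hx'.1]
    simp
  | 3 =>
    rw [mem3]
    simp only [bf_sub_right, bf_smul_right, hz1, hz2, h11, h21]
    simp
  | 4 =>
    rw [mem4]
    simp only [bf_sub_right, bf_smul_right, hz2, h21]
    simp
  | _ + 5 => exact Submodule.mem_top

theorem Fl_c {B : Matrix (Fin n) (Fin n) F} (hB : Bᵀ = B) {w1 w2 u1 : Fin n → F}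
    (h22 : bf B w2 w2 = 0) (h12 : bf B w1 w2 = 0)
    (hu2 : bf B w2 u1 = 0) (huu : bf B u1 u1 = 0) : Fl (WW B w1 w2) (Tm B w2 u1) := by
  have h21 : bf B w2 w1 = 0 := by rw [bf_symm hB]; exact h12
  intro i x hx
  rw [Tm_sub, huu]
  match i with
  | 0 =>
    change x ∈ Submodule.span F {w2} at hx
    rw [Submodule.mem_span_singleton] at hx
    obtain ⟨c, rfl⟩ := hx
    change _ ∈ (⊥ : Submodule F (Fin n → F))
    rw [Submodule.mem_bot, bf_smul_left, bf_smul_left, h22, hu2]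
    simp
  | 1 =>
    change x ∈ Submodule.span F {w1, w2} at hx
    rw [Submodule.mem_span_pair] at hx
    obtain ⟨c, d, rfl⟩ := hx
    refine span1 (-(bf B (c • w1 + d • w2) u1)) ?_
    have : bf B (c • w1 + d • w2) w2 = 0 := by
      rw [bf_add_left, bf_smul_left, bf_smul_left, h12, h22]
      simp
    rw [this]
    simp
  | 2 =>
    have hx' := mem3.1 hx
    change _ ∈ Submodule.span F {w1, w2}
    rw [Submodule.mem_span_pair]
    refine ⟨0, -(bf B x u1), ?_⟩
    rw [bf_symm hB x w2, hx'.2]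
    simp
  | 3 =>
    have hx' := mem4.1 hx
    rw [mem3]
    rw [bf_symm hB x w2, hx']
    simp only [bf_sub_right, bf_smul_right, h12, h22]
    simp
  | 4 =>
    rw [mem4]
    simp only [bf_sub_right, bf_smul_right, hu2, h22]
    simp
  | _ + 5 => exact Submodule.mem_top

end Una

open Una in
theorem na_stmt : NAStmt := by
  intro ℓ hℓ n hn hnl B hB hdet
  have hl5 : 5 < ℓ := by omega
  have h2 : (2 : ZMod ℓ) ≠ 0 := by
    intro h
    have h' : ((2 : ℕ) : ZMod ℓ) = 0 := by exact_mod_cast h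
    rw [ZMod.natCast_eq_zero_iff] at h'
    have := Nat.le_of_dvd (by norm_num) h'
    omega
  have : NeZero n := ⟨by omega⟩
  have : Nonempty (Fin n) := ⟨0⟩
  obtain ⟨v, hv, hv0⟩ := orth5 hB h2 hdet
  obtain ⟨i0, i1, i2, i3, i4, h01, h02, h03, h04, h12, h13, h14, h23, h24, h34⟩ :
      ∃ i0 i1 i2 i3 i4 : Fin n, i0 ≠ i1 ∧ i0 ≠ i2 ∧ i0 ≠ i3 ∧ i0 ≠ i4 ∧ i1 ≠ i2 ∧ i1 ≠ i3 ∧
        i1 ≠ i4 ∧ i2 ≠ i3 ∧ i2 ≠ i4 ∧ i3 ≠ i4 := by
    refine ⟨⟨0, by omega⟩, ⟨1, by omega⟩, ⟨2, by omega⟩, ⟨3, by omega⟩, ⟨4, by omega⟩, ?_⟩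
    simp
  obtain ⟨a1, a2, a3, b1, b2, b3, c1, c2, c3, w1, u1, t, hw1, hu1, ht, p1, p2, p3, p4, p5, p6⟩ :=
    hyp hB h2 (hv i0 i1 h01) (hv i0 i2 h02) (hv i1 i2 h12) (hv0 i0) (hv0 i1) (hv0 i2)
  have e30 := hv i3 i0 h03.symm
  have e31 := hv i3 i1 h13.symm
  have e32 := hv i3 i2 h23.symm
  have e40 := hv i4 i0 h04.symm
  have e41 := hv i4 i1 h14.symm
  have e42 := hv i4 i2 h24.symm
  have s3w : bf B (v i3) w1 = 0 := by
    rw [hw1]
    simp only [bf_add_right, bf_smul_right, e30, e31, e32, mul_zero, add_zero]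
  have s4w : bf B (v i4) w1 = 0 := by
    rw [hw1]
    simp only [bf_add_right, bf_smul_right, e40, e41, e42, mul_zero, add_zero]
  have s3u : bf B (v i3) u1 = 0 := by
    rw [hu1]
    simp only [bf_add_right, bf_smul_right, e30, e31, e32, mul_zero, add_zero]
  have s4u : bf B (v i4) u1 = 0 := by
    rw [hu1]
    simp only [bf_add_right, bf_smul_right, e40, e41, e42, mul_zero, add_zero]
  have s3t : bf B (v i3) t = 0 := by
    rw [ht]
    simp only [bf_add_right, bf_smul_right, e30, e31, e32, mul_zero, add_zero]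
  have s4t : bf B (v i4) t = 0 := by
    rw [ht]
    simp only [bf_add_right, bf_smul_right, e40, e41, e42, mul_zero, add_zero]
  obtain ⟨a1', a2', a3', b1', b2', b3', c1', c2', c3', w2, u2, z, hw2, hu2, hz, q1, q2, q3, q4, q5,
    q6⟩ := hyp hB h2 (hv i3 i4 h34) s3t s4t (hv0 i3) (hv0 i4) p6
  have r21 : bf B w2 w1 = 0 := by
    rw [hw2]
    simp only [bf_add_left, bf_smul_left, s3w, s4w, p4, mul_zero, add_zero]
  have r21' : bf B w2 u1 = 0 := by
    rw [hw2]
    simp only [bf_add_left, bf_smul_left, s3u, s4u, p5, mul_zero, add_zero]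
  have ru1 : bf B u2 w1 = 0 := by
    rw [hu2]
    simp only [bf_add_left, bf_smul_left, s3w, s4w, p4, mul_zero, add_zero]
  have ru1' : bf B u2 u1 = 0 := by
    rw [hu2]
    simp only [bf_add_left, bf_smul_left, s3u, s4u, p5, mul_zero, add_zero]
  have rz1 : bf B z w1 = 0 := by
    rw [hz]
    simp only [bf_add_left, bf_smul_left, s3w, s4w, p4, mul_zero, add_zero]
  have rz1' : bf B z u1 = 0 := by
    rw [hz]
    simp only [bf_add_left, bf_smul_left, s3u, s4u, p5, mul_zero, add_zero]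
  have r12 : bf B w1 w2 = 0 := by rw [bf_symm hB]; exact r21
  have z1 : bf B w1 z = 0 := by rw [bf_symm hB]; exact rz1
  have z2 : bf B w2 z = 0 := by rw [bf_symm hB]; exact q4
  have hch : CharP (Matrix (Fin n) (Fin n) (ZMod ℓ)) ℓ := inferInstance
  have hWm := WW_mono hB p1 q1 r12
  -- elements of the group
  have hpow : ∀ g : Matrix (Fin n) (Fin n) (ZMod ℓ), Fl (WW B w1 w2) g → g ^ ℓ = 1 := by
    intro g hg
    have h5 : (g - 1) ^ 5 = 0 := Fl_nil hg rfl rfl
    have h6 : (g - 1) ^ ℓ = 0 := pow_eq_zero_of_le (by omega) h5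
    have h7 : g ^ ℓ - 1 = (g - 1) ^ ℓ := by
      rw [sub_pow_char_of_commute ℓ (Commute.one_right g), one_pow]
    rw [h6] at h7
    exact sub_eq_zero.1 h7
  have hFa := Fl_a hB p1 r12 z1 z2
  have hFc := Fl_c hB q1 r12 r21' p2
  set a := Tm B w1 z with ha
  set c := Tm B w2 u1 with hc
  have hIa : aᵀ * B * a = B := Tm_isom hB h2 p1 z1
  have hIc : cᵀ * B * c = B := Tm_isom hB h2 q1 r21'
  have hOa : a ∈ Om ℓ B := Submonoid.subset_closure ⟨hIa, hpow a hFa⟩
  have hOc : c ∈ Om ℓ B := Submonoid.subset_closure ⟨hIc, hpow c hFc⟩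
  let S : Submonoid (Matrix (Fin n) (Fin n) (ZMod ℓ))ˣ :=
    { carrier := {g | Fl (WW B w1 w2) g.val ∧ g.valᵀ * B * g.val = B ∧ g.val ∈ Om ℓ B}
      one_mem' := ⟨Fl_one _, by simp, one_mem _⟩
      mul_mem' := by
        rintro g h ⟨g1, g2, g3⟩ ⟨k1, k2, k3⟩
        refine ⟨Fl_mul hWm g1 k1, ?_, mul_mem g3 k3⟩
        rw [Units.val_mul, transpose_mul]
        calc h.valᵀ * g.valᵀ * B * (g.val * h.val) = h.valᵀ * (g.valᵀ * B * g.val) * h.val := by
              simp only [Matrix.mul_assoc]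
          _ = B := by rw [g2, k2] }
  have hS1 : ∀ g ∈ S, g ^ ℓ = 1 := by
    intro g hg
    apply Units.ext
    rw [Units.val_pow_eq_pow_val, Units.val_one]
    exact hpow g.val hg.1
  let R : Subgroup (Matrix (Fin n) (Fin n) (ZMod ℓ))ˣ :=
    { S with
      inv_mem' := by
        intro g hg
        have h1 : g⁻¹ = g ^ (ℓ - 1) := by
          rw [inv_eq_iff_mul_eq_one, ← pow_succ']
          have : ℓ - 1 + 1 = ℓ := by omega
          rw [this]
          exact hS1 g hg
        change g⁻¹ ∈ S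
        rw [h1]
        exact S.pow_mem hg _ }
  have hRS : ∀ g, g ∈ R ↔ g ∈ S := fun g => Iff.rfl
  have hpg : IsPGroup ℓ R := by
    intro g
    refine ⟨1, ?_⟩
    apply Subtype.ext
    rw [pow_one]
    exact hS1 g.1 g.2
  obtain ⟨k, hk⟩ := (IsPGroup.iff_card (p := ℓ) (G := R)).1 hpg
  let ua := Units.ofPowEqOne a ℓ (hpow a hFa) (by omega)
  let uc := Units.ofPowEqOne c ℓ (hpow c hFc) (by omega)
  have hua : ua.val = a := rfl
  have huc : uc.val = c := rfl
  refine ⟨R, k, hk, fun g hg => ⟨hg.2.1, hg.2.2⟩, ua, ⟨hFa, hIa, hOa⟩, uc, ⟨hFc, hIc, hOc⟩, ?_⟩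
  intro h
  have h1 : a * c = c * a := by
    have := congrArg Units.val h
    rw [Units.val_mul, Units.val_mul, hua, huc] at this
    exact this
  have h3 : bf B ((a * c) *ᵥ u2) z = bf B ((c * a) *ᵥ u2) z := by rw [h1]
  rw [← mulVec_mulVec, ← mulVec_mulVec] at h3
  have hcu : c *ᵥ u2 = u2 + u1 := by
    rw [hc, Tm_mulVec, bf_symm hB u2 w2, q3, ru1', p2]
    simp
  have qz : bf B u2 z = 0 := by rw [bf_symm hB]; exact q5
  have hau : a *ᵥ u2 = u2 := by
    rw [ha, Tm_mulVec, ru1, qz]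
    simp
  have hzu : bf B u1 z = 0 := by rw [bf_symm hB]; exact rz1'
  rw [hcu, hau, hcu, ha, mulVec_add, Tm_mulVec, Tm_mulVec, ru1, qz] at h3
  simp only [bf_add_left, bf_sub_left, bf_smul_left, bf_symm hB u1 w1, p3, hzu, qz, z1] at h3
  simp at h3
  exact q6 h3

end Pool.Agent.T2H36.IX
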