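import Pool.Agent.T2H36.IX.F3
import Pool.Agent.T2H36.IX.G
import Pool.Agent.T2H36.IX.AB
import Pool.Agent.T2H36.IX.NA
import Pool.Agent.T2H36.IX.AD
import Pool.Agent.R932.OP.OrthA
import Pool.Agent.R932.GR.Main

set_option autoImplicit false
set_option linter.unusedSectionVars false
set_option linter.style.haveILetI false

/-!
Project IX, part F4: from the Mumford-Tate conjecture at one prime to uniformly irreducible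
reductions; the index two subgroup; independence.
-/

open Matrix Polynomial Filter Topology NumberField IsDedekindDomain
open Pool.Agent.Y142.ZO Pool.Agent.Y142.ZI
open Pool.Agent.Y95.MT
open Pool.Agent.W544.PG (HS BD bl)

namespace Pool.Agent.T2H36.IX

open Pool.Agent.R932 Pool.Agent.R932.OP

section irr

variable {K : Type} [Field K] [NumberField K] {N : ℕ} {G : Type} [Group G] {s : GK K →* G}
  {S : Set (HeightOneSpectrum (𝓞 K))} {P : HeightOneSpectrum (𝓞 K) → ℚ[X]}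

/-- **uniform irreducibility modulo `ℓ` at 100 percent of the primes, from one open prime** -/
theorem irr_one (hodd : Odd N) (hN : 5 ≤ N) (hS : S.Finite)
    (β : ∀ (ℓ : ℕ) [Fact ℓ.Prime], G →* Matrix (Fin N) (Fin N) ℤ_[ℓ])
    (B : ∀ (ℓ : ℕ) [Fact ℓ.Prime], Matrix (Fin N) (Fin N) ℤ_[ℓ])
    (hsys : ∀ (ℓ : ℕ) [Fact ℓ.Prime], IntegralSys K N ℓ s (β ℓ) (B ℓ) S P)
    (hun : ∃ b : ℕ, ∀ (ℓ : ℕ) [Fact ℓ.Prime], b < ℓ → IsUnit (B ℓ).det)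
    (ℓ₀ : ℕ) [hℓ₀ : Fact ℓ₀.Prime] (hdvd : ¬ ℓ₀ ∣ N - 1)
    (hfull : FullLie ℓ₀ (genRep ℓ₀ ((β ℓ₀).comp s)) (genM ℓ₀ (B ℓ₀))) (d₀ : ℕ) :
    Y142.ZI.DensityZero {ℓ | ∃ _ : Fact ℓ.Prime, ¬ IrrMod ℓ d₀ (β ℓ)} := by
  obtain ⟨m, hm⟩ : ∃ m, N = 2 * m + 3 := by
    obtain ⟨k, hk⟩ := hodd
    exact ⟨k - 1, by omega⟩
  subst hm
  have hdvd' : ¬ ℓ₀ ∣ 2 * (m + 1) := by
    rw [show 2 * m + 3 - 1 = 2 * (m + 1) by omega] at hdvd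
    exact hdvd
  have hLOG : Y142.ZO.S_LOG := Y497.ZO.log
  have hCHEB : Y142.ZI.S_CHEB := Y726.ZI.t1
  exact irr_mod_one Y142.ZO.alg_main Y337.ZO.iso_t Y337.ZO.line_t Y708.ZO.t hLOG Y497.ZO.exp
    Y497.ZO.pow Y96.ZO.t (Y815.ZO.t Y337.ZO.det_t Y337.ZO.qz_t hLOG) Y405.ZO.t
    (Y458.ZO.bad Y337.ZO.iso_t Y337.ZO.line_t) Y405.ZO.t1 Y405.ZO.t2 Y394.ZO.t1 Y394.ZO.t2
    Y379.ZI.t (Y726.ZI.t2 hCHEB) Y971.ZI.t Y484.ZI.t1 (Y681.ZI.t hCHEB) Y537.ZI.t Y949.ZI.t gen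
    Y484.ZI.t2 unr R499.OP.form1 R499.OP.form2 typc (typs clq Y547.ZI.t2) (typt clq Y547.ZI.t2)
    (Y405.ZI.t clq Y547.ZI.t2) typx nt (by omega) hS β B hsys hun ℓ₀ hdvd' hfull d₀

/-- **big images at 100 percent of the primes, from one open prime** -/
theorem big_one {Γ : Type} [Group Γ] [TopologicalSpace Γ] [IsTopologicalGroup Γ] [CompactSpace Γ]
    {s : GK K →* Γ} (hodd : Odd N) (hN : 5 ≤ N) (hS : S.Finite)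
    (β : ∀ (ℓ : ℕ) [Fact ℓ.Prime], Γ →* Matrix (Fin N) (Fin N) ℤ_[ℓ])
    (hβ : ∀ (ℓ : ℕ) [Fact ℓ.Prime], Continuous (β ℓ))
    (B : ∀ (ℓ : ℕ) [Fact ℓ.Prime], Matrix (Fin N) (Fin N) ℤ_[ℓ])
    (hsys : ∀ (ℓ : ℕ) [Fact ℓ.Prime], IntegralSys K N ℓ s (β ℓ) (B ℓ) S P)
    (hun : ∃ b : ℕ, ∀ (ℓ : ℕ) [Fact ℓ.Prime], b < ℓ → IsUnit (B ℓ).det)
    (ℓ₀ : ℕ) [hℓ₀ : Fact ℓ₀.Prime] (hdvd : ¬ ℓ₀ ∣ N - 1)
    (hfull : FullLie ℓ₀ (genRep ℓ₀ ((β ℓ₀).comp s)) (genM ℓ₀ (B ℓ₀))) :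
    ∃ b : ℕ, Y142.ZI.DensityZero {ℓ | ∃ _ : Fact ℓ.Prime, b < ℓ ∧ ¬ NormBig ℓ (β ℓ) (B ℓ)} := by
  obtain ⟨d, hd⟩ := exists_dn N hN
  obtain ⟨v, hv, hfree⟩ : ∃ v : HeightOneSpectrum (𝓞 K), v ∉ S ∧ FreePoly (P v) := by
    obtain ⟨m, hm⟩ : ∃ m, N = 2 * m + 3 := by
      obtain ⟨k, hk⟩ := hodd
      exact ⟨k - 1, by omega⟩
    subst hm
    have hℓ2 : ℓ₀ ≠ 2 := by
      rintro rfl
      exact hdvd ⟨m + 1, by omega⟩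
    exact free_of_full Y405.ZO.t Y537.ZI.t Y949.ZI.t R499.OP.form1 hS
      (fun ℓ _ => genRep ℓ ((β ℓ).comp s)) (fun ℓ _ => genM ℓ (B ℓ))
      (fun ℓ _ => orthogonal_of (hsys ℓ)) ℓ₀ hℓ2 hfull
  obtain ⟨b, hb⟩ := hd K Γ s S P v hv hfree
  obtain ⟨b', hb'⟩ := hun
  refine ⟨max b b', Y142.ZI.DensityZero.mono
    (irr_one hodd hN hS β B hsys ⟨b', hb'⟩ ℓ₀ hdvd hfull d) ?_⟩
  rintro ℓ ⟨hp, hℓ, hno⟩
  rw [max_lt_iff] at hℓ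
  exact ⟨hp, fun h => hno (hb ℓ hℓ.1 (β ℓ) (B ℓ) (hsys ℓ) (hβ ℓ) (hb' ℓ hℓ.2) h)⟩

end irr

section two

variable {ℓ : ℕ} [hp : Fact ℓ.Prime] {n : ℕ}

/-- the subgroup `Om` is closed under inverses -/
theorem om_inv {B : Matrix (Fin n) (Fin n) (ZMod ℓ)} {x y : Matrix (Fin n) (Fin n) (ZMod ℓ)}
    (hxy : y * x = 1) (hx : x ∈ Om ℓ B) : y ∈ Om ℓ B := by
  have h1 : IsUnit x := ⟨⟨x, y, mul_eq_one_comm.1 hxy, hxy⟩, rfl⟩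
  obtain ⟨u, rfl⟩ := h1
  have h2 : y = (u⁻¹ : (Matrix (Fin n) (Fin n) (ZMod ℓ))ˣ) := by
    calc y = y * ((u : Matrix (Fin n) (Fin n) (ZMod ℓ)) *
          (u⁻¹ : (Matrix (Fin n) (Fin n) (ZMod ℓ))ˣ)) := by rw [Units.mul_inv, mul_one]
      _ = _ := by rw [← mul_assoc, hxy, one_mul]
  have h3 : 0 < orderOf u := orderOf_pos u
  have h4 : (u⁻¹ : (Matrix (Fin n) (Fin n) (ZMod ℓ))ˣ) = u ^ (orderOf u - 1) := by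
    rw [inv_eq_iff_mul_eq_one, ← pow_succ', Nat.sub_add_cancel h3, pow_orderOf_eq_one]
  rw [h2, h4, Units.val_pow_eq_pow_val]
  exact Submonoid.pow_mem _ hx _

theorem red_one' : red ℓ (1 : Matrix (Fin n) (Fin n) ℤ_[ℓ]) = 1 :=
  Matrix.map_one _ (map_zero _) (map_one _)

theorem det_red (B : Matrix (Fin n) (Fin n) ℤ_[ℓ]) :
    (red ℓ B).det = (PadicInt.toZMod : ℤ_[ℓ] →+* ZMod ℓ) B.det := by
  rw [RingHom.map_det, RingHom.mapMatrix_apply]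

theorem det_red_ne {B : Matrix (Fin n) (Fin n) ℤ_[ℓ]} (hB : IsUnit B.det) : (red ℓ B).det ≠ 0 := by
  rw [det_red]
  exact (hB.map (PadicInt.toZMod : ℤ_[ℓ] →+* ZMod ℓ)).ne_zero

theorem red_iso {B g : Matrix (Fin n) (Fin n) ℤ_[ℓ]} (h : gᵀ * B * g = B) :
    (red ℓ g)ᵀ * red ℓ B * red ℓ g = red ℓ B := by
  have h1 := congrArg (red ℓ) h
  rw [Lft.red_mul, Lft.red_mul] at h1
  exact h1

/-- isometries are invertible -/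
theorem iso_inv {B g : Matrix (Fin n) (Fin n) ℤ_[ℓ]} (hB : IsUnit B.det) (h : gᵀ * B * g = B) :
    ∃ g' : Matrix (Fin n) (Fin n) ℤ_[ℓ], g' * g = 1 ∧ g * g' = 1 ∧ g'ᵀ * B * g' = B := by
  have h1 : B⁻¹ * B = 1 := Matrix.nonsing_inv_mul _ hB
  have h2 : (B⁻¹ * gᵀ * B) * g = 1 := by
    calc (B⁻¹ * gᵀ * B) * g = B⁻¹ * (gᵀ * B * g) := by simp only [mul_assoc]
      _ = 1 := by rw [h, h1]
  have h3 : g * (B⁻¹ * gᵀ * B) = 1 := mul_eq_one_comm.1 h2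
  refine ⟨_, h2, h3, ?_⟩
  calc (B⁻¹ * gᵀ * B)ᵀ * B * (B⁻¹ * gᵀ * B)
      = (B⁻¹ * gᵀ * B)ᵀ * (gᵀ * B * g) * (B⁻¹ * gᵀ * B) := by rw [h]
    _ = (g * (B⁻¹ * gᵀ * B))ᵀ * B * (g * (B⁻¹ * gᵀ * B)) := by
        rw [transpose_mul g]; simp only [mul_assoc]
    _ = B := by rw [h3, transpose_one, one_mul, mul_one]

/-- **the subgroup of index at most two of the special orthogonal group over `ℤ_ℓ`** -/
theorem index_two (h2 : ℓ ≠ 2) (hn : 3 ≤ n) {B : Matrix (Fin n) (Fin n) ℤ_[ℓ]} (hBs : Bᵀ = B)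
    (hB : IsUnit B.det) : ∃ u : Matrix (Fin n) (Fin n) ℤ_[ℓ], uᵀ * B * u = B ∧ u.det = 1 ∧
    ∀ g : Matrix (Fin n) (Fin n) ℤ_[ℓ], gᵀ * B * g = B → g.det = 1 →
      red ℓ g ∈ Om ℓ (red ℓ B) ∨ ∃ ω : Matrix (Fin n) (Fin n) ℤ_[ℓ], ωᵀ * B * ω = B ∧ ω.det = 1 ∧
        red ℓ ω ∈ Om ℓ (red ℓ B) ∧ g = u * ω := by
  have hBr : (red ℓ B)ᵀ = red ℓ B := congrArg (red ℓ) hBs
  have hdr := det_red_ne hB
  by_cases hall : ∀ g : Matrix (Fin n) (Fin n) ℤ_[ℓ], gᵀ * B * g = B → g.det = 1 →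
      red ℓ g ∈ Om ℓ (red ℓ B)
  · exact ⟨1, by rw [transpose_one, one_mul, mul_one], det_one, fun g hg hd => Or.inl (hall g hg hd)⟩
  · push Not at hall
    obtain ⟨u, hu, hud, huO⟩ := hall
    obtain ⟨u', h1, h2', h3⟩ := iso_inv hB hu
    have hud' : u'.det = 1 := by
      have h4 := congrArg Matrix.det h1
      rwa [det_mul, hud, mul_one, det_one] at h4
    refine ⟨u, hu, hud, ?_⟩
    intro g hg hd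
    by_cases hgO : red ℓ g ∈ Om ℓ (red ℓ B)
    · exact Or.inl hgO
    · refine Or.inr ⟨u' * g, ?_, ?_, ?_, ?_⟩
      · rw [transpose_mul]
        calc gᵀ * u'ᵀ * B * (u' * g) = gᵀ * (u'ᵀ * B * u') * g := by simp only [mul_assoc]
          _ = B := by rw [h3, hg]
      · rw [det_mul, hud', hd, one_mul]
      · have hr1 : (red ℓ u').det = 1 := by rw [det_red, hud', map_one]
        have hr2 : (red ℓ g).det = 1 := by rw [det_red, hd, map_one]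
        rw [Lft.red_mul]
        refine g_stmt ℓ h2 n hn (red ℓ B) hBr hdr (red ℓ u') (red ℓ g) (red_iso h3) (red_iso hg)
          hr1 hr2 ?_ hgO
        intro h4
        exact huO (om_inv (by rw [← Lft.red_mul, h2', red_one']) h4)
      · rw [← mul_assoc, h2', one_mul]

end two

section adelic

variable {n : ℕ} {Γ : Type} [Group Γ] [TopologicalSpace Γ] [IsTopologicalGroup Γ] [CompactSpace Γ]

/-- **independence** -/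
theorem adelic (hn : 5 ≤ n) (L : Set ℕ) (hL : ∀ ℓ ∈ L, n < ℓ)
    (β : ∀ (ℓ : ℕ) [Fact ℓ.Prime], Γ →* Matrix (Fin n) (Fin n) ℤ_[ℓ])
    (hβ : ∀ (ℓ : ℕ) [Fact ℓ.Prime], Continuous (β ℓ))
    (B : ∀ (ℓ : ℕ) [Fact ℓ.Prime], Matrix (Fin n) (Fin n) ℤ_[ℓ])
    (hBs : ∀ (ℓ : ℕ) [Fact ℓ.Prime], (B ℓ)ᵀ = B ℓ)
    (hiso : ∀ (ℓ : ℕ) [Fact ℓ.Prime] (g : Γ), (β ℓ g)ᵀ * B ℓ * β ℓ g = B ℓ)
    (hun : ∀ (ℓ : ℕ) [Fact ℓ.Prime], ℓ ∈ L → IsUnit (B ℓ).det)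
    (hbig : ∀ (ℓ : ℕ) [Fact ℓ.Prime], ℓ ∈ L → NormBig ℓ (β ℓ) (B ℓ))
    (h : ∀ (ℓ : ℕ) [Fact ℓ.Prime], Matrix (Fin n) (Fin n) ℤ_[ℓ])
    (hh : ∀ (ℓ : ℕ) [Fact ℓ.Prime], ℓ ∈ L → (h ℓ)ᵀ * B ℓ * h ℓ = B ℓ ∧
      red ℓ (h ℓ) ∈ Om ℓ (red ℓ (B ℓ))) :
    ∃ σ : Γ, ∀ (ℓ : ℕ) [Fact ℓ.Prime], ℓ ∈ L → β ℓ σ = h ℓ := by
  refine ad_stmt ab_stmt Γ n L hL β hβ
    (fun ℓ _ => {h | hᵀ * B ℓ * h = B ℓ ∧ red ℓ h ∈ Om ℓ (red ℓ (B ℓ))}) ?_ ?_ ?_ h hh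
  · intro ℓ _ hℓ g hg
    obtain ⟨σ, -, hσ⟩ := ((hbig ℓ hℓ).1 ⊤ inferInstance isClosed_univ
      (by obtain ⟨g, hg⟩ := (hbig ℓ hℓ).2; exact ⟨g, Subgroup.mem_top g, hg⟩)).2 g hg.1 hg.2
    exact ⟨σ, hσ⟩
  · intro ℓ _ hℓ K hK hKc hKe g hg
    exact ((hbig ℓ hℓ).1 K hK hKc hKe).2 g hg.1 hg.2
  · intro ℓ _ hℓ
    have hBr : (red ℓ (B ℓ))ᵀ = red ℓ (B ℓ) := congrArg (red ℓ) (hBs ℓ)
    obtain ⟨R, k, hRk, hR, hne⟩ := na_stmt ℓ n hn (hL ℓ hℓ) (red ℓ (B ℓ)) hBr (det_red_ne (hun ℓ hℓ))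
    refine ⟨R, k, hRk, fun g hg => ?_, hne⟩
    obtain ⟨σ, -, hσ⟩ := ((hbig ℓ hℓ).1 ⊤ inferInstance isClosed_univ
      (by obtain ⟨g, hg⟩ := (hbig ℓ hℓ).2; exact ⟨g, Subgroup.mem_top g, hg⟩)).1 _ (hR g hg).2
    refine ⟨β ℓ σ, ⟨hiso ℓ σ, ?_⟩, hσ⟩
    rw [hσ]
    exact (hR g hg).2

end adelic

end Pool.Agent.T2H36.IX
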