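import Pool.Agent.T2H36.IX.F4

set_option autoImplicit false
set_option linter.unusedSectionVars false
set_option linter.style.haveILetI false

/-!
Project IX, part F5: the Mumford-Tate group with integral structure; from the Mumford-Tate
conjecture at one prime to the full Lie algebra.
-/

open MvPolynomial Matrix Filter Topology NumberField IsDedekindDomain
open Pool.Agent.Y142.ZO Pool.Agent.Y142.ZI
open Pool.Agent.Y95.MT
open Pool.Agent.W544.PG (HS BD bl)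

namespace Pool.Agent.T2H36.IX

open Pool.Agent.R932 Pool.Agent.R932.OP

section mt

variable {κ : Type} [Fintype κ] [DecidableEq κ] {n : ℕ} {T : HS n}

theorem bd_one {R : Type} [Zero R] (A : Matrix (Fin n) (Fin n) R) : BD (one1 n) A :=
  fun _ _ hab => absurd rfl hab

theorem bl_one {R : Type} [Zero R] [One R] (i : Fin 1) (A : Matrix (Fin n) (Fin n) R) :
    bl (one1 n) i A = A := by
  ext a b
  unfold bl
  rw [Matrix.of_apply, if_pos ⟨Subsingleton.elim _ _, Subsingleton.elim _ _⟩]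

theorem inSO_iff {R : Type} [CommRing R] [Algebra ℚ R] {Q : Matrix (Fin n) (Fin n) ℚ}
    {t : Matrix (Fin n) (Fin n) R} : InSO (one1 n) Q t ↔
      tᵀ * Q.map (algebraMap ℚ R) * t = Q.map (algebraMap ℚ R) ∧ t.det = 1 := by
  constructor
  · rintro ⟨h1, -, h3⟩
    refine ⟨h1, ?_⟩
    have h4 := h3 0
    rwa [bl_one] at h4
  · rintro ⟨h1, h2⟩
    exact ⟨h1, bd_one _, fun i => by rw [bl_one]; exact h2⟩

/-- the Mumford-Tate group of the trivial Hodge structure -/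
theorem inMT_one {R : Type} [Field R] [Algebra ℚ R] (e : R →+* ℂ) (g : Matrix κ κ R) :
    InMT (fun _ => (1 : Matrix κ κ ℂ)) g ↔ g = 1 := by
  have hone : MTgroup (fun _ => (1 : Matrix κ κ ℂ)) ⊆ {1} := by
    intro m hm
    refine hm {1} ⟨⟨{f | ∃ a b, f = X (a, b) - C ((1 : Matrix κ κ ℚ) a b)}, fun g => ?_⟩, rfl, ?_,
      ?_⟩ fun z _ => rfl
    · constructor
      · rintro rfl
        refine ⟨by simp, ?_⟩
        rintro _ ⟨a, b, rfl⟩
        unfold vQ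
        rw [map_sub, aeval_X, aeval_C, Matrix.one_apply, Matrix.one_apply]
        split_ifs <;> simp
      · rintro ⟨-, h⟩
        ext a b
        have h2 := h _ ⟨a, b, rfl⟩
        unfold vQ at h2
        rw [map_sub, aeval_X, aeval_C, sub_eq_zero] at h2
        rw [h2, Matrix.one_apply, Matrix.one_apply]
        split_ifs <;> simp
    · rintro a rfl b rfl
      simp
    · rintro a rfl
      simp
  constructor
  · intro h
    ext a b
    have h2 := h (X (a, b) - C ((1 : Matrix κ κ ℚ) a b)) fun m hm => by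
      have h3 := hone hm
      rw [Set.mem_singleton_iff] at h3
      rw [h3]
      unfold vQ
      rw [map_sub, aeval_X, aeval_C, Matrix.one_apply, Matrix.one_apply]
      split_ifs <;> simp
    unfold vQ at h2
    rw [map_sub, aeval_X, aeval_C, sub_eq_zero] at h2
    rw [h2, Matrix.one_apply, Matrix.one_apply]
    split_ifs <;> simp
  · rintro rfl
    exact InMT_one e _

variable (κ T) in
/-- the Mumford-Tate group of `N ⊕ T` is as large as possible: it contains `1 × SO(T)` -/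
def FullMT : Prop := ∀ t : Matrix (Fin n) (Fin n) ℂ,
  tᵀ * T.Q.map (algebraMap ℚ ℂ) * t = T.Q.map (algebraMap ℚ ℂ) → t.det = 1 →
    (fromBlocks 1 0 0 t : Matrix (κ ⊕ Fin n) (κ ⊕ Fin n) ℂ) ∈
      MTgroup (hM (fun _ => (1 : Matrix κ κ ℂ)) T)

theorem fullMT_of_big {p q : Fin 1 → ℕ} (hB : T.Big (one1 n) p q) : FullMT κ T := by
  intro t ht hd
  exact SO_MT hB (fun _ _ => by rw [Matrix.det_one]; exact one_ne_zero) star_N
    (inSO_iff.2 ⟨ht, hd⟩)

/-- the Mumford-Tate group of `N ⊕ T` -/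
theorem inMT_iff (hB : FullMT κ T) {R : Type} [Field R] [Algebra ℚ R]
    (e : R →+* ℂ) {g : Matrix (κ ⊕ Fin n) (κ ⊕ Fin n) R} (hg : g.det ≠ 0) :
    InMT (hM (fun _ => (1 : Matrix κ κ ℂ)) T) g ↔ ∃ t : Matrix (Fin n) (Fin n) R,
      g = fromBlocks 1 0 0 t ∧ tᵀ * T.Q.map (algebraMap ℚ R) * t = T.Q.map (algebraMap ℚ R) ∧
        t.det = 1 := by
  have hVd : ∀ z : ℂ, z ≠ 0 → ((fun _ => (1 : Matrix κ κ ℂ)) z).det ≠ 0 := fun _ _ => by
    rw [Matrix.det_one]; exact one_ne_zero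
  constructor
  · intro h
    obtain ⟨h1, h2⟩ := (PSO_iff (c := one1 n) (Q := T.Q) g).1 fun f hf => h f fun m hm => by
      obtain ⟨v, t, rfl, hv, ht⟩ := MT_le (c := one1 n) hVd (bd_one _) (bd_one _) hm
      refine (PSO_iff (c := one1 n) (Q := T.Q) _).2 ⟨?_, ?_⟩ f hf
      · rw [Matrix.toBlocks_fromBlocks₁₁, Matrix.toBlocks_fromBlocks₂₂]
      · rw [Matrix.toBlocks_fromBlocks₂₂]
        exact ht
    have h3 : InMT (fun _ => (1 : Matrix κ κ ℂ)) g.toBlocks₁₁ := fun f hf => by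
      rw [← vQ_up]
      refine h _ fun m hm => ?_
      obtain ⟨v, t, rfl, hv, ht⟩ := MT_le (c := one1 n) hVd (bd_one _) (bd_one _) hm
      rw [vQ_up, Matrix.toBlocks_fromBlocks₁₁]
      exact hf v hv
    rw [inMT_one e] at h3
    rw [h3] at h1
    exact ⟨_, h1, inSO_iff.1 h2⟩
  · rintro ⟨t, rfl, h1, h2⟩ f hf
    have h3 := InSO_map (c := one1 n) e (inSO_iff.2 ⟨h1, h2⟩)
    rw [inSO_iff] at h3
    have h5 := hf _ (hB _ h3.1 h3.2)
    have h6 : (fromBlocks 1 0 0 (t.map e) : Matrix (κ ⊕ Fin n) (κ ⊕ Fin n) ℂ) =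
        (fromBlocks 1 0 0 t : Matrix (κ ⊕ Fin n) (κ ⊕ Fin n) R).map e := by
      rw [Matrix.fromBlocks_map]
      simp
    rw [h6, vQ_map] at h5
    exact (map_eq_zero e).1 h5

end mt

section full

variable {κ : Type} [Fintype κ] [DecidableEq κ] {n : ℕ} {T : HS n} {ℓ : ℕ} [hp : Fact ℓ.Prime]
  {G : Type} [Group G] [TopologicalSpace G] [IsTopologicalGroup G] [CompactSpace G]

/-- polynomials in the entries on `T` as polynomials in the entries on `N ⊕ T` -/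
noncomputable def liftP (κ : Type) (ℓ : ℕ) [Fact ℓ.Prime] (n : ℕ) :
    GR.Pf ℚ_[ℓ] (fun _ : Unit => n) →+*
      MvPolynomial ((κ ⊕ Fin n) × (κ ⊕ Fin n)) (AlgebraicClosure ℚ_[ℓ]) :=
  MvPolynomial.eval₂Hom (MvPolynomial.C.comp (algebraMap ℚ_[ℓ] (AlgebraicClosure ℚ_[ℓ])))
    (fun x => X (Sum.inr x.2.1, Sum.inr x.2.2))

theorem liftP_eval (g : Matrix (κ ⊕ Fin n) (κ ⊕ Fin n) (AlgebraicClosure ℚ_[ℓ]))
    (t : Matrix (Fin n) (Fin n) ℚ_[ℓ])
    (h : ∀ a b, g (Sum.inr a) (Sum.inr b) = algebraMap ℚ_[ℓ] (AlgebraicClosure ℚ_[ℓ]) (t a b))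
    (f : GR.Pf ℚ_[ℓ] (fun _ : Unit => n)) :
    aeval (fun q : (κ ⊕ Fin n) × (κ ⊕ Fin n) => g q.1 q.2) (liftP κ ℓ n f) =
      algebraMap ℚ_[ℓ] (AlgebraicClosure ℚ_[ℓ]) (GR.evf (fun _ => t) f) := by
  have h1 : ((aeval (fun q : (κ ⊕ Fin n) × (κ ⊕ Fin n) => g q.1 q.2) :
      MvPolynomial ((κ ⊕ Fin n) × (κ ⊕ Fin n)) (AlgebraicClosure ℚ_[ℓ]) →ₐ[AlgebraicClosure ℚ_[ℓ]]
        AlgebraicClosure ℚ_[ℓ]) : _ →+* _).comp (liftP κ ℓ n) =
      (algebraMap ℚ_[ℓ] (AlgebraicClosure ℚ_[ℓ])).comp (GR.evf (fun _ : Unit => t)) := by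
    refine MvPolynomial.ringHom_ext (fun r => ?_) (fun x => ?_)
    · simp [liftP, GR.evf]
    · simp [liftP, GR.evf, h]
  exact congrFun (congrArg DFunLike.coe h1) f

/-- **from the Mumford-Tate conjecture to the full Lie algebra** -/
theorem full_of_mtc (h5 : 5 ≤ n) (hB : FullMT κ T)
    {α : G →* Matrix κ κ ℚ_[ℓ]} {β : G →* Matrix (Fin n) (Fin n) ℤ_[ℓ]} (hβ : Continuous β)
    (hform : ∀ σ, (qm (β σ))ᵀ * T.Q.map (algebraMap ℚ ℚ_[ℓ]) * qm (β σ) =
      T.Q.map (algebraMap ℚ ℚ_[ℓ]))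
    (hmt : MTC (hM (fun _ => (1 : Matrix κ κ ℂ)) T) (tot α β)) :
    FullLie ℓ (qrep β) (T.Q.map (algebraMap ℚ ℚ_[ℓ])) := by
  classical
  obtain ⟨e⟩ := exists_emb ℓ
  have hZ : GR.ZarF (fun _ : Unit => qrep β) (fun _ => T.Q.map (algebraMap ℚ ℚ_[ℓ])) := by
    rintro f ⟨Δ, hΔ, hf⟩ t ht htd
    have hdet : (fromBlocks 1 0 0 ((t ()).map (algebraMap ℚ_[ℓ] (AlgebraicClosure ℚ_[ℓ]))) :
        Matrix (κ ⊕ Fin n) (κ ⊕ Fin n) (AlgebraicClosure ℚ_[ℓ])).det = 1 := by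
      rw [fb_det, Matrix.det_one, one_mul]
      have h1 := (algebraMap ℚ_[ℓ] (AlgebraicClosure ℚ_[ℓ])).map_det (t ())
      rw [RingHom.mapMatrix_apply] at h1
      rw [← h1, htd (), map_one]
    have h1 : InMT (hM (fun _ => (1 : Matrix κ κ ℂ)) T)
        (fromBlocks 1 0 0 ((t ()).map (algebraMap ℚ_[ℓ] (AlgebraicClosure ℚ_[ℓ]))) :
          Matrix (κ ⊕ Fin n) (κ ⊕ Fin n) (AlgebraicClosure ℚ_[ℓ])) := by
      refine (inMT_iff hB e (by rw [hdet]; exact one_ne_zero)).2 ⟨_, rfl, ?_, ?_⟩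
      · have h2 := congrArg (fun A => A.map (algebraMap ℚ_[ℓ] (AlgebraicClosure ℚ_[ℓ]))) (ht ())
        beta_reduce at h2
        rw [Matrix.map_mul, Matrix.map_mul, Matrix.transpose_map] at h2
        have h3 : (T.Q.map (algebraMap ℚ ℚ_[ℓ])).map (algebraMap ℚ_[ℓ] (AlgebraicClosure ℚ_[ℓ])) =
            T.Q.map (algebraMap ℚ (AlgebraicClosure ℚ_[ℓ])) := by
          ext a b
          simp
        rw [h3] at h2
        exact h2
      · rw [fb_det, Matrix.det_one, one_mul] at hdet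
        exact hdet
    have h2 := (hmt _ (by rw [hdet]; exact one_ne_zero)).2 h1
    have h3 := h2 (liftP κ ℓ n f) ⟨Δ, hΔ, fun σ hσ => by
      have h4 := liftP_eval (κ := κ) ((tot α β σ).map (algebraMap ℚ_[ℓ] (AlgebraicClosure ℚ_[ℓ])))
        (qm (β σ)) (fun a b => rfl) f
      have h5 := hf σ hσ
      have h6 : GR.evf (fun _ : Unit => qm (β σ)) f = 0 := h5
      rw [h6, map_zero] at h4
      exact h4⟩
    have h4 := liftP_eval (κ := κ)
      (fromBlocks 1 0 0 ((t ()).map (algebraMap ℚ_[ℓ] (AlgebraicClosure ℚ_[ℓ]))))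
      (t ()) (fun a b => rfl) f
    rw [h3] at h4
    exact (map_eq_zero _).1 h4.symm
  have hdet : (T.Q.map (algebraMap ℚ ℚ_[ℓ])).det ≠ 0 := qdet T
  intro X hX
  have h1 := GR.joint_of_zar (G := G) (ρ := fun _ : Unit => qrep β)
    (J := fun _ => T.Q.map (algebraMap ℚ ℚ_[ℓ])) (fun _ => continuous_qm.comp hβ)
    (fun _ => ⟨Or.inl ⟨qsymm T, h5⟩, hdet⟩) (fun _ => by omega)
    (fun _ g => ⟨1, by
      show (qm (β g))ᵀ * T.Q.map (algebraMap ℚ ℚ_[ℓ]) * qm (β g) = (1 : ℚ_[ℓ]) • _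
      rw [one_smul]
      exact hform g⟩) hZ (fun _ => X) (fun _ => (R932.skew_iff (qsymm T)).1 hX)
  obtain ⟨σ, hσ⟩ := h1
  exact ⟨σ, hσ ()⟩

end full

section intform

variable {n : ℕ}

/-- a rational matrix has a multiple with integral entries -/
theorem exists_int (Q : Matrix (Fin n) (Fin n) ℚ) : ∃ (D : ℕ) (Z : Matrix (Fin n) (Fin n) ℤ),
    D ≠ 0 ∧ Z.map (Int.cast : ℤ → ℚ) = (D : ℚ) • Q := by
  classical
  let D : ℕ := ∏ a : Fin n, ∏ b : Fin n, (Q a b).den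
  have hD : D ≠ 0 := Finset.prod_ne_zero_iff.2 fun a _ => Finset.prod_ne_zero_iff.2 fun b _ =>
    (Q a b).den_nz
  have hdvd : ∀ a b, (Q a b).den ∣ D := fun a b =>
    (Finset.dvd_prod_of_mem (fun b => (Q a b).den) (Finset.mem_univ b)).trans
      (Finset.dvd_prod_of_mem (fun a => ∏ b : Fin n, (Q a b).den) (Finset.mem_univ a))
  have hex : ∀ a b, ∃ z : ℤ, (z : ℚ) = D * Q a b := by
    intro a b
    obtain ⟨k, hk⟩ := hdvd a b
    refine ⟨k * (Q a b).num, ?_⟩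
    rw [hk]
    push_cast
    have h1 := Rat.mul_den_eq_num (Q a b)
    linear_combination (-(k : ℚ)) * h1
  choose z hz using hex
  refine ⟨D, Matrix.of z, hD, ?_⟩
  ext a b
  rw [Matrix.map_apply, Matrix.of_apply, hz, Matrix.smul_apply, smul_eq_mul]

end intform

end Pool.Agent.T2H36.IX
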