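import Pool.Agent.T2H36.IX.F5

set_option autoImplicit false
set_option linter.unusedSectionVars false
set_option linter.style.haveILetI false

/-!
Project IX, part F6: the integral and adelic Mumford-Tate statement at 100 percent of the primes.
-/

open MvPolynomial Matrix Filter Topology NumberField IsDedekindDomain
open Pool.Agent.Y142.ZO Pool.Agent.Y142.ZI
open Pool.Agent.Y95.MT
open Pool.Agent.W544.PG (HS BD bl)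

namespace Pool.Agent.T2H36.IX

open Pool.Agent.R932 Pool.Agent.R932.OP

section defs

variable {ι : Type} [Fintype ι] [DecidableEq ι] {ℓ : ℕ} [hp : Fact ℓ.Prime] {Γ : Type} [Group Γ]

/-- a representation over `ℤ_ℓ` as a representation over `ℚ_ℓ` -/
noncomputable def toQ (ρ : Γ →* Matrix ι ι ℤ_[ℓ]) : Γ →* Matrix ι ι ℚ_[ℓ] :=
  ((algebraMap ℤ_[ℓ] ℚ_[ℓ]).mapMatrix : Matrix ι ι ℤ_[ℓ] →+* Matrix ι ι ℚ_[ℓ]).toMonoidHom.comp ρ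

/-- the points over `ℤ_ℓ` of the Zariski closure of the Mumford-Tate group -/
def GZ (ℓ : ℕ) [Fact ℓ.Prime] (h : ℂ → Matrix ι ι ℂ) : Set (Matrix ι ι ℤ_[ℓ]) :=
  {g | IsUnit g.det ∧ InMT h (g.map (algebraMap ℤ_[ℓ] ℚ_[ℓ]))}

/-- the Zariski closure of the image of `ρ` is connected: subgroups of finite index have the same
Zariski closure -/
def Conn (ρ : Γ →* Matrix ι ι ℤ_[ℓ]) : Prop :=
  ∀ f : MvPolynomial (ι × ι) ℚ_[ℓ], (∃ Δ : Subgroup Γ, Δ.FiniteIndex ∧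
    ∀ σ ∈ Δ, aeval (fun q : ι × ι => (ρ σ q.1 q.2 : ℚ_[ℓ])) f = 0) →
    ∀ σ, aeval (fun q : ι × ι => (ρ σ q.1 q.2 : ℚ_[ℓ])) f = 0

/-- `Ω` is a subgroup of index at most two of `G` -/
def IndexTwo {R : Type} [CommRing R] (Ω G : Set (Matrix ι ι R)) : Prop :=
  Ω ⊆ G ∧ 1 ∈ Ω ∧ (∀ a ∈ Ω, ∀ b ∈ Ω, a * b ∈ Ω) ∧ (∀ a ∈ Ω, a⁻¹ ∈ Ω) ∧
    ∃ c ∈ G, ∀ g ∈ G, g ∈ Ω ∨ ∃ ω ∈ Ω, g = c * ω

/-- the direct sum of two integral representations -/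
noncomputable def totZ {κ : Type} [Fintype κ] [DecidableEq κ] {n : ℕ} (α : Γ →* Matrix κ κ ℤ_[ℓ])
    (β : Γ →* Matrix (Fin n) (Fin n) ℤ_[ℓ]) : Γ →* Matrix (κ ⊕ Fin n) (κ ⊕ Fin n) ℤ_[ℓ] where
  toFun σ := fromBlocks (α σ) 0 0 (β σ)
  map_one' := by rw [map_one, map_one, Matrix.fromBlocks_one]
  map_mul' a b := by
    rw [map_mul, map_mul, Matrix.fromBlocks_multiply]
    simp

end defs

section conn

variable {κ : Type} [Fintype κ] [DecidableEq κ] {n : ℕ} {ℓ : ℕ} [hp : Fact ℓ.Prime] {Γ : Type}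
  [Group Γ] {α : Γ →* Matrix κ κ ℤ_[ℓ]} {β : Γ →* Matrix (Fin n) (Fin n) ℤ_[ℓ]}

theorem toQ_totZ : toQ (totZ α β) = tot (toQ α) β := by
  refine MonoidHom.ext fun σ => ?_
  show (fromBlocks (α σ) 0 0 (β σ)).map (algebraMap ℤ_[ℓ] ℚ_[ℓ]) =
    fromBlocks ((α σ).map (algebraMap ℤ_[ℓ] ℚ_[ℓ])) 0 0 ((β σ).map (algebraMap ℤ_[ℓ] ℚ_[ℓ]))
  rw [Matrix.fromBlocks_map]
  simp

theorem Conn.left (h : Conn (totZ α β)) (hα : (Set.range α).Finite) (σ : Γ) : α σ = 1 := by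
  ext a b
  have hfin : α.toHomUnits.ker.FiniteIndex := by
    have h2 : Finite α.toHomUnits.range := by
      have h3 : Set.MapsTo (fun u : (Matrix κ κ ℤ_[ℓ])ˣ => (u : Matrix κ κ ℤ_[ℓ]))
          (α.toHomUnits.range : Set (Matrix κ κ ℤ_[ℓ])ˣ) (Set.range α) := by
        rintro _ ⟨s, rfl⟩
        exact ⟨s, (MonoidHom.coe_toHomUnits α s).symm⟩
      exact hα.of_injOn h3 (fun x _ y _ hxy => Units.ext hxy)
    infer_instance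
  have h1 := h (X (Sum.inl a, Sum.inl b) - C (((1 : Matrix κ κ ℤ_[ℓ]) a b : ℤ_[ℓ]) : ℚ_[ℓ]))
    ⟨α.toHomUnits.ker, hfin, fun s hs => by
      rw [MonoidHom.mem_ker, Units.ext_iff, MonoidHom.coe_toHomUnits] at hs
      rw [map_sub, aeval_X, aeval_C]
      show ((α s a b : ℤ_[ℓ]) : ℚ_[ℓ]) - _ = 0
      rw [hs]
      simp⟩ σ
  rw [map_sub, aeval_X, aeval_C, sub_eq_zero] at h1
  exact Subtype.val_injective h1

theorem Conn.right (h : Conn (totZ α β)) (hβ : ∀ σ, (β σ).det = 1 ∨ (β σ).det = -1) (σ : Γ) :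
    (β σ).det = 1 := by
  classical
  let δ : Γ →* ℤ_[ℓ] := (Matrix.detMonoidHom : Matrix (Fin n) (Fin n) ℤ_[ℓ] →* ℤ_[ℓ]).comp β
  have hfin : δ.toHomUnits.ker.FiniteIndex := by
    have h2 : Finite δ.toHomUnits.range := by
      have h3 : Set.MapsTo (fun u : (ℤ_[ℓ])ˣ => (u : ℤ_[ℓ]))
          (δ.toHomUnits.range : Set (ℤ_[ℓ])ˣ) {1, -1} := by
        rintro _ ⟨s, rfl⟩
        exact hβ s
      exact (Set.toFinite ({1, -1} : Set ℤ_[ℓ])).of_injOn h3 (fun x _ y _ hxy => Units.ext hxy)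
    infer_instance
  let M : Matrix (Fin n) (Fin n) (MvPolynomial ((κ ⊕ Fin n) × (κ ⊕ Fin n)) ℚ_[ℓ]) :=
    Matrix.of fun a b => X (Sum.inr a, Sum.inr b)
  have hM : ∀ s, aeval (fun q : (κ ⊕ Fin n) × (κ ⊕ Fin n) => (totZ α β s q.1 q.2 : ℚ_[ℓ])) M.det =
      (((β s).det : ℤ_[ℓ]) : ℚ_[ℓ]) := by
    intro s
    have h2 := (((aeval (fun q : (κ ⊕ Fin n) × (κ ⊕ Fin n) => (totZ α β s q.1 q.2 : ℚ_[ℓ])) :
      MvPolynomial ((κ ⊕ Fin n) × (κ ⊕ Fin n)) ℚ_[ℓ] →ₐ[ℚ_[ℓ]] ℚ_[ℓ]) : _ →+* ℚ_[ℓ])).map_det M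
    have h3 := (algebraMap ℤ_[ℓ] ℚ_[ℓ]).map_det (β s)
    refine h2.trans (Eq.trans ?_ h3.symm)
    congr 1
    ext a b
    rw [RingHom.mapMatrix_apply, RingHom.mapMatrix_apply, Matrix.map_apply, Matrix.map_apply]
    show aeval _ (X (Sum.inr a, Sum.inr b)) = _
    rw [aeval_X]
    rfl
  have h1 := h (M.det - C 1) ⟨δ.toHomUnits.ker, hfin, fun s hs => by
      rw [MonoidHom.mem_ker, Units.ext_iff, MonoidHom.coe_toHomUnits] at hs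
      have hs' : (β s).det = 1 := hs
      rw [map_sub, hM, hs', map_one, map_one]
      simp⟩ σ
  rw [map_sub, hM, map_one, map_one, sub_eq_zero] at h1
  exact Subtype.val_injective h1

end conn

section final

variable {K : Type} [Field K] [NumberField K] {n : ℕ} {S : Set (HeightOneSpectrum (𝓞 K))}
  {P : HeightOneSpectrum (𝓞 K) → Polynomial ℚ} {Γ : Type} [Group Γ] [TopologicalSpace Γ]
  [IsTopologicalGroup Γ] [CompactSpace Γ] {s : GK K →* Γ} {T : HS n} {κ : Type} [Fintype κ]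
  [DecidableEq κ]

theorem fb_injZ {R : Type} [CommRing R] {u v : Matrix (Fin n) (Fin n) R}
    (h : (fromBlocks 1 0 0 u : Matrix (κ ⊕ Fin n) (κ ⊕ Fin n) R) = fromBlocks 1 0 0 v) : u = v := by
  have h1 := congrArg Matrix.toBlocks₂₂ h
  rwa [Matrix.toBlocks_fromBlocks₂₂, Matrix.toBlocks_fromBlocks₂₂] at h1

/-- the integral points of the Mumford-Tate group -/
theorem mem_GZ (hB : FullMT κ T) {ℓ : ℕ} [hp : Fact ℓ.Prime]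
    {g : Matrix (κ ⊕ Fin n) (κ ⊕ Fin n) ℤ_[ℓ]} :
    g ∈ GZ ℓ (hM (fun _ => (1 : Matrix κ κ ℂ)) T) ↔ ∃ u : Matrix (Fin n) (Fin n) ℤ_[ℓ],
      g = fromBlocks 1 0 0 u ∧ (qm u)ᵀ * T.Q.map (algebraMap ℚ ℚ_[ℓ]) * qm u =
        T.Q.map (algebraMap ℚ ℚ_[ℓ]) ∧ u.det = 1 := by
  obtain ⟨e⟩ := _root_.W435.PG.emb ℓ
  have hinj : Function.Injective (algebraMap ℤ_[ℓ] ℚ_[ℓ]) := Subtype.val_injective
  have hdet : ∀ u : Matrix (Fin n) (Fin n) ℤ_[ℓ], (qm u).det = algebraMap ℤ_[ℓ] ℚ_[ℓ] u.det := by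
    intro u
    rw [RingHom.map_det, RingHom.mapMatrix_apply]
    rfl
  constructor
  · rintro ⟨h1, h2⟩
    have h3 : (g.map (algebraMap ℤ_[ℓ] ℚ_[ℓ])).det ≠ 0 := by
      have h4 := (algebraMap ℤ_[ℓ] ℚ_[ℓ]).map_det g
      rw [RingHom.mapMatrix_apply] at h4
      rw [← h4]
      exact (map_ne_zero_iff _ hinj).2 h1.ne_zero
    obtain ⟨t, ht, hti, htd⟩ := (inMT_iff hB e h3).1 h2
    have h5 : g = fromBlocks 1 0 0 g.toBlocks₂₂ := by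
      apply Matrix.map_injective hinj
      show g.map (algebraMap ℤ_[ℓ] ℚ_[ℓ]) = (fromBlocks 1 0 0 g.toBlocks₂₂).map
        (algebraMap ℤ_[ℓ] ℚ_[ℓ])
      have h6 : t = g.toBlocks₂₂.map (algebraMap ℤ_[ℓ] ℚ_[ℓ]) := by
        have h7 := congrArg Matrix.toBlocks₂₂ ht
        rw [Matrix.toBlocks_fromBlocks₂₂] at h7
        rw [← h7]
        rfl
      rw [ht, Matrix.fromBlocks_map, h6]
      simp
    refine ⟨g.toBlocks₂₂, h5, ?_⟩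
    have h6 : t = qm g.toBlocks₂₂ := by
      have h7 := congrArg Matrix.toBlocks₂₂ ht
      rw [Matrix.toBlocks_fromBlocks₂₂] at h7
      rw [← h7]
      rfl
    subst h6
    refine ⟨hti, hinj ?_⟩
    rw [← hdet, htd, map_one]
  · rintro ⟨u, rfl, hu, hd⟩
    have h1 : (fromBlocks 1 0 0 u : Matrix (κ ⊕ Fin n) (κ ⊕ Fin n) ℤ_[ℓ]).det = 1 := by
      rw [fb_det, Matrix.det_one, one_mul, hd]
    have h2 : (fromBlocks 1 0 0 u : Matrix (κ ⊕ Fin n) (κ ⊕ Fin n) ℤ_[ℓ]).map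
        (algebraMap ℤ_[ℓ] ℚ_[ℓ]) = fromBlocks 1 0 0 (qm u) := by
      rw [Matrix.fromBlocks_map]
      simp [qm]
    refine ⟨by rw [h1]; exact isUnit_one, ?_⟩
    rw [h2]
    have h3 : (qm u).det = 1 := by rw [hdet, hd, map_one]
    refine (inMT_iff hB e ?_).2 ⟨qm u, rfl, hu, h3⟩
    rw [fb_det, Matrix.det_one, one_mul, h3]
    exact one_ne_zero

/-- the conclusion: independent images of index at most two -/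
def AdelicBig (κ : Type) [Fintype κ] [DecidableEq κ] (T : HS n)
    (ρ : ∀ (ℓ : ℕ) [Fact ℓ.Prime], Γ →* Matrix (κ ⊕ Fin n) (κ ⊕ Fin n) ℤ_[ℓ]) (Λ : Set ℕ) : Prop :=
  (∀ (ℓ : ℕ) [Fact ℓ.Prime], ℓ ∈ Λ → ∀ σ, ρ ℓ σ ∈ GZ ℓ (hM (fun _ => (1 : Matrix κ κ ℂ)) T)) ∧
  ∃ Ω : ∀ (ℓ : ℕ) [Fact ℓ.Prime], Set (Matrix (κ ⊕ Fin n) (κ ⊕ Fin n) ℤ_[ℓ]),
    (∀ (ℓ : ℕ) [Fact ℓ.Prime], ℓ ∈ Λ →
      IndexTwo (Ω ℓ) (GZ ℓ (hM (fun _ => (1 : Matrix κ κ ℂ)) T))) ∧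
    ∀ h : ∀ (ℓ : ℕ) [Fact ℓ.Prime], Matrix (κ ⊕ Fin n) (κ ⊕ Fin n) ℤ_[ℓ],
      (∀ (ℓ : ℕ) [Fact ℓ.Prime], ℓ ∈ Λ → h ℓ ∈ Ω ℓ) →
      ∃ σ : Γ, ∀ (ℓ : ℕ) [Fact ℓ.Prime], ℓ ∈ Λ → ρ ℓ σ = h ℓ

theorem det_pm {ℓ : ℕ} [hp : Fact ℓ.Prime] {B g : Matrix (Fin n) (Fin n) ℤ_[ℓ]} (hB : B.det ≠ 0)
    (h : gᵀ * B * g = B) : g.det = 1 ∨ g.det = -1 := by
  have h1 := congrArg Matrix.det h
  rw [det_mul, det_mul, det_transpose] at h1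
  have h2 : g.det * g.det = 1 := by
    apply mul_right_cancel₀ hB
    linear_combination h1
  exact mul_self_eq_one_iff.1 h2

/-- **from big images to the adelic statement** -/
theorem adelic_final (hB : FullMT κ T) (h5 : 5 ≤ n)
    (α : ∀ (ℓ : ℕ) [Fact ℓ.Prime], Γ →* Matrix κ κ ℤ_[ℓ])
    (hα : ∀ (ℓ : ℕ) [Fact ℓ.Prime], (Set.range (α ℓ)).Finite)
    (β : ∀ (ℓ : ℕ) [Fact ℓ.Prime], Γ →* Matrix (Fin n) (Fin n) ℤ_[ℓ])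
    (hβ : ∀ (ℓ : ℕ) [Fact ℓ.Prime], Continuous (β ℓ))
    (hform : ∀ (ℓ : ℕ) [Fact ℓ.Prime], ∀ σ, (qm (β ℓ σ))ᵀ * T.Q.map (algebraMap ℚ ℚ_[ℓ]) *
      qm (β ℓ σ) = T.Q.map (algebraMap ℚ ℚ_[ℓ]))
    (hconn : ∀ (ℓ : ℕ) [Fact ℓ.Prime], Conn (totZ (α ℓ) (β ℓ)))
    (D : ℕ) (Z : Matrix (Fin n) (Fin n) ℤ) (hD : D ≠ 0)
    (hZ : Z.map (Int.cast : ℤ → ℚ) = (D : ℚ) • T.Q)
    (L : Set ℕ) (hL : ∀ ℓ ∈ L, n < ℓ)
    (hun : ∀ (ℓ : ℕ) [Fact ℓ.Prime], ℓ ∈ L →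
      IsUnit (Z.map (Int.cast : ℤ → ℤ_[ℓ])).det)
    (hbig : ∀ (ℓ : ℕ) [Fact ℓ.Prime], ℓ ∈ L →
      NormBig ℓ (β ℓ) (Z.map (Int.cast : ℤ → ℤ_[ℓ]))) :
    AdelicBig κ T (fun ℓ _ => totZ (α ℓ) (β ℓ)) L := by
  -- the integral form
  have hZs : Zᵀ = Z := by
    have h1 : (Z.map (Int.cast : ℤ → ℚ))ᵀ = Z.map (Int.cast : ℤ → ℚ) := by
      rw [hZ, transpose_smul, T.symm]
    ext a b
    have h2 := congrFun (congrFun h1 a) b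
    rw [Matrix.transpose_apply, Matrix.map_apply, Matrix.map_apply] at h2
    rw [Matrix.transpose_apply]
    exact_mod_cast h2
  have hBs : ∀ (ℓ : ℕ) [Fact ℓ.Prime], (Z.map (Int.cast : ℤ → ℤ_[ℓ]))ᵀ =
      Z.map (Int.cast : ℤ → ℤ_[ℓ]) := by
    intro ℓ _
    rw [← Matrix.transpose_map, hZs]
  have hiff : ∀ (ℓ : ℕ) [Fact ℓ.Prime] (u : Matrix (Fin n) (Fin n) ℤ_[ℓ]),
      ((qm u)ᵀ * T.Q.map (algebraMap ℚ ℚ_[ℓ]) * qm u = T.Q.map (algebraMap ℚ ℚ_[ℓ]) ↔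
        uᵀ * Z.map (Int.cast : ℤ → ℤ_[ℓ]) * u = Z.map (Int.cast : ℤ → ℤ_[ℓ])) := by
    intro ℓ _ u
    have hinj : Function.Injective (algebraMap ℤ_[ℓ] ℚ_[ℓ]) := Subtype.val_injective
    have h1 : (Z.map (Int.cast : ℤ → ℤ_[ℓ])).map (algebraMap ℤ_[ℓ] ℚ_[ℓ]) =
        (D : ℚ_[ℓ]) • T.Q.map (algebraMap ℚ ℚ_[ℓ]) := by
      ext a b
      have h2 := congrFun (congrFun hZ a) b
      rw [Matrix.map_apply, Matrix.smul_apply, smul_eq_mul] at h2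
      rw [Matrix.map_apply, Matrix.map_apply, Matrix.smul_apply, Matrix.map_apply, smul_eq_mul,
        map_intCast]
      have h3 := congrArg (algebraMap ℚ ℚ_[ℓ]) h2
      rw [map_mul, map_intCast, map_natCast] at h3
      exact h3
    have hD' : (D : ℚ_[ℓ]) ≠ 0 := by exact_mod_cast hD
    have h2 : (uᵀ * Z.map (Int.cast : ℤ → ℤ_[ℓ]) * u).map (algebraMap ℤ_[ℓ] ℚ_[ℓ]) =
        (D : ℚ_[ℓ]) • ((qm u)ᵀ * T.Q.map (algebraMap ℚ ℚ_[ℓ]) * qm u) := by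
      rw [Matrix.map_mul, Matrix.map_mul, h1, Matrix.transpose_map]
      show (qm u)ᵀ * ((D : ℚ_[ℓ]) • T.Q.map (algebraMap ℚ ℚ_[ℓ])) * qm u = _
      rw [mul_smul_comm, smul_mul_assoc]
    constructor
    · intro h
      apply Matrix.map_injective hinj
      show (uᵀ * Z.map (Int.cast : ℤ → ℤ_[ℓ]) * u).map (algebraMap ℤ_[ℓ] ℚ_[ℓ]) =
        (Z.map (Int.cast : ℤ → ℤ_[ℓ])).map (algebraMap ℤ_[ℓ] ℚ_[ℓ])
      rw [h2, h1, h]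
    · intro h
      rw [h, h1] at h2
      exact (smul_right_injective _ hD' h2).symm
  have hdet0 : ∀ (ℓ : ℕ) [Fact ℓ.Prime], (Z.map (Int.cast : ℤ → ℤ_[ℓ])).det ≠ 0 := by
    intro ℓ _
    have h1 : (Z.map (Int.cast : ℤ → ℚ)).det ≠ 0 := by
      rw [hZ, Matrix.det_smul]
      exact mul_ne_zero (pow_ne_zero _ (by exact_mod_cast hD)) (Pool.Agent.W74.PG.det_ne T)
    have h2 : (Z.map (Int.cast : ℤ → ℚ)).det = ((Z.det : ℤ) : ℚ) := by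
      have := (Int.castRingHom ℚ).map_det Z
      rw [RingHom.mapMatrix_apply] at this
      exact this.symm
    have h3 : (Z.map (Int.cast : ℤ → ℤ_[ℓ])).det = ((Z.det : ℤ) : ℤ_[ℓ]) := by
      have := (Int.castRingHom ℤ_[ℓ]).map_det Z
      rw [RingHom.mapMatrix_apply] at this
      exact this.symm
    rw [h3]
    rw [h2] at h1
    have h4 : Z.det ≠ 0 := by exact_mod_cast h1
    exact_mod_cast h4
  have hiso : ∀ (ℓ : ℕ) [Fact ℓ.Prime] (g : Γ), (β ℓ g)ᵀ * Z.map (Int.cast : ℤ → ℤ_[ℓ]) * β ℓ g =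
      Z.map (Int.cast : ℤ → ℤ_[ℓ]) := fun ℓ _ g => (hiff ℓ _).1 (hform ℓ g)
  have hα1 : ∀ (ℓ : ℕ) [Fact ℓ.Prime] (σ : Γ), α ℓ σ = 1 := fun ℓ _ σ => (hconn ℓ).left (hα ℓ) σ
  have hβ1 : ∀ (ℓ : ℕ) [Fact ℓ.Prime] (σ : Γ), (β ℓ σ).det = 1 := fun ℓ _ σ =>
    (hconn ℓ).right (fun σ => det_pm (hdet0 ℓ) (hiso ℓ σ)) σ
  have htot : ∀ (ℓ : ℕ) [Fact ℓ.Prime] (σ : Γ), totZ (α ℓ) (β ℓ) σ = fromBlocks 1 0 0 (β ℓ σ) := by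
    intro ℓ _ σ
    show fromBlocks (α ℓ σ) 0 0 (β ℓ σ) = _
    rw [hα1]
  refine ⟨?_, fun ℓ _ => {g | ∃ u : Matrix (Fin n) (Fin n) ℤ_[ℓ], g = fromBlocks 1 0 0 u ∧
    uᵀ * Z.map (Int.cast : ℤ → ℤ_[ℓ]) * u = Z.map (Int.cast : ℤ → ℤ_[ℓ]) ∧ u.det = 1 ∧
    red ℓ u ∈ Om ℓ (red ℓ (Z.map (Int.cast : ℤ → ℤ_[ℓ])))}, ?_, ?_⟩
  · intro ℓ _ hℓ σ
    rw [htot, mem_GZ hB]
    exact ⟨_, rfl, hform ℓ σ, hβ1 ℓ σ⟩
  · intro ℓ _ hℓ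
    have hℓn := hL ℓ hℓ
    refine ⟨?_, ?_, ?_, ?_, ?_⟩
    · rintro _ ⟨u, rfl, hu, hd, -⟩
      exact (mem_GZ hB).2 ⟨u, rfl, (hiff ℓ u).2 hu, hd⟩
    · refine ⟨1, Matrix.fromBlocks_one.symm, by rw [transpose_one, one_mul, mul_one], det_one, ?_⟩
      rw [red_one']
      exact Submonoid.one_mem _
    · rintro _ ⟨u, rfl, hu, hd, hO⟩ _ ⟨v, rfl, hv, hd', hO'⟩
      refine ⟨u * v, ?_, ?_, ?_, ?_⟩
      · rw [fb_mul, one_mul]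
      · rw [transpose_mul]
        calc vᵀ * uᵀ * Z.map (Int.cast : ℤ → ℤ_[ℓ]) * (u * v) =
            vᵀ * (uᵀ * Z.map (Int.cast : ℤ → ℤ_[ℓ]) * u) * v := by simp only [mul_assoc]
          _ = _ := by rw [hu, hv]
      · rw [det_mul, hd, hd', one_mul]
      · rw [Lft.red_mul]
        exact Submonoid.mul_mem _ hO hO'
    · rintro _ ⟨u, rfl, hu, hd, hO⟩
      obtain ⟨u', h1, h2, h3⟩ := iso_inv (hun ℓ hℓ) hu
      refine ⟨u', ?_, h3, ?_, om_inv (by rw [← Lft.red_mul, h1, red_one']) hO⟩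
      · refine Matrix.inv_eq_right_inv ?_
        rw [fb_mul, one_mul, h2, Matrix.fromBlocks_one]
      · have h4 := congrArg Matrix.det h1
        rwa [det_mul, hd, mul_one, det_one] at h4
    · obtain ⟨u, hu, hud, hall⟩ := index_two (show ℓ ≠ 2 by omega) (by omega) (hBs ℓ) (hun ℓ hℓ)
      refine ⟨fromBlocks 1 0 0 u, (mem_GZ hB).2 ⟨u, rfl, (hiff ℓ u).2 hu, hud⟩, ?_⟩
      intro g hg
      obtain ⟨v, rfl, hv, hvd⟩ := (mem_GZ hB).1 hg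
      rcases hall v ((hiff ℓ v).1 hv) hvd with h1 | ⟨ω, h1, h2, h3, h4⟩
      · exact Or.inl ⟨v, rfl, (hiff ℓ v).1 hv, hvd, h1⟩
      · exact Or.inr ⟨_, ⟨ω, rfl, h1, h2, h3⟩, by rw [fb_mul, one_mul, h4]⟩
  · intro h hh
    have h1 : ∀ (ℓ : ℕ) [Fact ℓ.Prime], ℓ ∈ L →
        ((h ℓ).toBlocks₂₂)ᵀ * Z.map (Int.cast : ℤ → ℤ_[ℓ]) * (h ℓ).toBlocks₂₂ =
          Z.map (Int.cast : ℤ → ℤ_[ℓ]) ∧
        red ℓ (h ℓ).toBlocks₂₂ ∈ Om ℓ (red ℓ (Z.map (Int.cast : ℤ → ℤ_[ℓ]))) := by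
      intro ℓ _ hℓ
      obtain ⟨u, h2, hu, -, hO⟩ := hh ℓ hℓ
      rw [h2, Matrix.toBlocks_fromBlocks₂₂]
      exact ⟨hu, hO⟩
    obtain ⟨σ, hσ⟩ := adelic h5 L hL β hβ (fun ℓ _ => Z.map (Int.cast : ℤ → ℤ_[ℓ])) hBs hiso hun hbig
      (fun ℓ _ => (h ℓ).toBlocks₂₂) h1
    refine ⟨σ, fun ℓ _ hℓ => ?_⟩
    obtain ⟨u, h2, -⟩ := hh ℓ hℓ
    rw [htot, hσ ℓ hℓ, h2, Matrix.toBlocks_fromBlocks₂₂]

end final

end Pool.Agent.T2H36.IX
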