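import Pool.Agent.T2H36.IX.Defs

set_option autoImplicit false

/-!
Package J of project IX: a finite group of complex matrices has a subgroup of bounded index with a
nonscalar commutant (the argument of Jordan, Frobenius, Bieberbach).
-/

open Matrix

namespace Pool.Agent.T2H36.IX

/-- a subgroup for which a finite set separates the left cosets has small index -/
theorem index_le_of_sep {G : Type*} [Group G] {α : Type*} (U : Subgroup G) (φ : G → α)
    (s : Finset α) (hs : ∀ g, φ g ∈ s) (h : ∀ a b, φ a = φ b → a⁻¹ * b ∈ U) :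
    U.index ≤ s.card := by
  classical
  have hinj : Function.Injective (fun q : G ⧸ U => (⟨φ q.out, hs _⟩ : s)) := by
    intro q q' hq
    have h1 : φ q.out = φ q'.out := congrArg Subtype.val hq
    have h2 := h _ _ h1
    rw [← QuotientGroup.eq] at h2
    simpa using h2
  have := Nat.card_le_card_of_injective _ hinj
  rw [Subgroup.index]
  simpa using this

open scoped ComplexOrder in
/-- unitarisation -/
theorem unitarise {G : Type} [Group G] [Finite G] {n : ℕ} (f : G →* Matrix (Fin n) (Fin n) ℂ) :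
    ∃ y : Matrix (Fin n) (Fin n) ℂ, IsUnit y ∧
      ∀ g, star (y * f g * y⁻¹) * (y * f g * y⁻¹) = 1 := by
  classical
  have := Fintype.ofFinite G
  let H : Matrix (Fin n) (Fin n) ℂ := ∑ g, star (f g) * f g
  have hH : ∀ g, star (f g) * H * f g = H := by
    intro g
    simp only [H]
    rw [Finset.mul_sum, Finset.sum_mul]
    refine Fintype.sum_equiv (Equiv.mulRight g) _ _ fun h => ?_
    simp [mul_assoc]
  have hpos : H.PosDef := by
    have h1 : H = star (f 1) * f 1 + ∑ g ∈ Finset.univ.erase (1 : G), star (f g) * f g := by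
      rw [Finset.add_sum_erase _ (fun g => star (f g) * f g) (Finset.mem_univ _)]
    rw [h1]
    refine Matrix.PosDef.add_posSemidef ?_ ?_
    · simpa using Matrix.PosDef.one
    · exact Matrix.posSemidef_sum _ fun g _ => posSemidef_conjTranspose_mul_self (f g)
  obtain ⟨y, hy⟩ : ∃ y : Matrix (Fin n) (Fin n) ℂ, H = star y * y := by
    open scoped MatrixOrder in
    exact CStarAlgebra.nonneg_iff_eq_star_mul_self.mp hpos.posSemidef.nonneg
  have hyu : IsUnit y := by
    have h1 : IsUnit H := hpos.isUnit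
    rw [hy] at h1
    rw [Matrix.isUnit_iff_isUnit_det] at h1 ⊢
    rw [Matrix.det_mul] at h1
    exact isUnit_of_mul_isUnit_right h1
  refine ⟨y, hyu, fun g => ?_⟩
  have hdet : IsUnit y.det := (Matrix.isUnit_iff_isUnit_det _).1 hyu
  have e1 : star (y * f g * y⁻¹) * (y * f g * y⁻¹)
      = star y⁻¹ * (star (f g) * (star y * y) * f g) * y⁻¹ := by
    simp only [star_mul, mul_assoc]
  rw [e1, ← hy, hH g, hy]
  have e2 : star y⁻¹ * star y = 1 := by
    rw [← star_mul, Matrix.mul_nonsing_inv _ hdet, star_one]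
  rw [← mul_assoc, e2, one_mul, Matrix.mul_nonsing_inv _ hdet]

open scoped Matrix.Norms.L2Operator in
/-- the unitary case -/
theorem j_unitary (n : ℕ) (hn : 2 ≤ n) : ∃ J : ℕ, ∀ (G : Type) [Group G] [Finite G]
    (f : G →* Matrix (Fin n) (Fin n) ℂ), (∀ g, star (f g) * f g = 1) →
    ∃ (U : Subgroup G) (X : Matrix (Fin n) (Fin n) ℂ), U.index ≤ J ∧
      (∀ g ∈ U, f g * X = X * f g) ∧ ∀ c : ℂ, X ≠ c • (1 : Matrix (Fin n) (Fin n) ℂ) := by
  classical
  let _ : NormedSpace ℝ (Matrix (Fin n) (Fin n) ℂ) := NormedSpace.complexToReal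
  have : FiniteDimensional ℝ (Matrix (Fin n) (Fin n) ℂ) := FiniteDimensional.complexToReal _
  have : NeZero n := ⟨by omega⟩
  refine ⟨n * 5 ^ Module.finrank ℝ (Matrix (Fin n) (Fin n) ℂ), ?_⟩
  intro G _ _ f hf
  have := Fintype.ofFinite G
  have hfu : ∀ g, f g ∈ unitary (Matrix (Fin n) (Fin n) ℂ) := by
    intro g
    rw [Unitary.mem_iff]
    refine ⟨hf g, ?_⟩
    have h1 : f g * f g⁻¹ = 1 := by rw [← map_mul, mul_inv_cancel, map_one]
    have h2 : star (f g) = f g⁻¹ := by
      calc star (f g) = star (f g) * (f g * f g⁻¹) := by rw [h1, mul_one]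
        _ = f g⁻¹ := by rw [← mul_assoc, hf g, one_mul]
    rw [h2, h1]
  have nl : ∀ g (B : Matrix (Fin n) (Fin n) ℂ), ‖f g * B‖ = ‖B‖ := fun g B =>
    CStarRing.norm_coe_unitary_mul (⟨f g, hfu g⟩ : unitary (Matrix (Fin n) (Fin n) ℂ)) B
  have nr : ∀ g (B : Matrix (Fin n) (Fin n) ℂ), ‖B * f g‖ = ‖B‖ := fun g B =>
    CStarRing.norm_mul_coe_unitary B (⟨f g, hfu g⟩ : unitary (Matrix (Fin n) (Fin n) ℂ))
  have n1 : ∀ g, ‖f g‖ = 1 := fun g =>
    CStarRing.norm_coe_unitary (⟨f g, hfu g⟩ : unitary (Matrix (Fin n) (Fin n) ℂ))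
  let A : Subgroup G := Subgroup.closure {g | ‖f g - 1‖ < 1 / 2}
  have hA : A.index ≤ 5 ^ Module.finrank ℝ (Matrix (Fin n) (Fin n) ℂ) := by
    have hsep : ∀ q q' : G ⧸ A, q ≠ q' → 1 ≤ ‖(2 : ℝ) • f q.out - (2 : ℝ) • f q'.out‖ := by
      intro q q' hq
      by_contra hlt
      push Not at hlt
      apply hq
      have h1 : ‖f (q.out⁻¹ * q'.out) - 1‖ < 1 / 2 := by
        have e1 : f q.out * (f (q.out⁻¹ * q'.out) - 1) = f q'.out - f q.out := by
          rw [mul_sub, ← map_mul, mul_one]; simp
        rw [← nl q.out, e1, norm_sub_rev]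
        rw [← smul_sub, norm_smul] at hlt
        norm_num at hlt
        linarith
      have h2 : q.out⁻¹ * q'.out ∈ A := Subgroup.subset_closure h1
      rw [← QuotientGroup.eq] at h2
      simpa using h2
    have hinj : Function.Injective (fun q : G ⧸ A => (2 : ℝ) • f q.out) := by
      intro q q' hq
      by_contra hne
      have := hsep q q' hne
      simp only at hq
      rw [hq, sub_self, norm_zero] at this
      linarith
    have := Fintype.ofFinite (G ⧸ A)
    have h3 := Besicovitch.card_le_of_separated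
      (Finset.univ.image (fun q : G ⧸ A => (2 : ℝ) • f q.out)) (by
        intro c hc
        rw [Finset.mem_image] at hc
        obtain ⟨q, -, rfl⟩ := hc
        rw [norm_smul, n1]; norm_num) (by
        intro c hc d hd hcd
        rw [Finset.mem_image] at hc hd
        obtain ⟨q, -, rfl⟩ := hc
        obtain ⟨q', -, rfl⟩ := hd
        exact hsep q q' (fun h => hcd (by rw [h])))
    rw [Finset.card_image_of_injective _ hinj, Finset.card_univ, ← Nat.card_eq_fintype_card] at h3
    exact h3
  by_cases hsc : ∀ g, ‖f g - 1‖ < 1 / 2 → ∃ c : ℂ, f g = c • (1 : Matrix (Fin n) (Fin n) ℂ)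
  · have hAsc : ∀ g ∈ A, ∃ c : ℂ, f g = c • (1 : Matrix (Fin n) (Fin n) ℂ) := by
      intro g hg
      induction hg using Subgroup.closure_induction with
      | mem x hx => exact hsc x hx
      | one => exact ⟨1, by simp⟩
      | mul x y _ _ hx hy =>
        obtain ⟨c, hc⟩ := hx
        obtain ⟨d, hd⟩ := hy
        exact ⟨c * d, by rw [map_mul, hc, hd]; simp [smul_smul, mul_comm]⟩
      | inv x _ hx =>
        obtain ⟨c, hc⟩ := hx
        have h1 : f x * f x⁻¹ = 1 := by rw [← map_mul, mul_inv_cancel, map_one]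
        rw [hc, smul_mul_assoc, one_mul] at h1
        have hc0 : c ≠ 0 := by
          rintro rfl
          rw [zero_smul] at h1
          exact zero_ne_one h1
        refine ⟨c⁻¹, ?_⟩
        rw [← h1, smul_smul, inv_mul_cancel₀ hc0, one_smul]
    refine ⟨A, Matrix.single ⟨0, by omega⟩ ⟨1, by omega⟩ 1, ?_, ?_, ?_⟩
    · calc A.index ≤ 1 * 5 ^ Module.finrank ℝ (Matrix (Fin n) (Fin n) ℂ) := by simpa using hA
        _ ≤ _ := Nat.mul_le_mul_right _ (by omega)
    · intro g hg
      obtain ⟨c, hc⟩ := hAsc g hg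
      rw [hc]; simp
    · intro c hc
      have := congrFun (congrFun hc ⟨0, by omega⟩) ⟨1, by omega⟩
      simp at this
  · push Not at hsc
    -- the nonscalar element nearest to the identity
    obtain ⟨g, ⟨hg1, hg2⟩, hmin⟩ := Set.exists_min_image
      {g : G | ‖f g - 1‖ < 1 / 2 ∧ ∀ c : ℂ, f g ≠ c • (1 : Matrix (Fin n) (Fin n) ℂ)}
      (fun g => ‖f g - 1‖) (Set.toFinite _) (by
        obtain ⟨g, h1, h2⟩ := hsc
        exact ⟨g, h1, h2⟩)
    have hg0 : 0 < ‖f g - 1‖ := by
      rw [norm_pos_iff, sub_ne_zero]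
      simpa using hg2 1
    have hroot : ∀ h ∈ A, ∃ z : ℂ, z ^ n = 1 ∧ f g * f h = z • (f h * f g) := by
      intro h hh
      induction hh using Subgroup.closure_induction with
      | mem h hh =>
        have hh' : ‖f h - 1‖ < 1 / 2 := hh
        have e1 : (f (g * h * g⁻¹ * h⁻¹) - 1) * f (h * g) = (f g - 1) * (f h - 1) - (f h - 1) * (f g - 1) := by
          rw [sub_mul, ← map_mul, one_mul]
          have : g * h * g⁻¹ * h⁻¹ * (h * g) = g * h := by group
          rw [this, map_mul, map_mul]
          noncomm_ring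
        have h1 : ‖f (g * h * g⁻¹ * h⁻¹) - 1‖ < ‖f g - 1‖ := by
          rw [← nr (h * g), e1]
          calc ‖(f g - 1) * (f h - 1) - (f h - 1) * (f g - 1)‖
              ≤ ‖(f g - 1) * (f h - 1)‖ + ‖(f h - 1) * (f g - 1)‖ := norm_sub_le _ _
            _ ≤ ‖f g - 1‖ * ‖f h - 1‖ + ‖f h - 1‖ * ‖f g - 1‖ :=
                add_le_add (norm_mul_le _ _) (norm_mul_le _ _)
            _ < ‖f g - 1‖ := by nlinarith
        have h2 : ∃ z : ℂ, f (g * h * g⁻¹ * h⁻¹) = z • (1 : Matrix (Fin n) (Fin n) ℂ) := by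
          by_contra hcon
          push Not at hcon
          have := hmin _ ⟨h1.trans hg1, hcon⟩
          exact absurd h1 (not_lt.2 this)
        obtain ⟨z, hz⟩ := h2
        refine ⟨z, ?_, ?_⟩
        · have h3 : (f (g * h * g⁻¹ * h⁻¹)).det = 1 := by
            have e2 : (f g).det * (f g⁻¹).det = 1 := by
              rw [← Matrix.det_mul, ← map_mul, mul_inv_cancel, map_one, Matrix.det_one]
            have e3 : (f h).det * (f h⁻¹).det = 1 := by
              rw [← Matrix.det_mul, ← map_mul, mul_inv_cancel, map_one, Matrix.det_one]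
            simp only [map_mul, Matrix.det_mul]
            linear_combination (f h).det * (f h⁻¹).det * e2 + e3
          rw [hz, Matrix.det_smul, Matrix.det_one, mul_one] at h3
          simpa using h3
        · have : g * h = g * h * g⁻¹ * h⁻¹ * (h * g) := by group
          rw [← map_mul, ← map_mul, this, map_mul, hz]
          simp
      | one => exact ⟨1, by simp, by simp⟩
      | mul x y _ _ hx hy =>
        obtain ⟨z, hz, ez⟩ := hx
        obtain ⟨w, hw, ew⟩ := hy
        refine ⟨z * w, by rw [mul_pow, hz, hw, mul_one], ?_⟩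
        rw [map_mul, ← mul_assoc, ez, smul_mul_assoc, mul_assoc, ew, mul_smul_comm, smul_smul,
          mul_assoc]
      | inv x _ hx =>
        obtain ⟨z, hz, ez⟩ := hx
        have hz0 : z ≠ 0 := by
          rintro rfl
          rw [zero_pow (by omega)] at hz
          exact zero_ne_one hz
        have h1 : f x * f x⁻¹ = 1 := by rw [← map_mul, mul_inv_cancel, map_one]
        have h1' : f x⁻¹ * f x = 1 := by rw [← map_mul, inv_mul_cancel, map_one]
        refine ⟨z⁻¹, by rw [inv_pow, hz, inv_one], ?_⟩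
        calc f g * f x⁻¹ = f x⁻¹ * (f x * f g) * f x⁻¹ := by
              rw [← mul_assoc, h1', one_mul]
          _ = f x⁻¹ * (z⁻¹ • (f g * f x)) * f x⁻¹ := by
              rw [ez, smul_smul, inv_mul_cancel₀ hz0, one_smul]
          _ = z⁻¹ • (f x⁻¹ * f g) := by
              rw [mul_smul_comm, smul_mul_assoc, mul_assoc, mul_assoc, h1, mul_one]
    choose z hz1 hz2 using hroot
    let U' : Subgroup G :=
      { carrier := {a | f g * f a = f a * f g}
        mul_mem' := by
          intro a b ha hb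
          simp only [Set.mem_ofPred_eq] at ha hb ⊢
          rw [map_mul, ← mul_assoc, ha, mul_assoc, hb, mul_assoc]
        one_mem' := by simp
        inv_mem' := by
          intro x hx
          simp only [Set.mem_ofPred_eq] at hx ⊢
          have h1 : f x * f x⁻¹ = 1 := by rw [← map_mul, mul_inv_cancel, map_one]
          have h1' : f x⁻¹ * f x = 1 := by rw [← map_mul, inv_mul_cancel, map_one]
          calc f g * f x⁻¹ = f x⁻¹ * (f x * f g) * f x⁻¹ := by
                rw [← mul_assoc, h1', one_mul]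
            _ = f x⁻¹ * f g := by
                rw [← hx, mul_assoc, mul_assoc, h1, mul_one] }
    refine ⟨U' ⊓ A, f g, ?_, ?_, hg2⟩
    · rw [← Subgroup.relIndex_mul_index (inf_le_right : U' ⊓ A ≤ A)]
      refine Nat.mul_le_mul ?_ hA
      rw [Subgroup.inf_relIndex_right, Subgroup.relIndex]
      have hcard : (Polynomial.nthRoots n (1 : ℂ)).toFinset.card ≤ n :=
        (Multiset.toFinset_card_le _).trans (Polynomial.card_nthRoots n 1)
      refine le_trans (index_le_of_sep _ (fun a : A => z a.1 a.2)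
        (Polynomial.nthRoots n (1 : ℂ)).toFinset ?_ ?_) hcard
      · intro a
        rw [Multiset.mem_toFinset, Polynomial.mem_nthRoots (by omega)]
        exact hz1 _ _
      · intro a b hab
        rw [Subgroup.mem_subgroupOf]
        show f g * f (a.1⁻¹ * b.1) = f (a.1⁻¹ * b.1) * f g
        have ea := hz2 a.1 a.2
        have eb := hz2 b.1 b.2
        rw [← hab] at eb
        have hz0 : z a.1 a.2 ≠ 0 := by
          intro h0
          have := hz1 a.1 a.2
          rw [h0, zero_pow (by omega)] at this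
          exact zero_ne_one this
        have h1 : f a.1 * f a.1⁻¹ = 1 := by rw [← map_mul, mul_inv_cancel, map_one]
        have h1' : f a.1⁻¹ * f a.1 = 1 := by rw [← map_mul, inv_mul_cancel, map_one]
        calc f g * f (a.1⁻¹ * b.1) = f a.1⁻¹ * (f a.1 * f g) * f a.1⁻¹ * f b.1 := by
              rw [← mul_assoc, h1', one_mul, map_mul, mul_assoc]
          _ = f a.1⁻¹ * ((z a.1 a.2)⁻¹ • (f g * f a.1)) * f a.1⁻¹ * f b.1 := by
              rw [ea, smul_smul, inv_mul_cancel₀ hz0, one_smul]
          _ = (z a.1 a.2)⁻¹ • (f a.1⁻¹ * (f g * f b.1)) := by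
              rw [mul_smul_comm, smul_mul_assoc, smul_mul_assoc]
              congr 1
              simp only [mul_assoc]
              rw [← mul_assoc (f a.1) (f a.1⁻¹), h1, one_mul]
          _ = f (a.1⁻¹ * b.1) * f g := by
              rw [eb, mul_smul_comm, smul_smul, inv_mul_cancel₀ hz0, one_smul, map_mul, mul_assoc]
    · intro a ha
      exact (ha.1 : f g * f a = f a * f g).symm

/-- package J -/
theorem j_stmt : JStmt := by
  intro n hn
  obtain ⟨J, hJ⟩ := j_unitary n hn
  refine ⟨J, fun G _ _ f => ?_⟩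
  obtain ⟨y, hy, hun⟩ := unitarise f
  have hdet : IsUnit y.det := (Matrix.isUnit_iff_isUnit_det _).1 hy
  have e1 : y⁻¹ * y = 1 := Matrix.nonsing_inv_mul _ hdet
  have e2 : y * y⁻¹ = 1 := Matrix.mul_nonsing_inv _ hdet
  let f' : G →* Matrix (Fin n) (Fin n) ℂ :=
    { toFun := fun g => y * f g * y⁻¹
      map_one' := by simp [e2]
      map_mul' := by
        intro a b
        calc y * f (a * b) * y⁻¹ = y * f a * 1 * f b * y⁻¹ := by
              rw [map_mul, mul_one]; simp only [mul_assoc]
          _ = y * f a * y⁻¹ * (y * f b * y⁻¹) := by rw [← e1]; simp only [mul_assoc] }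
  obtain ⟨U, X, hU, hX, hX'⟩ := hJ G f' hun
  refine ⟨U, y⁻¹ * X * y, hU, ?_, ?_⟩
  · intro g hg
    have h1 : y * f g * y⁻¹ * X = X * (y * f g * y⁻¹) := hX g hg
    calc f g * (y⁻¹ * X * y) = 1 * f g * (y⁻¹ * X * y) := by rw [one_mul]
      _ = y⁻¹ * (y * f g * y⁻¹ * X) * y := by rw [← e1]; simp only [mul_assoc]
      _ = y⁻¹ * (X * (y * f g * y⁻¹)) * y := by rw [h1]
      _ = y⁻¹ * X * y * f g * (y⁻¹ * y) := by simp only [mul_assoc]
      _ = y⁻¹ * X * y * f g := by rw [e1, mul_one]
  · intro c hc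
    apply hX' c
    calc X = (y * y⁻¹) * X * (y * y⁻¹) := by rw [e2]; simp
      _ = y * (y⁻¹ * X * y) * y⁻¹ := by simp only [mul_assoc]
      _ = c • 1 := by rw [hc]; simp [e2]

end Pool.Agent.T2H36.IX
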