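import Mathlib
import Pool.Agent.T2H36.IX.Defs

set_option autoImplicit false

/-!
Project IX (helper36), package K (helper89): if the logarithms of the elements of the image modulo
`ℓ` span the Lie algebra of the form `B`, then the image contains the kernel of the reduction.
-/

open Matrix Polynomial Filter Topology

namespace Pool.Agent.T2H36.IX

namespace PK

/-! ### polynomials -/

section Poly

variable (ℓ : ℕ) [hp : Fact ℓ.Prime]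

/-- `(X + 1) ^ ℓ = 1 + X ^ ℓ + ℓ P` -/
theorem exists_P : ∃ P : ℤ[X], (X + 1 : ℤ[X]) ^ ℓ = 1 + X ^ ℓ + C (ℓ : ℤ) * P := by
  have h : C (ℓ : ℤ) ∣ (X + 1 : ℤ[X]) ^ ℓ - (1 + X ^ ℓ) := by
    rw [Polynomial.C_dvd_iff_dvd_coeff]
    intro i
    have h1 : ((X + 1 : ℤ[X]) ^ ℓ - (1 + X ^ ℓ)).map (Int.castRingHom (ZMod ℓ)) = 0 := by
      simp only [Polynomial.map_sub, Polynomial.map_pow, Polynomial.map_add, Polynomial.map_X,
        Polynomial.map_one]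
      have : CharP (ZMod ℓ)[X] ℓ := inferInstance
      rw [add_pow_char, one_pow]
      ring
    have h2 := congrArg (fun q => Polynomial.coeff q i) h1
    simp only [Polynomial.coeff_map, Polynomial.coeff_zero] at h2
    rw [eq_intCast] at h2
    exact (ZMod.intCast_zmod_eq_zero_iff_dvd _ _).1 h2
  obtain ⟨P, hP⟩ := h
  exact ⟨P, by rw [← hP]; ring⟩

variable {ℓ} {P : ℤ[X]} (hP : (X + 1 : ℤ[X]) ^ ℓ = 1 + X ^ ℓ + C (ℓ : ℤ) * P)

include hP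

omit hP in
theorem C_ne : (C (ℓ : ℤ) : ℤ[X]) ≠ 0 := by
  have := hp.1.ne_zero
  simpa using this

theorem deriv_P : derivative P = (X + 1) ^ (ℓ - 1) - X ^ (ℓ - 1) := by
  have h := congrArg derivative hP
  simp only [derivative_pow, derivative_add, derivative_X, derivative_one, derivative_mul,
    derivative_C, zero_mul, zero_add, add_zero, mul_one] at h
  have h1 : C (ℓ : ℤ) * derivative P = C (ℓ : ℤ) * ((X + 1) ^ (ℓ - 1) - X ^ (ℓ - 1)) := by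
    linear_combination -h
  exact mul_left_cancel₀ (C_ne (ℓ := ℓ)) h1

theorem P_coeff_zero : P.coeff 0 = 0 := by
  have h := congrArg (Polynomial.eval 0) hP
  simp only [eval_pow, eval_add, eval_X, eval_one, eval_mul, eval_C, zero_add, one_pow] at h
  rw [zero_pow hp.1.ne_zero, add_zero] at h
  have h1 : (ℓ : ℤ) * P.eval 0 = 0 := by linarith
  rcases mul_eq_zero.1 h1 with h2 | h2
  · exact absurd (by exact_mod_cast h2) hp.1.ne_zero
  · rw [coeff_zero_eq_eval_zero]; exact h2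

theorem P_coeff_one (h2 : 2 < ℓ) : P.coeff 1 = 1 := by
  have h := congrArg (Polynomial.eval 0) (deriv_P hP)
  simp only [eval_pow, eval_add, eval_X, eval_one, zero_add, one_pow, eval_sub] at h
  rw [zero_pow (by omega), sub_zero, ← coeff_zero_eq_eval_zero, coeff_derivative] at h
  simpa using h

theorem exists_Q (h2 : 2 < ℓ) : ∃ Q : ℤ[X], P = X + X ^ 2 * Q := by
  have h : (X : ℤ[X]) ^ 2 ∣ P - X := by
    rw [X_pow_dvd_iff]
    intro d hd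
    interval_cases d
    · simp [P_coeff_zero hP]
    · simp [P_coeff_one hP h2]
  obtain ⟨Q, hQ⟩ := h
  exact ⟨Q, by rw [← hQ]; ring⟩

/-- the truncated exponential as a polynomial -/
noncomputable def EE (ℓ n : ℕ) [Fact ℓ.Prime] : (ZMod ℓ)[X] :=
  ∑ k ∈ Finset.range n, C ((k.factorial : ZMod ℓ)⁻¹) * X ^ k

omit hP in
theorem aeval_EE {n m : ℕ} (N : Matrix (Fin m) (Fin m) (ZMod ℓ)) :
    aeval N (EE ℓ n) = ∑ k ∈ Finset.range n, ((k.factorial : ZMod ℓ)⁻¹) • N ^ k := by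
  unfold EE
  rw [map_sum]
  refine Finset.sum_congr rfl fun k _ => ?_
  rw [map_mul, aeval_C, map_pow, aeval_X, Algebra.smul_def]

omit hP in
theorem fact_ne {k : ℕ} (h : k < ℓ) : (k.factorial : ZMod ℓ) ≠ 0 := by
  intro h0
  rw [ZMod.natCast_eq_zero_iff] at h0
  exact absurd ((hp.1.dvd_factorial).1 h0) (by omega)

omit hP in
theorem EE_deriv {n : ℕ} (hn : n < ℓ) :
    derivative (EE ℓ (n + 1)) = EE ℓ n := by
  unfold EE
  rw [derivative_sum, Finset.sum_range_succ']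
  simp only [derivative_mul, derivative_C, zero_mul, zero_add, derivative_X_pow, pow_zero, mul_one,
    add_zero]
  refine Finset.sum_congr rfl fun k hk => ?_
  have hk' : k < n := Finset.mem_range.1 hk
  have h1 : ((k + 1).factorial : ZMod ℓ) ≠ 0 := fact_ne (by omega)
  have h2 : (k.factorial : ZMod ℓ) ≠ 0 := fact_ne (by omega)
  have h3 : ((k + 1).factorial : ZMod ℓ) = ((k + 1 : ℕ) : ZMod ℓ) * (k.factorial : ZMod ℓ) := by
    rw [Nat.factorial_succ]; push_cast; ring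
  rw [Nat.add_sub_cancel, ← mul_assoc, ← C_mul]
  congr 2
  rw [h3]
  have h4 : ((k + 1 : ℕ) : ZMod ℓ) ≠ 0 := by
    intro h0
    rw [h3, h0, zero_mul] at h1
    exact h1 rfl
  field_simp

omit hP in
theorem EE_succ (n : ℕ) : EE ℓ (n + 1) = EE ℓ n + C ((n.factorial : ZMod ℓ)⁻¹) * X ^ n := by
  unfold EE
  rw [Finset.sum_range_succ]

omit hP in
theorem EE_coeff_zero {n : ℕ} : (EE ℓ (n + 1)).coeff 0 = 1 := by
  unfold EE
  rw [Finset.sum_range_succ']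
  simp

omit hP in
theorem X_dvd_EE {n : ℕ} : X ∣ EE ℓ (n + 1) - 1 := by
  rw [X_dvd_iff]
  simp [EE_coeff_zero]

/-- the key identity `log (exp X) = X` modulo `X ^ n` -/
theorem log_exp {n : ℕ} (hn : n < ℓ) :
    (X : (ZMod ℓ)[X]) ^ n ∣ (P.map (Int.castRingHom (ZMod ℓ))).comp (EE ℓ n - 1) - X := by
  rcases n with _ | n
  · simp
  set E := EE ℓ (n + 1) with hE
  set L := (P.map (Int.castRingHom (ZMod ℓ))).comp (E - 1) with hL
  have hℓ : 1 ≤ ℓ := hp.1.one_lt.le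
  -- the derivative of the logarithm
  have hd : E * derivative L = derivative E * (1 - (E - 1) ^ (ℓ - 1)) := by
    rw [hL, derivative_comp, derivative_map, deriv_P hP]
    simp only [Polynomial.map_sub, Polynomial.map_pow, Polynomial.map_add, Polynomial.map_X,
      Polynomial.map_one, sub_comp, pow_comp, add_comp, X_comp, one_comp, derivative_sub,
      derivative_one, sub_zero, sub_add_cancel]
    have h1 : E * E ^ (ℓ - 1) = 1 + (E - 1) ^ ℓ := by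
      rw [← pow_succ', Nat.sub_add_cancel hℓ]
      have : CharP (ZMod ℓ)[X] ℓ := inferInstance
      rw [sub_pow_char, one_pow]
      ring
    have h2 : (E - 1) ^ ℓ = (E - 1) * (E - 1) ^ (ℓ - 1) := by
      rw [← pow_succ', Nat.sub_add_cancel hℓ]
    calc E * (derivative E * (E ^ (ℓ - 1) - (E - 1) ^ (ℓ - 1)))
        = derivative E * (E * E ^ (ℓ - 1) - E * (E - 1) ^ (ℓ - 1)) := by ring
      _ = derivative E * (1 - (E - 1) ^ (ℓ - 1)) := by rw [h1, h2]; ring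
  have hdv : (X : (ZMod ℓ)[X]) ^ n ∣ derivative L - 1 := by
    have h1 : (X : (ZMod ℓ)[X]) ^ n ∣ E * (derivative L - 1) := by
      have h2 : E * (derivative L - 1) = -(C ((n.factorial : ZMod ℓ)⁻¹) * X ^ n) -
          derivative E * (E - 1) ^ (ℓ - 1) := by
        have h3 : derivative E = E - C ((n.factorial : ZMod ℓ)⁻¹) * X ^ n := by
          rw [hE, EE_deriv (by omega), EE_succ]; ring
        rw [mul_sub, hd, mul_one, mul_sub, mul_one, h3]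
        ring
      rw [h2]
      refine dvd_sub ?_ ?_
      · exact (Dvd.intro_left _ rfl).neg_right
      · refine Dvd.dvd.mul_left ?_ _
        have h4 : (X : (ZMod ℓ)[X]) ^ (ℓ - 1) ∣ (E - 1) ^ (ℓ - 1) := pow_dvd_pow_of_dvd X_dvd_EE _
        exact (pow_dvd_pow X (by omega)).trans h4
    refine Prime.pow_dvd_of_dvd_mul_left prime_X n ?_ h1
    rw [X_dvd_iff, hE, EE_coeff_zero]
    exact one_ne_zero
  have hc0 : L.coeff 0 = 0 := by
    rw [coeff_zero_eq_eval_zero, hL, eval_comp]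
    have h1 : eval 0 (E - 1) = 0 := by
      rw [← coeff_zero_eq_eval_zero, coeff_sub, hE, EE_coeff_zero]
      simp
    rw [h1, ← coeff_zero_eq_eval_zero, coeff_map, P_coeff_zero hP, map_zero]
  rw [X_pow_dvd_iff]
  intro d hd'
  rcases d with _ | d
  · rw [coeff_sub, hc0]; simp
  · rw [X_pow_dvd_iff] at hdv
    have h1 := hdv d (by omega)
    have h2 : derivative (L - X) = derivative L - 1 := by simp
    rw [← h2, coeff_derivative] at h1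
    rcases mul_eq_zero.1 h1 with h3 | h3
    · exact h3
    · exfalso
      have h4 : ((d + 1 : ℕ) : ZMod ℓ) = 0 := by push_cast; exact h3
      rw [ZMod.natCast_eq_zero_iff] at h4
      exact absurd (Nat.le_of_dvd (by omega) h4) (by omega)

end Poly

/-! ### matrices -/

section Mat

variable {ℓ n : ℕ} [hp : Fact ℓ.Prime]

theorem red_def (A : Matrix (Fin n) (Fin n) ℤ_[ℓ]) :
    red ℓ A = (PadicInt.toZMod : ℤ_[ℓ] →+* ZMod ℓ).mapMatrix A := rfl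

theorem red_mul (A A' : Matrix (Fin n) (Fin n) ℤ_[ℓ]) : red ℓ (A * A') = red ℓ A * red ℓ A' := by
  rw [red_def, map_mul]; rfl

theorem red_add (A A' : Matrix (Fin n) (Fin n) ℤ_[ℓ]) : red ℓ (A + A') = red ℓ A + red ℓ A' := by
  rw [red_def, map_add]; rfl

theorem red_sub (A A' : Matrix (Fin n) (Fin n) ℤ_[ℓ]) : red ℓ (A - A') = red ℓ A - red ℓ A' := by
  rw [red_def, map_sub]; rfl

theorem red_one : red ℓ (1 : Matrix (Fin n) (Fin n) ℤ_[ℓ]) = 1 := by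
  rw [red_def, map_one]

theorem red_zero : red ℓ (0 : Matrix (Fin n) (Fin n) ℤ_[ℓ]) = 0 := by
  rw [red_def, map_zero]

theorem red_pow (A : Matrix (Fin n) (Fin n) ℤ_[ℓ]) (k : ℕ) : red ℓ (A ^ k) = red ℓ A ^ k := by
  rw [red_def, map_pow]; rfl

theorem red_transpose (A : Matrix (Fin n) (Fin n) ℤ_[ℓ]) : red ℓ Aᵀ = (red ℓ A)ᵀ := rfl

theorem red_aeval (A : Matrix (Fin n) (Fin n) ℤ_[ℓ]) (P : ℤ[X]) :
    red ℓ (aeval A P) = aeval (red ℓ A) (P.map (Int.castRingHom (ZMod ℓ))) := by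
  have h1 : aeval (red ℓ A) (P.map (Int.castRingHom (ZMod ℓ))) = aeval (red ℓ A) P := by
    rw [← algebraMap_int_eq, aeval_map_algebraMap]
  rw [h1]
  exact (Polynomial.aeval_algHom_apply
    ((PadicInt.toZMod : ℤ_[ℓ] →+* ZMod ℓ).mapMatrix (m := Fin n)).toIntAlgHom A P).symm

theorem red_ell (A : Matrix (Fin n) (Fin n) ℤ_[ℓ]) : red ℓ ((ℓ : ℤ_[ℓ]) • A) = 0 := by
  ext i j
  simp [red]

theorem exists_of_red {A : Matrix (Fin n) (Fin n) ℤ_[ℓ]} (h : red ℓ A = 0) :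
    ∃ C, A = (ℓ : ℤ_[ℓ]) • C := by
  have h1 : ∀ i j, ∃ c : ℤ_[ℓ], A i j = (ℓ : ℤ_[ℓ]) * c := by
    intro i j
    have h2 : (PadicInt.toZMod : ℤ_[ℓ] →+* ZMod ℓ) (A i j) = 0 := congrFun (congrFun h i) j
    have h3 : A i j ∈ RingHom.ker (PadicInt.toZMod : ℤ_[ℓ] →+* ZMod ℓ) := h2
    rw [PadicInt.ker_toZMod, PadicInt.maximalIdeal_eq_span_p, Ideal.mem_span_singleton] at h3
    exact h3
  choose c hc using h1
  exact ⟨Matrix.of c, by ext i j; simp [hc]⟩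

/-- (1): the logarithm of an element whose reduction is an exponential -/
theorem step_one (h2n : 2 * n < ℓ) {A : Matrix (Fin n) (Fin n) ℤ_[ℓ]}
    {N : Matrix (Fin n) (Fin n) (ZMod ℓ)} (hN : N ^ n = 0) (hA : red ℓ A = tex N) :
    ∃ M, A ^ ℓ = 1 + (ℓ : ℤ_[ℓ]) • M ∧ red ℓ M = N := by
  obtain ⟨P, hP⟩ := exists_P ℓ
  set Y := A - 1 with hY
  have hAY : A = Y + 1 := by rw [hY]; abel
  have htex : tex N = aeval N (EE ℓ n) := by
    rw [aeval_EE]; rfl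
  have hrY : red ℓ Y = aeval N (EE ℓ n - 1) := by
    rw [hY, red_sub, red_one, hA, htex, map_sub, map_one]
  have hYn : red ℓ Y ^ n = 0 := by
    rcases Nat.eq_zero_or_pos n with h0 | h0
    · subst h0
      ext i; exact i.elim0
    · obtain ⟨m, rfl⟩ : ∃ m, n = m + 1 := ⟨n - 1, by omega⟩
      obtain ⟨F, hF⟩ := X_dvd_EE (ℓ := ℓ) (n := m)
      rw [hrY, ← map_pow, hF, mul_pow, map_mul, map_pow, aeval_X, hN, zero_mul]
  obtain ⟨E', hE'⟩ : ∃ E', Y ^ n = (ℓ : ℤ_[ℓ]) • E' := exists_of_red (by rw [red_pow, hYn])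
  obtain ⟨Z, hZ⟩ : ∃ Z, Y ^ ℓ = (ℓ : ℤ_[ℓ]) • ((ℓ : ℤ_[ℓ]) • Z) := by
    refine ⟨E' * (E' * Y ^ (ℓ - 2 * n)), ?_⟩
    have h1 : Y ^ ℓ = Y ^ n * (Y ^ n * Y ^ (ℓ - 2 * n)) := by
      rw [← pow_add, ← pow_add]; congr 1; omega
    rw [h1, hE']
    simp only [smul_mul_assoc, mul_smul_comm]
  refine ⟨aeval Y P + (ℓ : ℤ_[ℓ]) • Z, ?_, ?_⟩
  · have h1 := congrArg (aeval Y) hP
    simp only [map_pow, map_add, aeval_X, map_one, map_mul, aeval_C] at h1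
    rw [hAY, h1, hZ, smul_add]
    have h2 : (algebraMap ℤ (Matrix (Fin n) (Fin n) ℤ_[ℓ])) (ℓ : ℤ) * aeval Y P =
        (ℓ : ℤ_[ℓ]) • aeval Y P := by
      rw [← Algebra.smul_def]
      ext i j
      simp
    rw [h2]
    abel
  · rw [red_add, red_ell, add_zero, red_aeval, hrY, ← aeval_comp]
    obtain ⟨F, hF⟩ := log_exp hP (n := n) (by omega)
    have h3 : (P.map (Int.castRingHom (ZMod ℓ))).comp (EE ℓ n - 1) = X + X ^ n * F := by
      rw [← hF]; ring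
    rw [h3, map_add, aeval_X, map_mul, map_pow, aeval_X, hN, zero_mul, add_zero]

/-- (2) -/
theorem step_two (h2 : 2 < ℓ) {j : ℕ} (hj : 1 ≤ j) (M : Matrix (Fin n) (Fin n) ℤ_[ℓ]) :
    ∃ M', (1 + ((ℓ : ℤ_[ℓ]) ^ j) • M) ^ ℓ = 1 + ((ℓ : ℤ_[ℓ]) ^ (j + 1)) • M' ∧
      red ℓ M' = red ℓ M := by
  obtain ⟨P, hP⟩ := exists_P ℓ
  obtain ⟨Q, hQ⟩ := exists_Q hP h2
  set Y := ((ℓ : ℤ_[ℓ]) ^ j) • M with hY
  have h1 := congrArg (aeval Y) hP
  rw [hQ] at h1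
  simp only [map_pow, map_add, aeval_X, map_one, map_mul, aeval_C] at h1
  have h2' : ∀ W : Matrix (Fin n) (Fin n) ℤ_[ℓ],
      (algebraMap ℤ (Matrix (Fin n) (Fin n) ℤ_[ℓ])) (ℓ : ℤ) * W = (ℓ : ℤ_[ℓ]) • W := by
    intro W
    rw [← Algebra.smul_def]
    ext i j
    simp
  refine ⟨M + (ℓ : ℤ_[ℓ]) • (((ℓ : ℤ_[ℓ]) ^ (j - 1)) • (M ^ 2 * aeval Y Q) +
    ((ℓ : ℤ_[ℓ]) ^ (j * ℓ - j - 2)) • M ^ ℓ), ?_, ?_⟩
  · rw [add_comm 1 Y, h1, h2']
    have e1 : Y ^ ℓ = ((ℓ : ℤ_[ℓ]) ^ (j * ℓ)) • M ^ ℓ := by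
      rw [hY, _root_.smul_pow, pow_mul]
    have e2 : Y ^ 2 * aeval Y Q = ((ℓ : ℤ_[ℓ]) ^ (2 * j)) • (M ^ 2 * aeval Y Q) := by
      conv_lhs => rw [show Y ^ 2 = ((ℓ : ℤ_[ℓ]) ^ (2 * j)) • M ^ 2 by
        rw [hY, _root_.smul_pow, ← pow_mul, mul_comm j 2], smul_mul_assoc]
    have hb : j + 2 ≤ j * ℓ := by nlinarith
    have e3 : (ℓ : ℤ_[ℓ]) ^ (j * ℓ) = (ℓ : ℤ_[ℓ]) ^ (j + 1) * ((ℓ : ℤ_[ℓ]) *
        (ℓ : ℤ_[ℓ]) ^ (j * ℓ - j - 2)) := by
      rw [← pow_succ', ← pow_add]; congr 1; omega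
    have e4 : (ℓ : ℤ_[ℓ]) * (ℓ : ℤ_[ℓ]) ^ (2 * j) = (ℓ : ℤ_[ℓ]) ^ (j + 1) * ((ℓ : ℤ_[ℓ]) *
        (ℓ : ℤ_[ℓ]) ^ (j - 1)) := by
      rw [← pow_succ', ← pow_succ', ← pow_add]; congr 1; omega
    have e5 : (ℓ : ℤ_[ℓ]) * (ℓ : ℤ_[ℓ]) ^ j = (ℓ : ℤ_[ℓ]) ^ (j + 1) := (pow_succ' _ _).symm
    rw [e1, e2, e3]
    generalize M ^ 2 * aeval Y Q = W
    rw [hY]
    simp only [smul_add, smul_smul]
    rw [e4, e5]
    abel
  · rw [red_add, red_ell, add_zero]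

/-- (2) iterated -/
theorem step_iter (h2 : 2 < ℓ) (h2n : 2 * n < ℓ) {A : Matrix (Fin n) (Fin n) ℤ_[ℓ]}
    {N : Matrix (Fin n) (Fin n) (ZMod ℓ)} (hN : N ^ n = 0) (hA : red ℓ A = tex N) (j : ℕ) :
    ∃ M, A ^ (ℓ ^ (j + 1)) = 1 + ((ℓ : ℤ_[ℓ]) ^ (j + 1)) • M ∧ red ℓ M = N := by
  induction j with
  | zero =>
    obtain ⟨M, h1, h3⟩ := step_one h2n hN hA
    exact ⟨M, by rw [zero_add, pow_one, pow_one, h1], h3⟩
  | succ j ih =>
    obtain ⟨M, h1, h3⟩ := ih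
    obtain ⟨M', h4, h5⟩ := step_two h2 (j := j + 1) (by omega) M
    exact ⟨M', by rw [pow_succ, pow_mul, h1, h4], h5.trans h3⟩

/-- (3) -/
theorem step_lie {j : ℕ} (hj : 1 ≤ j) {B Y : Matrix (Fin n) (Fin n) ℤ_[ℓ]}
    (h : (1 + ((ℓ : ℤ_[ℓ]) ^ j) • Y)ᵀ * B * (1 + ((ℓ : ℤ_[ℓ]) ^ j) • Y) = B) :
    (red ℓ Y)ᵀ * red ℓ B + red ℓ B * red ℓ Y = 0 := by
  have hz : (ℓ : ℤ_[ℓ]) ^ j ≠ 0 := pow_ne_zero _ (by exact_mod_cast hp.1.ne_zero)
  have h1 : ((ℓ : ℤ_[ℓ]) ^ j) • (Yᵀ * B + B * Y + ((ℓ : ℤ_[ℓ]) ^ j) • (Yᵀ * B * Y)) = 0 := by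
    have h2 : (1 + ((ℓ : ℤ_[ℓ]) ^ j) • Y)ᵀ * B * (1 + ((ℓ : ℤ_[ℓ]) ^ j) • Y) =
        B + ((ℓ : ℤ_[ℓ]) ^ j) • (Yᵀ * B + B * Y + ((ℓ : ℤ_[ℓ]) ^ j) • (Yᵀ * B * Y)) := by
      rw [transpose_add, transpose_one, transpose_smul]
      simp only [add_mul, mul_add, one_mul, mul_one, smul_mul_assoc, mul_smul_comm, smul_add]
      abel
    rw [h2] at h
    exact left_eq_add.1 h.symm
  have h2 : Yᵀ * B + B * Y + ((ℓ : ℤ_[ℓ]) ^ j) • (Yᵀ * B * Y) = 0 := by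
    rcases smul_eq_zero.1 h1 with h3 | h3
    · exact absurd h3 hz
    · exact h3
  have h3 := congrArg (red ℓ) h2
  obtain ⟨i, rfl⟩ : ∃ i, j = i + 1 := ⟨j - 1, by omega⟩
  rw [pow_succ', ← smul_smul, red_add, red_ell, add_zero, red_add, red_mul, red_mul, red_transpose,
    red_zero] at h3
  exact h3

end Mat

section Grp

variable {ℓ n : ℕ} [hp : Fact ℓ.Prime] {G : Type} [Group G]
  (β : G →* Matrix (Fin n) (Fin n) ℤ_[ℓ])

theorem inv_mul_self' (g : G) : β g⁻¹ * β g = 1 := by rw [← map_mul, inv_mul_cancel, map_one]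

theorem mul_inv_self' (g : G) : β g * β g⁻¹ = 1 := by rw [← map_mul, mul_inv_cancel, map_one]

theorem step_span (h2 : 2 < ℓ) (h2n : 2 * n < ℓ) (j : ℕ) {X : Matrix (Fin n) (Fin n) (ZMod ℓ)}
    (hX : X ∈ Submodule.span (ZMod ℓ) {N | N ^ n = 0 ∧ ∃ g, red ℓ (β g) = tex N}) :
    ∃ g Z, β g = 1 + ((ℓ : ℤ_[ℓ]) ^ (j + 1)) • Z ∧ red ℓ Z = X := by
  have hadd : ∀ X Y : Matrix (Fin n) (Fin n) (ZMod ℓ),
      (∃ g Z, β g = 1 + ((ℓ : ℤ_[ℓ]) ^ (j + 1)) • Z ∧ red ℓ Z = X) →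
      (∃ g Z, β g = 1 + ((ℓ : ℤ_[ℓ]) ^ (j + 1)) • Z ∧ red ℓ Z = Y) →
      ∃ g Z, β g = 1 + ((ℓ : ℤ_[ℓ]) ^ (j + 1)) • Z ∧ red ℓ Z = X + Y := by
    rintro X Y ⟨g, Z, h1, rfl⟩ ⟨g', Z', h3, rfl⟩
    refine ⟨g * g', Z + Z' + (ℓ : ℤ_[ℓ]) • (((ℓ : ℤ_[ℓ]) ^ j) • (Z * Z')), ?_, ?_⟩
    · rw [map_mul, h1, h3]
      simp only [add_mul, mul_add, one_mul, mul_one, smul_mul_assoc, mul_smul_comm, smul_add,
        smul_smul]
      rw [show (ℓ : ℤ_[ℓ]) ^ (j + 1) * (ℓ : ℤ_[ℓ]) ^ (j + 1) =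
        (ℓ : ℤ_[ℓ]) ^ (j + 1) * ((ℓ : ℤ_[ℓ]) * (ℓ : ℤ_[ℓ]) ^ j) by rw [← pow_succ']]
      abel
    · rw [red_add, red_ell, add_zero, red_add]
  have hzero : ∃ g Z, β g = 1 + ((ℓ : ℤ_[ℓ]) ^ (j + 1)) • Z ∧ red ℓ Z = 0 :=
    ⟨1, 0, by rw [map_one, smul_zero, add_zero], red_zero⟩
  induction hX using Submodule.span_induction with
  | mem X hX =>
    obtain ⟨hN, g, hg⟩ := hX
    obtain ⟨M, h1, h3⟩ := step_iter h2 h2n hN hg j
    exact ⟨g ^ (ℓ ^ (j + 1)), M, by rw [map_pow, h1], h3⟩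
  | zero => exact hzero
  | add X Y _ _ hX hY => exact hadd X Y hX hY
  | smul a X _ hX =>
    have h1 : ∀ m : ℕ, ∃ g Z, β g = 1 + ((ℓ : ℤ_[ℓ]) ^ (j + 1)) • Z ∧ red ℓ Z = m • X := by
      intro m
      induction m with
      | zero => rw [zero_smul]; exact hzero
      | succ m ih => rw [succ_nsmul]; exact hadd _ _ ih hX
    have h3 : a • X = a.val • X := by
      rw [← Nat.cast_smul_eq_nsmul (ZMod ℓ), ZMod.natCast_zmod_val]
    rw [h3]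
    exact h1 _

theorem step_approx (h2 : 2 < ℓ) (h2n : 2 * n < ℓ) {B : Matrix (Fin n) (Fin n) ℤ_[ℓ]}
    (hB : ∀ g, (β g)ᵀ * B * β g = B)
    (hspan : ∀ X : Matrix (Fin n) (Fin n) (ZMod ℓ), Xᵀ * red ℓ B + red ℓ B * X = 0 →
      X ∈ Submodule.span (ZMod ℓ) {N | N ^ n = 0 ∧ ∃ g, red ℓ (β g) = tex N})
    {h : Matrix (Fin n) (Fin n) ℤ_[ℓ]} (hh : hᵀ * B * h = B) (h1 : red ℓ h = 1) (j : ℕ) :
    ∃ g Y, h = β g * (1 + ((ℓ : ℤ_[ℓ]) ^ (j + 1)) • Y) := by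
  induction j with
  | zero =>
    obtain ⟨Y, hY⟩ : ∃ Y, h - 1 = (ℓ : ℤ_[ℓ]) • Y := exists_of_red (by
      rw [red_sub, h1, red_one, sub_self])
    refine ⟨1, Y, ?_⟩
    rw [map_one, one_mul, zero_add, pow_one, ← hY]
    abel
  | succ j ih =>
    obtain ⟨g, Y, hg⟩ := ih
    have e1 : 1 + ((ℓ : ℤ_[ℓ]) ^ (j + 1)) • Y = β g⁻¹ * h := by
      rw [hg, ← mul_assoc, inv_mul_self', one_mul]
    have e2 : (1 + ((ℓ : ℤ_[ℓ]) ^ (j + 1)) • Y)ᵀ * B * (1 + ((ℓ : ℤ_[ℓ]) ^ (j + 1)) • Y) = B := by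
      rw [e1, transpose_mul]
      calc hᵀ * (β g⁻¹)ᵀ * B * (β g⁻¹ * h) = hᵀ * ((β g⁻¹)ᵀ * B * β g⁻¹) * h := by noncomm_ring
        _ = B := by rw [hB, hh]
    obtain ⟨g', Z, h3, h4⟩ := step_span β h2 h2n j (hspan _ (step_lie (by omega) e2))
    obtain ⟨W, hW⟩ : ∃ W, Y - Z = (ℓ : ℤ_[ℓ]) • W := exists_of_red (by
      rw [red_sub, h4, sub_self])
    refine ⟨g * g', β g'⁻¹ * W, ?_⟩
    have e3 : Y = Z + (ℓ : ℤ_[ℓ]) • W := by rw [← hW]; abel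
    rw [hg, map_mul, mul_assoc]
    congr 1
    rw [mul_add, mul_one, mul_smul_comm, ← mul_assoc, mul_inv_self', one_mul, h3, e3, smul_add,
      smul_smul, ← pow_succ]
    abel

end Grp

end PK

open PK in
/-- **Package K.** -/
theorem k_stmt : KStmt := by
  intro ℓ n hp h2n h2 G _ _ _ _ β hβ B hB hspan h hh h1
  have hcl : IsClosed (Set.range β) := (isCompact_range hβ).isClosed
  have hmem : h ∈ closure (Set.range β) := by
    choose g Y hg using step_approx β h2 h2n hB hspan hh h1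
    refine mem_closure_of_tendsto (f := fun j => β (g j)) (b := atTop) ?_
      (Eventually.of_forall fun j => ⟨g j, rfl⟩)
    refine tendsto_pi_nhds.2 fun a => ?_
    refine tendsto_pi_nhds.2 fun b => ?_
    rw [tendsto_iff_norm_sub_tendsto_zero]
    have hb : ∀ j, ‖β (g j) a b - h a b‖ ≤ (ℓ : ℝ)⁻¹ ^ (j + 1) := by
      intro j
      have e1 : h = β (g j) + ((ℓ : ℤ_[ℓ]) ^ (j + 1)) • (β (g j) * Y j) := by
        rw [← mul_smul_comm]
        conv_lhs => rw [hg j, mul_add, mul_one]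
      have e2 : β (g j) a b - h a b = -((ℓ : ℤ_[ℓ]) ^ (j + 1) * (β (g j) * Y j) a b) := by
        have e3 := congrFun (congrFun e1 a) b
        rw [e3, Matrix.add_apply, Matrix.smul_apply, smul_eq_mul]
        ring
      rw [e2, norm_neg, norm_mul, norm_pow, PadicInt.norm_p]
      exact mul_le_of_le_one_right (by positivity) (PadicInt.norm_le_one _)
    have hlim : Tendsto (fun j : ℕ => (ℓ : ℝ)⁻¹ ^ (j + 1)) atTop (𝓝 0) := by
      have h3 : (ℓ : ℝ)⁻¹ < 1 := inv_lt_one_of_one_lt₀ (by exact_mod_cast hp.1.one_lt)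
      exact (tendsto_pow_atTop_nhds_zero_of_lt_one (by positivity) h3).comp (tendsto_add_atTop_nat 1)
    exact squeeze_zero (fun j => norm_nonneg _) hb hlim
  rw [hcl.closure_eq] at hmem
  exact hmem

end Pool.Agent.T2H36.IX
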