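import Mathlib
import Pool.Agent.T2H36.IX.F8

/-!
# The integral and adelic Mumford-Tate conjecture for `H^2` at 100 percent of the primes, from the
Mumford-Tate conjecture at one prime

Let `X` be a smooth projective variety over a field `k` which is finitely generated over `ℚ`, with
`H^2(X, ℤ(1)) / torsion` commensurable to `N ⊕ T`, where `N = ℤ^κ` are the algebraic classes and
`T = ℤ^n` is the transcendental part with its intersection form `Q` (a polarised Hodge structure of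
level two).  `Γ` is the Galois group of `k^conn` (or the fundamental group of a model over which all
the representations are defined), `K` is a number field and `s : G_K → Γ` is the homomorphism given
by a closed point of the generic fibre of a model (if `k` is a number field then `K = k^conn` and
`s` is the identity).

**Theorem.** Suppose that the Mumford-Tate group of `H^2(X)` is as large as possible, that is
`1 × SO(T)`, and that for ONE prime number `ℓ₀` the (rational) Mumford-Tate conjecture holds for `X` (at the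
chosen closed point), where the rank `n` of `T` is odd, `n ≥ 5` and `ℓ₀` does not divide `n - 1`, or
`n` is even, `n ≥ 8`, `ℓ₀` does not divide `(n - 2)(n - 4)` and the valuation of the discriminant of
`T` at `ℓ₀` is even.  Then for all prime numbers `ℓ` in a set `Λ` of natural density one the image of `Γ`
in `GL(H^2(X, ℤ_ℓ(1)))` is a subgroup of index at most two of `𝐆(ℤ_ℓ)`, `𝐆` the Zariski closure
of the Mumford-Tate group; and these images are as independent as possible: the image of `Γ` in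
`∏_{ℓ ∈ Λ} 𝐆(ℤ_ℓ)` contains a product `∏_{ℓ ∈ Λ} Ω_ℓ` of subgroups `Ω_ℓ` of index at most two.

Idea of the proof: (1) (starting files, with changes) from one prime with open image in `SO(T)` one
gets by Chebotarev and by the method of independent splitting fields: for every `d`, at 100 percent
of the `ℓ` no subgroup of index at most `d` of the image modulo `ℓ` stabilises a proper subspace of
`T/ℓ`.  (2) A Frobenius polynomial with multiplicatively independent roots exists, and its reduction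
modulo `ℓ` has the same multiplicative relations for large `ℓ`.  (3) If the order of a group `G` of
isometries modulo `ℓ` is prime to `ℓ` then `G` lifts to characteristic zero and has a normal abelian
subgroup of bounded index (Jordan), against (1). Hence closed normal subgroups which are not too small
contain elements of order `ℓ` modulo `ℓ`; their logarithms span a Lie subalgebra of `so(T/ℓ)` which
is stable under the Frobenius element in (2) and so is a sum of root spaces, and by irreducibility it is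
`so(T/ℓ)`.  (4) A group which contains the exponentials of a basis of `so(T/ℓ)` has at least
`c ℓ^{n(n-1)/2}` elements (a lower bound for the number of values of a polynomial map), so it has
bounded index in the orthogonal group and contains all elements of order `ℓ`. (5) Successive
approximation gives all of the congruence subgroup. (6) Goursat's lemma in the form of a noncommutative
`ℓ`-group in the `ℓ`-component for the independence.
-/

set_option autoImplicit false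

namespace Pool.Agent.Results.MP_2b5912_ag.AdelicFromOnePrime

open MvPolynomial Matrix Filter Topology NumberField IsDedekindDomain
open Pool.Agent.W544.PG (HS)

noncomputable section

section groups

variable {ι : Type} [Fintype ι] [DecidableEq ι]

/-- The value of a rational polynomial in the entries at a matrix. -/
def value {R : Type} [CommRing R] [Algebra ℚ R] (g : Matrix ι ι R)
    (f : MvPolynomial (ι × ι) ℚ) : R :=
  aeval (fun q : ι × ι => g q.1 q.2) f

/-- `G` is the set of complex points of an algebraic subgroup over `ℚ` of the general linear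
group. -/
def IsQGroup (G : Set (Matrix ι ι ℂ)) : Prop :=
  (∃ P : Set (MvPolynomial (ι × ι) ℚ), ∀ g, g ∈ G ↔ g.det ≠ 0 ∧ ∀ f ∈ P, value g f = 0) ∧
  1 ∈ G ∧ (∀ a ∈ G, ∀ b ∈ G, a * b ∈ G) ∧ ∀ a ∈ G, a⁻¹ ∈ G

/-- The complex points of the Mumford-Tate group: the smallest algebraic subgroup over `ℚ` which
contains `h z` for all `z`. -/
def mumfordTate (h : ℂ → Matrix ι ι ℂ) : Set (Matrix ι ι ℂ) :=
  {g | ∀ G, IsQGroup G → (∀ z, z ≠ 0 → h z ∈ G) → g ∈ G}

/-- The points of the Mumford-Tate group over a field `R`. -/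
def InMumfordTate {R : Type} [Field R] [Algebra ℚ R] (h : ℂ → Matrix ι ι ℂ)
    (g : Matrix ι ι R) : Prop :=
  ∀ f : MvPolynomial (ι × ι) ℚ, (∀ m ∈ mumfordTate h, value m f = 0) → value g f = 0

variable {ℓ : ℕ} [Fact ℓ.Prime] {Γ : Type} [Group Γ]

/-- The points of the identity component of the Zariski closure of `ρ(Γ)` over the algebraic
closure of `ℚ_ℓ`: a polynomial that vanishes on the image of a subgroup of finite index vanishes
at `g`. -/
def InMonodromy (ρ : Γ →* Matrix ι ι ℚ_[ℓ]) (g : Matrix ι ι (AlgebraicClosure ℚ_[ℓ])) : Prop :=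
  ∀ f : MvPolynomial (ι × ι) (AlgebraicClosure ℚ_[ℓ]),
    (∃ Δ : Subgroup Γ, Δ.FiniteIndex ∧ ∀ s ∈ Δ,
      aeval (fun q : ι × ι => algebraMap ℚ_[ℓ] (AlgebraicClosure ℚ_[ℓ]) (ρ s q.1 q.2)) f = 0) →
    aeval (fun q : ι × ι => g q.1 q.2) f = 0

/-- The Mumford-Tate conjecture: the two groups agree over `ℚ_ℓ`. -/
def MumfordTateConjecture (h : ℂ → Matrix ι ι ℂ) (ρ : Γ →* Matrix ι ι ℚ_[ℓ]) : Prop :=
  ∀ g : Matrix ι ι (AlgebraicClosure ℚ_[ℓ]), g.det ≠ 0 → (InMonodromy ρ g ↔ InMumfordTate h g)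

/-- an integral representation as a representation over `ℚ_ℓ` -/
def rational (ρ : Γ →* Matrix ι ι ℤ_[ℓ]) : Γ →* Matrix ι ι ℚ_[ℓ] :=
  ((algebraMap ℤ_[ℓ] ℚ_[ℓ]).mapMatrix : Matrix ι ι ℤ_[ℓ] →+* Matrix ι ι ℚ_[ℓ]).toMonoidHom.comp ρ

/-- the Zariski closure of the image of `ρ` over `ℚ_ℓ` is connected: a polynomial that vanishes on
the image of a subgroup of finite index vanishes on the image of `ρ` -/
def IsConnected (ρ : Γ →* Matrix ι ι ℤ_[ℓ]) : Prop :=
  ∀ f : MvPolynomial (ι × ι) ℚ_[ℓ], (∃ Δ : Subgroup Γ, Δ.FiniteIndex ∧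
    ∀ σ ∈ Δ, aeval (fun q : ι × ι => (ρ σ q.1 q.2 : ℚ_[ℓ])) f = 0) →
    ∀ σ, aeval (fun q : ι × ι => (ρ σ q.1 q.2 : ℚ_[ℓ])) f = 0

variable (ℓ) in
/-- `𝐆(ℤ_ℓ)`, `𝐆` the Zariski closure of the Mumford-Tate group in the general linear group over
`ℤ` -/
def integralPoints (h : ℂ → Matrix ι ι ℂ) : Set (Matrix ι ι ℤ_[ℓ]) :=
  {g | IsUnit g.det ∧ InMumfordTate h (g.map (algebraMap ℤ_[ℓ] ℚ_[ℓ]))}

/-- `Ω` is a subgroup of index at most two of `G` -/
def IsIndexTwo {R : Type} [CommRing R] (Ω G : Set (Matrix ι ι R)) : Prop :=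
  Ω ⊆ G ∧ 1 ∈ Ω ∧ (∀ a ∈ Ω, ∀ b ∈ Ω, a * b ∈ Ω) ∧ (∀ a ∈ Ω, a⁻¹ ∈ Ω) ∧
    ∃ c ∈ G, ∀ g ∈ G, g ∈ Ω ∨ ∃ ω ∈ Ω, g = c * ω

/-- **the integral and adelic Mumford-Tate conjecture for the prime numbers in `Λ`**: the image of
`ρ_ℓ` is contained in `𝐆(ℤ_ℓ)` for all `ℓ` in `Λ`, and the image of `(ρ_ℓ)_ℓ` in the product of the
groups `𝐆(ℤ_ℓ)` over the `ℓ` in `Λ` contains the product of subgroups `Ω_ℓ` of index at most two -/
def AdelicMumfordTate (h : ℂ → Matrix ι ι ℂ)
    (ρ : ∀ (ℓ : ℕ) [Fact ℓ.Prime], Γ →* Matrix ι ι ℤ_[ℓ]) (Λ : Set ℕ) : Prop :=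
  (∀ (ℓ : ℕ) [Fact ℓ.Prime], ℓ ∈ Λ → ∀ σ, ρ ℓ σ ∈ integralPoints ℓ h) ∧
  ∃ Ω : ∀ (ℓ : ℕ) [Fact ℓ.Prime], Set (Matrix ι ι ℤ_[ℓ]),
    (∀ (ℓ : ℕ) [Fact ℓ.Prime], ℓ ∈ Λ → IsIndexTwo (Ω ℓ) (integralPoints ℓ h)) ∧
    ∀ g : ∀ (ℓ : ℕ) [Fact ℓ.Prime], Matrix ι ι ℤ_[ℓ],
      (∀ (ℓ : ℕ) [Fact ℓ.Prime], ℓ ∈ Λ → g ℓ ∈ Ω ℓ) →
      ∃ σ : Γ, ∀ (ℓ : ℕ) [Fact ℓ.Prime], ℓ ∈ Λ → ρ ℓ σ = g ℓ

end groups

variable {n : ℕ}

/-- The action of `ℂ^×` on `N ⊕ T`: trivial on `N`, and on `T` it is multiplication by `conj z / z`,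
`1`, `z / conj z` on the parts where `T.x` is `1`, `0`, `-1`. -/
def hodge (κ : Type) [Fintype κ] [DecidableEq κ] (T : HS n) (z : ℂ) :
    Matrix (κ ⊕ Fin n) (κ ⊕ Fin n) ℂ :=
  fromBlocks 1 0 0 (1 + ((starRingEnd ℂ z / z - 1) / 2) • (T.x * T.x + T.x) +
    ((z / starRingEnd ℂ z - 1) / 2) • (T.x * T.x - T.x))

/-- The representation `α ⊕ β` of the Galois group on `N ⊕ T`. -/
def galois {κ : Type} [Fintype κ] [DecidableEq κ] {ℓ : ℕ} [Fact ℓ.Prime] {Γ : Type} [Group Γ]
    (α : Γ →* Matrix κ κ ℤ_[ℓ]) (β : Γ →* Matrix (Fin n) (Fin n) ℤ_[ℓ]) :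
    Γ →* Matrix (κ ⊕ Fin n) (κ ⊕ Fin n) ℤ_[ℓ] where
  toFun σ := fromBlocks (α σ) 0 0 (β σ)
  map_one' := (Pool.Agent.T2H36.IX.totZ α β).map_one
  map_mul' := (Pool.Agent.T2H36.IX.totZ α β).map_mul

/-- the absolute Galois group of `K`, with its profinite (Krull) topology -/
abbrev AbsoluteGaloisGroup (K : Type) [Field K] : Type := Gal(AlgebraicClosure K/K)

/-- `σ` is an (arithmetic) Frobenius element at the prime `v` of the number field `K`: for some prime
`Q` of the algebraic closure above `v` it acts on the residue field as `x ↦ x ^ N(v)` -/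
def IsFrobenius {K : Type} [Field K] [NumberField K] (v : HeightOneSpectrum (𝓞 K))
    (σ : AbsoluteGaloisGroup K) : Prop :=
  ∃ Q : Ideal (𝓞 (AlgebraicClosure K)), Q.IsMaximal ∧
    Q.comap (algebraMap (𝓞 K) (𝓞 (AlgebraicClosure K))) = v.asIdeal ∧
    ∀ x : 𝓞 (AlgebraicClosure K), σ • x - x ^ Ideal.absNorm v.asIdeal ∈ Q

/-- `α` and `β` are the representations on the algebraic classes and on `T`: `α` has finite image, `β`
is continuous and preserves the form of `T`, and for all `v ∉ S` which are prime to `ℓ` the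
characteristic polynomial of (the image under `s` of) the geometric Frobenius elements `σ⁻¹` (`σ`
arithmetic) at `v` on `T` is `P v` -/
def IsSystem {K : Type} [Field K] [NumberField K] {Γ : Type} [Group Γ] [TopologicalSpace Γ]
    (s : AbsoluteGaloisGroup K →* Γ) {κ : Type} [Fintype κ] [DecidableEq κ] (T : HS n)
    (S : Set (HeightOneSpectrum (𝓞 K))) (P : HeightOneSpectrum (𝓞 K) → Polynomial ℚ) (ℓ : ℕ)
    [Fact ℓ.Prime] (α : Γ →* Matrix κ κ ℤ_[ℓ]) (β : Γ →* Matrix (Fin n) (Fin n) ℤ_[ℓ]) : Prop :=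
  (Set.range α).Finite ∧ Continuous β ∧
    (∀ σ, (rational β σ)ᵀ * T.Q.map (algebraMap ℚ ℚ_[ℓ]) * rational β σ =
      T.Q.map (algebraMap ℚ ℚ_[ℓ])) ∧
    ∀ v ∉ S, (ℓ : 𝓞 K) ∉ v.asIdeal → ∀ σ : AbsoluteGaloisGroup K, IsFrobenius v σ →
      (rational β (s σ⁻¹)).charpoly = (P v).map (algebraMap ℚ ℚ_[ℓ])

/-- the conditions on the rank `n` of `T` and the prime number `ℓ₀` -/
def IsGoodPrime (T : HS n) (ℓ₀ : ℕ) : Prop :=
  (Odd n ∧ 5 ≤ n ∧ ¬ ℓ₀ ∣ n - 1) ∨
    (Even n ∧ 8 ≤ n ∧ ¬ ℓ₀ ∣ (n - 2) * (n - 4) ∧ Even (padicValRat ℓ₀ T.Q.det))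

/-- the set `A` of prime numbers has natural density zero -/
def HasDensityZero (A : Set ℕ) : Prop :=
  Tendsto (fun n : ℕ => (Nat.card {ℓ : ℕ // ℓ ≤ n ∧ ℓ ∈ A} : ℝ) / (Nat.primeCounting n : ℝ))
    atTop (𝓝 0)

/-- **The integral and adelic Mumford-Tate conjecture for `H^2` at 100 percent of the primes, from
the Mumford-Tate conjecture at one prime.** -/
theorem result (T : HS n) (κ : Type) [Fintype κ] [DecidableEq κ]
    -- the Mumford-Tate group is `1 × SO(T)`
    (hT : ∀ t : Matrix (Fin n) (Fin n) ℂ,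
      tᵀ * T.Q.map (algebraMap ℚ ℂ) * t = T.Q.map (algebraMap ℚ ℂ) → t.det = 1 →
      fromBlocks 1 0 0 t ∈ mumfordTate (hodge κ T))
    -- the Galois group
    (K : Type) [Field K] [NumberField K] (Γ : Type) [Group Γ] [TopologicalSpace Γ]
    [IsTopologicalGroup Γ] [CompactSpace Γ] (s : AbsoluteGaloisGroup K →* Γ) (hs : Continuous s)
    (S : Set (HeightOneSpectrum (𝓞 K))) (hS : S.Finite)
    (P : HeightOneSpectrum (𝓞 K) → Polynomial ℚ)
    (α : ∀ (ℓ : ℕ) [Fact ℓ.Prime], Γ →* Matrix κ κ ℤ_[ℓ])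
    (β : ∀ (ℓ : ℕ) [Fact ℓ.Prime], Γ →* Matrix (Fin n) (Fin n) ℤ_[ℓ])
    (hsys : ∀ (ℓ : ℕ) [Fact ℓ.Prime], IsSystem s T S P ℓ (α ℓ) (β ℓ))
    (hconn : ∀ (ℓ : ℕ) [Fact ℓ.Prime], IsConnected (galois (α ℓ) (β ℓ)))
    -- one prime number
    (ℓ₀ : ℕ) [Fact ℓ₀.Prime] (hℓ₀ : IsGoodPrime T ℓ₀)
    (hMT : MumfordTateConjecture (hodge κ T) ((rational (galois (α ℓ₀) (β ℓ₀))).comp s)) :
    ∃ Λ : Set ℕ, HasDensityZero {ℓ | ℓ.Prime ∧ ℓ ∉ Λ} ∧
      AdelicMumfordTate (hodge κ T) (fun ℓ _ => galois (α ℓ) (β ℓ)) Λ :=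
  Pool.Agent.T2H36.IX.main_one hT hS hs α (fun ℓ _ => (hsys ℓ).1) β
    (fun ℓ _ => ⟨(hsys ℓ).2.1, (hsys ℓ).2.2.1, (hsys ℓ).2.2.2⟩) hconn ℓ₀ hℓ₀ hMT

end

end Pool.Agent.Results.MP_2b5912_ag.AdelicFromOnePrime
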