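import Pool.Agent.T2H36.IX.Defs4
import Pool.Agent.T2H36.IX.B4

set_option autoImplicit false

/-!
Package PAIR, part 1: block diagonal matrices, the eigenvalue argument.
-/

open Matrix Polynomial

namespace Pool.Agent.T2H36.IX

namespace PR

section bd

variable {F : Type} [Field F] {n₁ n₂ : ℕ}

/-- block diagonal matrices, as a linear map -/
def bd : (Matrix (Fin n₁) (Fin n₁) F × Matrix (Fin n₂) (Fin n₂) F) →ₗ[F]
    Matrix (Fin (n₁ + n₂)) (Fin (n₁ + n₂)) F where
  toFun X := (fromBlocks X.1 0 0 X.2).submatrix finSumFinEquiv.symm finSumFinEquiv.symm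
  map_add' X Y := by
    have h1 : fromBlocks (X + Y).1 0 0 (X + Y).2 = fromBlocks X.1 0 0 X.2 +
        fromBlocks Y.1 0 0 Y.2 := by
      rw [Matrix.fromBlocks_add, add_zero, add_zero, Prod.fst_add, Prod.snd_add]
    rw [h1]
    rfl
  map_smul' c X := by
    have h1 : fromBlocks (c • X).1 0 0 (c • X).2 = c • fromBlocks X.1 0 0 X.2 := by
      rw [Matrix.fromBlocks_smul, smul_zero, smul_zero, Prod.smul_fst, Prod.smul_snd]
    rw [h1]
    rfl

theorem bd_apply (X : Matrix (Fin n₁) (Fin n₁) F × Matrix (Fin n₂) (Fin n₂) F) :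
    bd X = (fromBlocks X.1 0 0 X.2).submatrix finSumFinEquiv.symm finSumFinEquiv.symm := rfl

theorem bd_mul (X Y : Matrix (Fin n₁) (Fin n₁) F × Matrix (Fin n₂) (Fin n₂) F) :
    bd (X * Y) = bd X * bd Y := by
  rw [bd_apply, bd_apply, bd_apply, Matrix.submatrix_mul_equiv, fromBlocks_multiply]
  simp

theorem bd_one : bd (1 : Matrix (Fin n₁) (Fin n₁) F × Matrix (Fin n₂) (Fin n₂) F) = 1 := by
  rw [bd_apply, Prod.fst_one, Prod.snd_one, fromBlocks_one, Matrix.submatrix_one_equiv]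

theorem bd_pow (X : Matrix (Fin n₁) (Fin n₁) F × Matrix (Fin n₂) (Fin n₂) F) (k : ℕ) :
    bd (X ^ k) = bd X ^ k := by
  induction k with
  | zero => rw [pow_zero, pow_zero, bd_one]
  | succ k ih => rw [pow_succ, bd_mul, ih, pow_succ]

theorem bd_inj : Function.Injective
    (bd : (Matrix (Fin n₁) (Fin n₁) F × Matrix (Fin n₂) (Fin n₂) F) →ₗ[F] _) := by
  intro X Y h
  rw [bd_apply, bd_apply] at h
  have h1 : fromBlocks X.1 0 0 X.2 = fromBlocks Y.1 0 0 Y.2 := by
    ext i j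
    have h2 := congrFun (congrFun h (finSumFinEquiv i)) (finSumFinEquiv j)
    simpa using h2
  rw [fromBlocks_inj] at h1
  exact Prod.ext h1.1 h1.2.2.2

theorem tex_range {n m : ℕ} (hnm : n ≤ m) {N : Matrix (Fin n) (Fin n) F} (hN : N ^ n = 0) :
    ∑ k ∈ Finset.range m, ((k.factorial : F)⁻¹) • N ^ k = tex N := by
  unfold tex
  symm
  apply Finset.sum_subset (Finset.range_mono hnm)
  intro k _ hk
  rw [Finset.mem_range, not_lt] at hk
  obtain ⟨j, rfl⟩ := Nat.exists_eq_add_of_le hk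
  rw [pow_add, hN, zero_mul, smul_zero]

theorem tex_bd {X : Matrix (Fin n₁) (Fin n₁) F × Matrix (Fin n₂) (Fin n₂) F}
    (h1 : X.1 ^ n₁ = 0) (h2 : X.2 ^ n₂ = 0) : tex (bd X) = bd (tex X.1, tex X.2) := by
  have h3 : tex (bd X) = bd (∑ k ∈ Finset.range (n₁ + n₂), ((k.factorial : F)⁻¹) • X ^ k) := by
    rw [map_sum]
    unfold tex
    refine Finset.sum_congr rfl fun k _ => ?_
    rw [map_smul, bd_pow]
  rw [h3]
  congr 1
  apply Prod.ext
  · rw [Prod.fst_sum]
    simp only [Prod.smul_fst, Prod.pow_fst]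
    exact tex_range (by omega) h1
  · rw [Prod.snd_sum]
    simp only [Prod.smul_snd, Prod.pow_snd]
    exact tex_range (by omega) h2

theorem bd_nilp {X : Matrix (Fin n₁) (Fin n₁) F × Matrix (Fin n₂) (Fin n₂) F}
    (h1 : X.1 ^ n₁ = 0) (h2 : X.2 ^ n₂ = 0) : bd X ^ (n₁ + n₂) = 0 := by
  rw [← bd_pow]
  have h3 : X ^ (n₁ + n₂) = 0 := by
    apply Prod.ext
    · rw [Prod.pow_fst, pow_add, h1, zero_mul]; rfl
    · rw [Prod.pow_snd, pow_add, h2, mul_zero]; rfl
  rw [h3, map_zero]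

end bd

section eig

variable {k : Type} [Field k] {n : ℕ}

theorem eval_char {ι : Type} [Fintype ι] [DecidableEq ι] (A : Matrix ι ι k) {z : k} {w : ι → k}
    (hw : w ≠ 0)
    (h : A *ᵥ w = z • w) : A.charpoly.eval z = 0 := by
  rw [Matrix.eval_charpoly]
  apply Matrix.exists_mulVec_eq_zero_iff.1
  refine ⟨w, hw, ?_⟩
  rw [Matrix.sub_mulVec, h]
  ext i
  simp [Matrix.scalar_apply, Matrix.mulVec_diagonal]

theorem exists_eig {ι : Type} [Fintype ι] [DecidableEq ι] (A : Matrix ι ι k) {z : k}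
    (h : A.charpoly.eval z = 0) : ∃ w : ι → k, w ≠ 0 ∧ A *ᵥ w = z • w := by
  rw [Matrix.eval_charpoly] at h
  obtain ⟨w, hw, h1⟩ := Matrix.exists_mulVec_eq_zero_iff.2 h
  refine ⟨w, hw, ?_⟩
  rw [Matrix.sub_mulVec, sub_eq_zero] at h1
  rw [← h1]
  ext i
  simp [Matrix.scalar_apply, Matrix.mulVec_diagonal]

/-- eigenvalues of a conjugation -/
theorem key_eig {A Ai : Matrix (Fin n) (Fin n) k} (hAi : Ai * A = 1)
    {ν : Fin n → k} (hch : A.charpoly = ∏ i, (X - C (ν i))) {z : k}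
    {Y : Matrix (Fin n) (Fin n) k} (hY : Y ≠ 0) (hYz : A * Y * Ai = z • Y) :
    ∃ c d, z * ν d = ν c := by
  classical
  have hz : z ≠ 0 := by
    rintro rfl
    rw [zero_smul] at hYz
    apply hY
    calc Y = (Ai * A) * Y * (Ai * A) := by rw [hAi, one_mul, mul_one]
      _ = Ai * (A * Y * Ai) * A := by simp only [mul_assoc]
      _ = 0 := by rw [hYz, mul_zero, zero_mul]
  have hAY : A * Y = Y * (z • A) := by
    calc A * Y = A * Y * (Ai * A) := by rw [hAi, mul_one]
      _ = (A * Y * Ai) * A := by simp only [mul_assoc]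
      _ = Y * (z • A) := by rw [hYz, smul_mul_assoc, mul_smul_comm]
  have hpow : ∀ i : ℕ, A ^ i * Y = Y * (z • A) ^ i := by
    intro i
    induction i with
    | zero => simp
    | succ i ih => rw [pow_succ', mul_assoc, ih, ← mul_assoc, hAY, mul_assoc, ← pow_succ']
  have hq : ∀ q : k[X], aeval A q * Y = Y * aeval (z • A) q := by
    intro q
    rw [aeval_eq_sum_range, aeval_eq_sum_range, Finset.sum_mul, Finset.mul_sum]
    refine Finset.sum_congr rfl fun i _ => ?_
    rw [smul_mul_assoc, mul_smul_comm, hpow]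
  have h1 := hq A.charpoly
  rw [Matrix.aeval_self_charpoly, zero_mul] at h1
  have h2 : (aeval (z • A) A.charpoly).det = 0 := by
    by_contra hne
    apply hY
    have h3 : IsUnit (aeval (z • A) A.charpoly).det := isUnit_iff_ne_zero.2 hne
    have h4 := congrArg (fun M => M * (aeval (z • A) A.charpoly)⁻¹) h1
    beta_reduce at h4
    rw [zero_mul, mul_assoc, Matrix.mul_nonsing_inv _ h3, mul_one] at h4
    exact h4.symm
  let φ : k[X] →* k := (Matrix.detMonoidHom).comp
    ((aeval (z • A) : k[X] →ₐ[k] Matrix (Fin n) (Fin n) k) : k[X] →* Matrix (Fin n) (Fin n) k)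
  have h3 : φ A.charpoly = 0 := h2
  rw [hch, map_prod, Finset.prod_eq_zero_iff] at h3
  obtain ⟨c, -, hc⟩ := h3
  have h4 : (z • A - algebraMap k (Matrix (Fin n) (Fin n) k) (ν c)).det = 0 := by
    have h5 : φ (X - C (ν c)) = (aeval (z • A) (X - C (ν c))).det := rfl
    rw [h5, map_sub, aeval_X, aeval_C] at hc
    exact hc
  obtain ⟨w, hw, h5⟩ := Matrix.exists_mulVec_eq_zero_iff.2 h4
  have h6 : A *ᵥ w = (ν c / z) • w := by
    rw [Matrix.sub_mulVec, sub_eq_zero, Matrix.smul_mulVec, Algebra.algebraMap_eq_smul_one,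
      Matrix.smul_mulVec, Matrix.one_mulVec] at h5
    rw [div_eq_inv_mul, mul_smul, ← h5, smul_smul, inv_mul_cancel₀ hz, one_smul]
  have h7 := eval_char A hw h6
  rw [hch, eval_prod, Finset.prod_eq_zero_iff] at h7
  obtain ⟨d, -, hd⟩ := h7
  rw [eval_sub, eval_X, eval_C, sub_eq_zero] at hd
  exact ⟨c, d, by rw [← hd]; field_simp⟩

end eig

section descent

variable {F k : Type} [Field F] [Field k] [Algebra F k] {n : ℕ}

theorem map_dual (lam : k →ₗ[F] F) (A D : Matrix (Fin n) (Fin n) F)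
    (Z : Matrix (Fin n) (Fin n) k) :
    (bc k A * Z * bc k D).map lam = A * Z.map lam * D := by
  ext a b
  simp only [Matrix.map_apply, Matrix.mul_apply, Finset.sum_mul, map_sum]
  refine Finset.sum_congr rfl fun i _ => Finset.sum_congr rfl fun j _ => ?_
  have h1 : algebraMap F k (A a j) * Z j i * algebraMap F k (D i b) =
      (A a j * D i b) • Z j i := by
    rw [Algebra.smul_def, map_mul]
    ring
  rw [h1, map_smul, smul_eq_mul]
  ring

/-- a linear identity on the Lie algebra over `F` holds over `k` -/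
theorem id_descent {B A Ai : Matrix (Fin n) (Fin n) F} {m : ℕ} {p : ℕ → F}
    (h : ∀ Y : Matrix (Fin n) (Fin n) F, Yᵀ * B + B * Y = 0 →
      ∑ i ∈ Finset.range m, p i • (A ^ i * Y * Ai ^ i) = 0)
    {Z : Matrix (Fin n) (Fin n) k} (hZ : Zᵀ * bc k B + bc k B * Z = 0) :
    ∑ i ∈ Finset.range m, algebraMap F k (p i) • (bc k A ^ i * Z * bc k Ai ^ i) = 0 := by
  have hmap0 : ∀ lam : k →ₗ[F] F, (0 : Matrix (Fin n) (Fin n) k).map lam = 0 := by
    intro lam; ext a b; simp
  have hadd : ∀ (lam : k →ₗ[F] F) (U V : Matrix (Fin n) (Fin n) k),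
      (U + V).map lam = U.map lam + V.map lam := by
    intro lam U V; ext a b; simp
  have h1 : ∀ lam : k →ₗ[F] F, (Z.map lam)ᵀ * B + B * Z.map lam = 0 := by
    intro lam
    have h2 := congrArg (fun M => M.map lam) hZ
    beta_reduce at h2
    have e1 := map_dual lam (1 : Matrix (Fin n) (Fin n) F) B Zᵀ
    have e2 := map_dual lam B (1 : Matrix (Fin n) (Fin n) F) Z
    rw [bc_one, one_mul, one_mul] at e1
    rw [bc_one, mul_one, mul_one] at e2
    rw [hadd, e1, e2, hmap0] at h2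
    exact h2
  have h2 : ∀ lam : k →ₗ[F] F,
      (∑ i ∈ Finset.range m, algebraMap F k (p i) • (bc k A ^ i * Z * bc k Ai ^ i)).map lam = 0 := by
    intro lam
    rw [← h _ (h1 lam)]
    have h3 : ∀ (s : Finset ℕ) (G : ℕ → Matrix (Fin n) (Fin n) k),
        (∑ i ∈ s, G i).map lam = ∑ i ∈ s, (G i).map lam := by
      intro s G
      ext a b
      simp [Matrix.sum_apply]
    rw [h3]
    refine Finset.sum_congr rfl fun i _ => ?_
    rw [← bc_pow, ← bc_pow, ← map_dual lam]
    ext a b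
    simp only [Matrix.map_apply, Matrix.smul_apply, smul_eq_mul]
    rw [← Algebra.smul_def, map_smul, smul_eq_mul]
  ext a b
  rw [Matrix.zero_apply]
  apply (Module.forall_dual_apply_eq_zero_iff F _).1
  intro lam
  exact congrFun (congrFun (h2 lam) a) b

end descent

section core

variable {F : Type} [Field F] {n : ℕ}

/-- the matrix of the map `Y ↦ A Y Ai` -/
def kr (A Ai : Matrix (Fin n) (Fin n) F) : Matrix (Fin n × Fin n) (Fin n × Fin n) F :=
  Matrix.of fun p q => A p.1 q.1 * Ai q.2 p.2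

/-- a matrix as a vector -/
def ve (Y : Matrix (Fin n) (Fin n) F) : Fin n × Fin n → F := fun p => Y p.1 p.2

theorem kr_mulVec (A Ai Y : Matrix (Fin n) (Fin n) F) : kr A Ai *ᵥ ve Y = ve (A * Y * Ai) := by
  funext p
  simp only [kr, ve, Matrix.mulVec, dotProduct, Matrix.of_apply, Matrix.mul_apply,
    Fintype.sum_prod_type, Finset.sum_mul]
  rw [Finset.sum_comm]
  refine Finset.sum_congr rfl fun i _ => Finset.sum_congr rfl fun j _ => ?_
  ring

theorem kr_pow (A Ai Y : Matrix (Fin n) (Fin n) F) (m : ℕ) :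
    kr A Ai ^ m *ᵥ ve Y = ve (A ^ m * Y * Ai ^ m) := by
  induction m with
  | zero => simp
  | succ m ih =>
    rw [pow_succ', ← Matrix.mulVec_mulVec, ih, kr_mulVec, pow_succ', pow_succ]
    simp only [mul_assoc]

theorem ve_inj {Y Y' : Matrix (Fin n) (Fin n) F} (h : ve Y = ve Y') : Y = Y' := by
  ext i j
  exact congrFun h (i, j)

theorem kr_ch (A Ai Y : Matrix (Fin n) (Fin n) F) :
    ∑ i ∈ Finset.range ((kr A Ai).charpoly.natDegree + 1),
      (kr A Ai).charpoly.coeff i • (A ^ i * Y * Ai ^ i) = 0 := by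
  apply ve_inj
  have h1 := Matrix.aeval_self_charpoly (kr A Ai)
  rw [aeval_eq_sum_range] at h1
  have h2 := congrArg (fun M => M *ᵥ ve Y) h1
  beta_reduce at h2
  rw [Matrix.sum_mulVec, Matrix.zero_mulVec] at h2
  have h3 : ve (∑ i ∈ Finset.range ((kr A Ai).charpoly.natDegree + 1),
      (kr A Ai).charpoly.coeff i • (A ^ i * Y * Ai ^ i)) =
      ∑ i ∈ Finset.range ((kr A Ai).charpoly.natDegree + 1),
        ((kr A Ai).charpoly.coeff i • kr A Ai ^ i) *ᵥ ve Y := by
    have h4 : ∀ i, ((kr A Ai).charpoly.coeff i • kr A Ai ^ i) *ᵥ ve Y =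
        (kr A Ai).charpoly.coeff i • ve (A ^ i * Y * Ai ^ i) := by
      intro i
      rw [Matrix.smul_mulVec, kr_pow]
    simp only [h4]
    funext p
    simp [ve, Matrix.sum_apply]
  rw [h3, h2]
  rfl

variable {k : Type} [Field k] [Algebra F k]

theorem kr_root (A Ai : Matrix (Fin n) (Fin n) F) {z : k}
    (h : ((kr A Ai).charpoly.map (algebraMap F k)).eval z = 0) :
    ∃ Y : Matrix (Fin n) (Fin n) k, Y ≠ 0 ∧ bc k A * Y * bc k Ai = z • Y := by
  have h1 : (kr A Ai).map (algebraMap F k) = kr (bc k A) (bc k Ai) := by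
    ext p q
    simp [kr, Matrix.map_apply]
  rw [← Matrix.charpoly_map, h1] at h
  obtain ⟨w, hw, hw2⟩ := exists_eig _ h
  refine ⟨Matrix.of fun i j => w (i, j), ?_, ?_⟩
  · intro h2
    apply hw
    funext p
    exact congrFun (congrFun h2 p.1) p.2
  · apply ve_inj
    rw [← kr_mulVec]
    exact hw2

theorem core (hEV : EVStmt) [IsAlgClosed k] {n₁ n₂ : ℕ} {A Ai B : Matrix (Fin n₁) (Fin n₁) F}
    {A₂ A₂i : Matrix (Fin n₂) (Fin n₂) F} (hA : A * Ai = 1) (hA2 : A₂ * A₂i = 1) (hB : Bᵀ = B)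
    (hdet : B.det ≠ 0) (hiso : Aᵀ * B * A = B) {ν₁ : Fin n₁ → k} {ν₂ : Fin n₂ → k}
    (h1 : A.charpoly.map (algebraMap F k) = ∏ i, (X - C (ν₁ i)))
    (h2 : A₂.charpoly.map (algebraMap F k) = ∏ i, (X - C (ν₂ i))) {i₀ j₀ : Fin n₁} (hij : i₀ ≠ j₀)
    (hne : ∀ c d, ν₁ i₀ * ν₁ j₀ * ν₂ d ≠ ν₂ c) :
    ∃ X : Matrix (Fin n₁) (Fin n₁) F, Xᵀ * B + B * X = 0 ∧
      ∑ i ∈ Finset.range ((kr A₂ A₂i).charpoly.natDegree + 1),
        (kr A₂ A₂i).charpoly.coeff i • (A ^ i * X * Ai ^ i) ≠ 0 := by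
  by_contra hcon
  push Not at hcon
  have hAi : Ai * A = 1 := mul_eq_one_comm.1 hA
  have hA2i : A₂i * A₂ = 1 := mul_eq_one_comm.1 hA2
  obtain ⟨v, w, c, hv, hw, hAv, hAw⟩ := hEV k n₁ (bc k A) ν₁ (by
    rw [← h1]; exact Matrix.charpoly_map _ _) i₀ j₀ hij
  set W : Matrix (Fin n₁) (Fin n₁) k := vecMulVec v w - vecMulVec w v with hW
  have hWT : Wᵀ = -W := by
    rw [hW, transpose_sub, transpose_vecMulVec, transpose_vecMulVec, neg_sub]
  have hW0 : W ≠ 0 := by
    intro h0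
    obtain ⟨i, hi⟩ : ∃ i, v i ≠ 0 := by
      by_contra hc
      push Not at hc
      exact hv (funext hc)
    apply hw (w i / v i)
    funext j
    have h3 := congrFun (congrFun h0 i) j
    rw [hW, Matrix.sub_apply, vecMulVec_apply, vecMulVec_apply, Matrix.zero_apply,
      sub_eq_zero] at h3
    rw [Pi.smul_apply, smul_eq_mul]
    field_simp
    linear_combination h3
  have hAWA : bc k A * W * (bc k A)ᵀ = (ν₁ i₀ * ν₁ j₀) • W := by
    have h3 : ∀ a b : Fin n₁ → k, bc k A * vecMulVec a b * (bc k A)ᵀ =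
        vecMulVec (bc k A *ᵥ a) (bc k A *ᵥ b) := by
      intro a b
      rw [Matrix.mul_vecMulVec, Matrix.vecMulVec_mul, Matrix.vecMul_transpose]
    rw [hW, mul_sub, sub_mul, h3, h3, hAv, hAw]
    ext i j
    simp only [Matrix.sub_apply, vecMulVec_apply, Pi.smul_apply, Pi.add_apply, smul_eq_mul,
      Matrix.smul_apply]
    ring
  have hBk : (bc k B)ᵀ = bc k B := by rw [← bc_transpose, hB]
  have hBAi : bc k B * bc k Ai = (bc k A)ᵀ * bc k B := by
    rw [← bc_transpose, ← bc_mul, ← bc_mul]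
    congr 1
    calc B * Ai = (Aᵀ * B * A) * Ai := by rw [hiso]
      _ = Aᵀ * B * (A * Ai) := by simp only [mul_assoc]
      _ = Aᵀ * B := by rw [hA, mul_one]
  set Z : Matrix (Fin n₁) (Fin n₁) k := W * bc k B with hZdef
  have hZ : Zᵀ * bc k B + bc k B * Z = 0 := by
    rw [hZdef, transpose_mul, hBk, hWT]
    simp only [mul_assoc, neg_mul, mul_neg, neg_add_cancel]
  have hZ0 : Z ≠ 0 := by
    intro h0
    apply hW0
    have hu : IsUnit (bc k B).det := by
      rw [bc_det, isUnit_iff_ne_zero]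
      exact fun h => hdet ((map_eq_zero _).1 h)
    have h3 := congrArg (fun M => M * (bc k B)⁻¹) h0
    beta_reduce at h3
    rwa [hZdef, mul_assoc, Matrix.mul_nonsing_inv _ hu, mul_one, zero_mul] at h3
  set z := ν₁ i₀ * ν₁ j₀ with hz
  have hAZ : bc k A * Z * bc k Ai = z • Z := by
    calc bc k A * Z * bc k Ai = bc k A * W * (bc k B * bc k Ai) := by
          rw [hZdef]; simp only [mul_assoc]
      _ = (bc k A * W * (bc k A)ᵀ) * bc k B := by rw [hBAi]; simp only [mul_assoc]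
      _ = z • Z := by rw [hAWA, smul_mul_assoc]
  have hpow : ∀ i : ℕ, bc k A ^ i * Z * bc k Ai ^ i = z ^ i • Z := by
    intro i
    induction i with
    | zero => simp
    | succ i ih =>
      calc bc k A ^ (i + 1) * Z * bc k Ai ^ (i + 1) =
          bc k A * (bc k A ^ i * Z * bc k Ai ^ i) * bc k Ai := by
            rw [pow_succ', pow_succ]; simp only [mul_assoc]
        _ = z ^ (i + 1) • Z := by
            rw [ih, mul_smul_comm, smul_mul_assoc, hAZ, smul_smul, pow_succ]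
  have h3 := id_descent (k := k) hcon hZ
  have h4 : ((kr A₂ A₂i).charpoly.map (algebraMap F k)).eval z = 0 := by
    have h5 : ((kr A₂ A₂i).charpoly.map (algebraMap F k)).eval z • Z = 0 := by
      rw [← h3, eval_map, eval₂_eq_sum_range, Finset.sum_smul]
      refine Finset.sum_congr rfl fun i _ => ?_
      rw [hpow, smul_smul]
    rcases smul_eq_zero.1 h5 with h6 | h6
    · exact h6
    · exact absurd h6 hZ0
  obtain ⟨Y, hY, hYz⟩ := kr_root A₂ A₂i h4
  obtain ⟨c', d', hcd⟩ := key_eig (A := bc k A₂) (Ai := bc k A₂i) (by rw [← bc_mul, hA2i, bc_one])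
    (ν := ν₂) (by rw [← h2]; exact Matrix.charpoly_map _ _) hY hYz
  exact hne c' d' hcd

end core

end PR

end Pool.Agent.T2H36.IX
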